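import Pool.Agent.Lib.MP_0f5a55_nt.V.V05
import Pool.Agent.Lib.MP_0f5a55_nt.V.V94

open Complex MeasureTheory Set Filter Topology

namespace LS

open LZ (PP nS EE Ac)

/-- weight (1-x)_+^n -/
noncomputable def wn (n : ℕ) (x : ℝ) : ℝ := (max 0 (1 - x)) ^ n

/-- kernel of the weight wn n -/
noncomputable def kn (n : ℕ) (u : ℝ) : ℂ :=
  (n.factorial : ℂ) / (2 * Real.pi) * exp (1 + u * I) * ((1 + u * I) ^ (n + 1))⁻¹

/-- mollifier coefficient of the squarefree number nS S -/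
noncomputable def cf (l : ℝ) (S : Finset ℕ) : ℝ := (-1) ^ S.card * wn 2 (Real.log (nS S) / l)

/-- the mollifier of length exp l -/
noncomputable def Mo (l : ℝ) (s : ℂ) : ℂ :=
  ∑ S ∈ (PP ⌊Real.exp l⌋₊).powerset, (cf l S : ℂ) * (nS S : ℂ) ^ (-s)

/-- the mollified gcd sum -/
noncomputable def SS (z : ℕ) (l : ℝ) (a b : ℂ) : ℂ :=
  ∑ S ∈ (PP z).powerset ×ˢ (PP z).powerset, (cf l S.1 : ℂ) * (cf l S.2 : ℂ) *
    ((nS S.1 : ℂ) ^ (-1 - a) * (nS S.2 : ℂ) ^ (-1 - b) *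
      ((Nat.gcd (nS S.1) (nS S.2) : ℕ) : ℂ) ^ (1 + (a + b)))

/-- integrand of the mollified shifted second moment -/
noncomputable def XI (l : ℝ) (α β : ℂ) (t : ℝ) : ℂ :=
  riemannZeta (1/2 + α + t * I) * riemannZeta (1/2 + β - t * I) * (Mo l (1/2 + t * I) * Mo l (1/2 - t * I))

/-- zeta + (lam/log T) zeta' -/
noncomputable def VV (lam T : ℝ) (s : ℂ) : ℂ :=
  riemannZeta s + ((lam / Real.log T : ℝ) : ℂ) * deriv riemannZeta s

/-- limit of the normalised gcd sum -/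
noncomputable def JJ (x y : ℂ) : ℂ := x * y / 5 + (x + y) / 2 + 4 / 3

/-- limit of the mollified shifted moment, mollifier of length T^(6/25) -/
noncomputable def XL (a b : ℂ) : ℂ :=
  25 / 6 / (a + b) * (JJ (6/25 * a) (6/25 * b) - exp (-(a + b)) * JJ (-(6/25 * a)) (-(6/25 * b)))

/-- the constant 7.005..., limit of the mollified second moment of V on Re s = 1/2 - 2/log T, lam = 11/10 -/
noncomputable def D0 : ℝ :=
  1/2 + Real.exp 4 / 200 + 6466/1125 * ((85 * Real.exp 4 - 1361) / 3200) + (33 * Real.exp 4 + 330) / 6250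

end LS
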