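import Pool.Agent.Lib.MP_0f5a55_nt.S.T01

section F_S_T02

open Complex MeasureTheory Set Filter Topology
open scoped ComplexConjugate

namespace LT2

open LP
open LZ (kk nS cf EE ER PP wt Sep)

variable {N : ℕ} [NeZero N]

/-- bound of the integrand on the compact part -/
theorem A09_hb (f g : ZMod N → ℂ) {C0a C0b U ε t : ℝ} {α β : ℂ} (hU : 0 ≤ U) (hC0a : 0 < C0a) (hC0b : 0 < C0b)
    (hza : ∀ s : ℂ, 5/16 ≤ s.re → 1/4 ≤ ‖s - 1‖ → ‖ZMod.LFunction f s‖ ≤ C0a * (1 + |s.im|))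
    (hzb : ∀ s : ℂ, 5/16 ≤ s.re → 1/4 ≤ ‖s - 1‖ → ‖ZMod.LFunction g s‖ ≤ C0b * (1 + |s.im|))
    (hε : 0 < ε) (hε1 : ε ≤ 1/2) {h k : ℕ} (hh : 1 ≤ h) (hk : 1 ≤ k) (hkh : k ≤ h)
    (hα : |α.re| ≤ 1/16) (hβ : |β.re| ≤ 1/16) (hαi : |α.im| ≤ U) (hβi : |β.im| ≤ U)
    (ht1 : 0 < t) (ht2 : t ≤ 3 * U + 2) :
    ‖A09_F f g ε h k α β t * A09_K ε h k β‖ ≤
        C0a * C0b * (4 * U + 3) ^ 2 * Real.exp U := by
  have hα' := abs_le.mp hα
  have hβ' := abs_le.mp hβ
  have hαi' := abs_le.mp hαi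
  have hβi' := abs_le.mp hβi
  have hh1 : (1 : ℝ) ≤ h := by exact_mod_cast hh
  have hk1 : (1 : ℝ) ≤ k := by exact_mod_cast hk
  rw [A09_form f g ε hh hk, norm_mul, norm_mul, norm_mul, norm_mul]
  have a1 : ‖ZMod.LFunction f ((1/2 - β + t * I) + (α + β))‖ ≤ C0a * (4 * U + 3) := by
    have e1 : ((1/2 - β + t * I) + (α + β)) = (1/2 + α + t * I : ℂ) := by ring
    rw [e1]
    have hre1 : (1/2 + α + t * I : ℂ).re = 1/2 + α.re := by simp
    have him1 : (1/2 + α + t * I : ℂ).im = α.im + t := by simp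
    refine (hza _ (by rw [hre1]; linarith only [hα'.1]) ?_).trans ?_
    · have h1 := Complex.abs_re_le_norm ((1/2 + α + t * I : ℂ) - 1)
      rw [sub_re, hre1, one_re, abs_of_neg (by linarith only [hα'.2])] at h1
      linarith only [h1, hα'.2]
    · rw [him1]
      have h2 : |α.im + t| ≤ 4 * U + 2 := by
        rw [abs_le]
        exact ⟨by linarith only [hαi'.1, ht1, hU], by linarith only [hαi'.2, ht2]⟩
      exact mul_le_mul_of_nonneg_left (by linarith only [h2]) hC0a.le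
  have a2 : ‖ZMod.LFunction g (1 - (1/2 - β + t * I))‖ ≤ C0b * (4 * U + 3) := by
    have e1 : (1 - (1/2 - β + t * I)) = (1/2 + β - t * I : ℂ) := by ring
    rw [e1]
    have hre1 : (1/2 + β - t * I : ℂ).re = 1/2 + β.re := by simp
    have him1 : (1/2 + β - t * I : ℂ).im = β.im - t := by simp
    refine (hzb _ (by rw [hre1]; linarith only [hβ'.1]) ?_).trans ?_
    · have h1 := Complex.abs_re_le_norm ((1/2 + β - t * I : ℂ) - 1)
      rw [sub_re, hre1, one_re, abs_of_neg (by linarith only [hβ'.2])] at h1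
      linarith only [h1, hβ'.2]
    · rw [him1]
      have h2 : |β.im - t| ≤ 4 * U + 2 := by
        rw [abs_le]
        exact ⟨by linarith only [hβi'.1, ht2, hU], by linarith only [hβi'.2, ht1, hU]⟩
      exact mul_le_mul_of_nonneg_left (by linarith only [h2]) hC0b.le
  have hre2 : (1/2 - β + t * I : ℂ).re = 1/2 - β.re := by simp
  have a34 : ‖(h : ℂ) ^ (-(1/2 - β + t * I))‖ * ‖(k : ℂ) ^ (1/2 - β + t * I)‖ ≤ 1 := by
    rw [Complex.norm_natCast_cpow_of_pos hh, Complex.norm_natCast_cpow_of_pos hk, neg_re, hre2]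
    have hσ : 0 ≤ 1/2 - β.re := by linarith only [hβ'.2]
    have hkh' : (k : ℝ) ≤ h := by exact_mod_cast hkh
    have h1 : (k : ℝ) ^ (1/2 - β.re) ≤ (h : ℝ) ^ (1/2 - β.re) :=
      Real.rpow_le_rpow (by linarith only [hk1]) hkh' hσ
    calc (h : ℝ) ^ (-(1/2 - β.re)) * (k : ℝ) ^ (1/2 - β.re)
        ≤ (h : ℝ) ^ (-(1/2 - β.re)) * (h : ℝ) ^ (1/2 - β.re) :=
          mul_le_mul_of_nonneg_left h1 (Real.rpow_nonneg (by linarith only [hh1]) _)
      _ = 1 := by
          rw [← Real.rpow_add (by linarith only [hh1]), neg_add_cancel, Real.rpow_zero]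
  have a5 : ‖exp (ε * (1/2 - β + t * I) * I)‖ ≤ Real.exp U := by
    rw [Complex.norm_exp, Real.exp_le_exp]
    have e1 : ((ε : ℂ) * (1/2 - β + t * I) * I).re = ε * (β.im - t) := by
      simp only [mul_re, ofReal_re, add_re, sub_re, I_re, mul_zero, ofReal_im, I_im, mul_one,
        sub_self, mul_im, add_im, sub_im, zero_mul, zero_sub, add_zero]
      simp only [one_div, inv_im, im_ofNat]
      ring
    rw [e1]
    have h8 : ε * (β.im - t) ≤ ε * U := mul_le_mul_of_nonneg_left (by linarith only [hβi'.2, ht1]) hε.le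
    have h9 : ε * U ≤ 1 * U := mul_le_mul_of_nonneg_right (by linarith only [hε1]) hU
    linarith only [h8, h9]
  have h4U : 0 ≤ 4 * U + 3 := by linarith only [hU]
  have n1 := norm_nonneg (ZMod.LFunction f ((1/2 - β + t * I) + (α + β)))
  have n2 := norm_nonneg (ZMod.LFunction g (1 - (1/2 - β + t * I)))
  have n3 := norm_nonneg ((h : ℂ) ^ (-(1/2 - β + t * I)))
  have n4 := norm_nonneg ((k : ℂ) ^ (1/2 - β + t * I))
  have n5 := norm_nonneg (exp (ε * (1/2 - β + t * I) * I))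
  have h5 : 0 ≤ C0a * C0b * (4 * U + 3) ^ 2 * Real.exp U :=
    mul_nonneg (mul_nonneg (mul_nonneg hC0a.le hC0b.le) (sq_nonneg _)) (Real.exp_pos U).le
  refine (mul_le_mul (mul_le_mul (mul_le_mul a1 a2 n2 (n1.trans a1)) a34
    (mul_nonneg n3 n4) (mul_nonneg (n1.trans a1) (n2.trans a2))) a5 n5
    (mul_nonneg (mul_nonneg (n1.trans a1) (n2.trans a2)) zero_le_one)).trans ?_
  exact le_of_eq (by ring)

/-- Adapt LZ.A09 (tsm_exact), s = 1/2 - beta + i t. On t >= 2U+3 use kernel_id: first kernel = G (A05, A07, A08, mellin_DD with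
FT g), second kernel is O((hk)^2 e^(-t)) by G_bound (second part, with FT' g). -/
theorem tsm_exact (f g : ZMod N → ℂ) (U : ℝ) (hU : 0 ≤ U) : ∃ C : ℝ, 0 < C ∧ ∀ ε : ℝ, 0 < ε → ε ≤ 1/2 → ∀ h k : ℕ,
    1 ≤ h → 1 ≤ k → k ≤ h → ∀ α β : ℂ, |α.re| ≤ 1/16 → |β.re| ≤ 1/16 → |α.im| ≤ U → |β.im| ≤ U →
    ‖(∫ t in Ioi (0:ℝ), ZMod.LFunction f (1/2 + α + t * I) * ZMod.LFunction g (1/2 + β - t * I) *
          ((h : ℂ) ^ (-(t * I)) * (k : ℂ) ^ (t * I)) * (Real.exp (-(ε * t)) : ℂ)) *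
        ((h : ℂ) ^ (-(1/2 - β)) * (k : ℂ) ^ (1/2 - β) * exp (ε * (1/2 - β) * I)) -
      2 * Real.pi / N * DD f g (α + β) (WW N ε h k)‖ ≤ C * (1:ℝ) := by
  obtain ⟨C0a, hC0a, hza⟩ := per_pol f
  obtain ⟨C0b, hC0b, hzb⟩ := per_pol g
  obtain ⟨C1, hC1, hG⟩ := G_bound f (FT g) U hU
  obtain ⟨C1', hC1', hG'⟩ := G_bound f (FT' g) U hU
  obtain ⟨C2, hC2, hS⟩ := G_shift f (FT g) U hU
  obtain ⟨C3, hC3, hL⟩ := G_low f (FT g) U hU
  have hN0 : (0 : ℝ) < N := by exact_mod_cast Nat.pos_of_ne_zero (NeZero.ne N)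
  have hN1 : (1 : ℝ) ≤ N := by exact_mod_cast Nat.one_le_iff_ne_zero.mpr (NeZero.ne N)
  refine ⟨C0a * C0b * (4 * U + 3) ^ 2 * Real.exp U * (3 * U + 2) + C1' + C2 + C3,
    by positivity, ?_⟩
  intro ε hε hε1 h k hh hk hkh α β hα hβ hαi hβi
  obtain ⟨hηre, hηim, hσ1, hσ2, hY0, ht00, ht01, hη2⟩ := A09_par hU hα hβ hαi hβi
  set W := WW N ε h k with hWdef
  set η := α + β with hη
  have hWre : 0 < W.re := A09_WW_re hε hε1 hh hk
  have hW0 : W ≠ 0 := by
    intro h0; rw [h0] at hWre; simp at hWre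
  have hh1 : (1 : ℝ) ≤ h := by exact_mod_cast hh
  have hk1 : (1 : ℝ) ≤ k := by exact_mod_cast hk
  set σ : ℝ := 1/2 - β.re with hσ
  set Y : ℝ := 2 * U + 2 with hY
  set t0 : ℝ := Y + β.im with ht0
  have hH0 : 0 ≤ (1:ℝ) := zero_le_one
  -- s
  have hs_eq : ∀ y : ℝ, (1/2 - β + ((y + β.im : ℝ) : ℂ) * I : ℂ) = (σ : ℂ) + y * I := by
    intro y
    apply Complex.ext
    · simp [hσ]
    · simp
  have hFc := A09_F_cont f g ε hh hk hα hβ
  have hFKc : Continuous (fun t => A09_F f g ε h k α β t * A09_K ε h k β) := hFc.mul continuous_const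
  -- bound of G
  have hGb : ∀ y : ℝ, Y < y → ‖A09_G f (FT g) η W (σ + y * I)‖ ≤
      C1 * (1:ℝ) * ((1 + y) ^ 5 * Real.exp (-(ε * y))) := by
    intro y hy
    have := (hG ε hε hε1 h k hh hk hkh η hηre hηim (σ + y * I) (by simpa using hσ1) (by simpa using hσ2)
      (by simpa using le_of_lt hy)).1
    simp only [add_im, ofReal_im, mul_im, ofReal_re, I_im, mul_one, I_re, mul_zero, add_zero,
      zero_add] at this
    unfold A09_G
    refine this.trans (le_of_eq (by ring))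
  have hGint : IntegrableOn (fun y : ℝ => A09_G f (FT g) η W (σ + y * I)) (Ioi Y) := by
    refine Integrable.mono' ((A09_int hε hY0).const_mul (C1 * (1:ℝ)))
      ((A09_G_cont f (FT g) hU hηim hW0).aestronglyMeasurable measurableSet_Ioi) ?_
    rw [ae_restrict_iff' measurableSet_Ioi]
    exact Filter.Eventually.of_forall (fun y hy => hGb y hy)
  -- second error term
  have hEb : ∀ y : ℝ, Y < y → ‖A09_G f (FT' g) η (-W) (σ + y * I)‖ ≤
      C1' * (1:ℝ) * Real.exp (-y) := by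
    intro y hy
    have := (hG' ε hε hε1 h k hh hk hkh η hηre hηim (σ + y * I) (by simpa using hσ1) (by simpa using hσ2)
      (by simpa using le_of_lt hy)).2
    simp only [add_im, ofReal_im, mul_im, ofReal_re, I_im, mul_one, I_re, mul_zero, add_zero,
      zero_add] at this
    unfold A09_G
    rw [mul_one]
    exact this
  have hexpint : IntegrableOn (fun y : ℝ => C1' * (1:ℝ) *
      Real.exp (-y)) (Ioi Y) := by
    have := (exp_neg_integrableOn_Ioi Y one_pos).const_mul (C1' * (1:ℝ))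
    refine this.congr (Filter.Eventually.of_forall (fun y => ?_))
    simp
  have hEint : IntegrableOn (fun y : ℝ => A09_G f (FT' g) η (-W) (σ + y * I)) (Ioi Y) := by
    refine Integrable.mono' hexpint ((A09_G_cont f (FT' g) hU hηim
      (neg_ne_zero.mpr hW0)).aestronglyMeasurable measurableSet_Ioi) ?_
    rw [ae_restrict_iff' measurableSet_Ioi]
    exact Filter.Eventually.of_forall (fun y hy => hEb y hy)
  -- the shifted integral
  have hpt : ∀ y : ℝ, Y < y → A09_F f g ε h k α β (y + β.im) * A09_K ε h k β =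
      (N : ℂ)⁻¹ * (A09_G f (FT g) η W (σ + y * I) + A09_G f (FT' g) η (-W) (σ + y * I)) := by
    intro y hy
    have h1 := A09_point f g hε hε1 hh hk α β (y + β.im) (by
      rw [hs_eq]
      simp
      rw [hY] at hy
      linarith only [hy, hU])
    rw [hs_eq] at h1
    exact h1
  have hpre : (fun y : ℝ => y + β.im) ⁻¹' (Ioi t0) = Ioi Y := by
    ext y; simp [ht0]
  have hmp : MeasurePreserving (fun y : ℝ => y + β.im) volume volume :=
    measurePreserving_add_right volume β.im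
  have hemb : MeasurableEmbedding (fun y : ℝ => y + β.im) := measurableEmbedding_addRight β.im
  have hintY : IntegrableOn (fun y : ℝ => A09_F f g ε h k α β (y + β.im) * A09_K ε h k β) (Ioi Y) := by
    refine ((hGint.add hEint).const_mul ((N : ℂ)⁻¹)).congr ?_
    rw [Filter.EventuallyEq, ae_restrict_iff' measurableSet_Ioi]
    exact Filter.Eventually.of_forall (fun y hy => (hpt y hy).symm)
  have hint_t0 : IntegrableOn (fun t => A09_F f g ε h k α β t * A09_K ε h k β) (Ioi t0) := by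
    rw [← hmp.integrableOn_comp_preimage hemb, hpre]
    exact hintY
  have hchange : ∫ t in Ioi t0, A09_F f g ε h k α β t * A09_K ε h k β =
      ∫ y in Ioi Y, A09_F f g ε h k α β (y + β.im) * A09_K ε h k β := by
    rw [← hmp.setIntegral_preimage_emb hemb, hpre]
  have hsplit2 : ∫ y in Ioi Y, A09_F f g ε h k α β (y + β.im) * A09_K ε h k β =
      (N : ℂ)⁻¹ * ((∫ y in Ioi Y, A09_G f (FT g) η W (σ + y * I)) +
      ∫ y in Ioi Y, A09_G f (FT' g) η (-W) (σ + y * I)) := by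
    rw [← integral_add hGint hEint, ← integral_const_mul]
    exact setIntegral_congr_fun measurableSet_Ioi (fun y hy => hpt y hy)
  have hcompact : IntegrableOn (fun t => A09_F f g ε h k α β t * A09_K ε h k β) (Ioc 0 t0) :=
    (hFKc.integrableOn_Icc).mono_set Ioc_subset_Icc_self
  have hsplit1 : ∫ t in Ioi (0:ℝ), A09_F f g ε h k α β t * A09_K ε h k β =
      (∫ t in Ioc 0 t0, A09_F f g ε h k α β t * A09_K ε h k β) +
      ∫ t in Ioi t0, A09_F f g ε h k α β t * A09_K ε h k β := by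
    rw [← setIntegral_union (Ioc_disjoint_Ioi le_rfl) measurableSet_Ioi hcompact hint_t0,
      Ioc_union_Ioi_eq_Ioi ht00]
  -- the full line
  obtain ⟨hmint, hmel⟩ := mellin_DD f g η W hη2 hWre
  have hline : (∫ y in Iic Y, A09_G f (FT g) η W (2 + y * I)) +
      ∫ y in Ioi Y, A09_G f (FT g) η W (2 + y * I) = 2 * Real.pi * DD f g η W := by
    rw [← hmel]
    have h1 : Integrable (fun y : ℝ => A09_G f (FT g) η W (2 + y * I)) := hmint
    exact intervalIntegral.integral_Iic_add_Ioi h1.integrableOn h1.integrableOn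
  -- first error
  have herr1 : ‖∫ t in Ioc 0 t0, A09_F f g ε h k α β t * A09_K ε h k β‖ ≤
      C0a * C0b * (4 * U + 3) ^ 2 * Real.exp U * (3 * U + 2) * (1:ℝ) := by
    have hb : ∀ t ∈ Ioc 0 t0, ‖A09_F f g ε h k α β t * A09_K ε h k β‖ ≤
        C0a * C0b * (4 * U + 3) ^ 2 * Real.exp U * (1:ℝ) := fun t ht => by
      rw [mul_one]
      exact A09_hb f g hU hC0a hC0b hza hzb hε hε1 hh hk hkh hα hβ hαi hβi ht.1 (ht.2.trans ht01)
    have h6 := norm_setIntegral_le_of_norm_le_const (μ := volume) (s := Ioc 0 t0)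
      (by rw [Real.volume_Ioc]; exact ENNReal.ofReal_lt_top) hb
    refine h6.trans ?_
    rw [Real.volume_real_Ioc_of_le ht00, sub_zero]
    refine (mul_le_mul_of_nonneg_left ht01 (mul_nonneg (mul_nonneg (mul_nonneg (mul_nonneg hC0a.le hC0b.le)
      (sq_nonneg _)) (Real.exp_pos U).le) hH0)).trans (le_of_eq ?_)
    ring
  have herr2 : ‖∫ y in Ioi Y, A09_G f (FT' g) η (-W) (σ + y * I)‖ ≤
      C1' * (1:ℝ) := by
    refine (norm_integral_le_of_norm_le hexpint ?_).trans ?_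
    · rw [ae_restrict_iff' measurableSet_Ioi]
      exact Filter.Eventually.of_forall (fun y hy => hEb y hy)
    · rw [integral_const_mul, integral_exp_neg_Ioi]
      have h7 : Real.exp (-Y) ≤ 1 := by rw [Real.exp_le_one_iff]; exact neg_nonpos.2 hY0
      exact mul_le_of_le_one_right (mul_nonneg hC1'.le hH0) h7
  have herr3 : ‖(∫ y in Ioi Y, A09_G f (FT g) η W (σ + y * I)) -
      ∫ y in Ioi Y, A09_G f (FT g) η W (2 + y * I)‖ ≤
      C2 * (1:ℝ) := hS ε hε hε1 h k hh hk hkh η hηre hηim σ hσ1 hσ2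
  have herr4 : ‖∫ y in Iic Y, A09_G f (FT g) η W (2 + y * I)‖ ≤ C3 * (1:ℝ) :=
    hL ε hε hε1 h k hh hk hkh η hηre
  have hmain : (∫ t in Ioi (0:ℝ), A09_F f g ε h k α β t) * A09_K ε h k β -
      2 * Real.pi / N * DD f g η W =
      (∫ t in Ioc 0 t0, A09_F f g ε h k α β t * A09_K ε h k β) +
      (N : ℂ)⁻¹ * (((∫ y in Ioi Y, A09_G f (FT' g) η (-W) (σ + y * I)) +
      ((∫ y in Ioi Y, A09_G f (FT g) η W (σ + y * I)) -
        ∫ y in Ioi Y, A09_G f (FT g) η W (2 + y * I))) -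
      ∫ y in Iic Y, A09_G f (FT g) η W (2 + y * I)) := by
    rw [← integral_mul_const, hsplit1, hchange, hsplit2, div_mul_eq_mul_div, ← hline]
    ring
  change ‖(∫ t in Ioi (0:ℝ), A09_F f g ε h k α β t) * A09_K ε h k β -
    2 * Real.pi / N * DD f g η W‖ ≤ _
  rw [hmain]
  refine (norm_add_le _ _).trans ?_
  rw [norm_mul, norm_inv, Complex.norm_natCast]
  have hNi : ((N : ℝ))⁻¹ ≤ 1 := inv_le_one_of_one_le₀ hN1
  have h9 : ‖((∫ y in Ioi Y, A09_G f (FT' g) η (-W) (σ + y * I)) +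
      ((∫ y in Ioi Y, A09_G f (FT g) η W (σ + y * I)) -
        ∫ y in Ioi Y, A09_G f (FT g) η W (2 + y * I))) -
      ∫ y in Iic Y, A09_G f (FT g) η W (2 + y * I)‖ ≤
      C1' * (1:ℝ) + C2 * (1:ℝ) + C3 * (1:ℝ) := by
    refine (norm_sub_le _ _).trans ?_
    refine (add_le_add (norm_add_le _ _) le_rfl).trans ?_
    exact add_le_add (add_le_add herr2 herr3) herr4
  exact A09_last hNi herr1 (norm_nonneg _) h9 rfl rfl


end LT2

end F_S_T02
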