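import Pool.Agent.Lib.MP_0f5a55_nt.V.V05
import Pool.Agent.Lib.MP_0f5a55_nt.V.V11

section F_S_T03

open Complex MeasureTheory Set Filter Topology
open scoped ComplexConjugate

namespace LT2

open LP
open LZ (kk nS cf EE ER PP wt Sep)

variable {N : ℕ} [NeZero N]

private lemma A10_e1 {t : ℝ} (ht : 0 < t) : Real.exp (-t) * (1 + t) ^ 3 ≤ 27 := by
  have h1 : (1 + t) ^ 3 ≤ 27 * (1 + t / 3) ^ 3 := by nlinarith [pow_pos ht 2, pow_pos ht 3]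
  have h2 : (1 + t / 3) ^ 3 ≤ Real.exp t := by
    have h3 : 1 + t / 3 ≤ Real.exp (t / 3) := by linarith [Real.add_one_le_exp (t / 3)]
    calc (1 + t / 3) ^ 3 ≤ (Real.exp (t / 3)) ^ 3 := pow_le_pow_left₀ (by positivity) h3 3
      _ = Real.exp t := by rw [← Real.exp_nat_mul]; congr 1; push_cast; ring
  have h4 : Real.exp (-t) * Real.exp t = 1 := by rw [← Real.exp_add]; simp
  calc Real.exp (-t) * (1 + t) ^ 3 ≤ Real.exp (-t) * (27 * Real.exp t) := by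
        apply mul_le_mul_of_nonneg_left _ (Real.exp_pos _).le
        linarith
    _ = 27 * (Real.exp (-t) * Real.exp t) := by ring
    _ = 27 := by rw [h4]; ring

private lemma A10_e2 {t : ℝ} (ht : 0 < t) : t / (1 + t) ≤ 1 - Real.exp (-t) := by
  have h1 : 1 + t ≤ Real.exp t := by linarith [Real.add_one_le_exp t]
  have h2 : Real.exp (-t) ≤ 1 / (1 + t) := by
    rw [Real.exp_neg, ← one_div]
    exact one_div_le_one_div_of_le (by positivity) h1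
  have h3 : t / (1 + t) = 1 - 1 / (1 + t) := by field_simp; ring
  rw [h3]; linarith

private lemma A10_p {a : ℂ} {t : ℝ} (ht : 0 < t) (ha : t ≤ a.re) :
    (exp a - 1)⁻¹ = exp (-a) * (1 - exp (-a))⁻¹ ∧ t / (1 + t) ≤ ‖1 - exp (-a)‖ ∧ ‖exp (-a)‖ ≤ Real.exp (-t) := by
  have h1 : ‖exp (-a)‖ ≤ Real.exp (-t) := by
    rw [norm_exp]; apply Real.exp_le_exp.mpr; simp; exact ha
  have h2 : t / (1 + t) ≤ ‖1 - exp (-a)‖ := by
    have h3 := norm_sub_norm_le (1 : ℂ) (exp (-a))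
    rw [norm_one] at h3
    linarith [A10_e2 ht]
  refine ⟨?_, h2, h1⟩
  have h4 : (1 - exp (-a)) ≠ 0 := by
    rw [← norm_pos_iff]
    exact lt_of_lt_of_le (by positivity) h2
  have h5 : exp a - 1 = exp a * (1 - exp (-a)) := by
    rw [mul_sub, ← exp_add]; simp
  rw [h5, mul_inv, ← exp_neg]

private lemma A10_f1 {a : ℂ} {t : ℝ} (ht : 0 < t) (ha : t ≤ a.re) : ‖(exp a - 1)⁻¹‖ ≤ 27 / t ^ 2 := by
  obtain ⟨h1, h2, h3⟩ := A10_p ht ha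
  rw [h1, norm_mul, norm_inv]
  have h4 : ‖1 - exp (-a)‖⁻¹ ≤ (1 + t) / t := by
    rw [← inv_div]
    exact inv_anti₀ (by positivity) h2
  calc ‖exp (-a)‖ * ‖1 - exp (-a)‖⁻¹ ≤ Real.exp (-t) * ((1 + t) / t) :=
        mul_le_mul h3 h4 (by positivity) (Real.exp_pos _).le
    _ = (Real.exp (-t) * ((1 + t) * t)) / t ^ 2 := by field_simp
    _ ≤ 27 / t ^ 2 := by
        apply div_le_div_of_nonneg_right _ (by positivity)
        refine le_trans ?_ (A10_e1 ht)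
        apply mul_le_mul_of_nonneg_left _ (Real.exp_pos _).le
        nlinarith [pow_pos ht 2, pow_pos ht 3]

private lemma A10_exp {a b : ℂ} {t : ℝ} (ha : t ≤ a.re) (hb : t ≤ b.re) :
    ‖exp (-a) - exp (-b)‖ ≤ Real.exp (-t) * ‖a - b‖ := by
  have h1 : Convex ℝ {z : ℂ | z.re ≤ -t} := convex_halfSpace_re_le _
  have h2 := h1.norm_image_sub_le_of_norm_hasDerivWithin_le (f := exp) (f' := exp) (C := Real.exp (-t))
    (x := -b) (y := -a) (fun x _ => (hasDerivAt_exp x).hasDerivWithinAt)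
    (fun x hx => by
      rw [norm_exp]
      exact Real.exp_le_exp.mpr hx)
    (by show (-b).re ≤ -t; simp; exact hb) (by show (-a).re ≤ -t; simp; exact ha)
  refine h2.trans (le_of_eq ?_)
  congr 1
  rw [show -a - -b = -(a - b) by ring, norm_neg]

private lemma A10_f2 {δ : ℝ} (hδ : 0 ≤ δ) (hδ1 : δ ≤ 1/2) {a b : ℂ} {t : ℝ} (ht : 0 < t) (ha : t ≤ a.re) (hb : t ≤ b.re) :
    ‖(exp a - 1)⁻¹ - (exp b - 1)⁻¹‖ ≤ ‖a - b‖ * (27 * t ^ (-(2 + 2 * δ) : ℝ)) := by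
  obtain ⟨h1, h2, h3⟩ := A10_p ht ha
  obtain ⟨k1, k2, k3⟩ := A10_p ht hb
  have h4 : (1 - exp (-a)) ≠ 0 := by
    rw [← norm_pos_iff]
    exact lt_of_lt_of_le (by positivity) h2
  have k4 : (1 - exp (-b)) ≠ 0 := by
    rw [← norm_pos_iff]
    exact lt_of_lt_of_le (by positivity) k2
  have h5 : (exp a - 1)⁻¹ - (exp b - 1)⁻¹ =
      (exp (-a) - exp (-b)) * ((1 - exp (-a))⁻¹ * (1 - exp (-b))⁻¹) := by
    rw [h1, k1]; field_simp; ring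
  rw [h5, norm_mul, norm_mul, norm_inv, norm_inv]
  have h6 : ‖1 - exp (-a)‖⁻¹ ≤ (1 + t) / t := by
    rw [← inv_div]
    exact inv_anti₀ (by positivity) h2
  have k6 : ‖1 - exp (-b)‖⁻¹ ≤ (1 + t) / t := by
    rw [← inv_div]
    exact inv_anti₀ (by positivity) k2
  have h7 : t ^ (-(2 + 2 * δ) : ℝ) = (t ^ 2)⁻¹ * t ^ (-(2 * δ) : ℝ) := by
    rw [show (-(2 + 2 * δ) : ℝ) = -((2 : ℕ) : ℝ) + (-(2 * δ)) by push_cast; ring, Real.rpow_add ht,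
      Real.rpow_neg ht.le, Real.rpow_natCast]
  have h8 : (1 : ℝ) ≤ (1 + t) * t ^ (-(2 * δ) : ℝ) := by
    rw [Real.rpow_neg ht.le, ← div_eq_mul_inv, le_div_iff₀ (by positivity), one_mul]
    calc t ^ (2 * δ : ℝ) ≤ (1 + t) ^ (2 * δ : ℝ) := Real.rpow_le_rpow ht.le (by linarith) (by linarith)
      _ ≤ (1 + t) ^ (1 : ℝ) := Real.rpow_le_rpow_of_exponent_le (by linarith) (by linarith)
      _ = 1 + t := Real.rpow_one _
  calc ‖exp (-a) - exp (-b)‖ * (‖1 - exp (-a)‖⁻¹ * ‖1 - exp (-b)‖⁻¹)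
      ≤ (Real.exp (-t) * ‖a - b‖) * (((1 + t) / t) * ((1 + t) / t)) := by
        apply mul_le_mul (A10_exp ha hb) _ (by positivity) (by positivity)
        exact mul_le_mul h6 k6 (by positivity) (by positivity)
    _ = ‖a - b‖ * ((Real.exp (-t) * (1 + t) ^ 2 * 1) * (t ^ 2)⁻¹) := by field_simp
    _ ≤ ‖a - b‖ * ((Real.exp (-t) * (1 + t) ^ 2 * ((1 + t) * t ^ (-(2 * δ) : ℝ))) * (t ^ 2)⁻¹) := by
        gcongr
    _ = ‖a - b‖ * ((Real.exp (-t) * (1 + t) ^ 3) * ((t ^ 2)⁻¹ * t ^ (-(2 * δ) : ℝ))) := by ring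
    _ ≤ ‖a - b‖ * (27 * t ^ (-(2 + 2 * δ) : ℝ)) := by
        rw [h7]
        have := A10_e1 ht
        gcongr

private lemma A10_cp {δ : ℝ} {η : ℂ} (hη : |η.re| ≤ δ) (m : ℕ) :
    ‖((m : ℂ) + 1) ^ (-η)‖ ≤ ((m : ℝ) + 1) ^ (δ : ℝ) := by
  have h1 : ((m : ℂ) + 1) = (((m : ℝ) + 1 : ℝ) : ℂ) := by push_cast; rfl
  rw [h1, norm_cpow_eq_rpow_re_of_pos (by positivity)]
  apply Real.rpow_le_rpow_of_exponent_le
  · have : (0 : ℝ) ≤ m := Nat.cast_nonneg m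
    linarith
  · have := (abs_le.mp hη).1
    simp; linarith

private lemma A10_sm (s : ℝ) (hs : 1 < s) : Summable (fun m : ℕ => ((m : ℝ) + 1) ^ (-s)) := by
  have h1 : Summable (fun m : ℕ => (m : ℝ) ^ (-s)) := Real.summable_nat_rpow.mpr (by linarith)
  have h2 := (summable_nat_add_iff 1).mpr h1
  simpa using h2

omit [NeZero N] in
private lemma A10_re (m b : ℕ) (Z : ℂ) :
    (((m : ℂ) + 1) * Z - 2 * Real.pi * I * b / N).re = ((m : ℝ) + 1) * Z.re := by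
  have h1 : ((m : ℂ) + 1) = (((m : ℝ) + 1 : ℝ) : ℂ) := by push_cast; rfl
  have h2 : (2 * Real.pi * I * b / N : ℂ) = ((2 * Real.pi * b / N : ℝ) : ℂ) * I := by push_cast; ring
  rw [sub_re, h1, re_ofReal_mul, h2, re_ofReal_mul, I_re, mul_zero, sub_zero]

private lemma A10_single (f : ZMod N → ℂ) (x : ZMod N) : ‖f x‖ ≤ ∑ a : ZMod N, ‖f a‖ :=
  Finset.single_le_sum (f := fun a => ‖f a‖) (fun _ _ => norm_nonneg _) (Finset.mem_univ x)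

private lemma A10_summable (f g : ZMod N → ℂ) {δ : ℝ} (hδ : 0 ≤ δ) (hδ1 : δ ≤ 1/2) {η W : ℂ} (hη : |η.re| ≤ δ) {x : ℝ} (hx : 0 < x) (hW : x ≤ W.re) :
    Summable (fun m : ℕ => f ((m + 1 : ℕ) : ZMod N) * ((m : ℂ) + 1) ^ (-η) *
      ∑ b : ZMod N, g b * (exp (((m : ℂ) + 1) * W - 2 * Real.pi * I * b.val / N) - 1)⁻¹) := by
  set F : ℝ := ∑ a : ZMod N, ‖f a‖ with hF
  set G : ℝ := ∑ b : ZMod N, ‖g b‖ with hG
  have hF0 : 0 ≤ F := Finset.sum_nonneg (fun _ _ => norm_nonneg _)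
  have hG0 : 0 ≤ G := Finset.sum_nonneg (fun _ _ => norm_nonneg _)
  apply Summable.of_norm_bounded (g := fun m : ℕ => (F * G * (27 / x ^ 2)) * ((m : ℝ) + 1) ^ (-(2 - δ) : ℝ))
    ((A10_sm (2 - δ) (by linarith)).mul_left _)
  intro m
  have hm : (0 : ℝ) < (m : ℝ) + 1 := by positivity
  rw [norm_mul, norm_mul]
  have h1 := A10_cp hη m
  have h2 : ‖∑ b : ZMod N, g b * (exp (((m : ℂ) + 1) * W - 2 * Real.pi * I * b.val / N) - 1)⁻¹‖ ≤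
      G * (27 / (((m : ℝ) + 1) * x) ^ 2) := by
    rw [hG, Finset.sum_mul]
    refine (norm_sum_le _ _).trans (Finset.sum_le_sum fun b _ => ?_)
    rw [norm_mul]
    apply mul_le_mul_of_nonneg_left _ (norm_nonneg _)
    apply A10_f1 (by positivity)
    rw [A10_re]
    exact mul_le_mul_of_nonneg_left hW hm.le
  have h3 := A10_single f ((m + 1 : ℕ) : ZMod N)
  calc ‖f ((m + 1 : ℕ) : ZMod N)‖ * ‖((m : ℂ) + 1) ^ (-η)‖ *
        ‖∑ b : ZMod N, g b * (exp (((m : ℂ) + 1) * W - 2 * Real.pi * I * b.val / N) - 1)⁻¹‖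
      ≤ F * ((m : ℝ) + 1) ^ (δ : ℝ) * (G * (27 / (((m : ℝ) + 1) * x) ^ 2)) :=
        mul_le_mul (mul_le_mul h3 h1 (norm_nonneg _) hF0) h2 (norm_nonneg _) (by positivity)
    _ = F * G * (27 / x ^ 2) * (((m : ℝ) + 1) ^ (δ : ℝ) * (((m : ℝ) + 1) ^ 2)⁻¹) := by
        field_simp
    _ = F * G * (27 / x ^ 2) * ((m : ℝ) + 1) ^ (-(2 - δ) : ℝ) := by
        congr 1
        rw [show (-(2 - δ) : ℝ) = δ + (-((2 : ℕ) : ℝ)) by push_cast; ring, Real.rpow_add hm, Real.rpow_neg hm.le,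
          Real.rpow_natCast]

private lemma A10_diff (f g : ZMod N → ℂ) {δ : ℝ} (hδ : 0 < δ) (hδ1 : δ ≤ 1/2) {η W V : ℂ} (hη : |η.re| ≤ δ) {x : ℝ} (hx : 0 < x) (hW : x ≤ W.re)
    (hV : x ≤ V.re) :
    ‖DD f g η W - DD f g η V‖ ≤ (∑ a : ZMod N, ‖f a‖) * (∑ b : ZMod N, ‖g b‖) *
      (‖W - V‖ * (27 * x ^ (-(2 + 2 * δ) : ℝ))) * ∑' m : ℕ, ((m : ℝ) + 1) ^ (-(1 + δ) : ℝ) := by
  set F : ℝ := ∑ a : ZMod N, ‖f a‖ with hF
  set G : ℝ := ∑ b : ZMod N, ‖g b‖ with hG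
  have hF0 : 0 ≤ F := Finset.sum_nonneg (fun _ _ => norm_nonneg _)
  have hG0 : 0 ≤ G := Finset.sum_nonneg (fun _ _ => norm_nonneg _)
  unfold DD
  rw [← (A10_summable f g hδ.le hδ1 hη hx hW).tsum_sub (A10_summable f g hδ.le hδ1 hη hx hV), ← tsum_mul_left]
  apply tsum_of_norm_bounded ((A10_sm (1 + δ) (by linarith)).mul_left _).hasSum
  intro m
  have hm : (0 : ℝ) < (m : ℝ) + 1 := by positivity
  rw [← mul_sub, norm_mul, norm_mul]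
  have h1 := A10_cp hη m
  have h3 : ‖((m : ℂ) + 1) * W - ((m : ℂ) + 1) * V‖ = ((m : ℝ) + 1) * ‖W - V‖ := by
    have h1 : ((m : ℂ) + 1) = (((m : ℝ) + 1 : ℝ) : ℂ) := by push_cast; rfl
    rw [← mul_sub, norm_mul, h1, norm_real, Real.norm_of_nonneg hm.le]
  have h2 : ‖∑ b : ZMod N, g b * (exp (((m : ℂ) + 1) * W - 2 * Real.pi * I * b.val / N) - 1)⁻¹ -
      ∑ b : ZMod N, g b * (exp (((m : ℂ) + 1) * V - 2 * Real.pi * I * b.val / N) - 1)⁻¹‖ ≤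
      G * ((((m : ℝ) + 1) * ‖W - V‖) * (27 * (((m : ℝ) + 1) * x) ^ (-(2 + 2 * δ) : ℝ))) := by
    rw [← Finset.sum_sub_distrib, hG, Finset.sum_mul]
    refine (norm_sum_le _ _).trans (Finset.sum_le_sum fun b _ => ?_)
    rw [← mul_sub, norm_mul]
    apply mul_le_mul_of_nonneg_left _ (norm_nonneg _)
    rw [← h3]
    have h4 : (((m : ℂ) + 1) * W - 2 * Real.pi * I * b.val / N) - (((m : ℂ) + 1) * V - 2 * Real.pi * I * b.val / N) =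
        ((m : ℂ) + 1) * W - ((m : ℂ) + 1) * V := by ring
    rw [← h4]
    apply A10_f2 hδ.le hδ1 (by positivity)
    · rw [A10_re]; exact mul_le_mul_of_nonneg_left hW hm.le
    · rw [A10_re]; exact mul_le_mul_of_nonneg_left hV hm.le
  have h5 := A10_single f ((m + 1 : ℕ) : ZMod N)
  calc ‖f ((m + 1 : ℕ) : ZMod N)‖ * ‖((m : ℂ) + 1) ^ (-η)‖ *
      ‖∑ b : ZMod N, g b * (exp (((m : ℂ) + 1) * W - 2 * Real.pi * I * b.val / N) - 1)⁻¹ -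
      ∑ b : ZMod N, g b * (exp (((m : ℂ) + 1) * V - 2 * Real.pi * I * b.val / N) - 1)⁻¹‖
      ≤ F * ((m : ℝ) + 1) ^ (δ : ℝ) *
        (G * ((((m : ℝ) + 1) * ‖W - V‖) * (27 * (((m : ℝ) + 1) * x) ^ (-(2 + 2 * δ) : ℝ)))) :=
        mul_le_mul (mul_le_mul h5 h1 (norm_nonneg _) hF0) h2 (norm_nonneg _) (by positivity)
    _ = F * G * (‖W - V‖ * (27 * x ^ (-(2 + 2 * δ) : ℝ))) * (((m : ℝ) + 1) ^ (δ : ℝ) * ((m : ℝ) + 1) *
          ((m : ℝ) + 1) ^ (-(2 + 2 * δ) : ℝ)) := by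
        rw [Real.mul_rpow hm.le hx.le]; ring
    _ = F * G * (‖W - V‖ * (27 * x ^ (-(2 + 2 * δ) : ℝ))) * ((m : ℝ) + 1) ^ (-(1 + δ) : ℝ) := by
        congr 1
        rw [show (-(1 + δ) : ℝ) = δ + 1 + (-(2 + 2 * δ)) by ring, Real.rpow_add hm, Real.rpow_add hm,
          Real.rpow_one]

private lemma A10_s1 {ε : ℝ} (hε : 0 < ε) (hε2 : ε ≤ 1/2) : ε / 2 ≤ Real.sin ε := by
  have h1 := Real.mul_le_sin hε.le (le_trans hε2 (by linarith [Real.pi_gt_three]))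
  refine le_trans ?_ h1
  rw [div_eq_inv_mul]
  apply mul_le_mul_of_nonneg_right _ hε.le
  rw [le_div_iff₀ Real.pi_pos]
  linarith [Real.pi_le_four]

private lemma A10_s2 {ε : ℝ} (hε : 0 < ε) (hε2 : ε ≤ 1/2) :
    ‖((Real.sin ε - ε : ℝ) : ℂ) + ((Real.cos ε - 1 : ℝ) : ℂ) * I‖ ≤ ε ^ 2 := by
  have h11 : 0 < ε ^ 2 := pow_pos hε 2
  have h4 : |Real.sin ε - ε| ≤ ε ^ 2 / 4 := by
    have h5 := Real.sin_gt_sub_cube hε
    have h6 := Real.sin_lt hε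
    have h10 : ε ^ 3 ≤ ε ^ 2 * (1 / 2) := by
      rw [pow_succ]
      exact mul_le_mul_of_nonneg_left hε2 h11.le
    have h12 : 0 < ε ^ 3 := pow_pos hε 3
    exact abs_le.mpr ⟨by linarith only [h5, h10, h11, h12], by linarith only [h6, h11]⟩
  have h7 : |Real.cos ε - 1| ≤ ε ^ 2 / 2 := by
    have h8 := Real.one_sub_sq_div_two_le_cos (x := ε)
    have h9 := Real.cos_le_one ε
    exact abs_le.mpr ⟨by linarith only [h8], by linarith only [h9, h11]⟩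
  refine (norm_add_le _ _).trans ?_
  rw [norm_mul, norm_I, mul_one, norm_real, norm_real, Real.norm_eq_abs, Real.norm_eq_abs]
  linarith only [h4, h7, h11]

omit [NeZero N] in
private lemma A10_W (ε : ℝ) (h k : ℕ) : WW N ε h k =
    (((2 * Real.pi * ((h : ℝ) / (k * N)) * Real.sin ε : ℝ)) : ℂ) + ((2 * Real.pi * ((h : ℝ) / (k * N)) * Real.cos ε : ℝ) : ℂ) * I := by
  unfold WW
  have h1 : exp (-((ε : ℂ) * I)) = Real.cos ε - Real.sin ε * I := by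
    rw [show -((ε : ℂ) * I) = ((-ε : ℝ) : ℂ) * I by push_cast; ring, exp_mul_I, ← ofReal_cos, ← ofReal_sin,
      Real.cos_neg, Real.sin_neg]
    push_cast; ring
  rw [h1]
  simp only [ofReal_mul, ofReal_div, ofReal_natCast, ofReal_ofNat]
  linear_combination (-(2 * (Real.pi : ℂ) * ((h : ℂ) / (k * N)) * (Real.sin ε : ℂ))) * I_sq

omit [NeZero N] in
private lemma A10_V (ε : ℝ) (h k : ℕ) : (((2 * Real.pi * ε * h / (k * N) : ℝ) : ℂ) + 2 * Real.pi * I * h / (k * N)) =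
    ((2 * Real.pi * ((h : ℝ) / (k * N)) * ε : ℝ) : ℂ) + ((2 * Real.pi * ((h : ℝ) / (k * N)) : ℝ) : ℂ) * I := by
  simp only [ofReal_mul, ofReal_div, ofReal_natCast, ofReal_ofNat]
  ring

private lemma A10_WV {ε q : ℝ} (hε : 0 < ε) (hε2 : ε ≤ 1/2) (hq0 : 0 < q) :
    ‖((((2 * Real.pi * q * Real.sin ε : ℝ)) : ℂ) + ((2 * Real.pi * q * Real.cos ε : ℝ) : ℂ) * I) -
      (((2 * Real.pi * q * ε : ℝ) : ℂ) + ((2 * Real.pi * q : ℝ) : ℂ) * I)‖ ≤ 2 * Real.pi * q * ε ^ 2 := by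
  have h3 : (((2 * Real.pi * q * Real.sin ε : ℝ)) : ℂ) + ((2 * Real.pi * q * Real.cos ε : ℝ) : ℂ) * I -
      (((2 * Real.pi * q * ε : ℝ) : ℂ) + ((2 * Real.pi * q : ℝ) : ℂ) * I) =
      ((2 * Real.pi * q : ℝ) : ℂ) * (((Real.sin ε - ε : ℝ) : ℂ) + ((Real.cos ε - 1 : ℝ) : ℂ) * I) := by
    simp only [ofReal_mul, ofReal_sub, ofReal_one]
    ring
  have h0 : (0 : ℝ) ≤ 2 * Real.pi * q := mul_nonneg (mul_nonneg zero_le_two Real.pi_pos.le) hq0.le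
  rw [h3, norm_mul, norm_real, Real.norm_of_nonneg h0]
  exact mul_le_mul_of_nonneg_left (A10_s2 hε hε2) h0


/-- `q >= 1/N`. -/
private lemma A10_q {δ ε q n : ℝ} (hδ : 0 < δ) (hδ1 : δ ≤ 1/2) (hε : 0 < ε) (hn : 1 ≤ n) (hq : 1 / n ≤ q) :
    q * ε ^ 2 * (q * ε) ^ (-(2 + 2 * δ) : ℝ) ≤ n ^ 2 * ε ^ (-(2 * δ) : ℝ) := by
  have hn0 : 0 < n := by linarith
  have hq0 : 0 < q := lt_of_lt_of_le (by positivity) hq
  rw [Real.mul_rpow hq0.le hε.le]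
  have e1 : ε ^ 2 * ε ^ (-(2 + 2 * δ) : ℝ) = ε ^ (-(2 * δ) : ℝ) := by
    rw [← Real.rpow_natCast ε 2, ← Real.rpow_add hε]
    congr 1
    push_cast; ring
  have e2 : q * q ^ (-(2 + 2 * δ) : ℝ) = q ^ (-(1 + 2 * δ) : ℝ) := by
    nth_rewrite 1 [← Real.rpow_one q]
    rw [← Real.rpow_add hq0]
    congr 1; ring
  have e3 : q * ε ^ 2 * (q ^ (-(2 + 2 * δ) : ℝ) * ε ^ (-(2 + 2 * δ) : ℝ)) =
      (q * q ^ (-(2 + 2 * δ) : ℝ)) * (ε ^ 2 * ε ^ (-(2 + 2 * δ) : ℝ)) := by ring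
  rw [e3, e1, e2]
  apply mul_le_mul_of_nonneg_right _ (Real.rpow_nonneg hε.le _)
  calc q ^ (-(1 + 2 * δ) : ℝ) ≤ (1 / n) ^ (-(1 + 2 * δ) : ℝ) :=
        Real.rpow_le_rpow_of_nonpos (by positivity) hq (by linarith)
    _ = n ^ (1 + 2 * δ) := by
        rw [one_div, Real.inv_rpow hn0.le, Real.rpow_neg hn0.le, inv_inv]
    _ ≤ n ^ (2 : ℝ) := Real.rpow_le_rpow_of_exponent_le hn (by linarith)
    _ = n ^ 2 := Real.rpow_two n

/-- sharp form of `LP.DD_real` for `k ≤ h`. -/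
theorem DD_real (f g : ZMod N → ℂ) (δ : ℝ) (hδ : 0 < δ) (hδ1 : δ ≤ 1/2) : ∃ C : ℝ, 0 < C ∧ ∀ ε : ℝ, 0 < ε → ε ≤ 1/2 →
    ∀ h k : ℕ, 1 ≤ h → 1 ≤ k → k ≤ h → ∀ η : ℂ, |η.re| ≤ δ →
    ‖DD f g η (WW N ε h k) - DD f g η (((2 * Real.pi * ε * h / (k * N) : ℝ) : ℂ) + 2 * Real.pi * I * h / (k * N))‖ ≤
      C * ε ^ (-(2 * δ) : ℝ) := by
  have hS0 : 0 ≤ ∑' m : ℕ, ((m : ℝ) + 1) ^ (-(1 + δ) : ℝ) :=
    tsum_nonneg (fun m => Real.rpow_nonneg (add_nonneg (Nat.cast_nonneg m) zero_le_one) _)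
  have hF0 : 0 ≤ ∑ a : ZMod N, ‖f a‖ := Finset.sum_nonneg (fun _ _ => norm_nonneg _)
  have hG0 : 0 ≤ ∑ b : ZMod N, ‖g b‖ := Finset.sum_nonneg (fun _ _ => norm_nonneg _)
  have hN1 : (1 : ℝ) ≤ N := Nat.one_le_cast.mpr (Nat.one_le_iff_ne_zero.mpr (NeZero.ne N))
  have hpi := Real.pi_pos
  refine ⟨(∑ a : ZMod N, ‖f a‖) * (∑ b : ZMod N, ‖g b‖) * (2 * Real.pi * 27) *
    (∑' m : ℕ, ((m : ℝ) + 1) ^ (-(1 + δ) : ℝ)) * (N : ℝ) ^ 2 + 1,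
    add_pos_of_nonneg_of_pos (mul_nonneg (mul_nonneg (mul_nonneg (mul_nonneg hF0 hG0)
      (mul_nonneg (mul_nonneg zero_le_two hpi.le) (by norm_num))) hS0) (sq_nonneg _)) one_pos, ?_⟩
  intro ε hε hε2 h k hh hk hkh η hη
  have hh1 : (1 : ℝ) ≤ h := Nat.one_le_cast.mpr hh
  have hk1 : (1 : ℝ) ≤ k := Nat.one_le_cast.mpr hk
  have hkh' : (k : ℝ) ≤ h := by exact_mod_cast hkh
  obtain ⟨q, hqdef⟩ : ∃ q : ℝ, q = (h : ℝ) / (k * N) := ⟨_, rfl⟩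
  have hq0 : 0 < q := by
    rw [hqdef]
    exact div_pos (lt_of_lt_of_le one_pos hh1)
      (mul_pos (lt_of_lt_of_le one_pos hk1) (lt_of_lt_of_le one_pos hN1))
  have hqN : 1 / (N : ℝ) ≤ q := by
    rw [hqdef, div_le_div_iff₀ (by linarith) (by positivity)]
    nlinarith
  have hqe : 0 < q * ε := mul_pos hq0 hε
  have hx : 0 < Real.pi * q * ε := mul_pos (mul_pos hpi hq0) hε
  have hWre : Real.pi * q * ε ≤ (WW N ε h k).re := by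
    rw [A10_W, ← hqdef]
    simp only [add_re, ofReal_re, mul_re, I_re, ofReal_im, I_im, mul_zero, mul_one, sub_self, add_zero]
    have h7 := mul_le_mul_of_nonneg_left (A10_s1 hε hε2)
      (mul_nonneg (mul_nonneg zero_le_two hpi.le) hq0.le : (0 : ℝ) ≤ 2 * Real.pi * q)
    refine le_trans (le_of_eq ?_) h7
    ring
  have hVre : Real.pi * q * ε ≤
      (((2 * Real.pi * ε * h / (k * N) : ℝ) : ℂ) + 2 * Real.pi * I * h / (k * N)).re := by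
    rw [A10_V, ← hqdef]
    simp only [add_re, ofReal_re, mul_re, I_re, ofReal_im, I_im, mul_zero, mul_one, sub_self, add_zero]
    linarith only [hx]
  refine (A10_diff f g hδ hδ1 hη hx hWre hVre).trans ?_
  have hWV : ‖WW N ε h k - (((2 * Real.pi * ε * h / (k * N) : ℝ) : ℂ) + 2 * Real.pi * I * h / (k * N))‖ ≤
      2 * Real.pi * q * ε ^ 2 := by
    rw [A10_W, A10_V, ← hqdef]
    exact A10_WV hε hε2 hq0
  have hxq : (Real.pi * q * ε) ^ (-(2 + 2 * δ) : ℝ) ≤ (q * ε) ^ (-(2 + 2 * δ) : ℝ) := by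
    apply Real.rpow_le_rpow_of_nonpos hqe _ (by linarith)
    have h8 := mul_le_mul_of_nonneg_right (show (1 : ℝ) ≤ Real.pi by linarith only [Real.pi_gt_three]) hqe.le
    rw [one_mul] at h8
    rwa [mul_assoc]
  have hFG : 0 ≤ (∑ a : ZMod N, ‖f a‖) * (∑ b : ZMod N, ‖g b‖) := mul_nonneg hF0 hG0
  have hq2 := A10_q hδ hδ1 hε hN1 hqN
  have hE : 0 ≤ ε ^ (-(2 * δ) : ℝ) := Real.rpow_nonneg hε.le _
  obtain ⟨S, hS⟩ : ∃ S : ℝ, S = ∑' m : ℕ, ((m : ℝ) + 1) ^ (-(1 + δ) : ℝ) := ⟨_, rfl⟩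
  obtain ⟨P, hP⟩ : ∃ P : ℝ, P = (∑ a : ZMod N, ‖f a‖) * (∑ b : ZMod N, ‖g b‖) := ⟨_, rfl⟩
  rw [← hS, ← hP]
  rw [← hS] at hS0
  rw [← hP] at hFG
  calc P * (‖WW N ε h k - (((2 * Real.pi * ε * h / (k * N) : ℝ) : ℂ) + 2 * Real.pi * I * h / (k * N))‖ *
        (27 * (Real.pi * q * ε) ^ (-(2 + 2 * δ) : ℝ))) * S
      ≤ P * ((2 * Real.pi * q * ε ^ 2) * (27 * (q * ε) ^ (-(2 + 2 * δ) : ℝ))) * S := by
        apply mul_le_mul_of_nonneg_right _ hS0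
        apply mul_le_mul_of_nonneg_left _ hFG
        exact mul_le_mul hWV (mul_le_mul_of_nonneg_left hxq (by norm_num))
          (mul_nonneg (by norm_num) (Real.rpow_nonneg hx.le _))
          (by positivity)
    _ = P * (2 * Real.pi * 27) * S * (q * ε ^ 2 * (q * ε) ^ (-(2 + 2 * δ) : ℝ)) := by ring
    _ ≤ P * (2 * Real.pi * 27) * S * ((N : ℝ) ^ 2 * ε ^ (-(2 * δ) : ℝ)) :=
        mul_le_mul_of_nonneg_left hq2 (by positivity)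
    _ ≤ P * (2 * Real.pi * 27) * S * ((N : ℝ) ^ 2 * ε ^ (-(2 * δ) : ℝ)) + ε ^ (-(2 * δ) : ℝ) :=
        le_add_of_nonneg_right hE
    _ = _ := by ring

end LT2

end F_S_T03
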