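import Pool.Agent.Lib.MP_0f5a55_nt.V.V27
import Mathlib.Analysis.SpecialFunctions.Trigonometric.DerivHyp
import Mathlib.Analysis.SpecialFunctions.Trigonometric.Bounds
import Mathlib.Analysis.SpecialFunctions.Trigonometric.ArctanDeriv

open Complex MeasureTheory Set Filter Topology
open scoped ComplexConjugate

namespace LT2

open LP (ph ph_bounds)

/-- weight of a residue class -/
noncomputable def wA (k K c : ℕ) : ℝ := if c = 0 then (k : ℝ) else (K : ℝ) / c + (K : ℝ) / (K - c)

theorem T04_inv (s : ℝ) (hs : 0 < s) : IntegrableOn (fun y : ℝ => 1 / (y ^ 2 + s ^ 2)) (Ioi 0) ∧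
    ∫ y in Ioi (0:ℝ), 1 / (y ^ 2 + s ^ 2) ≤ 2 / s := by
  have hd : ∀ x ∈ Ici (0:ℝ), HasDerivAt (fun y : ℝ => Real.arctan (y / s) / s) (1 / (x ^ 2 + s ^ 2)) x := by
    intro x _
    have h1 : HasDerivAt (fun y : ℝ => y / s) (1 / s) x := (hasDerivAt_id x).div_const s
    have h2 := (h1.arctan).div_const s
    refine h2.congr_deriv ?_
    have : 0 < 1 + (x / s) ^ 2 := by positivity
    have h3 : 0 < x ^ 2 + s ^ 2 := by positivity
    field_simp
    ring
  have hp : ∀ x ∈ Ioi (0:ℝ), 0 ≤ 1 / (x ^ 2 + s ^ 2) := fun x _ => by positivity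
  have hl : Tendsto (fun y : ℝ => Real.arctan (y / s) / s) atTop (𝓝 (Real.pi / 2 / s)) := by
    have h1 : Tendsto (fun y : ℝ => y / s) atTop atTop := tendsto_id.atTop_div_const hs
    have h2 := (tendsto_nhds_of_tendsto_nhdsWithin Real.tendsto_arctan_atTop).comp h1
    exact h2.div_const s
  refine ⟨integrableOn_Ioi_deriv_of_nonneg' hd hp hl, ?_⟩
  rw [integral_Ioi_of_hasDerivAt_of_nonneg' hd hp hl]
  simp only [zero_div, Real.arctan_zero, sub_zero]
  have := Real.pi_le_four
  gcongr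
  linarith

/-- e^y - 1 >= (y/2) e^(3y/4) -/
theorem T04_exp1 {y : ℝ} (hy : 0 < y) : y / 2 * Real.exp (3 * y / 4) ≤ Real.exp y - 1 := by
  have h1 : y / 4 ≤ Real.sinh (y / 4) := Real.self_le_sinh_iff.2 (by positivity)
  rw [Real.sinh_eq] at h1
  set E := Real.exp (y / 4) with hE
  set F := Real.exp (-(y / 4)) with hF
  have hEF : E * F = 1 := by
    rw [hE, hF, ← Real.exp_add]
    simp
  have hE0 : 0 < E := Real.exp_pos _
  have hF0 : 0 < F := Real.exp_pos _
  have e3 : Real.exp (3 * y / 4) = E ^ 3 := by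
    rw [hE, ← Real.exp_nat_mul]
    congr 1
    push_cast
    ring
  have e4 : Real.exp y = E ^ 4 := by
    rw [hE, ← Real.exp_nat_mul]
    congr 1
    push_cast
    ring
  rw [e3, e4]
  have h2 : y / 2 ≤ E - F := by linarith
  have h3 : E ^ 4 - 1 = (E - F) * (E + F) * E ^ 2 := by
    have h4 : (E - F) * (E + F) * E ^ 2 = E ^ 4 - (E * F) ^ 2 := by ring
    rw [h4, hEF]
    ring
  rw [h3]
  have h5 : 0 ≤ E - F := by linarith
  calc y / 2 * E ^ 3 ≤ (E - F) * E ^ 3 := by gcongr
    _ = (E - F) * E * E ^ 2 := by ring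
    _ ≤ (E - F) * (E + F) * E ^ 2 := by
      gcongr
      linarith

theorem T04_exp2 {y : ℝ} (hy : 0 < y) : y * Real.exp (y / 2) ≤ Real.exp y - 1 := by
  have h1 : y / 2 ≤ Real.sinh (y / 2) := Real.self_le_sinh_iff.2 (by positivity)
  rw [Real.sinh_eq] at h1
  set E := Real.exp (y / 2) with hE
  set F := Real.exp (-(y / 2)) with hF
  have hEF : E * F = 1 := by
    rw [hE, hF, ← Real.exp_add]
    simp
  have hE0 : 0 < E := Real.exp_pos _
  have e4 : Real.exp y = E ^ 2 := by
    rw [hE, ← Real.exp_nat_mul]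
    congr 1
    push_cast
    ring
  rw [e4]
  have h2 : y ≤ E - F := by linarith
  calc y * E ≤ (E - F) * E := by gcongr
    _ = E ^ 2 - E * F := by ring
    _ = _ := by rw [hEF]

/-- lower bound of the denominator -/
theorem T04_den {y s : ℝ} (hy : 0 < y) (hs0 : 0 < s) (hs1 : s ≤ 1) :
    1 / 8 * Real.exp (3 * y / 2) * (y ^ 2 + s ^ 2) ≤ (Real.exp y - 1) ^ 2 + 4 * Real.exp y * s ^ 2 := by
  have h1 := T04_exp1 hy
  have h2 : (y / 2 * Real.exp (3 * y / 4)) ^ 2 ≤ (Real.exp y - 1) ^ 2 :=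
    pow_le_pow_left₀ (by positivity) h1 2
  have e1 : Real.exp (3 * y / 4) ^ 2 = Real.exp (3 * y / 2) := by
    rw [← Real.exp_nat_mul]
    congr 1
    push_cast
    ring
  rw [mul_pow, e1] at h2
  set X := Real.exp (3 * y / 2) with hX
  have hX0 : 0 < X := Real.exp_pos _
  rcases le_total y 2 with h | h
  · have h3 : X ≤ 32 * Real.exp y := by
      have e2 : X = Real.exp (y / 2) * Real.exp y := by
        rw [hX, ← Real.exp_add]
        congr 1
        ring
      rw [e2]
      have h4 : Real.exp (y / 2) ≤ Real.exp 1 := Real.exp_le_exp.2 (by linarith)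
      have h5 := Real.exp_one_lt_d9
      have h6 : Real.exp (y / 2) ≤ 32 := by linarith
      exact mul_le_mul_of_nonneg_right h6 (Real.exp_pos _).le
    have h7 : 1 / 8 * X * s ^ 2 ≤ 4 * Real.exp y * s ^ 2 := by
      have : 1 / 8 * X ≤ 4 * Real.exp y := by linarith
      exact mul_le_mul_of_nonneg_right this (sq_nonneg _)
    have h8 : 1 / 8 * X * y ^ 2 ≤ (y / 2) ^ 2 * X := by
      have : 0 ≤ X * y ^ 2 := by positivity
      nlinarith
    calc 1 / 8 * X * (y ^ 2 + s ^ 2) = 1 / 8 * X * y ^ 2 + 1 / 8 * X * s ^ 2 := by ring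
      _ ≤ _ := by linarith
  · have h3 : s ^ 2 ≤ y ^ 2 := by nlinarith
    have h4 : 0 ≤ 4 * Real.exp y * s ^ 2 := by positivity
    have h5 : 1 / 8 * X * (y ^ 2 + s ^ 2) ≤ (y / 2) ^ 2 * X := by
      have : X * s ^ 2 ≤ X * y ^ 2 := by gcongr
      nlinarith
    linarith

/-- the norm of exp(y + i th) - 1 -/
theorem T04_norm (y th : ℝ) : ‖exp ((y : ℂ) + (th : ℂ) * I) - 1‖ ^ 2 =
    (Real.exp y - 1) ^ 2 + 4 * Real.exp y * Real.sin (th / 2) ^ 2 := by
  rw [← Complex.normSq_eq_norm_sq, Complex.normSq_apply]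
  have h1 : (exp ((y : ℂ) + (th : ℂ) * I) - 1).re = Real.exp y * Real.cos th - 1 := by
    rw [sub_re, exp_re]
    simp
  have h2 : (exp ((y : ℂ) + (th : ℂ) * I) - 1).im = Real.exp y * Real.sin th := by
    rw [sub_im, exp_im]
    simp
  rw [h1, h2]
  have h3 : Real.cos th = 1 - 2 * Real.sin (th / 2) ^ 2 := by
    have h4 := Real.cos_sq' (th / 2)
    have h5 : th = 2 * (th / 2) := by ring
    conv_lhs => rw [h5, Real.cos_two_mul, h4]
    ring
  have h6 := Real.sin_sq_add_cos_sq th
  have h7 : Real.sin th * Real.sin th = 1 - Real.cos th * Real.cos th := by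
    nlinarith
  calc (Real.exp y * Real.cos th - 1) * (Real.exp y * Real.cos th - 1) +
        Real.exp y * Real.sin th * (Real.exp y * Real.sin th)
      = Real.exp y ^ 2 * (Real.cos th * Real.cos th + Real.sin th * Real.sin th) -
          2 * Real.exp y * Real.cos th + 1 := by ring
    _ = Real.exp y ^ 2 - 2 * Real.exp y * Real.cos th + 1 := by rw [h7]; ring
    _ = _ := by rw [h3]; ring

/-- c different from 0 -/
theorem T04_ne (s y th : ℝ) (hs : s = Real.sin (th / 2)) (hs0 : 0 < s) (hy : 0 < y) :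
    ‖(exp ((y : ℂ) + (th : ℂ) * I) - 1)⁻¹‖ ≤ 1 / s * Real.exp (-y / 2) ∧
    ‖-exp ((y : ℂ) + (th : ℂ) * I) / (exp ((y : ℂ) + (th : ℂ) * I) - 1) ^ 2‖ ≤
      8 * (1 / (y ^ 2 + s ^ 2)) * Real.exp (-y / 2) := by
  have hs1 : s ≤ 1 := by rw [hs]; exact Real.sin_le_one _
  have hn := T04_norm y th
  rw [← hs] at hn
  set w := exp ((y : ℂ) + (th : ℂ) * I) - 1 with hw
  have hden := T04_den hy hs0 hs1
  have hpos : 0 < 1 / 8 * Real.exp (3 * y / 2) * (y ^ 2 + s ^ 2) := by positivity
  have hw2 : 0 < ‖w‖ ^ 2 := by rw [hn]; linarith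
  have hw0 : 0 < ‖w‖ := by
    rcases (norm_nonneg w).eq_or_lt with h | h
    · rw [← h] at hw2; simp at hw2
    · exact h
  constructor
  · rw [norm_inv]
    have h1 : s * Real.exp (y / 2) ≤ ‖w‖ := by
      apply le_of_sq_le_sq _ hw0.le
      rw [hn, mul_pow]
      have e1 : Real.exp (y / 2) ^ 2 = Real.exp y := by
        rw [← Real.exp_nat_mul]
        congr 1
        push_cast
        ring
      rw [e1]
      have h2 : 0 ≤ Real.exp y * s ^ 2 := by positivity
      nlinarith [sq_nonneg (Real.exp y - 1)]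
    have h3 : 0 < s * Real.exp (y / 2) := by positivity
    calc ‖w‖⁻¹ ≤ (s * Real.exp (y / 2))⁻¹ := inv_anti₀ h3 h1
      _ = 1 / s * Real.exp (-y / 2) := by
        rw [mul_inv, ← Real.exp_neg, one_div]
        congr 2
        ring
  · rw [norm_div, norm_neg, norm_pow, hn, Complex.norm_exp]
    have h1 : ((y : ℂ) + (th : ℂ) * I).re = y := by simp
    rw [h1]
    rw [div_le_iff₀ (by linarith)]
    have h2 : 0 < y ^ 2 + s ^ 2 := by positivity
    calc Real.exp y = 8 * (1 / (y ^ 2 + s ^ 2)) * Real.exp (-y / 2) *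
          (1 / 8 * Real.exp (3 * y / 2) * (y ^ 2 + s ^ 2)) := by
          have e1 : Real.exp y = Real.exp (-y / 2) * Real.exp (3 * y / 2) := by
            rw [← Real.exp_add]
            congr 1
            ring
          rw [e1]
          field_simp
      _ ≤ _ := by gcongr

/-- c = 0 -/
theorem T04_zero_d (k y : ℝ) (hk : 1 ≤ k) (hy : 0 < y) :
    HasDerivAt (fun y : ℝ => 1 / (Real.exp y - 1) - Real.exp (-(k * y)) / y)
      (-Real.exp y / (Real.exp y - 1) ^ 2 + (k * Real.exp (-(k * y)) * y + Real.exp (-(k * y))) / y ^ 2) y := by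
  have h0 : Real.exp y - 1 ≠ 0 := by
    have := Real.add_one_le_exp y
    linarith
  have h1 : HasDerivAt (fun y : ℝ => Real.exp y - 1) (Real.exp y) y := (Real.hasDerivAt_exp y).sub_const 1
  have h2 : HasDerivAt (fun y : ℝ => 1 / (Real.exp y - 1)) (-Real.exp y / (Real.exp y - 1) ^ 2) y := by
    have := h1.fun_inv h0
    simpa [one_div] using this
  have h3 : HasDerivAt (fun y : ℝ => Real.exp (-(k * y))) (Real.exp (-(k * y)) * (-(k * 1))) y :=
    (((hasDerivAt_id y).const_mul k).neg).exp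
  have h4 := h3.div (hasDerivAt_id y) hy.ne'
  have h5 := h2.sub h4
  refine h5.congr_deriv ?_
  simp only [id]
  ring

theorem T04_zero_far (k y : ℝ) (hk : 1 ≤ k) (hy : 0 < y) (hyk : 1 ≤ k * y) :
    |-Real.exp y / (Real.exp y - 1) ^ 2 + (k * Real.exp (-(k * y)) * y + Real.exp (-(k * y))) / y ^ 2| ≤
      12 * (1 / (y ^ 2 + (1 / k) ^ 2)) * Real.exp (-y / 2) := by
  have h1 := T04_exp1 hy
  have h0 : 0 < Real.exp y - 1 := lt_of_lt_of_le (by positivity) h1
  have a1 : Real.exp y / (Real.exp y - 1) ^ 2 ≤ 4 / y ^ 2 * Real.exp (-y / 2) := by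
    rw [div_le_iff₀ (by positivity)]
    have h2 : (y / 2 * Real.exp (3 * y / 4)) ^ 2 ≤ (Real.exp y - 1) ^ 2 :=
      pow_le_pow_left₀ (by positivity) h1 2
    have e1 : Real.exp (3 * y / 4) ^ 2 = Real.exp (3 * y / 2) := by
      rw [← Real.exp_nat_mul]
      congr 1
      push_cast
      ring
    rw [mul_pow, e1] at h2
    calc Real.exp y = 4 / y ^ 2 * Real.exp (-y / 2) * ((y / 2) ^ 2 * Real.exp (3 * y / 2)) := by
          have e1 : Real.exp y = Real.exp (-y / 2) * Real.exp (3 * y / 2) := by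
            rw [← Real.exp_add]
            congr 1
            ring
          rw [e1]
          field_simp
          ring
      _ ≤ _ := by gcongr
  have a2 : (k * Real.exp (-(k * y)) * y + Real.exp (-(k * y))) / y ^ 2 ≤ 2 / y ^ 2 * Real.exp (-y / 2) := by
    have h3 : k * Real.exp (-(k * y)) * y + Real.exp (-(k * y)) ≤ 2 * Real.exp (-y / 2) := by
      have h4 : 1 + k * y ≤ 2 * Real.exp (k * y / 2) := by
        have := Real.add_one_le_exp (k * y / 2)
        have : 0 ≤ k * y := by positivity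
        linarith
      calc k * Real.exp (-(k * y)) * y + Real.exp (-(k * y)) = (1 + k * y) * Real.exp (-(k * y)) := by ring
        _ ≤ (2 * Real.exp (k * y / 2)) * Real.exp (-(k * y)) := by gcongr
        _ = 2 * Real.exp (-(k * y) / 2) := by
          rw [mul_assoc, ← Real.exp_add]
          congr 2
          ring
        _ ≤ 2 * Real.exp (-y / 2) := by
          have : y ≤ k * y := by nlinarith
          have h5 : Real.exp (-(k * y) / 2) ≤ Real.exp (-y / 2) := Real.exp_le_exp.2 (by linarith)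
          linarith
    calc (k * Real.exp (-(k * y)) * y + Real.exp (-(k * y))) / y ^ 2 ≤ (2 * Real.exp (-y / 2)) / y ^ 2 := by
          gcongr
      _ = _ := by ring
  have a3 : 0 ≤ Real.exp y / (Real.exp y - 1) ^ 2 := by positivity
  have a4 : 0 ≤ (k * Real.exp (-(k * y)) * y + Real.exp (-(k * y))) / y ^ 2 := by positivity
  have a5 : 6 / y ^ 2 ≤ 12 * (1 / (y ^ 2 + (1 / k) ^ 2)) := by
    have h6 : 1 / k ≤ y := by
      rw [div_le_iff₀ (by linarith)]
      linarith
    have h7 : (1 / k) ^ 2 ≤ y ^ 2 := pow_le_pow_left₀ (by positivity) h6 2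
    rw [mul_one_div, div_le_div_iff₀ (by positivity) (by positivity)]
    nlinarith
  have a6 : |-Real.exp y / (Real.exp y - 1) ^ 2 +
      (k * Real.exp (-(k * y)) * y + Real.exp (-(k * y))) / y ^ 2| ≤ 6 / y ^ 2 * Real.exp (-y / 2) := by
    rw [neg_div, abs_le]
    have e : 6 / y ^ 2 * Real.exp (-y / 2) = 4 / y ^ 2 * Real.exp (-y / 2) + 2 / y ^ 2 * Real.exp (-y / 2) := by
      ring
    rw [e]
    have p1 : 0 ≤ 4 / y ^ 2 * Real.exp (-y / 2) := by positivity
    have p2 : 0 ≤ 2 / y ^ 2 * Real.exp (-y / 2) := by positivity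
    constructor
    · linarith
    · linarith
  refine a6.trans ?_
  gcongr

theorem T04_zero_sup (k y : ℝ) (hk : 1 ≤ k) (hy : 0 < y) :
    |1 / (Real.exp y - 1) - Real.exp (-(k * y)) / y| ≤ 2 * k * Real.exp (-y / 2) := by
  have h1 := T04_exp2 hy
  have h0 : 0 < Real.exp y - 1 := lt_of_lt_of_le (by positivity) h1
  rcases le_total 1 (k * y) with h | h
  · have a0 : 1 / y ≤ k := by
      rw [div_le_iff₀ hy]
      linarith
    have a1 : 1 / (Real.exp y - 1) ≤ k * Real.exp (-y / 2) := by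
      calc 1 / (Real.exp y - 1) ≤ 1 / (y * Real.exp (y / 2)) := one_div_le_one_div_of_le (by positivity) h1
        _ = 1 / y * Real.exp (-y / 2) := by
          rw [show -y / 2 = -(y / 2) by ring, Real.exp_neg]
          field_simp
        _ ≤ _ := by gcongr
    have a2 : Real.exp (-(k * y)) / y ≤ k * Real.exp (-y / 2) := by
      have h5 : Real.exp (-(k * y)) ≤ Real.exp (-y / 2) := by
        apply Real.exp_le_exp.2
        have : y ≤ k * y := by nlinarith
        linarith
      calc Real.exp (-(k * y)) / y = 1 / y * Real.exp (-(k * y)) := by ring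
        _ ≤ _ := by gcongr
    have a3 : 0 ≤ 1 / (Real.exp y - 1) := by positivity
    have a4 : 0 ≤ Real.exp (-(k * y)) / y := by positivity
    rw [abs_le]
    constructor
    · linarith
    · linarith
  · have hy1 : y ≤ 1 := by nlinarith
    have e1 : 1 / 2 ≤ Real.exp (-y / 2) := by
      have := Real.add_one_le_exp (-y / 2)
      linarith
    have a1 : 1 / (Real.exp y - 1) ≤ 1 / y := by
      apply one_div_le_one_div_of_le hy
      have := Real.add_one_le_exp y
      linarith
    have a2 : 1 / y - 1 ≤ 1 / (Real.exp y - 1) := by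
      have h2 : (1 - y) * Real.exp y ≤ 1 := by
        have h3 := Real.add_one_le_exp (-y)
        have h4 : Real.exp (-y) * Real.exp y = 1 := by
          rw [← Real.exp_add]; simp
        have h5 : (1 - y) ≤ Real.exp (-y) := by linarith
        have := mul_le_mul_of_nonneg_right h5 (Real.exp_pos y).le
        linarith
      have e2 : 1 / y - 1 = (1 - y) / y := by field_simp
      rw [e2, div_le_div_iff₀ hy h0]
      nlinarith
    have a3 : Real.exp (-(k * y)) / y ≤ 1 / y := by
      have : Real.exp (-(k * y)) ≤ 1 := Real.exp_le_one_iff.2 (by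
        have : 0 ≤ k * y := by positivity
        linarith)
      gcongr
    have a4 : 1 / y - k ≤ Real.exp (-(k * y)) / y := by
      have h2 := Real.add_one_le_exp (-(k * y))
      have e2 : 1 / y - k = (1 - k * y) / y := by field_simp
      rw [e2]
      have : 1 - k * y ≤ Real.exp (-(k * y)) := by linarith
      gcongr
    have a5 : k ≤ 2 * k * Real.exp (-y / 2) := by nlinarith
    rw [abs_le]
    constructor
    · linarith
    · linarith

/-- bounds of the kernel of one class by its weight -/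
theorem ph_bounds2 : ∃ C : ℝ, 0 < C ∧ ∀ k K c : ℕ, 1 ≤ k → k ≤ K → c < K → ∃ (φ' : ℝ → ℂ) (D : ℝ → ℝ),
    (∀ y : ℝ, 0 < y → HasDerivAt (ph k K c) (φ' y) y) ∧
    (∀ y : ℝ, 0 < y → ‖ph k K c y‖ ≤ C * wA k K c * Real.exp (-y / 2)) ∧
    (∀ y : ℝ, 0 < y → ‖φ' y‖ ≤ D y * Real.exp (-y / 2)) ∧
    (∀ y : ℝ, 0 < y → 0 ≤ D y) ∧ IntegrableOn D (Ioi 0) ∧ (∫ y in Ioi (0:ℝ), D y) ≤ C * wA k K c := by
  obtain ⟨C0, hC0, h0⟩ := ph_bounds
  refine ⟨24 + 4 * C0 + 16, by positivity, ?_⟩
  intro k K c hk hkK hcK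
  have hk1 : (1 : ℝ) ≤ k := by exact_mod_cast hk
  have hkR : (0 : ℝ) < k := by linarith
  have hK0 : 0 < K := by omega
  have hKR : (0 : ℝ) < K := by exact_mod_cast hK0
  rcases Nat.eq_zero_or_pos c with rfl | hc
  · -- c = 0
    obtain ⟨φ', hd, hb, hb'⟩ := h0 k k 0 hk le_rfl hk
    have hph : ph k K 0 = ph k k 0 := by
      funext y
      unfold ph
      simp
    have hphr : ∀ y : ℝ, ph k k 0 y =
        ((1 / (Real.exp y - 1) - Real.exp (-(k * y)) / y : ℝ) : ℂ) := by
      intro y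
      unfold ph
      simp
    have hw : wA k K 0 = k := by simp [wA]
    rw [hph, hw]
    have hs : (0 : ℝ) < 1 / k := by positivity
    obtain ⟨hi, hv⟩ := T04_inv (1 / k) hs
    refine ⟨φ', fun y => (12 + 2 * C0) * (1 / (y ^ 2 + (1 / (k : ℝ)) ^ 2)), hd, ?_, ?_, ?_, hi.const_mul _, ?_⟩
    · intro y hy
      rw [hphr, norm_real, Real.norm_eq_abs]
      refine (T04_zero_sup k y hk1 hy).trans ?_
      have : 0 ≤ (k : ℝ) * Real.exp (-y / 2) := by positivity
      nlinarith
    · intro y hy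
      rcases le_total 1 ((k : ℝ) * y) with h | h
      · have h1 : HasDerivAt (ph k k 0) (((-Real.exp y / (Real.exp y - 1) ^ 2 +
            (k * Real.exp (-(k * y)) * y + Real.exp (-(k * y))) / y ^ 2 : ℝ)) : ℂ) y := by
          have h2 := (T04_zero_d k y hk1 hy).ofReal_comp
          have h3 : (fun y : ℝ => ((1 / (Real.exp y - 1) - Real.exp (-(k * y)) / y : ℝ) : ℂ)) = ph k k 0 := by
            funext y
            exact (hphr y).symm
          rw [h3] at h2
          exact h2
        rw [(hd y hy).unique h1, norm_real, Real.norm_eq_abs]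
        refine (T04_zero_far k y hk1 hy h).trans ?_
        have : 0 ≤ 1 / (y ^ 2 + (1 / (k : ℝ)) ^ 2) := by positivity
        apply mul_le_mul_of_nonneg_right _ (Real.exp_pos _).le
        show 12 * (1 / (y ^ 2 + (1 / (k : ℝ)) ^ 2)) ≤ (12 + 2 * C0) * (1 / (y ^ 2 + (1 / (k : ℝ)) ^ 2))
        exact mul_le_mul_of_nonneg_right (by linarith) this
      · refine (hb' y hy).trans ?_
        have h1 : (k : ℝ) ^ 2 ≤ 2 * (1 / (y ^ 2 + (1 / (k : ℝ)) ^ 2)) := by
          have h2 : y ≤ 1 / k := by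
            rw [le_div_iff₀ hkR]
            linarith
          have h3 : y ^ 2 ≤ (1 / (k : ℝ)) ^ 2 := pow_le_pow_left₀ hy.le h2 2
          have h4 : y ^ 2 + (1 / (k : ℝ)) ^ 2 ≤ 2 * (1 / (k : ℝ)) ^ 2 := by linarith
          have h5 : 0 < y ^ 2 + (1 / (k : ℝ)) ^ 2 := by positivity
          rw [mul_one_div, le_div_iff₀ h5]
          calc (k : ℝ) ^ 2 * (y ^ 2 + (1 / (k : ℝ)) ^ 2) ≤ (k : ℝ) ^ 2 * (2 * (1 / (k : ℝ)) ^ 2) := by gcongr
            _ = 2 := by field_simp
        have h6 : 0 ≤ 1 / (y ^ 2 + (1 / (k : ℝ)) ^ 2) := by positivity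
        calc C0 * (k : ℝ) ^ 2 * Real.exp (-y / 2)
            ≤ C0 * (2 * (1 / (y ^ 2 + (1 / (k : ℝ)) ^ 2))) * Real.exp (-y / 2) := by gcongr
          _ = (2 * C0) * (1 / (y ^ 2 + (1 / (k : ℝ)) ^ 2)) * Real.exp (-y / 2) := by ring
          _ ≤ _ := by
            gcongr
            linarith
    · intro y hy
      positivity
    · rw [integral_const_mul]
      calc (12 + 2 * C0) * ∫ y in Ioi (0:ℝ), 1 / (y ^ 2 + (1 / (k : ℝ)) ^ 2)
          ≤ (12 + 2 * C0) * (2 / (1 / k)) := by gcongr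
        _ = (24 + 4 * C0) * k := by field_simp; ring
        _ ≤ _ := mul_le_mul_of_nonneg_right (by linarith) hkR.le
  · -- c > 0
    have hcR : (0 : ℝ) < c := by exact_mod_cast hc
    have hcK' : (c : ℝ) < K := by exact_mod_cast hcK
    set th : ℝ := 2 * Real.pi * c / K with hth
    set s : ℝ := Real.sin (th / 2) with hs
    have hth2 : th / 2 = Real.pi * (c / K) := by rw [hth]; ring
    have hsin : 1 / s ≤ (K : ℝ) / c + (K : ℝ) / (K - c) ∧ 0 < s := by
      rw [hs, hth2]
      have hpi := Real.pi_pos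
      have hq0 : 0 < (c : ℝ) / K := by positivity
      have hq1 : (c : ℝ) / K < 1 := by rw [div_lt_one hKR]; exact hcK'
      have hsp : 0 < Real.sin (Real.pi * (c / K)) :=
        Real.sin_pos_of_pos_of_lt_pi (by positivity) (by nlinarith)
      refine ⟨?_, hsp⟩
      have hKc : (0:ℝ) < (K : ℝ) - c := by linarith
      rcases le_total ((c : ℝ) / K) (1 / 2) with h | h
      · have h1 : 2 / Real.pi * (Real.pi * (c / K)) ≤ Real.sin (Real.pi * (c / K)) :=
          Real.mul_le_sin (by positivity) (by nlinarith)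
        have h2 : 2 / Real.pi * (Real.pi * (c / K)) = 2 * (c / K) := by field_simp
        rw [h2] at h1
        have h3 : 1 / Real.sin (Real.pi * (c / K)) ≤ 1 / (2 * (c / K)) :=
          one_div_le_one_div_of_le (by positivity) h1
        have h4 : 1 / (2 * ((c : ℝ) / K)) = (K : ℝ) / c / 2 := by field_simp
        have h5 : 0 ≤ (K : ℝ) / c := by positivity
        have h6 : 0 ≤ (K : ℝ) / (K - c) := by positivity
        linarith
      · have h0 : Real.sin (Real.pi * (c / K)) = Real.sin (Real.pi * (1 - c / K)) := by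
          rw [show Real.pi * (1 - (c : ℝ) / K) = Real.pi - Real.pi * (c / K) by ring, Real.sin_pi_sub]
        rw [h0]
        have hq2 : 0 < 1 - (c : ℝ) / K := by linarith
        have h1 : 2 / Real.pi * (Real.pi * (1 - c / K)) ≤ Real.sin (Real.pi * (1 - c / K)) :=
          Real.mul_le_sin (by positivity) (by nlinarith)
        have h2 : 2 / Real.pi * (Real.pi * (1 - (c:ℝ) / K)) = 2 * (1 - c / K) := by field_simp
        rw [h2] at h1
        have h3 : 1 / Real.sin (Real.pi * (1 - c / K)) ≤ 1 / (2 * (1 - c / K)) :=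
          one_div_le_one_div_of_le (by positivity) h1
        have h4 : 1 / (2 * (1 - (c : ℝ) / K)) = (K : ℝ) / (K - c) / 2 := by
          have : (K : ℝ) - c ≠ 0 := hKc.ne'
          field_simp
        have h5 : 0 ≤ (K : ℝ) / c := by positivity
        have h6 : 0 ≤ (K : ℝ) / (K - c) := by positivity
        linarith
    obtain ⟨hs1, hs0⟩ := hsin
    have hw : wA k K c = (K : ℝ) / c + (K : ℝ) / (K - c) := by
      unfold wA
      rw [if_neg hc.ne']
    rw [hw]
    set w : ℝ := (K : ℝ) / c + (K : ℝ) / (K - c) with hwd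
    have harg : ∀ y : ℝ, (y : ℂ) + 2 * Real.pi * I * c / K = (y : ℂ) + (th : ℂ) * I := by
      intro y
      rw [hth]
      push_cast
      ring
    have hphe : ph k K c = fun y : ℝ => (exp ((y : ℂ) + (th : ℂ) * I) - 1)⁻¹ := by
      funext y
      unfold ph
      rw [if_neg hc.ne', harg]
    obtain ⟨hi, hv⟩ := T04_inv s hs0
    refine ⟨fun y => -exp ((y : ℂ) + (th : ℂ) * I) / (exp ((y : ℂ) + (th : ℂ) * I) - 1) ^ 2,
      fun y => 8 * (1 / (y ^ 2 + s ^ 2)), ?_, ?_, ?_, ?_, hi.const_mul _, ?_⟩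
    · intro y hy
      rw [hphe]
      have hne : exp ((y : ℂ) + (th : ℂ) * I) - 1 ≠ 0 := by
        intro h
        have h1 := T04_norm y th
        rw [h] at h1
        have h2 := T04_den hy hs0 (Real.sin_le_one _)
        rw [← hs] at h1
        have h3 : 0 < 1 / 8 * Real.exp (3 * y / 2) * (y ^ 2 + s ^ 2) := by positivity
        simp at h1
        linarith
      have h1 : HasDerivAt (fun y : ℝ => (y : ℂ) + (th : ℂ) * I) 1 y :=
        (Complex.ofRealCLM.hasDerivAt).add_const _
      have h2 := (h1.cexp.sub_const 1).inv hne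
      rw [mul_one] at h2
      exact h2
    · intro y hy
      rw [hphe]
      refine (T04_ne s y th hs hs0 hy).1.trans ?_
      have : 1 / s ≤ (24 + 4 * C0 + 16) * w := by
        have h1 : 0 < w := lt_of_lt_of_le (by positivity) hs1
        nlinarith
      gcongr
    · intro y hy
      exact (T04_ne s y th hs hs0 hy).2
    · intro y hy
      positivity
    · rw [integral_const_mul]
      have h1 : 0 < w := lt_of_lt_of_le (by positivity) hs1
      calc 8 * ∫ y in Ioi (0:ℝ), 1 / (y ^ 2 + s ^ 2) ≤ 8 * (2 / s) := by gcongr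
        _ = 16 * (1 / s) := by ring
        _ ≤ 16 * w := by gcongr
        _ ≤ _ := by
          gcongr
          linarith

end LT2
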