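import Pool.Agent.Lib.MP_0f5a55_nt.V.V34
import Pool.Agent.Lib.MP_0f5a55_nt.S.T04a
import Pool.Agent.Lib.MP_0f5a55_nt.S.T04b

open Complex MeasureTheory Set Filter Topology
open scoped ComplexConjugate

namespace LT2

open LP (ph cab DD JF AC Sf DD_split ph_int ph_sum lap_per A20_cab_lt A20_mul_le A20_re A20_alg1)

theorem wA_nonneg {k K c : ℕ} (hc : c < K) : 0 ≤ wA k K c := by
  unfold wA
  split_ifs with h
  · positivity
  · have h1 : (c : ℝ) < K := by exact_mod_cast hc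
    have h2 : (0 : ℝ) < (K : ℝ) - c := by linarith
    positivity

/-- a -> cab is injective on a period -/
theorem T04_inj (N h k b : ℕ) (hk : 1 ≤ k) (hN : 0 < N) (hc : Nat.Coprime h k) (hhN : Nat.Coprime h N) :
    Set.InjOn (fun a : ℕ => cab N h k a b) (Finset.Icc 1 (k * N) : Finset ℕ) := by
  intro a ha a' ha' heq
  rw [Finset.mem_coe, Finset.mem_Icc] at ha ha'
  have hK : 0 < k * N := Nat.mul_pos hk hN
  have hKz : (0 : ℤ) < ((k * N : ℕ) : ℤ) := by exact_mod_cast hK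
  simp only [cab] at heq
  have e1 := Int.emod_nonneg (((a * h : ℕ) : ℤ) - ((b * k : ℕ) : ℤ)) hKz.ne'
  have e2 := Int.emod_nonneg (((a' * h : ℕ) : ℤ) - ((b * k : ℕ) : ℤ)) hKz.ne'
  have e3 : (((a * h : ℕ) : ℤ) - ((b * k : ℕ) : ℤ)) % ((k * N : ℕ) : ℤ) =
      (((a' * h : ℕ) : ℤ) - ((b * k : ℕ) : ℤ)) % ((k * N : ℕ) : ℤ) := by
    have := congrArg (fun n : ℕ => (n : ℤ)) heq
    rwa [Int.toNat_of_nonneg e1, Int.toNat_of_nonneg e2] at this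
  have e4 : ((k * N : ℕ) : ℤ) ∣ ((a : ℤ) - a') * h := by
    have h6 := Int.ModEq.dvd (show Int.ModEq _ _ _ from e3.symm)
    convert h6 using 1
    push_cast
    ring
  have hcop : IsCoprime ((k * N : ℕ) : ℤ) (h : ℤ) := by
    rw [Nat.isCoprime_iff_coprime]
    exact (Nat.Coprime.mul_right hc hhN).symm
  have e5 : ((k * N : ℕ) : ℤ) ∣ ((a : ℤ) - a') := hcop.dvd_of_dvd_mul_right e4
  have e6 : |(a : ℤ) - a'| < ((k * N : ℕ) : ℤ) := by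
    rw [abs_lt]
    constructor
    · have : (a' : ℤ) ≤ ((k * N : ℕ) : ℤ) := by exact_mod_cast ha'.2
      have : (1 : ℤ) ≤ a := by exact_mod_cast ha.1
      linarith
    · have : (a : ℤ) ≤ ((k * N : ℕ) : ℤ) := by exact_mod_cast ha.2
      have : (1 : ℤ) ≤ a' := by exact_mod_cast ha'.1
      linarith
  have e7 := Int.eq_zero_of_abs_lt_dvd e5 e6
  have : (a : ℤ) = a' := by linarith
  exact_mod_cast this

/-- harmonic sum -/
theorem T04_harm (K : ℕ) (hK : 1 ≤ K) : ∑ c ∈ Finset.Ico 1 K, (1 : ℝ) / c ≤ 9 * (K : ℝ) ^ (1/8 : ℝ) := by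
  have hK1 : (1 : ℝ) ≤ K := by exact_mod_cast hK
  have h1 : ∑ c ∈ Finset.Ico 1 K, (1 : ℝ) / c ≤ 1 + Real.log K := by
    have h2 := harmonic_le_one_add_log K
    have h3 : ((harmonic K : ℚ) : ℝ) = ∑ i ∈ Finset.range K, 1 / ((i : ℝ) + 1) := by
      unfold harmonic
      push_cast
      apply Finset.sum_congr rfl
      intro i _
      rw [one_div]
    rw [h3] at h2
    refine le_trans ?_ h2
    rw [Finset.sum_Ico_eq_sum_range]
    calc ∑ i ∈ Finset.range (K - 1), (1 : ℝ) / ((1 + i : ℕ) : ℝ)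
        = ∑ i ∈ Finset.range (K - 1), 1 / ((i : ℝ) + 1) := by
          apply Finset.sum_congr rfl
          intro i _
          push_cast
          rw [add_comm]
      _ ≤ _ := by
          apply Finset.sum_le_sum_of_subset_of_nonneg
          · exact Finset.range_mono (by omega)
          · intro i _ _
            positivity
  have h4 : Real.log K ≤ (K : ℝ) ^ (1/8 : ℝ) / (1/8) := Real.log_le_rpow_div (by positivity) (by norm_num)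
  have h5 : 1 ≤ (K : ℝ) ^ (1/8 : ℝ) := Real.one_le_rpow hK1 (by norm_num)
  linarith

/-- sum of the weights over a period -/
theorem T04_sum (N : ℕ) [NeZero N] (h k b : ℕ) (hk : 1 ≤ k) (hN : 0 < N) (hc : Nat.Coprime h k) (hhN : Nat.Coprime h N) :
    ∑ a ∈ Finset.Icc 1 (k * N), wA k (k * N) (cab N h k a b) ≤
      19 * ((k * N : ℕ) : ℝ) ^ (9/8 : ℝ) := by
  have hK : 0 < k * N := Nat.mul_pos hk hN
  set K : ℕ := k * N with hKd
  have hkK : k ≤ K := Nat.le_mul_of_pos_right k hN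
  have hK1 : (1 : ℝ) ≤ K := by exact_mod_cast hK
  have hKR : (0 : ℝ) < K := by linarith
  have hinj := T04_inj N h k b hk hN hc hhN
  have e1 : ∑ a ∈ Finset.Icc 1 K, wA k K (cab N h k a b) =
      ∑ c ∈ (Finset.Icc 1 K).image (fun a => cab N h k a b), wA k K c :=
    (Finset.sum_image hinj).symm
  rw [e1]
  have hnn : ∀ c ∈ Finset.range K, 0 ≤ wA k K c := fun c hc => wA_nonneg (Finset.mem_range.1 hc)
  have hsub : (Finset.Icc 1 K).image (fun a => cab N h k a b) ⊆ Finset.range K := by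
    intro c hc
    rw [Finset.mem_image] at hc
    obtain ⟨a, -, rfl⟩ := hc
    rw [Finset.mem_range]
    exact A20_cab_lt h k hk _ _
  refine (Finset.sum_le_sum_of_subset_of_nonneg hsub (fun c hc _ => hnn c hc)).trans ?_
  have e2 : ∑ c ∈ Finset.range K, wA k K c = wA k K 0 + ∑ c ∈ Finset.Ico 1 K, wA k K c := by
    rw [Finset.range_eq_Ico, Finset.sum_eq_sum_Ico_succ_bot hK]
  rw [e2]
  have e3 : wA k K 0 = k := by simp [wA]
  have e4 : ∑ c ∈ Finset.Ico 1 K, wA k K c = 2 * K * ∑ c ∈ Finset.Ico 1 K, (1 : ℝ) / c := by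
    have e5 : ∑ c ∈ Finset.Ico 1 K, wA k K c =
        ∑ c ∈ Finset.Ico 1 K, ((K : ℝ) * (1 / c) + (K : ℝ) * (1 / ((K - c : ℕ) : ℝ))) := by
      apply Finset.sum_congr rfl
      intro c hc
      rw [Finset.mem_Ico] at hc
      unfold wA
      rw [if_neg (by omega), Nat.cast_sub hc.2.le]
      ring
    have e6 : ∑ c ∈ Finset.Ico 1 K, (1 : ℝ) / ((K - c : ℕ) : ℝ) = ∑ c ∈ Finset.Ico 1 K, (1 : ℝ) / c := by
      refine Finset.sum_nbij' (fun c => K - c) (fun c => K - c) ?_ ?_ ?_ ?_ ?_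
      · intro c hc
        rw [Finset.mem_Ico] at hc ⊢
        omega
      · intro c hc
        rw [Finset.mem_Ico] at hc ⊢
        omega
      · intro c hc
        rw [Finset.mem_Ico] at hc
        omega
      · intro c hc
        rw [Finset.mem_Ico] at hc
        omega
      · intro c hc
        rfl
    rw [e5, Finset.sum_add_distrib, ← Finset.mul_sum, ← Finset.mul_sum, e6]
    ring
  rw [e3, e4]
  have h1 := T04_harm K hK
  have e7 : (K : ℝ) ^ (9/8 : ℝ) = K * (K : ℝ) ^ (1/8 : ℝ) := by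
    rw [show (9/8 : ℝ) = 1 + 1/8 by norm_num, Real.rpow_add hKR, Real.rpow_one]
  have h5 : 1 ≤ (K : ℝ) ^ (1/8 : ℝ) := Real.one_le_rpow hK1 (by norm_num)
  have h6 : (k : ℝ) ≤ K := by exact_mod_cast hkK
  rw [e7]
  calc (k : ℝ) + 2 * K * ∑ c ∈ Finset.Ico 1 K, (1 : ℝ) / c
      ≤ K * (K : ℝ) ^ (1/8 : ℝ) + 2 * K * (9 * (K : ℝ) ^ (1/8 : ℝ)) := by
        have : (K : ℝ) * 1 ≤ K * (K : ℝ) ^ (1/8 : ℝ) := by gcongr
        gcongr
        linarith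
    _ = _ := by ring

variable {N : ℕ} [NeZero N]

/-- LP.DD_asymp with a better error term -/
theorem DD_asymp (χ ψ : DirichletCharacter ℂ N) (V : ℝ) (hV : 0 ≤ V) : ∃ C : ℝ, 0 < C ∧ ∀ η : ℂ, |η.re| ≤ 1/8 →
    |η.im| ≤ V → η ≠ 0 → ∀ h k : ℕ, 1 ≤ h → 1 ≤ k → Nat.Coprime h k → Nat.Coprime h N → Nat.Coprime k N →
    ∀ Y : ℝ, 0 < Y → Y ≤ 1 →
    ‖DD χ ψ η ((Y : ℂ) + 2 * Real.pi * I * h / (k * N)) -
      (χ (k : ZMod N) * ψ (h : ZMod N) * ((k : ℂ) ^ (-1 - η) * LX.Lf (χ * ψ) (1 + η) / Y) +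
        χ⁻¹ (h : ZMod N) * ψ⁻¹ (k : ZMod N) *
          ((N : ℂ)⁻¹ * AC χ ψ η * (k : ℂ) ^ (η - 1) * (Y : ℂ) ^ (η - 1)))‖ ≤
      C * (1 + 1 / ‖η‖) * (k : ℝ) ^ (5/4 : ℝ) * Y ^ (-(1/4) : ℝ) := by
  obtain ⟨C0, hC0, h0⟩ := ph_bounds2
  obtain ⟨C1, hC1, h1⟩ := class_sum2 V hV
  obtain ⟨C2, hC2, h2⟩ := lap_per (fun a : ZMod N => (χ * ψ) a) V hV
  have hN : 0 < N := Nat.pos_of_ne_zero (NeZero.ne N)
  have hNR : (0 : ℝ) < N := by exact_mod_cast hN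
  refine ⟨C1 * C0 * 19 * (N : ℝ) ^ (9/4 : ℝ) + C2, by positivity, ?_⟩
  intro η hη hηi hη0 h k hh hk hc hhN hkN Y hY hY1
  rw [DD_split χ ψ η hη h k hh hk hc hhN hkN Y hY]
  have hK : 0 < k * N := Nat.mul_pos hk hN
  have hkK : k ≤ k * N := Nat.le_mul_of_pos_right k hN
  have hk0 : (k : ℂ) ≠ 0 := by
    have : k ≠ 0 := by omega
    exact_mod_cast this
  have hN0 : (N : ℂ) ≠ 0 := by exact_mod_cast hN.ne'
  have hkR : (0:ℝ) < k := by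
    have : 0 < k := by omega
    exact_mod_cast this
  have hk1 : (1:ℝ) ≤ k := by exact_mod_cast hk
  have hY0 : (Y : ℂ) ≠ 0 := by exact_mod_cast hY.ne'
  set S : ℕ → ZMod N → ℂ := fun a b => ∑' j : ℕ, ((a : ℂ) + j * ((k * N : ℕ) : ℂ)) ^ (-η) *
          ph k (k * N) (cab N h k a b.val) (((a : ℝ) + j * ((k * N : ℕ) : ℝ)) * Y) with hS
  set J : ℕ → ZMod N → ℂ := fun a b => ∫ y in Ioi (0:ℝ), (y : ℂ) ^ (-η) *
    ph k (k * N) (cab N h k a b.val) y with hJ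
  set L : ℂ := ∑' n : ℕ, (χ * ψ) ((n + 1 : ℕ) : ZMod N) *
        ((n : ℂ) + 1) ^ (-(1 + η)) * (Real.exp (-(((n : ℝ) + 1) * ((k : ℝ) ^ 2 * Y))) : ℂ) with hL
  set Z8 : ℝ := Y ^ (-(1/8) : ℝ) with hZ8
  set Z : ℝ := Y ^ (-(1/4) : ℝ) with hZ
  have hZ0 : 0 ≤ Z := Real.rpow_nonneg hY.le _
  have hZ80 : 0 ≤ Z8 := Real.rpow_nonneg hY.le _
  have hZ8Z : Z8 ≤ Z := Real.rpow_le_rpow_of_exponent_ge hY hY1 (by norm_num)
  set K8 : ℝ := ((k * N : ℕ) : ℝ) ^ (1/8 : ℝ) with hK8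
  have hK80 : 0 ≤ K8 := Real.rpow_nonneg (Nat.cast_nonneg _) _
  -- the classes
  have hcl : ∀ a ∈ Finset.Icc 1 (k * N), ∀ b : ZMod N,
      ‖χ (a : ZMod N) * ψ b * (S a b - (1 / ((k * N : ℕ) : ℂ)) * (Y : ℂ) ^ (η - 1) * J a b)‖ ≤
      (C1 * C0 * K8 * Z8) * wA k (k * N) (cab N h k a b.val) := by
    intro a ha b
    rw [Finset.mem_Icc] at ha
    obtain ⟨φ', D, hd, hb, hb', hD0, hDi, hDA⟩ := h0 k (k * N) (cab N h k a b.val) hk hkK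
      (A20_cab_lt h k hk _ _)
    have hw0 : 0 ≤ wA k (k * N) (cab N h k a b.val) := wA_nonneg (A20_cab_lt h k hk _ _)
    have h5 := (h1 η hη hηi (ph k (k * N) (cab N h k a b.val)) φ' D
      (C0 * wA k (k * N) (cab N h k a b.val))
      (by positivity) hd hb hb' hD0 hDi hDA (k * N) a ha.1 ha.2 Y hY hY1).2
    rw [norm_mul, norm_mul]
    have h6 : ‖χ (a : ZMod N)‖ ≤ 1 := DirichletCharacter.norm_le_one χ _
    have h7 : ‖ψ b‖ ≤ 1 := DirichletCharacter.norm_le_one ψ _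
    refine (A20_mul_le h6 h7 (norm_nonneg _) (norm_nonneg _) h5).trans (le_of_eq ?_)
    rw [hK8, hZ8]
    ring
  -- total main part
  have hmain := ph_int χ ψ h k hh hk hc hhN hkN η hη
  have hSf : ∑ a : ZMod N, (χ * ψ) a = Sf χ ψ := by
    unfold Sf
    exact Finset.sum_congr rfl fun a _ => MulChar.mul_apply _ _ _
  have hsf2 := (ph_sum χ ψ h k hh hk hc hhN hkN 1 one_pos).2
  -- last part
  have hX : (0:ℝ) < (k : ℝ) ^ 2 * Y := by positivity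
  have hlap := h2 η hη hηi hη0 ((k : ℝ) ^ 2 * Y) hX
  rw [hSf] at hlap
  have hpow : (((k : ℝ) ^ 2 * Y : ℝ) : ℂ) ^ η = (k : ℂ) ^ η * (k : ℂ) ^ η * (Y : ℂ) ^ η := by
    rw [ofReal_mul, mul_cpow_ofReal_nonneg (by positivity) hY.le]
    congr 1
    have : (((k : ℝ) ^ 2 : ℝ) : ℂ) = ((k : ℝ) : ℂ) * ((k : ℝ) : ℂ) := by
      push_cast; ring
    rw [this, mul_cpow_ofReal_nonneg hkR.le hkR.le]
    simp
  have hkη : (k : ℂ) ^ η ≠ 0 := by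
    rw [Ne, cpow_eq_zero_iff]
    exact fun h => hk0 h.1
  have e1 : (k : ℂ) ^ (-1 - η) = (k : ℂ)⁻¹ / (k : ℂ) ^ η := by
    rw [cpow_sub _ _ hk0, cpow_neg_one]
  have e2 : (k : ℂ) ^ (η - 1) = (k : ℂ) ^ η / k := by
    rw [cpow_sub _ _ hk0, cpow_one]
  have e3 : (Y : ℂ) ^ (η - 1) = (Y : ℂ) ^ η / Y := by
    rw [cpow_sub _ _ hY0, cpow_one]
  have hLf : LX.Lf (χ * ψ) (1 + η) = ZMod.LFunction (fun a : ZMod N => (χ * ψ) a) (1 + η) := rfl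
  rw [hLf]
  set LF : ℂ := ZMod.LFunction (fun a : ZMod N => (χ * ψ) a) (1 + η) with hLF
  have hid : (∑ a ∈ Finset.Icc 1 (k * N), ∑ b : ZMod N, χ (a : ZMod N) * ψ b * S a b) +
      χ (k : ZMod N) * ψ (h : ZMod N) * ((k : ℂ) ^ (-1 - η) / Y) * L -
      (χ (k : ZMod N) * ψ (h : ZMod N) * ((k : ℂ) ^ (-1 - η) * LF / Y) +
        χ⁻¹ (h : ZMod N) * ψ⁻¹ (k : ZMod N) *
          ((N : ℂ)⁻¹ * AC χ ψ η * (k : ℂ) ^ (η - 1) * (Y : ℂ) ^ (η - 1))) =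
      (∑ a ∈ Finset.Icc 1 (k * N), ∑ b : ZMod N,
        χ (a : ZMod N) * ψ b * (S a b - (1 / ((k * N : ℕ) : ℂ)) * (Y : ℂ) ^ (η - 1) * J a b)) +
      χ (k : ZMod N) * ψ (h : ZMod N) * ((k : ℂ) ^ (-1 - η) / Y) * (L - (LF -
        (Sf χ ψ) / N * (Gamma (1 - η) / η) * (((k : ℝ) ^ 2 * Y : ℝ) : ℂ) ^ η)) := by
    have hsplit : (∑ a ∈ Finset.Icc 1 (k * N), ∑ b : ZMod N,
        χ (a : ZMod N) * ψ b * (S a b - (1 / ((k * N : ℕ) : ℂ)) * (Y : ℂ) ^ (η - 1) * J a b)) =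
        (∑ a ∈ Finset.Icc 1 (k * N), ∑ b : ZMod N, χ (a : ZMod N) * ψ b * S a b) -
        (1 / ((k * N : ℕ) : ℂ)) * (Y : ℂ) ^ (η - 1) *
          (∑ a ∈ Finset.Icc 1 (k * N), ∑ b : ZMod N, χ (a : ZMod N) * ψ b * J a b) := by
      rw [Finset.mul_sum, ← Finset.sum_sub_distrib]
      apply Finset.sum_congr rfl
      intro a _
      rw [Finset.mul_sum, ← Finset.sum_sub_distrib]
      apply Finset.sum_congr rfl
      intro b _
      ring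
    rw [hsplit, hmain, hpow]
    unfold AC
    have hm3 : χ (k : ZMod N) * ψ (h : ZMod N) * ((k : ℂ) ^ (-1 - η) / Y) *
        ((Sf χ ψ) / N * (Gamma (1 - η) / η) * ((k : ℂ) ^ η * (k : ℂ) ^ η * (Y : ℂ) ^ η)) =
        (χ (k : ZMod N) * ψ (h : ZMod N) * Sf χ ψ) * ((N : ℂ)⁻¹ * (Gamma (1 - η) / η) *
          ((k : ℂ) ^ (η - 1) * (Y : ℂ) ^ (η - 1))) := by
      rw [e1, e2, e3]
      exact A20_alg1 _ _ _ _ _ _ _ _ _ hkη
    have hm4 : (1 / ((k * N : ℕ) : ℂ)) * (Y : ℂ) ^ (η - 1) *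
        (χ⁻¹ (h : ZMod N) * ψ⁻¹ (k : ZMod N) * (k : ℂ) ^ η * JF χ ψ η) =
        χ⁻¹ (h : ZMod N) * ψ⁻¹ (k : ZMod N) *
          ((N : ℂ)⁻¹ * JF χ ψ η * (k : ℂ) ^ (η - 1) * (Y : ℂ) ^ (η - 1)) := by
      rw [e2, Nat.cast_mul]
      ring
    rw [hm4]
    rw [hsf2] at hm3
    linear_combination (-1) * hm3
  rw [hid]
  have hE : 1 ≤ 1 + 1 / ‖η‖ :=
    le_add_of_nonneg_right (div_nonneg zero_le_one (norm_nonneg _))
  set E : ℝ := 1 + 1 / ‖η‖ with hEd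
  have hE0 : 0 ≤ E := by linarith
  set k54 : ℝ := (k : ℝ) ^ (5/4 : ℝ) with hk54
  have hk540 : 0 ≤ k54 := Real.rpow_nonneg hkR.le _
  have n1 : ‖∑ a ∈ Finset.Icc 1 (k * N), ∑ b : ZMod N,
        χ (a : ZMod N) * ψ b * (S a b - (1 / ((k * N : ℕ) : ℂ)) * (Y : ℂ) ^ (η - 1) * J a b)‖ ≤
      C1 * C0 * 19 * (N : ℝ) ^ (9/4 : ℝ) * E * k54 * Z := by
    rw [Finset.sum_comm]
    have hin : ∀ b ∈ (Finset.univ : Finset (ZMod N)), ‖∑ a ∈ Finset.Icc 1 (k * N),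
        χ (a : ZMod N) * ψ b * (S a b - (1 / ((k * N : ℕ) : ℂ)) * (Y : ℂ) ^ (η - 1) * J a b)‖ ≤
        (C1 * C0 * K8 * Z8) * (19 * ((k * N : ℕ) : ℝ) ^ (9/8 : ℝ)) := by
      intro b _
      refine (norm_sum_le_of_le _ fun a ha => hcl a ha b).trans ?_
      rw [← Finset.mul_sum]
      apply mul_le_mul_of_nonneg_left _ (by positivity)
      exact T04_sum N h k b.val hk hN hc hhN
    refine (norm_sum_le_of_le _ hin).trans ?_
    rw [Finset.sum_const, Finset.card_univ, ZMod.card, nsmul_eq_mul]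
    have hKpos : (0 : ℝ) < ((k * N : ℕ) : ℝ) := by exact_mod_cast hK
    have e5 : K8 * ((k * N : ℕ) : ℝ) ^ (9/8 : ℝ) = k54 * (N : ℝ) ^ (5/4 : ℝ) := by
      rw [hK8, ← Real.rpow_add hKpos, hk54, Nat.cast_mul, ← Real.mul_rpow hkR.le hNR.le]
      norm_num
    have e6 : (N : ℝ) * (N : ℝ) ^ (5/4 : ℝ) = (N : ℝ) ^ (9/4 : ℝ) := by
      rw [show (9/4 : ℝ) = 1 + 5/4 by norm_num, Real.rpow_add hNR, Real.rpow_one]
    calc (N : ℝ) * ((C1 * C0 * K8 * Z8) * (19 * ((k * N : ℕ) : ℝ) ^ (9/8 : ℝ)))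
        = C1 * C0 * 19 * N * (K8 * ((k * N : ℕ) : ℝ) ^ (9/8 : ℝ)) * Z8 := by ring
      _ = C1 * C0 * 19 * (N : ℝ) ^ (9/4 : ℝ) * k54 * Z8 := by rw [e5, ← e6]; ring
      _ ≤ C1 * C0 * 19 * (N : ℝ) ^ (9/4 : ℝ) * k54 * Z := by gcongr
      _ = C1 * C0 * 19 * (N : ℝ) ^ (9/4 : ℝ) * 1 * k54 * Z := by ring
      _ ≤ _ := by gcongr
  have n3 : ‖χ (k : ZMod N) * ψ (h : ZMod N) * ((k : ℂ) ^ (-1 - η) / Y) * (L - (LF -
        (Sf χ ψ) / N * (Gamma (1 - η) / η) * (((k : ℝ) ^ 2 * Y : ℝ) : ℂ) ^ η))‖ ≤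
      C2 * E * k54 * Z := by
    rw [norm_mul, norm_mul, norm_mul, norm_div, norm_real, Real.norm_eq_abs, abs_of_pos hY]
    have h6 : ‖χ (k : ZMod N)‖ ≤ 1 := DirichletCharacter.norm_le_one χ _
    have h7 : ‖ψ (h : ZMod N)‖ ≤ 1 := DirichletCharacter.norm_le_one ψ _
    have hkn : ‖(k : ℂ) ^ (-1 - η)‖ ≤ (k : ℝ) ^ (-(7/8) : ℝ) := by
      have : (k : ℂ) = ((k : ℝ) : ℂ) := by simp
      rw [this, norm_cpow_eq_rpow_re_of_pos hkR]
      apply Real.rpow_le_rpow_of_exponent_le hk1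
      simp only [sub_re, neg_re, one_re]
      have := (abs_le.1 hη).1
      linarith
    have hk34 : ((k : ℝ) ^ 2 * Y) ^ (3/4 : ℝ) = (k : ℝ) ^ (3/2 : ℝ) * Y ^ (3/4 : ℝ) := by
      rw [Real.mul_rpow (by positivity) hY.le, ← Real.rpow_natCast, ← Real.rpow_mul hkR.le]
      norm_num
    have hZY : Y ^ (3/4 : ℝ) / Y = Z := by
      rw [hZ]
      have : Y ^ (3/4 : ℝ) / Y = Y ^ (3/4 : ℝ) / Y ^ (1 : ℝ) := by rw [Real.rpow_one]
      rw [this, ← Real.rpow_sub hY]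
      norm_num
    have hkk : (k : ℝ) ^ (-(7/8) : ℝ) * (k : ℝ) ^ (3/2 : ℝ) ≤ k54 := by
      rw [← Real.rpow_add hkR, hk54]
      exact Real.rpow_le_rpow_of_exponent_le hk1 (by norm_num)
    rw [hk34] at hlap
    calc ‖χ (k : ZMod N)‖ * ‖ψ (h : ZMod N)‖ * (‖(k : ℂ) ^ (-1 - η)‖ / Y) * ‖L - (LF -
        (Sf χ ψ) / N * (Gamma (1 - η) / η) * (((k : ℝ) ^ 2 * Y : ℝ) : ℂ) ^ η)‖
        ≤ 1 * 1 * ((k : ℝ) ^ (-(7/8) : ℝ) / Y) * (C2 * E * ((k : ℝ) ^ (3/2 : ℝ) * Y ^ (3/4 : ℝ))) := by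
          gcongr
      _ = C2 * E * ((k : ℝ) ^ (-(7/8) : ℝ) * (k : ℝ) ^ (3/2 : ℝ)) * (Y ^ (3/4 : ℝ) / Y) := by ring
      _ ≤ C2 * E * k54 * Z := by
          rw [hZY]
          gcongr
  refine (norm_add_le _ _).trans ?_
  calc _ ≤ C1 * C0 * 19 * (N : ℝ) ^ (9/4 : ℝ) * E * k54 * Z +
        C2 * E * k54 * Z := add_le_add n1 n3
    _ = (C1 * C0 * 19 * (N : ℝ) ^ (9/4 : ℝ) + C2) * E * k54 * Z := by ring

end LT2
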