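import Pool.Agent.Lib.MP_0f5a55_nt.V.V49
import Pool.Agent.Lib.MP_0f5a55_nt.S.S00
import Pool.Agent.Lib.MP_0f5a55_nt.S.T05

open Complex MeasureTheory Set Filter Topology
open scoped ComplexConjugate

namespace LS

open LZ (PP nS EE Ac)

/-- twisted second moment (zeta), error good for mollifiers of length < T^(1/3); from LT2.tsm2 (helper7, 79, 90) with N = 1 -/
theorem tsm2 (U : ℝ) (hU : 0 ≤ U) : ∃ C T0 : ℝ, 0 < C ∧ 2 ≤ T0 ∧ ∀ T : ℝ, T0 ≤ T → ∀ h k : ℕ, 1 ≤ h → 1 ≤ k →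
    (h : ℝ) * k ≤ T →
    ∀ α β : ℂ, |α.re| ≤ 1/200 → |β.re| ≤ 1/200 → |α.im| ≤ U → |β.im| ≤ U → α + β ≠ 0 →
    ‖EE T (fun t => riemannZeta (1/2 + α + t * I) * riemannZeta (1/2 + β - t * I) *
        ((h : ℂ) ^ (-(t * I)) * (k : ℂ) ^ (t * I))) - LZ.mainT T α β h k‖ ≤
      C * (1 + 1 / ‖α + β‖) * ((h : ℝ) * k) ^ (5/8 : ℝ) * T ^ (-(3/4) : ℝ) := by
  obtain ⟨C, T0, hC, hT0, H⟩ := LT2.tsm2 (1 : DirichletCharacter ℂ 1) 1 U hU
  refine ⟨C, T0, hC, hT0, fun T hT h k hh hk hhk α β h1 h2 h3 h4 h5 => ?_⟩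
  have hh1 : (1 : ℝ) ≤ h := by exact_mod_cast hh
  have hk1 : (1 : ℝ) ≤ k := by exact_mod_cast hk
  have c1 : (h : ℝ) ≤ T := (le_mul_of_one_le_right (by linarith) hk1).trans hhk
  have c2 : (k : ℝ) ≤ T := (le_mul_of_one_le_left (by linarith) hh1).trans hhk
  have h6 := H T hT h k hh hk c1 c2 (Nat.coprime_one_right h) (Nat.coprime_one_right k) α β
    (h1.trans (by norm_num)) (h2.trans (by norm_num)) h3 h4 h5
  have hone : ∀ a : ZMod 1, (1 : DirichletCharacter ℂ 1) a = 1 := by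
    intro a
    rw [Subsingleton.elim a 1, map_one]
  have e : LP.mainT (1 : DirichletCharacter ℂ 1) 1 T α β h k = LZ.mainT T α β h k := by
    unfold LP.mainT LZ.mainT
    have e2 : (2 * Real.pi / (((1 : ℕ) : ℝ) * T) : ℝ) = 2 * Real.pi / T := by rw [Nat.cast_one, one_mul]
    rw [mul_one, LZ.A22_Lf, LZ.A22_AC, inv_one]
    simp only [hone]
    rw [e2]
    push_cast
    ring
  rw [LZ.A22_Lf, e] at h6
  exact h6

end LS
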