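import Pool.Agent.Lib.MP_0f5a55_nt.S.Arg5

/-! # The block estimate: simple critical zeros of zeta against the zeros of V to the right -/

open Complex Set Filter Topology MeasureTheory
open scoped ComplexConjugate

namespace LS

/-- the simple zeros of zeta on the critical line with ordinate in an open interval -/
def simpOrd (T1 T2 : ℝ) : Set ℝ :=
  {g : ℝ | T1 < g ∧ g < T2 ∧ riemannZeta (1/2 + g * I) = 0 ∧ deriv riemannZeta (1/2 + g * I) ≠ 0}

theorem simpOrd_finite (T1 T2 : ℝ) : (simpOrd T1 T2).Finite := by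
  obtain ⟨C, T0, -, -, h⟩ := LZ.Gam_count
  refine (h (max T0 (max |T1| |T2|)) (le_max_left _ _)).1.subset ?_
  rintro g ⟨h1, h2, h3, -⟩
  refine ⟨h3, ?_, ?_⟩
  · have h4 : |T1| ≤ max T0 (max |T1| |T2|) := (le_max_left _ _).trans (le_max_right _ _)
    have := neg_abs_le T1
    linarith
  · have h4 : |T2| ≤ max T0 (max |T1| |T2|) := (le_max_right _ _).trans (le_max_right _ _)
    have := le_abs_self T2
    linarith

/-- one rectangle with generic ordinates -/
theorem block_core {lam T y0 y1 Cb : ℝ} (hT : 0 < Real.log T) (h0 : 4 ≤ y0) (hy : y0 < y1)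
    (hth : ∀ t ∈ Icc y0 y1, lam * thd t < Real.log T)
    (hpos : ∀ t : ℝ, 2 ≤ |t| → 1/8 ≤ (VV lam T (2 + t * I)).re)
    (hb0 : ∃ Z : Finset ℝ, (Z.card : ℝ) ≤ Cb ∧ ∀ x ∈ Icc (1/2 : ℝ) 2, (VV lam T (x + y0 * I)).re = 0 → x ∈ Z)
    (hb1 : ∃ Z : Finset ℝ, (Z.card : ℝ) ≤ Cb ∧ ∀ x ∈ Icc (1/2 : ℝ) 2, (VV lam T (x + y1 * I)).re = 0 → x ∈ Z)
    (hg0 : ∀ z : ℂ, 1/2 ≤ z.re → z.re ≤ 2 → z.im = y0 → VV lam T z ≠ 0)
    (hg1 : ∀ z : ℂ, 1/2 ≤ z.re → z.re ≤ 2 → z.im = y1 → VV lam T z ≠ 0) :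
    ∃ A : Finset ℂ, (∀ z ∈ A, VV lam T z = 0 ∧ 1/2 ≤ z.re ∧ z.re < 2 ∧ y0 < z.im ∧ z.im < y1) ∧
      th y1 - th y0 ≤ Real.pi * ((simpOrd (y0 - 1) (y1 + 1) ∩ Icc y0 y1).ncard +
        2 * ∑ z ∈ A, (analyticOrderNatAt (VV lam T) z : ℝ) + 2 * Cb + 4) := by
  classical
  have hU : IsOpen {z : ℂ | 1 < z.im} := isOpen_lt continuous_const Complex.continuous_im
  have hUc : IsPreconnected {z : ℂ | 1 < z.im} := (convex_halfSpace_im_gt 1).isPreconnected
  have hf : DifferentiableOn ℂ (VV lam T) {z : ℂ | 1 < z.im} := by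
    refine (VV_diffOn lam T).mono fun z hz h => ?_
    have hz' : 1 < z.im := hz
    rw [mem_singleton_iff.1 h, Complex.one_im] at hz'
    linarith
  have hz0 : VV lam T (2 + y0 * I) ≠ 0 := by
    intro h
    have := hpos y0 (by rw [abs_of_pos (by linarith)]; linarith)
    rw [h, Complex.zero_re] at this
    linarith
  obtain ⟨A, G, hG, hA, hA1, hfac⟩ := rect_factor hU hUc hf (x0 := 1/2) (x1 := 2) (y0 := y0) (y1 := y1)
    (by norm_num) hy.le (fun z _ _ h _ => by show 1 < z.im; linarith) (z0 := 2 + y0 * I)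
    (by show 1 < (2 + y0 * I : ℂ).im; simp; linarith) hz0
  obtain ⟨Zb, hZb, hZb'⟩ := hb0
  obtain ⟨Zt, hZt, hZt'⟩ := hb1
  have hre2 : ∀ z : ℂ, VV lam T z = 0 → y0 ≤ z.im → z.re ≠ 2 := by
    intro z hz him h
    have h1 := hpos z.im (by rw [abs_of_pos (by linarith)]; linarith)
    have h2 : (2 + z.im * I : ℂ) = z := by
      apply Complex.ext
      · simp [h]
      · simp
    rw [h2, hz, Complex.zero_re] at h1
    linarith
  have hAin : ∀ z ∈ A, VV lam T z = 0 ∧ 1/2 ≤ z.re ∧ z.re < 2 ∧ y0 < z.im ∧ z.im < y1 := by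
    intro z hz
    obtain ⟨h1, h2, h3, h4, h5⟩ := (hA z).1 hz
    refine ⟨h5, h1, lt_of_le_of_ne h2 (hre2 z h5 h3), lt_of_le_of_ne h3 fun h => hg0 z h1 h2 h.symm h5,
      lt_of_le_of_ne h4 fun h => hg1 z h1 h2 h h5⟩
  have hSfin : (simpOrd (y0 - 1) (y1 + 1) ∩ Icc y0 y1).Finite := (simpOrd_finite _ _).subset inter_subset_left
  have h12 : (((1/2 : ℝ)) : ℂ) = 1/2 := by norm_num
  have h2' : (((2 : ℝ)) : ℂ) = 2 := by norm_num
  have h := rect_arg (f := VV lam T) (G := G) (x0 := 1/2) (x1 := 2) (y0 := y0) (y1 := y1) (by norm_num) hy A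
    (analyticOrderNatAt (VV lam T)) (fun ρ hρ => by
      obtain ⟨h1, h2, h3, h4, h5⟩ := hAin ρ hρ
      exact ⟨h2, h3, h4, h5, hA1 ρ hρ⟩) hG hfac th (fun t _ => (th_hasDeriv t).continuousAt.continuousWithinAt)
    hSfin.toFinset Zb Zt (by
      intro t ht h1 h2
      rw [h12] at h1 h2
      rw [Set.Finite.mem_toFinset]
      obtain ⟨h3, h4⟩ := simple_crit hT (hth t ht).ne h1 h2
      exact ⟨⟨by linarith [ht.1], by linarith [ht.2], h3, h4⟩, ht⟩) hZb' hZt' (by
      intro t ht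
      rw [h2']
      have := hpos t (by rw [abs_of_pos (by linarith [ht.1])]; linarith [ht.1])
      linarith)
  refine ⟨A, hAin, h.trans ?_⟩
  apply mul_le_mul_of_nonneg_left _ Real.pi_pos.le
  rw [Set.ncard_eq_toFinset_card _ hSfin]
  linarith

/-- THE BLOCK ESTIMATE (argument principle part of Levinson's method for simple zeros). -/
theorem Arg_block {lam K : ℝ} (hlam : 0 < lam) (hlam2 : lam < 2) (hK : 1 ≤ K) :
    ∃ C T0 : ℝ, 0 < C ∧ 3 ≤ T0 ∧ ∀ T : ℝ, T0 ≤ T → ∀ T1 T2 : ℝ, Real.sqrt T ≤ T1 → T1 < T2 → T2 ≤ K * T →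
      ∃ A : Finset ℂ, (∀ z ∈ A, VV lam T z = 0 ∧ 1/2 ≤ z.re ∧ z.re < 2 ∧ T1 < z.im ∧ z.im < T2) ∧
        (T2 - T1) / (2 * Real.pi) * Real.log (T1 / (2 * Real.pi)) -
          2 * ∑ z ∈ A, (analyticOrderNatAt (VV lam T) z : ℝ) - C * Real.log T ≤ ((simpOrd T1 T2).ncard : ℝ) := by
  classical
  obtain ⟨CV, TV, hCV, hTV, hV⟩ := VV_bounds lam
  obtain ⟨CB, TB, hCB, hTB, hB⟩ := backlund lam K hK
  have hpi := Real.pi_pos
  have hpi3 := Real.pi_gt_three
  have hpi4 : Real.pi < 3.15 := Real.pi_lt_d2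
  have hlK : 0 ≤ Real.log K := Real.log_nonneg hK
  set E : ℝ := (lam / 2 * Real.log K + 6 * lam + 1) / (1 - lam / 2) with hE
  have hl1 : 0 < 1 - lam / 2 := by linarith
  have hE0 : 0 < E := by positivity
  refine ⟨7 * (Real.log K + 1) + 2 * CB + 4, max (max TV TB) (max 64 (Real.exp E)), by positivity,
    hTV.trans ((le_max_left _ _).trans (le_max_left _ _)), ?_⟩
  intro T hT T1 T2 hs h12 hK2
  have hTV' : TV ≤ T := ((le_max_left TV TB).trans (le_max_left _ _)).trans hT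
  have hTB' : TB ≤ T := ((le_max_right TV TB).trans (le_max_left _ _)).trans hT
  have h64 : 64 ≤ T := ((le_max_left 64 (Real.exp E)).trans (le_max_right _ _)).trans hT
  have hTE : Real.exp E ≤ T := ((le_max_right 64 (Real.exp E)).trans (le_max_right _ _)).trans hT
  have hT0 : 0 < T := by linarith
  have hl3 : 1 ≤ Real.log 3 := by
    rw [Real.le_log_iff_exp_le (by norm_num)]
    exact Real.exp_one_lt_d9.le.trans (by norm_num)
  have hlT : 1 ≤ Real.log T := hl3.trans (Real.log_le_log (by norm_num) (by linarith))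
  have hlTE : E ≤ Real.log T := by
    have := Real.log_le_log (Real.exp_pos E) hTE
    rwa [Real.log_exp] at this
  have hsq : 8 ≤ Real.sqrt T := by
    rw [Real.le_sqrt (by norm_num) hT0.le]
    linarith
  have h8 : 8 ≤ T1 := hsq.trans hs
  have hlogK : Real.log (K * T) ≤ (Real.log K + 1) * Real.log T := by
    rw [Real.log_mul (by linarith) hT0.ne']
    nlinarith
  have hT1pi : 0 ≤ Real.log (T1 / (2 * Real.pi)) := by
    apply Real.log_nonneg
    rw [le_div_iff₀ (by positivity)]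
    linarith
  have hT1le : Real.log (T1 / (2 * Real.pi)) ≤ Real.log (K * T) := by
    apply Real.log_le_log (by positivity)
    have : T1 / (2 * Real.pi) ≤ T1 := div_le_self (by linarith) (by linarith)
    linarith
  rcases le_or_gt (T2 - T1) 2 with hsmall | hbig
  · refine ⟨∅, by simp, ?_⟩
    rw [Finset.sum_empty, mul_zero, sub_zero]
    have h1 : (T2 - T1) / (2 * Real.pi) ≤ 1 := by
      rw [div_le_one (by positivity)]
      linarith
    have h2 : (T2 - T1) / (2 * Real.pi) * Real.log (T1 / (2 * Real.pi)) ≤ 1 * Real.log (T1 / (2 * Real.pi)) :=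
      mul_le_mul_of_nonneg_right h1 hT1pi
    have h3 : (0 : ℝ) ≤ ((simpOrd T1 T2).ncard : ℝ) := Nat.cast_nonneg _
    have h4 : 0 ≤ (6 * (Real.log K + 1) + 2 * CB + 4) * Real.log T := by positivity
    nlinarith
  -- generic ordinates
  have hU : IsOpen {z : ℂ | 1 < z.im} := isOpen_lt continuous_const Complex.continuous_im
  have hUc : IsPreconnected {z : ℂ | 1 < z.im} := (convex_halfSpace_im_gt 1).isPreconnected
  have hf : DifferentiableOn ℂ (VV lam T) {z : ℂ | 1 < z.im} := by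
    refine (VV_diffOn lam T).mono fun z hz h => ?_
    have hz' : 1 < z.im := hz
    rw [mem_singleton_iff.1 h, Complex.one_im] at hz'
    linarith
  obtain ⟨-, hpos⟩ := hV T hTV'
  have hfinz : {z ∈ Icc (1/2 : ℝ) 2 ×ℂ Icc T1 T2 | VV lam T z = 0}.Finite := by
    refine finite_zeros hU hUc hf (isCompact_Icc.reProdIm isCompact_Icc) (fun z hz => ?_) (z0 := 2 + T1 * I)
      (by show 1 < (2 + T1 * I : ℂ).im; simp; linarith) (fun h => ?_)
    · have := (Complex.mem_reProdIm.1 hz).2.1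
      show 1 < z.im
      linarith
    · have := hpos T1 (by rw [abs_of_pos (by linarith)]; linarith)
      rw [h, Complex.zero_re] at this
      linarith
  have hfinI : (Complex.im '' {z ∈ Icc (1/2 : ℝ) 2 ×ℂ Icc T1 T2 | VV lam T z = 0}).Finite := hfinz.image _
  obtain ⟨y0, hy0, hy0'⟩ := (Set.Ioo_infinite (show T1 < T1 + 1 by linarith)).exists_notMem_finset hfinI.toFinset
  obtain ⟨y1, hy1, hy1'⟩ := (Set.Ioo_infinite (show T2 - 1 < T2 by linarith)).exists_notMem_finset hfinI.toFinset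
  rw [Set.Finite.mem_toFinset] at hy0' hy1'
  have hgen : ∀ y : ℝ, T1 ≤ y → y ≤ T2 → y ∉ Complex.im '' {z ∈ Icc (1/2 : ℝ) 2 ×ℂ Icc T1 T2 | VV lam T z = 0} →
      ∀ z : ℂ, 1/2 ≤ z.re → z.re ≤ 2 → z.im = y → VV lam T z ≠ 0 := by
    intro y h1 h2 hy z h3 h4 h5 h6
    exact hy ⟨z, ⟨Complex.mem_reProdIm.2 ⟨⟨h3, h4⟩, ⟨by rw [h5]; exact h1, by rw [h5]; exact h2⟩⟩, h6⟩, h5⟩
  have hlt : y0 < y1 := by linarith [hy0.2, hy1.1]
  have hth : ∀ t ∈ Icc y0 y1, lam * thd t < Real.log T := by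
    intro t ht
    have ht1 : 8 ≤ t := by linarith [hy0.1, ht.1]
    have ht2 : t ≤ K * T := by linarith [hy1.2, ht.2]
    have h1 := (abs_le.mp (thd_bound (by linarith : 1 ≤ t))).2
    have h2 : 6 / t ≤ 6 := div_le_self (by norm_num) (by linarith)
    have h3 : Real.log (t / (2 * Real.pi)) ≤ Real.log K + Real.log T := by
      rw [← Real.log_mul (by linarith) hT0.ne']
      apply Real.log_le_log (by positivity)
      have : t / (2 * Real.pi) ≤ t := div_le_self (by linarith) (by linarith)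
      linarith
    have h4 : thd t ≤ (Real.log K + Real.log T) / 2 + 6 := by linarith
    have h5 := mul_le_mul_of_nonneg_left h4 hlam.le
    have h6 : lam / 2 * Real.log K + 6 * lam + 1 ≤ (1 - lam / 2) * Real.log T := by
      rw [hE, div_le_iff₀ hl1] at hlTE
      linarith
    linarith
  obtain ⟨A, hA, hmain⟩ := block_core (Cb := CB * Real.log T) (by linarith) (by linarith [hy0.1]) hlt hth hpos
    (hB T hTB' y0 (by linarith [hy0.1]) (by linarith [hy0.2]))
    (hB T hTB' y1 (by linarith [hy1.1]) (by linarith [hy1.2]))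
    (hgen y0 hy0.1.le (by linarith [hy0.2]) hy0') (hgen y1 (by linarith [hy1.1]) hy1.2.le hy1')
  refine ⟨A, fun z hz => ?_, ?_⟩
  · obtain ⟨h1, h2, h3, h4, h5⟩ := hA z hz
    exact ⟨h1, h2, h3, by linarith [hy0.1], by linarith [hy1.2]⟩
  have hcard : ((simpOrd (y0 - 1) (y1 + 1) ∩ Icc y0 y1).ncard : ℝ) ≤ (simpOrd T1 T2).ncard := by
    have := Set.ncard_le_ncard (s := simpOrd (y0 - 1) (y1 + 1) ∩ Icc y0 y1) (t := simpOrd T1 T2) (by
      rintro g ⟨⟨-, -, h3, h4⟩, h5⟩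
      exact ⟨by linarith [hy0.1, h5.1], by linarith [hy1.2, h5.2], h3, h4⟩) (simpOrd_finite T1 T2)
    exact_mod_cast this
  have hlow := th_lower (T1 := y0) (T2 := y1) (by linarith [hy0.1]) hlt.le
  have h1 : (T2 - T1 - 2) / 2 * Real.log (T1 / (2 * Real.pi)) ≤ (y1 - y0) / 2 * Real.log (y0 / (2 * Real.pi)) := by
    apply mul_le_mul
    · linarith [hy0.2, hy1.1]
    · apply Real.log_le_log (by positivity)
      gcongr
      exact hy0.1.le
    · exact hT1pi
    · linarith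
  have h2 : Real.log y1 ≤ (Real.log K + 1) * Real.log T := by
    refine (Real.log_le_log (by linarith [hy1.1]) ?_).trans hlogK
    linarith [hy1.2]
  have h3 : Real.log (T1 / (2 * Real.pi)) ≤ (Real.log K + 1) * Real.log T := hT1le.trans hlogK
  set X := Real.log (T1 / (2 * Real.pi)) with hX
  set Y := (Real.log K + 1) * Real.log T with hY
  set Sg := ∑ z ∈ A, (analyticOrderNatAt (VV lam T) z : ℝ) with hSg
  have h4 : (T2 - T1) / 2 * X ≤ Real.pi * (((simpOrd T1 T2).ncard : ℝ) + 2 * Sg + 2 * (CB * Real.log T) + 4) + 7 * Y := by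
    have e : (T2 - T1 - 2) / 2 * X = (T2 - T1) / 2 * X - X := by ring
    rw [e] at h1
    have h5 : Real.pi * (((simpOrd (y0 - 1) (y1 + 1) ∩ Icc y0 y1).ncard : ℝ) + 2 * Sg + 2 * (CB * Real.log T) + 4) ≤
        Real.pi * (((simpOrd T1 T2).ncard : ℝ) + 2 * Sg + 2 * (CB * Real.log T) + 4) := by
      apply mul_le_mul_of_nonneg_left _ hpi.le
      linarith
    linarith
  have hYpos : 0 ≤ Y := by positivity
  have h6 : (T2 - T1) / (2 * Real.pi) * X ≤ ((simpOrd T1 T2).ncard : ℝ) + 2 * Sg + 2 * (CB * Real.log T) + 4 + 7 * Y := by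
    have e : (T2 - T1) / (2 * Real.pi) * X = ((T2 - T1) / 2 * X) / Real.pi := by
      field_simp
    rw [e, div_le_iff₀ hpi]
    refine h4.trans ?_
    nlinarith
  have e7 : (7 * (Real.log K + 1) + 2 * CB + 4) * Real.log T = 7 * Y + 2 * (CB * Real.log T) + 4 * Real.log T := by
    rw [hY]
    ring
  rw [e7]
  linarith

end LS
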