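import Pool.Agent.Lib.MP_0f5a55_nt.S.S00
import Pool.Agent.Lib.MP_0f5a55_nt.S.Arg6

open Complex MeasureTheory Set Filter Topology
open scoped ComplexConjugate

namespace LS

/-- helper16: argument principle on the block (T1,T2); A a finite set of zeros of V in Re z >= 1/2 -/
theorem block (lam K : ℝ) (hl0 : 0 < lam) (hl2 : lam < 2) (hK : 1 ≤ K) : ∃ C T0 : ℝ, 0 < C ∧ 2 ≤ T0 ∧
    ∀ T : ℝ, T0 ≤ T → ∀ T1 T2 : ℝ, Real.sqrt T ≤ T1 → T1 < T2 → T2 ≤ K * T →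
    ∃ A : Finset ℂ, ∃ Y : Finset ℝ, (∀ z ∈ A, VV lam T z = 0 ∧ 1/2 ≤ z.re ∧ T1 < z.im ∧ z.im < T2) ∧
      (∀ g ∈ Y, T1 < g ∧ g < T2 ∧ riemannZeta (1/2 + g * I) = 0 ∧ deriv riemannZeta (1/2 + g * I) ≠ 0) ∧
      (T2 - T1) / (2 * Real.pi) * Real.log (T1 / (2 * Real.pi)) -
        2 * ∑ z ∈ A, (analyticOrderNatAt (VV lam T) z : ℝ) - C * Real.log T ≤ Y.card := by
  obtain ⟨C, T0, hC, hT0, h⟩ := Arg_block hl0 hl2 hK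
  refine ⟨C, T0, hC, by linarith, fun T hT T1 T2 h1 h2 h3 => ?_⟩
  obtain ⟨A, hA, hA'⟩ := h T hT T1 T2 h1 h2 h3
  refine ⟨A, (simpOrd_finite T1 T2).toFinset, fun z hz => ?_, fun g hg => ?_, ?_⟩
  · obtain ⟨a1, a2, a3, a4, a5⟩ := hA z hz
    exact ⟨a1, a2, a4, a5⟩
  · rw [Set.Finite.mem_toFinset] at hg
    exact hg
  · rw [Set.ncard_eq_toFinset_card _ (simpOrd_finite T1 T2)] at hA'
    exact hA'

theorem block_fin (lam K : ℝ) (hl0 : 0 < lam) (hl2 : lam < 2) (hK : 1 ≤ K) : ∃ C T0 : ℝ, 0 < C ∧ 2 ≤ T0 ∧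
    ∀ T : ℝ, T0 ≤ T → ∀ T1 T2 : ℝ, Real.sqrt T ≤ T1 → T1 < T2 → T2 ≤ K * T →
    ∃ A : Finset ℂ, ∃ Y : Finset ℝ, (∀ z ∈ A, VV lam T z = 0 ∧ 1/2 ≤ z.re ∧ T1 < z.im ∧ z.im < T2) ∧
      (∀ g ∈ Y, T1 < g ∧ g < T2 ∧ riemannZeta (1/2 + g * I) = 0 ∧ deriv riemannZeta (1/2 + g * I) ≠ 0) ∧
      (T2 - T1) / (2 * Real.pi) * Real.log (T1 / (2 * Real.pi)) -
        2 * ∑ z ∈ A, (analyticOrderNatAt (VV lam T) z : ℝ) - C * Real.log T ≤ Y.card :=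
  block lam K hl0 hl2 hK

end LS
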