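import Mathlib

/-! # Argument lemmas: counting by the intermediate value theorem, the argument along a rectangle -/

open Complex Set Filter Topology

namespace LS

/-- number of integers in a real interval -/
theorem arg_int_card (x y : ℝ) : y - x - 1 ≤ ((Finset.Icc ⌈x⌉ ⌊y⌋).card : ℝ) := by
  rw [Int.card_Icc]
  have h1 : (⌈x⌉ : ℝ) < x + 1 := Int.ceil_lt_add_one x
  have h2 : y < (⌊y⌋ : ℝ) + 1 := Int.lt_floor_add_one y
  have h3 : ((⌊y⌋ + 1 - ⌈x⌉ : ℤ) : ℝ) ≤ ((⌊y⌋ + 1 - ⌈x⌉).toNat : ℝ) := by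
    have := Int.self_le_toNat (⌊y⌋ + 1 - ⌈x⌉)
    exact_mod_cast this
  push_cast at h3
  linarith

/-- one-sided counting lemma: a continuous phase increasing by `D` has at least `D/pi - 1` zeros of the cosine -/
theorem arg_count_le {Φ : ℝ → ℝ} {a b : ℝ} (hab : a ≤ b) (hΦ : ContinuousOn Φ (Icc a b)) (Z : Finset ℝ)
    (hZ : ∀ t ∈ Icc a b, Real.cos (Φ t) = 0 → t ∈ Z) : Φ b - Φ a ≤ Real.pi * (Z.card + 1) := by
  classical
  rcases le_or_gt (Φ b) (Φ a) with h | h
  · have : 0 ≤ Real.pi * ((Z.card : ℝ) + 1) := by positivity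
    linarith
  have hpi := Real.pi_pos
  -- the integers k with pi/2 + k pi between
  have hex : ∀ k ∈ Finset.Icc ⌈Φ a / Real.pi - 1 / 2⌉ ⌊Φ b / Real.pi - 1 / 2⌋,
      ∃ t ∈ Icc a b, Φ t = Real.pi / 2 + k * Real.pi := by
    intro k hk
    rw [Finset.mem_Icc, Int.ceil_le, Int.le_floor] at hk
    have h1 : Φ a ≤ Real.pi / 2 + k * Real.pi := by
      have := mul_le_mul_of_nonneg_right hk.1 hpi.le
      rw [sub_mul, div_mul_cancel₀ _ hpi.ne'] at this
      linarith
    have h2 : Real.pi / 2 + k * Real.pi ≤ Φ b := by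
      have := mul_le_mul_of_nonneg_right hk.2 hpi.le
      rw [sub_mul, div_mul_cancel₀ _ hpi.ne'] at this
      linarith
    obtain ⟨t, ht, hte⟩ := intermediate_value_Icc hab hΦ ⟨h1, h2⟩
    exact ⟨t, ht, hte⟩
  choose! t ht hte using hex
  have hinj : Set.InjOn t (Finset.Icc ⌈Φ a / Real.pi - 1 / 2⌉ ⌊Φ b / Real.pi - 1 / 2⌋ : Finset ℤ) := by
    intro k hk l hl hkl
    have h1 := hte k hk
    have h2 := hte l hl
    rw [hkl, h2] at h1
    have h3 : (l : ℝ) * Real.pi = k * Real.pi := by linarith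
    have h4 := mul_right_cancel₀ hpi.ne' h3
    exact_mod_cast h4.symm
  have hsub : ∀ k ∈ Finset.Icc ⌈Φ a / Real.pi - 1 / 2⌉ ⌊Φ b / Real.pi - 1 / 2⌋, t k ∈ Z := by
    intro k hk
    apply hZ _ (ht k hk)
    rw [hte k hk, Real.cos_eq_zero_iff]
    exact ⟨k, by ring⟩
  have hcard := Finset.card_le_card_of_injOn t hsub hinj
  have h1 := arg_int_card (Φ a / Real.pi - 1 / 2) (Φ b / Real.pi - 1 / 2)
  have h2 : ((Finset.Icc ⌈Φ a / Real.pi - 1 / 2⌉ ⌊Φ b / Real.pi - 1 / 2⌋).card : ℝ) ≤ Z.card := by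
    exact_mod_cast hcard
  have h3 : (Φ b - Φ a) / Real.pi ≤ Z.card + 1 := by
    rw [sub_div]
    linarith
  rwa [div_le_iff₀ hpi, mul_comm] at h3

/-- the other side -/
theorem arg_count_ge {Φ : ℝ → ℝ} {a b : ℝ} (hab : a ≤ b) (hΦ : ContinuousOn Φ (Icc a b)) (Z : Finset ℝ)
    (hZ : ∀ t ∈ Icc a b, Real.cos (Φ t) = 0 → t ∈ Z) : Φ a - Φ b ≤ Real.pi * (Z.card + 1) := by
  have h := arg_count_le (Φ := fun t => - Φ t) hab hΦ.neg Z (by
    intro t ht h
    rw [Real.cos_neg] at h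
    exact hZ t ht h)
  linarith

/-- the phase of a product of linear factors and an exponential -/
theorem arg_prod (A : Finset ℂ) (μ : ℂ → ℕ) (z : ℂ) (r φ : ℂ → ℝ) (w : ℂ)
    (h : ∀ ρ ∈ A, z - ρ = (r ρ : ℂ) * exp (φ ρ * I)) :
    (∏ ρ ∈ A, (z - ρ) ^ μ ρ) * exp w =
      (((∏ ρ ∈ A, r ρ ^ μ ρ) * Real.exp w.re : ℝ) : ℂ) *
        exp (((∑ ρ ∈ A, μ ρ * φ ρ + w.im : ℝ) : ℂ) * I) := by
  have h1 : (∏ ρ ∈ A, (z - ρ) ^ μ ρ) =
      ((∏ ρ ∈ A, r ρ ^ μ ρ : ℝ) : ℂ) * exp (((∑ ρ ∈ A, μ ρ * φ ρ : ℝ) : ℂ) * I) := by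
    rw [Complex.ofReal_sum, Finset.sum_mul, Complex.exp_sum, Complex.ofReal_prod, ← Finset.prod_mul_distrib]
    refine Finset.prod_congr rfl fun ρ hρ => ?_
    rw [h ρ hρ, mul_pow, ← Complex.exp_nat_mul, Complex.ofReal_pow]
    congr 2
    push_cast
    ring
  have h2 : exp w = ((Real.exp w.re : ℝ) : ℂ) * exp ((w.im : ℂ) * I) := by
    rw [Complex.ofReal_exp, ← Complex.exp_add, Complex.re_add_im]
  rw [h1, h2]
  have h3 : exp (((∑ ρ ∈ A, μ ρ * φ ρ + w.im : ℝ) : ℂ) * I) =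
      exp (((∑ ρ ∈ A, μ ρ * φ ρ : ℝ) : ℂ) * I) * exp ((w.im : ℂ) * I) := by
    rw [← Complex.exp_add]
    congr 1
    push_cast
    ring
  rw [h3, Complex.ofReal_mul]
  ring

theorem arg_re (r x : ℝ) : ((r : ℂ) * exp ((x : ℂ) * I)).re = r * Real.cos x := by
  rw [Complex.re_ofReal_mul, Complex.exp_ofReal_mul_I_re]

/-- phase of a path in the slit plane -/
theorem arg_path {z ρ : ℂ} : z - ρ = ((‖z - ρ‖ : ℝ) : ℂ) * exp ((arg (z - ρ) : ℂ) * I) :=
  (Complex.norm_mul_exp_arg_mul_I (z - ρ)).symm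

/-- one side of the rectangle on which all factors stay in the slit plane -/
theorem arg_side {f G : ℂ → ℂ} {A : Finset ℂ} {μ : ℂ → ℕ} {γ : ℝ → ℂ} {a b : ℝ} (hab : a ≤ b)
    (hγ : Continuous γ) (hG : Continuous G) (hs : ∀ t ∈ Icc a b, ∀ ρ ∈ A, γ t - ρ ∈ slitPlane)
    (hf : ∀ t ∈ Icc a b, f (γ t) = (∏ ρ ∈ A, (γ t - ρ) ^ μ ρ) * exp (G (γ t)))
    (Z : Finset ℝ) (hZ : ∀ t ∈ Icc a b, (f (γ t)).re = 0 → t ∈ Z) :
    |(∑ ρ ∈ A, μ ρ * arg (γ b - ρ) + (G (γ b)).im) - (∑ ρ ∈ A, μ ρ * arg (γ a - ρ) + (G (γ a)).im)| ≤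
      Real.pi * (Z.card + 1) := by
  have hc : ContinuousOn (fun t => ∑ ρ ∈ A, μ ρ * arg (γ t - ρ) + (G (γ t)).im) (Icc a b) := by
    refine ContinuousOn.add (continuousOn_finsetSum _ fun ρ hρ => ?_) ?_
    · refine continuousOn_const.mul ?_
      intro t ht
      have h1 := Complex.continuousAt_arg (hs t ht ρ hρ)
      have h2 : ContinuousAt (fun t => γ t - ρ) t := (hγ.sub continuous_const).continuousAt
      exact (ContinuousAt.comp (f := fun t => γ t - ρ) h1 h2).continuousWithinAt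
    · exact (Complex.continuous_im.comp (hG.comp hγ)).continuousOn
  have hz : ∀ t ∈ Icc a b, Real.cos (∑ ρ ∈ A, μ ρ * arg (γ t - ρ) + (G (γ t)).im) = 0 → t ∈ Z := by
    intro t ht h
    apply hZ t ht
    rw [hf t ht, arg_prod A μ (γ t) (fun ρ => ‖γ t - ρ‖) (fun ρ => arg (γ t - ρ)) (G (γ t))
      (fun ρ _ => arg_path), arg_re, h, mul_zero]
  have h1 := arg_count_le hab hc Z hz
  have h2 := arg_count_ge hab hc Z hz
  rw [abs_le]
  constructor
  · linarith
  · linarith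

open Classical in
/-- THE RECTANGLE LEMMA: the phase along the left side -/
theorem rect_arg {f G : ℂ → ℂ} {x0 x1 y0 y1 : ℝ} (hx : x0 < x1) (hy : y0 < y1) (A : Finset ℂ) (μ : ℂ → ℕ)
    (hA : ∀ ρ ∈ A, x0 ≤ ρ.re ∧ ρ.re < x1 ∧ y0 < ρ.im ∧ ρ.im < y1 ∧ 1 ≤ μ ρ) (hG : Continuous G)
    (hf : ∀ z : ℂ, x0 ≤ z.re → z.re ≤ x1 → y0 ≤ z.im → z.im ≤ y1 →
      f z = (∏ ρ ∈ A, (z - ρ) ^ μ ρ) * exp (G z))
    (θ : ℝ → ℝ) (hθ : ContinuousOn θ (Icc y0 y1)) (S Zb Zt : Finset ℝ)
    (hS : ∀ t ∈ Icc y0 y1, f (x0 + t * I) ≠ 0 → (exp (θ t * I) * f (x0 + t * I)).re = 0 → t ∈ S)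
    (hb : ∀ x ∈ Icc x0 x1, (f (x + y0 * I)).re = 0 → x ∈ Zb)
    (ht : ∀ x ∈ Icc x0 x1, (f (x + y1 * I)).re = 0 → x ∈ Zt)
    (hr : ∀ t ∈ Icc y0 y1, 0 < (f (x1 + t * I)).re) :
    θ y1 - θ y0 ≤ Real.pi * (S.card + 2 * ∑ ρ ∈ A, (μ ρ : ℝ) + Zb.card + Zt.card + 4) := by
  have hpi := Real.pi_pos
  -- bottom, top, right
  have hB := arg_side (f := f) (G := G) (A := A) (μ := μ) (γ := fun x : ℝ => (x : ℂ) + y0 * I) hx.le
    (by fun_prop) hG (by
      intro t ht' ρ hρ
      rw [Complex.mem_slitPlane_iff]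
      right
      have := (hA ρ hρ).2.2.1
      simp
      linarith) (by
      intro t ht'
      apply hf
      · simpa using ht'.1
      · simpa using ht'.2
      · simp
      · simpa using hy.le) Zb hb
  have hT := arg_side (f := f) (G := G) (A := A) (μ := μ) (γ := fun x : ℝ => (x : ℂ) + y1 * I) hx.le
    (by fun_prop) hG (by
      intro t ht' ρ hρ
      rw [Complex.mem_slitPlane_iff]
      right
      have := (hA ρ hρ).2.2.2.1
      simp
      linarith) (by
      intro t ht'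
      apply hf
      · simpa using ht'.1
      · simpa using ht'.2
      · simpa using hy.le
      · simp) Zt ht
  have hR := arg_side (f := f) (G := G) (A := A) (μ := μ) (γ := fun t : ℝ => (x1 : ℂ) + t * I) hy.le
    (by fun_prop) hG (by
      intro t ht' ρ hρ
      rw [Complex.mem_slitPlane_iff]
      left
      have := (hA ρ hρ).2.1
      simp
      linarith) (by
      intro t ht'
      apply hf
      · simpa using hx.le
      · simp
      · simpa using ht'.1
      · simpa using ht'.2) ∅ (by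
      intro t ht' h
      exact absurd h (hr t ht').ne')
  rw [Finset.card_empty, Nat.cast_zero, zero_add, mul_one] at hR

  -- left side
  set φ : ℂ → ℝ → ℝ := fun ρ t => if x0 < ρ.re then arg (ρ - (x0 + t * I)) + Real.pi else Real.pi / 2 with hφ
  set r : ℂ → ℝ → ℝ := fun ρ t => if x0 < ρ.re then ‖ρ - (x0 + t * I)‖ else t - ρ.im with hrdef
  have hfac : ∀ t : ℝ, ∀ ρ ∈ A, (x0 + t * I : ℂ) - ρ = (r ρ t : ℂ) * exp ((φ ρ t : ℂ) * I) := by
    intro t ρ hρ
    simp only [hφ, hrdef]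
    split_ifs with h
    · have h1 := arg_path (z := ρ) (ρ := x0 + t * I)
      have h2 : exp (((arg (ρ - (x0 + t * I)) + Real.pi : ℝ) : ℂ) * I) =
          - exp ((arg (ρ - (x0 + t * I)) : ℂ) * I) := by
        push_cast
        rw [add_mul, Complex.exp_add, Complex.exp_pi_mul_I]
        ring
      rw [h2, mul_neg, ← h1]
      ring
    · have h1 : ρ.re = x0 := le_antisymm (not_lt.1 h) (hA ρ hρ).1
      have h2 : exp (((Real.pi / 2 : ℝ) : ℂ) * I) = I := by
        push_cast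
        exact Complex.exp_pi_div_two_mul_I
      rw [h2]
      apply Complex.ext
      · simp [h1]
      · simp
  have hcl : ContinuousOn (fun t : ℝ => θ t + (∑ ρ ∈ A, μ ρ * φ ρ t + (G (x0 + t * I)).im)) (Icc y0 y1) := by
    refine hθ.add (ContinuousOn.add (continuousOn_finsetSum _ fun ρ hρ => ?_) ?_)
    · refine continuousOn_const.mul ?_
      intro t ht'
      by_cases h : x0 < ρ.re
      · simp only [hφ, if_pos h]
        have h1 : ρ - (x0 + t * I) ∈ slitPlane := by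
          rw [Complex.mem_slitPlane_iff]
          left
          simp
          linarith
        have h2 : ContinuousAt (fun t : ℝ => ρ - ((x0 : ℂ) + t * I)) t := by fun_prop
        exact ((ContinuousAt.comp (f := fun t : ℝ => ρ - ((x0 : ℂ) + t * I))
          (Complex.continuousAt_arg h1) h2).add continuousAt_const).continuousWithinAt
      · simp only [hφ, if_neg h]
        exact continuousWithinAt_const
    · exact (Complex.continuous_im.comp (hG.comp (by fun_prop))).continuousOn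
  have hin : ∀ t ∈ Icc y0 y1, f (x0 + t * I) = (∏ ρ ∈ A, ((x0 + t * I : ℂ) - ρ) ^ μ ρ) * exp (G (x0 + t * I)) := by
    intro t ht'
    apply hf
    · simp
    · simpa using hx.le
    · simpa using ht'.1
    · simpa using ht'.2
  have hL := arg_count_le hy.le hcl (S ∪ (A.filter (fun ρ => ρ.re = x0)).image Complex.im) (by
    intro t ht' h
    rw [Finset.mem_union]
    by_cases h0 : f (x0 + t * I) = 0
    · right
      rw [hin t ht', mul_eq_zero] at h0
      rcases h0 with h0 | h0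
      · rw [Finset.prod_eq_zero_iff] at h0
        obtain ⟨ρ, hρ, h1⟩ := h0
        have h2 := eq_zero_of_pow_eq_zero h1
        rw [sub_eq_zero] at h2
        rw [Finset.mem_image]
        refine ⟨ρ, Finset.mem_filter.2 ⟨hρ, ?_⟩, ?_⟩
        · rw [← h2]
          simp
        · rw [← h2]
          simp
      · exact absurd h0 (Complex.exp_ne_zero _)
    · left
      apply hS t ht' h0
      rw [hin t ht', arg_prod A μ (x0 + t * I) (fun ρ => r ρ t) (fun ρ => φ ρ t) _ (hfac t), mul_left_comm,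
        ← Complex.exp_add, ← add_mul, ← Complex.ofReal_add, arg_re, h, mul_zero])
  have hcard : (((S ∪ (A.filter (fun ρ => ρ.re = x0)).image Complex.im).card : ℕ) : ℝ) ≤
      S.card + ∑ ρ ∈ A, (if ρ.re = x0 then (1 : ℝ) else 0) := by
    have h1 := Finset.card_union_le S ((A.filter (fun ρ => ρ.re = x0)).image Complex.im)
    have h2 : ((A.filter (fun ρ => ρ.re = x0)).image Complex.im).card ≤ (A.filter (fun ρ => ρ.re = x0)).card :=
      Finset.card_image_le
    have h3 : ((A.filter (fun ρ => ρ.re = x0)).card : ℝ) = ∑ ρ ∈ A, (if ρ.re = x0 then (1 : ℝ) else 0) := by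
      rw [Finset.sum_boole]
    rw [← h3]
    exact_mod_cast h1.trans (by omega)
  -- comparison of the phases at the corners
  have hcmp : ∀ ρ ∈ A, (μ ρ : ℝ) * (arg (x0 + y1 * I - ρ) - arg (x0 + y0 * I - ρ)) +
      (if ρ.re = x0 then (1 : ℝ) else 0) * Real.pi ≤
      (μ ρ : ℝ) * (φ ρ y1 - φ ρ y0) + 2 * μ ρ * Real.pi := by
    intro ρ hρ
    obtain ⟨h1, h2, h3, h4, h5⟩ := hA ρ hρ
    have h5' : (1 : ℝ) ≤ μ ρ := by exact_mod_cast h5
    by_cases h : x0 < ρ.re
    · rw [if_neg (by linarith : ¬ ρ.re = x0)]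
      simp only [hφ, if_pos h]
      have e1 : arg (ρ - (x0 + y1 * I)) = arg (x0 + y1 * I - ρ) - Real.pi := by
        rw [← neg_sub (x0 + y1 * I) ρ]
        apply Complex.arg_neg_eq_arg_sub_pi_of_im_pos
        simp
        linarith
      have e2 : arg (ρ - (x0 + y0 * I)) = arg (x0 + y0 * I - ρ) + Real.pi := by
        rw [← neg_sub (x0 + y0 * I) ρ]
        apply Complex.arg_neg_eq_arg_add_pi_of_im_neg
        simp
        linarith
      rw [e1, e2]
      apply le_of_eq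
      ring
    · have h6 : ρ.re = x0 := le_antisymm (not_lt.1 h) h1
      rw [if_pos h6]
      simp only [hφ, if_neg h]
      have e1 : arg (x0 + y1 * I - ρ) = Real.pi / 2 := by
        rw [Complex.arg_eq_pi_div_two_iff]
        constructor
        · simp [h6]
        · simp
          linarith
      have e2 : arg (x0 + y0 * I - ρ) = -(Real.pi / 2) := by
        rw [Complex.arg_eq_neg_pi_div_two_iff]
        constructor
        · simp [h6]
        · simp
          linarith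
      rw [e1, e2]
      nlinarith
  have hsum := Finset.sum_le_sum hcmp
  rw [Finset.sum_add_distrib, Finset.sum_add_distrib, ← Finset.sum_mul, ← Finset.sum_mul, ← Finset.mul_sum] at hsum
  simp only [mul_sub, Finset.sum_sub_distrib] at hsum
  rw [abs_le] at hB hT hR
  nlinarith [hB.1, hT.2, hR.1, hL, hcard, hsum]

end LS
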