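import Mathlib

/-! # The digamma function: Euler's limit and the real part on vertical lines -/

open Complex Set Filter Topology MeasureTheory

namespace LS

/-- pointwise bounded convergence of holomorphic functions gives convergence of the derivatives -/
theorem deriv_tendsto {f : ℕ → ℂ → ℂ} {g : ℂ → ℂ} {c : ℂ} {R M : ℝ} (hR : 0 < R)
    (hf : ∀ᶠ n in atTop, DifferentiableOn ℂ (f n) (Metric.closedBall c R))
    (hg : DifferentiableOn ℂ g (Metric.closedBall c R))
    (hb : ∀ᶠ n in atTop, ∀ z ∈ Metric.sphere c R, ‖f n z‖ ≤ M)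
    (ht : ∀ z ∈ Metric.sphere c R, Tendsto (fun n => f n z) atTop (𝓝 (g z))) :
    Tendsto (fun n => deriv (f n) c) atTop (𝓝 (deriv g c)) := by
  have hpi : (2 * Real.pi * I : ℂ) ≠ 0 := Complex.two_pi_I_ne_zero
  have hcl : ∀ {h : ℂ → ℂ}, DifferentiableOn ℂ h (Metric.closedBall c R) → DiffContOnCl ℂ h (Metric.ball c R) := by
    intro h hh
    apply DifferentiableOn.diffContOnCl
    rwa [closure_ball c hR.ne']
  have key : Tendsto (fun n => ∮ z in C(c, R), (1 / (z - c) ^ 2) • f n z) atTop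
      (𝓝 (∮ z in C(c, R), (1 / (z - c) ^ 2) • g z)) := by
    simp only [circleIntegral]
    apply intervalIntegral.tendsto_integral_filter_of_dominated_convergence (fun _ => R * (1 / R ^ 2 * M))
    · filter_upwards [hf] with n hn
      have c1 : Continuous (fun θ : ℝ => deriv (circleMap c R) θ) := by
        simp only [deriv_circleMap]
        fun_prop
      have c2 : Continuous (fun θ : ℝ => 1 / (circleMap c R θ - c) ^ 2) := by
        refine continuous_const.div (by fun_prop) fun θ => ?_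
        have h1 : circleMap c R θ - c ≠ 0 := by
          rw [circleMap_sub_center]
          simp [hR.ne']
        exact pow_ne_zero 2 h1
      have c3 : Continuous (fun θ : ℝ => f n (circleMap c R θ)) :=
        hn.continuousOn.comp_continuous (continuous_circleMap c R) fun θ =>
          circleMap_mem_closedBall c hR.le θ
      exact (c1.smul (c2.smul c3)).aestronglyMeasurable
    · filter_upwards [hb] with n hn
      refine Eventually.of_forall fun θ _ => ?_
      have h1 := hn _ (circleMap_mem_sphere c hR.le θ)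
      rw [norm_smul, norm_smul, norm_div, norm_one, norm_pow, circleMap_sub_center, norm_circleMap_zero,
        abs_of_pos hR, deriv_circleMap, norm_mul, Complex.norm_I, mul_one, norm_circleMap_zero, abs_of_pos hR]
      gcongr
    · exact intervalIntegrable_const
    · refine Eventually.of_forall fun θ _ => ?_
      have h1 := ht _ (circleMap_mem_sphere c hR.le θ)
      exact (h1.const_smul _).const_smul _
  have h1 := (hcl hg).deriv_eq_smul_circleIntegral hR
  rw [h1] at key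
  have h2 : Tendsto (fun n => (2 * Real.pi * I) • deriv (f n) c) atTop (𝓝 ((2 * Real.pi * I) • deriv g c)) := by
    refine key.congr' ?_
    filter_upwards [hf] with n hn
    exact (hcl hn).deriv_eq_smul_circleIntegral hR
  have h3 := h2.const_smul ((2 * Real.pi * I : ℂ)⁻¹)
  simp only [smul_smul, inv_mul_cancel₀ hpi, one_smul] at h3
  exact h3

/-- a bound for the Euler product on 0 < x <= 1 -/
theorem euler_bound {x : ℝ} (hx : 0 < x) (hx1 : x ≤ 1) (n : ℕ) :
    ((n : ℝ) + 1) ^ x * n.factorial * x ≤ ∏ j ∈ Finset.range (n + 1), (x + j) := by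
  induction n with
  | zero => simp
  | succ n ih =>
    rw [Finset.prod_range_succ]
    have hn : (0 : ℝ) < (n : ℝ) + 1 := by positivity
    have h1 := rpow_one_add_le_one_add_mul_self (s := 1 / ((n : ℝ) + 1)) (by
      have : (0 : ℝ) < 1 / ((n : ℝ) + 1) := by positivity
      linarith) hx.le hx1
    have h2 : ((n : ℝ) + 1 + 1) ^ x = ((n : ℝ) + 1) ^ x * (1 + 1 / ((n : ℝ) + 1)) ^ x := by
      rw [← Real.mul_rpow hn.le (by positivity)]
      congr 1
      field_simp
    rw [Nat.factorial_succ]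
    push_cast
    rw [h2]
    calc ((n : ℝ) + 1) ^ x * (1 + 1 / ((n : ℝ) + 1)) ^ x * (((n : ℝ) + 1) * n.factorial) * x
        = (((n : ℝ) + 1) ^ x * n.factorial * x) * ((1 + 1 / ((n : ℝ) + 1)) ^ x * ((n : ℝ) + 1)) := by ring
      _ ≤ (∏ j ∈ Finset.range (n + 1), (x + j)) * ((1 + x * (1 / ((n : ℝ) + 1))) * ((n : ℝ) + 1)) := by
          apply mul_le_mul ih (mul_le_mul_of_nonneg_right h1 hn.le) (by positivity)
          exact Finset.prod_nonneg fun j _ => by positivity
      _ = _ := by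
          field_simp
          ring

theorem gammaSeq_bound {z : ℂ} {b : ℝ} (hb : 0 < b) (h1 : b ≤ z.re) (h2 : z.re ≤ 1) {n : ℕ} (hn : 1 ≤ n) :
    ‖GammaSeq z n‖ ≤ 1 / b := by
  have hx : 0 < z.re := hb.trans_le h1
  have hn0 : (0 : ℝ) < n := by exact_mod_cast hn
  unfold GammaSeq
  rw [norm_div, norm_mul, Complex.norm_natCast_cpow_of_pos (by omega), norm_prod, Complex.norm_natCast]
  have h3 : ∏ j ∈ Finset.range (n + 1), (z.re + j) ≤ ∏ j ∈ Finset.range (n + 1), ‖z + j‖ := by
    refine Finset.prod_le_prod (fun j _ => by positivity) fun j _ => ?_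
    have := Complex.re_le_norm (z + j)
    simpa using this
  have h4 := euler_bound hx h2 n
  have h5 : (n : ℝ) ^ z.re ≤ ((n : ℝ) + 1) ^ z.re := Real.rpow_le_rpow hn0.le (by linarith) hx.le
  have h6 : (0 : ℝ) < ∏ j ∈ Finset.range (n + 1), (z.re + j) := Finset.prod_pos fun j _ => by positivity
  rw [div_le_div_iff₀ (h6.trans_le h3) hb, one_mul]
  have h7 : (n : ℝ) ^ z.re * n.factorial * b ≤ ((n : ℝ) + 1) ^ z.re * n.factorial * z.re := by
    gcongr
  linarith

theorem gammaSeq_logDeriv {z : ℂ} (hz : 0 < z.re) {n : ℕ} (hn : 1 ≤ n) :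
    DifferentiableAt ℂ (fun w => GammaSeq w n) z ∧
    deriv (fun w => GammaSeq w n) z = GammaSeq z n *
      (Complex.log n - ∑ j ∈ Finset.range (n + 1), 1 / (z + j)) := by
  have hn0 : (n : ℂ) ≠ 0 := by exact_mod_cast (by omega : n ≠ 0)
  have hne : ∀ j ∈ Finset.range (n + 1), z + (j : ℂ) ≠ 0 := by
    intro j _ h
    have := congrArg Complex.re h
    simp at this
    have : (0 : ℝ) ≤ j := Nat.cast_nonneg j
    linarith
  have hd1 : DifferentiableAt ℂ (fun w : ℂ => (n : ℂ) ^ w * (n.factorial : ℂ)) z := by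
    apply DifferentiableAt.mul _ (differentiableAt_const _)
    exact differentiableAt_id.const_cpow (Or.inl hn0)
  have hd2 : DifferentiableAt ℂ (fun w : ℂ => ∏ j ∈ Finset.range (n + 1), (w + (j : ℂ))) z := by
    apply DifferentiableAt.fun_finsetProd
    intro j _
    fun_prop
  have hP : ∏ j ∈ Finset.range (n + 1), (z + (j : ℂ)) ≠ 0 := Finset.prod_ne_zero_iff.2 hne
  have hN : (n : ℂ) ^ z * (n.factorial : ℂ) ≠ 0 := by
    apply mul_ne_zero
    · rw [Complex.cpow_def_of_ne_zero hn0]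
      exact Complex.exp_ne_zero _
    · exact_mod_cast n.factorial_ne_zero
  refine ⟨hd1.div hd2 hP, ?_⟩
  have h1 : logDeriv (fun w => GammaSeq w n) z = Complex.log n - ∑ j ∈ Finset.range (n + 1), 1 / (z + j) := by
    unfold GammaSeq
    rw [logDeriv_div z hN hP hd1 hd2, logDeriv_mul_const z _ (by exact_mod_cast n.factorial_ne_zero)]
    congr 1
    · have hd : deriv (fun w : ℂ => (n : ℂ) ^ w) z = (n : ℂ) ^ z * Complex.log n := by
        simpa using (((hasDerivAt_id z).const_cpow (Or.inl hn0))).deriv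
      have : (n : ℂ) ^ z ≠ 0 := by
        rw [Complex.cpow_def_of_ne_zero hn0]
        exact Complex.exp_ne_zero _
      rw [logDeriv_apply]
      exact (div_eq_iff this).2 (by rw [hd, mul_comm])
    · rw [logDeriv_prod hne (fun j _ => by fun_prop)]
      refine Finset.sum_congr rfl fun j _ => ?_
      rw [logDeriv_apply, deriv_add_const, deriv_id'']
  have hG : GammaSeq z n ≠ 0 := div_ne_zero hN hP
  rw [← h1, logDeriv_apply]
  field_simp

/-- Euler's limit for the digamma function -/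
theorem digamma_limit {z : ℂ} (hz : 0 < z.re) (hz1 : z.re < 1) :
    Tendsto (fun n : ℕ => Complex.log n - ∑ j ∈ Finset.range (n + 1), 1 / (z + j)) atTop (𝓝 (digamma z)) := by
  set R : ℝ := min z.re (1 - z.re) / 2 with hR
  have hR0 : 0 < R := by
    have : 0 < min z.re (1 - z.re) := lt_min hz (by linarith)
    positivity
  have hR1 : R ≤ z.re / 2 := by
    have := min_le_left z.re (1 - z.re)
    linarith
  have hR2 : R ≤ (1 - z.re) / 2 := by
    have := min_le_right z.re (1 - z.re)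
    linarith
  have hre : ∀ w ∈ Metric.closedBall z R, z.re / 2 ≤ w.re ∧ w.re ≤ 1 := by
    intro w hw
    rw [mem_closedBall_iff_norm] at hw
    have h1 := (Complex.abs_re_le_norm (w - z)).trans hw
    rw [Complex.sub_re, abs_le] at h1
    constructor <;> linarith
  have hG : Gamma z ≠ 0 := Complex.Gamma_ne_zero_of_re_pos hz
  have h1 : Tendsto (fun n => deriv (fun w => GammaSeq w n) z) atTop (𝓝 (deriv Gamma z)) := by
    apply deriv_tendsto (M := 1 / (z.re / 2)) hR0
    · filter_upwards [eventually_ge_atTop 1] with n hn w hw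
      exact (gammaSeq_logDeriv (by have := (hre w hw).1; linarith) hn).1.differentiableWithinAt
    · intro w hw
      apply (Complex.differentiableAt_Gamma w ?_).differentiableWithinAt
      intro m h
      have h2 := (hre w hw).1
      rw [h] at h2
      simp at h2
      have : (0 : ℝ) ≤ m := Nat.cast_nonneg m
      linarith
    · filter_upwards [eventually_ge_atTop 1] with n hn w hw
      have h2 := hre w (Metric.sphere_subset_closedBall hw)
      exact gammaSeq_bound (by linarith) h2.1 h2.2 hn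
    · intro w _
      exact Complex.GammaSeq_tendsto_Gamma w
  have h2 := Complex.GammaSeq_tendsto_Gamma z
  have h3 := h1.div h2 hG
  rw [digamma_def, logDeriv_apply]
  refine h3.congr' ?_
  filter_upwards [eventually_ge_atTop 1, h2.eventually_ne hG] with n hn hne
  rw [Pi.div_apply, (gammaSeq_logDeriv hz hn).2, mul_div_cancel_left₀ _ hne]

/-- comparison of one term -/
theorem term_cmp {τ a b j : ℝ} (hτ : 0 < τ) (hj : 0 ≤ j) (ha : j ≤ a) (ha' : a ≤ j + 1) (hb : j ≤ b) (hb' : b ≤ j + 1) :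
    |a / (a ^ 2 + τ ^ 2) - b / (b ^ 2 + τ ^ 2)| ≤ 1 / (j ^ 2 + τ ^ 2) := by
  have h1 : 0 < a ^ 2 + τ ^ 2 := by positivity
  have h2 : 0 < b ^ 2 + τ ^ 2 := by positivity
  have h3 : a / (a ^ 2 + τ ^ 2) - b / (b ^ 2 + τ ^ 2) =
      (a - b) * (τ ^ 2 - a * b) / ((a ^ 2 + τ ^ 2) * (b ^ 2 + τ ^ 2)) := by
    field_simp
    ring
  have hab : 0 ≤ a * b := mul_nonneg (hj.trans ha) (hj.trans hb)
  have h4 : (a * b + τ ^ 2) ^ 2 ≤ (a ^ 2 + τ ^ 2) * (b ^ 2 + τ ^ 2) := by
    nlinarith [sq_nonneg (a - b), sq_nonneg τ, mul_nonneg (sq_nonneg τ) (sq_nonneg (a - b))]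
  have h5 : |(a - b) * (τ ^ 2 - a * b)| ≤ 1 * (a * b + τ ^ 2) := by
    rw [abs_mul]
    apply mul_le_mul _ _ (abs_nonneg _) zero_le_one
    · rw [abs_le]
      constructor <;> linarith
    · rw [abs_le]
      constructor <;> nlinarith [sq_nonneg τ]
  have h6 : j ^ 2 ≤ a * b := by nlinarith
  have h7 : 0 < a * b + τ ^ 2 := by positivity
  rw [h3, abs_div, abs_of_pos (mul_pos h1 h2), div_le_div_iff₀ (mul_pos h1 h2) (by positivity), one_mul]
  calc |(a - b) * (τ ^ 2 - a * b)| * (j ^ 2 + τ ^ 2) ≤ (1 * (a * b + τ ^ 2)) * (a * b + τ ^ 2) := by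
        apply mul_le_mul h5 (by linarith) (by positivity) (by positivity)
    _ ≤ _ := by rw [one_mul, ← sq]; exact h4

/-- mean value for the logarithm -/
theorem log_mvt {τ j : ℝ} (hτ : 0 < τ) (hj : 0 ≤ j) : ∃ b : ℝ, j ≤ b ∧ b ≤ j + 1 ∧
    Real.log ((j + 1) ^ 2 + τ ^ 2) / 2 - Real.log (j ^ 2 + τ ^ 2) / 2 = b / (b ^ 2 + τ ^ 2) := by
  have hd : ∀ x : ℝ, HasDerivAt (fun x : ℝ => Real.log (x ^ 2 + τ ^ 2) / 2) (x / (x ^ 2 + τ ^ 2)) x := by
    intro x
    have h1 : x ^ 2 + τ ^ 2 ≠ 0 := by positivity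
    have h2 : HasDerivAt (fun x : ℝ => x ^ 2 + τ ^ 2) (2 * x) x := by
      simpa using (hasDerivAt_pow 2 x).add_const (τ ^ 2)
    have h3 := (h2.log h1).div_const 2
    have e : x / (x ^ 2 + τ ^ 2) = 2 * x / (x ^ 2 + τ ^ 2) / 2 := by ring
    rw [e]
    exact h3
  obtain ⟨b, hb, hb'⟩ := exists_hasDerivAt_eq_slope (fun x : ℝ => Real.log (x ^ 2 + τ ^ 2) / 2)
    (fun x => x / (x ^ 2 + τ ^ 2)) (by linarith : j < j + 1)
    (fun x _ => (hd x).continuousAt.continuousWithinAt) (fun x _ => hd x)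
  refine ⟨b, hb.1.le, hb.2.le, ?_⟩
  rw [hb']
  ring

/-- telescoping bound -/
theorem tele_bound {τ : ℝ} (hτ : 1 / 2 ≤ τ) (n : ℕ) :
    ∑ j ∈ Finset.range n, 1 / ((j : ℝ) ^ 2 + τ ^ 2) ≤ 6 / τ := by
  have hτ0 : 0 < τ := by linarith
  have key : ∀ n : ℕ, ∑ j ∈ Finset.range n, 1 / ((j : ℝ) ^ 2 + τ ^ 2) ≤ 6 * (1 / τ - 1 / (n + τ)) := by
    intro n
    induction n with
    | zero => simp
    | succ n ih =>
      rw [Finset.sum_range_succ]
      have hn : (0 : ℝ) ≤ n := Nat.cast_nonneg n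
      have h1 : 1 / ((n : ℝ) ^ 2 + τ ^ 2) ≤ 6 * (1 / (n + τ) - 1 / (n + 1 + τ)) := by
        have e : 1 / ((n : ℝ) + τ) - 1 / (n + 1 + τ) = 1 / ((n + τ) * (n + 1 + τ)) := by
          field_simp
          ring
        rw [e, mul_one_div, div_le_div_iff₀ (by positivity) (by positivity)]
        nlinarith [sq_nonneg ((n : ℝ) - τ)]
      push_cast
      linarith
  have h := key n
  have h2 : 0 < 1 / ((n : ℝ) + τ) := by positivity
  have h3 : 6 / τ = 6 * (1 / τ) := by ring
  rw [h3]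
  nlinarith

/-- real part of the digamma function on a vertical line -/
theorem digamma_re {σ τ : ℝ} (hσ : 0 < σ) (hσ1 : σ < 1) (hτ : 1 / 2 ≤ τ) :
    |(digamma (σ + τ * I)).re - Real.log τ| ≤ 6 / τ := by
  have hτ0 : 0 < τ := by linarith
  have hre : ((σ : ℂ) + τ * I).re = σ := by simp
  have h1 := digamma_limit (z := σ + τ * I) (by rw [hre]; exact hσ) (by rw [hre]; exact hσ1)
  have h2 := (Complex.continuous_re.tendsto _).comp h1
  have h3 : Tendsto (fun n : ℕ => Real.log n - Real.log (((n : ℝ) + 1) ^ 2 + τ ^ 2) / 2) atTop (𝓝 0) := by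
    have e : Tendsto (fun n : ℕ => -(Real.log ((1 + 1 / (n : ℝ)) ^ 2 + (τ * (1 / (n : ℝ))) ^ 2) / 2)) atTop (𝓝 0) := by
      have h5 : Tendsto (fun n : ℕ => 1 / (n : ℝ)) atTop (𝓝 0) := tendsto_one_div_atTop_nhds_zero_nat
      have h6 : ContinuousAt (fun x : ℝ => -(Real.log ((1 + x) ^ 2 + (τ * x) ^ 2) / 2)) 0 := by
        refine ContinuousAt.neg (ContinuousAt.div_const (ContinuousAt.log (by fun_prop) (by norm_num)) _)
      have h7 := h6.tendsto.comp h5
      have h0 : -(Real.log ((1 + 0) ^ 2 + (τ * 0) ^ 2) / 2) = 0 := by simp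
      rw [h0] at h7
      exact h7
    refine e.congr' ?_
    filter_upwards [eventually_ge_atTop 1] with n hn
    have hn0 : (0 : ℝ) < n := by exact_mod_cast hn
    have e2 : ((n : ℝ) + 1) ^ 2 + τ ^ 2 = (n : ℝ) ^ 2 * ((1 + 1 / (n : ℝ)) ^ 2 + (τ * (1 / (n : ℝ))) ^ 2) := by
      field_simp
    rw [e2, Real.log_mul (by positivity) (by positivity), Real.log_pow]
    push_cast
    ring
  have h4 : Tendsto (fun n : ℕ => (Complex.log n - ∑ j ∈ Finset.range (n + 1), 1 / (((σ : ℂ) + τ * I) + j)).re -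
      (Real.log n - Real.log (((n : ℝ) + 1) ^ 2 + τ ^ 2) / 2) - Real.log τ) atTop
      (𝓝 ((digamma (σ + τ * I)).re - 0 - Real.log τ)) := (h2.sub h3).sub tendsto_const_nhds
  rw [sub_zero] at h4
  refine le_of_tendsto h4.abs (Eventually.of_forall fun n => ?_)
  have e1 : (Complex.log n - ∑ j ∈ Finset.range (n + 1), 1 / (((σ : ℂ) + τ * I) + j)).re =
      Real.log n - ∑ j ∈ Finset.range (n + 1), (σ + j) / ((σ + j) ^ 2 + τ ^ 2) := by
    rw [Complex.sub_re, Complex.re_sum, Complex.natCast_log.symm, Complex.ofReal_re]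
    congr 1
    refine Finset.sum_congr rfl fun j _ => ?_
    rw [one_div, Complex.inv_re, Complex.normSq_apply]
    simp
    ring
  have e2 : ∑ j ∈ Finset.range (n + 1), (Real.log (((j : ℝ) + 1) ^ 2 + τ ^ 2) / 2 - Real.log ((j : ℝ) ^ 2 + τ ^ 2) / 2) =
      Real.log (((n : ℝ) + 1) ^ 2 + τ ^ 2) / 2 - Real.log τ := by
    have h5 := Finset.sum_range_sub (fun j : ℕ => Real.log ((j : ℝ) ^ 2 + τ ^ 2) / 2) (n + 1)
    push_cast at h5
    rw [h5]
    have h6 : Real.log ((0 : ℝ) ^ 2 + τ ^ 2) / 2 = Real.log τ := by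
      rw [zero_pow (by norm_num), zero_add, Real.log_pow]
      push_cast
      ring
    rw [h6]
  have e3 : (Complex.log n - ∑ j ∈ Finset.range (n + 1), 1 / (((σ : ℂ) + τ * I) + j)).re -
      (Real.log n - Real.log (((n : ℝ) + 1) ^ 2 + τ ^ 2) / 2) - Real.log τ =
      ∑ j ∈ Finset.range (n + 1), ((Real.log (((j : ℝ) + 1) ^ 2 + τ ^ 2) / 2 - Real.log ((j : ℝ) ^ 2 + τ ^ 2) / 2) -
        (σ + j) / ((σ + j) ^ 2 + τ ^ 2)) := by
    rw [e1, Finset.sum_sub_distrib, e2]
    ring
  rw [e3]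
  refine (Finset.abs_sum_le_sum_abs _ _).trans ((Finset.sum_le_sum fun j _ => ?_).trans (tele_bound hτ (n + 1)))
  have hj : (0 : ℝ) ≤ j := Nat.cast_nonneg j
  obtain ⟨b, hb1, hb2, hb3⟩ := log_mvt hτ0 hj
  rw [hb3]
  exact term_cmp hτ0 hj hb1 hb2 (by linarith) (by linarith)

end LS
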