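import Pool.Agent.Lib.MP_0f5a55_nt.S.Arg1
import Pool.Agent.Lib.MP_0f5a55_nt.S.Arg2
import Pool.Agent.Lib.MP_0f5a55_nt.S.S00
import Pool.Agent.Lib.MP_0f5a55_nt.V.V30

/-! # The phase of the Riemann zeta function on the critical line and the criterion for simple zeros -/

open Complex Set Filter Topology MeasureTheory

namespace LS

open LZ (uu)

/-- logarithmic derivative of the Gamma factor along the critical line -/
noncomputable def gd (t : ℝ) : ℂ := I * (-(Real.log Real.pi : ℂ) / 2 + digamma (1/4 + (t / 2 : ℝ) * I) / 2)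

/-- derivative of the phase -/
noncomputable def thd (t : ℝ) : ℝ := -(Real.log Real.pi) / 2 + (digamma (1/4 + (t / 2 : ℝ) * I)).re / 2

/-- the phase -/
noncomputable def th (t : ℝ) : ℝ := arg (Gammaℝ (1/2 + (0 : ℝ) * I)) + (∫ u in (0:ℝ)..t, gd u).im

theorem gd_im (t : ℝ) : (gd t).im = thd t := by
  unfold gd thd
  simp only [Complex.mul_im, Complex.I_re, Complex.I_im, Complex.add_re, Complex.add_im, zero_mul, one_mul,
    zero_add]
  rw [← Complex.ofReal_neg, ← Complex.ofReal_ofNat, ← Complex.ofReal_div, Complex.ofReal_re, Complex.div_ofReal_re]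

theorem digamma_cont : Continuous (fun t : ℝ => digamma (1/4 + (t / 2 : ℝ) * I)) := by
  have hU : IsOpen {z : ℂ | 0 < z.re} := isOpen_lt continuous_const Complex.continuous_re
  have hG : DifferentiableOn ℂ Gamma {z : ℂ | 0 < z.re} := by
    intro z hz
    apply (Complex.differentiableAt_Gamma z ?_).differentiableWithinAt
    intro m h
    have h2 : 0 < z.re := hz
    rw [h] at h2
    simp at h2
    have : (0 : ℝ) ≤ m := Nat.cast_nonneg m
    linarith
  have hd : ContinuousOn digamma {z : ℂ | 0 < z.re} := by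
    have h1 : ContinuousOn (fun z => deriv Gamma z / Gamma z) {z : ℂ | 0 < z.re} :=
      (hG.deriv hU).continuousOn.div hG.continuousOn fun z hz => Complex.Gamma_ne_zero_of_re_pos hz
    exact h1
  refine hd.comp_continuous (by fun_prop) fun t => ?_
  show 0 < ((1/4 : ℂ) + (t / 2 : ℝ) * I).re
  simp

theorem gd_cont : Continuous gd := by
  unfold gd
  exact continuous_const.mul (continuous_const.add (digamma_cont.div_const 2))

theorem gam_hasDeriv (t : ℝ) : HasDerivAt (fun t : ℝ => Gammaℝ (1/2 + t * I)) (Gammaℝ (1/2 + t * I) * gd t) t := by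
  have hre : 0 < ((1/4 : ℂ) + (t / 2 : ℝ) * I).re := by
    simp
  have hpi : (Real.pi : ℂ) ≠ 0 := by exact_mod_cast Real.pi_ne_zero
  have e0 : ∀ u : ℝ, ((1/2 : ℂ) + u * I) / 2 = 1/4 + (u / 2 : ℝ) * I := by
    intro u
    push_cast
    ring
  have hin : HasDerivAt (fun u : ℝ => (1/4 : ℂ) + (u / 2 : ℝ) * I) (I / 2) t := by
    have h1 : HasDerivAt (fun u : ℝ => ((u / 2 : ℝ) : ℂ)) (1 / 2) t := by
      have := ((hasDerivAt_id t).div_const 2).ofReal_comp
      simpa using this
    exact ((h1.mul_const I).const_add (1/4 : ℂ)).congr_deriv (by ring)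
  have hGd : HasDerivAt Gamma (Gamma (1/4 + (t / 2 : ℝ) * I) * digamma (1/4 + (t / 2 : ℝ) * I))
      (1/4 + (t / 2 : ℝ) * I) := by
    have h1 : DifferentiableAt ℂ Gamma (1/4 + (t / 2 : ℝ) * I) := by
      apply Complex.differentiableAt_Gamma
      intro m h
      rw [h] at hre
      simp at hre
      have : (0 : ℝ) ≤ m := Nat.cast_nonneg m
      linarith
    have h2 : Gamma (1/4 + (t / 2 : ℝ) * I) ≠ 0 := Complex.Gamma_ne_zero_of_re_pos hre
    have h3 : Gamma (1/4 + (t / 2 : ℝ) * I) * digamma (1/4 + (t / 2 : ℝ) * I) =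
        deriv Gamma (1/4 + (t / 2 : ℝ) * I) := by
      rw [digamma_def, logDeriv_apply, mul_div_cancel₀ _ h2]
    rw [h3]
    exact h1.hasDerivAt
  have hG2 : HasDerivAt (fun u : ℝ => Gamma (1/4 + (u / 2 : ℝ) * I))
      (Gamma (1/4 + (t / 2 : ℝ) * I) * digamma (1/4 + (t / 2 : ℝ) * I) * (I / 2)) t :=
    HasDerivAt.comp (h := fun u : ℝ => (1/4 : ℂ) + (u / 2 : ℝ) * I) t hGd hin
  have hP : HasDerivAt (fun u : ℝ => (Real.pi : ℂ) ^ (-(1/4 + (u / 2 : ℝ) * I : ℂ)))
      ((Real.pi : ℂ) ^ (-(1/4 + (t / 2 : ℝ) * I : ℂ)) * Complex.log Real.pi * (-(I / 2))) t := by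
    have h1 : HasDerivAt (fun u : ℝ => -((1/4 : ℂ) + (u / 2 : ℝ) * I)) (-(I / 2)) t := hin.neg
    have h2 : HasDerivAt (fun w : ℂ => (Real.pi : ℂ) ^ w)
        ((Real.pi : ℂ) ^ (-(1/4 + (t / 2 : ℝ) * I : ℂ)) * Complex.log Real.pi) (-(1/4 + (t / 2 : ℝ) * I : ℂ)) := by
      have h3 := (hasDerivAt_id (-(1/4 + (t / 2 : ℝ) * I : ℂ))).const_cpow (Or.inl hpi)
      simpa using h3
    exact HasDerivAt.comp (h := fun u : ℝ => -((1/4 : ℂ) + (u / 2 : ℝ) * I)) t h2 h1
  have h := hP.mul hG2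
  have e1 : (fun u : ℝ => Gammaℝ (1/2 + u * I)) =
      fun u : ℝ => (Real.pi : ℂ) ^ (-(1/4 + (u / 2 : ℝ) * I : ℂ)) * Gamma (1/4 + (u / 2 : ℝ) * I) := by
    funext u
    rw [Complex.Gammaℝ_def, neg_div, e0]
  have e2 : Gammaℝ (1/2 + t * I) =
      (Real.pi : ℂ) ^ (-(1/4 + (t / 2 : ℝ) * I : ℂ)) * Gamma (1/4 + (t / 2 : ℝ) * I) := congrFun e1 t
  rw [e1, e2]
  refine h.congr_deriv ?_
  unfold gd
  rw [← Complex.ofReal_log Real.pi_pos.le]
  ring

theorem gam_exp (t : ℝ) : Gammaℝ (1/2 + t * I) = Gammaℝ (1/2 + (0 : ℝ) * I) * exp (∫ u in (0:ℝ)..t, gd u) := by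
  have hl : ∀ t : ℝ, HasDerivAt (fun t => ∫ u in (0:ℝ)..t, gd u) (gd t) t := fun t =>
    intervalIntegral.integral_hasDerivAt_right (gd_cont.intervalIntegrable _ _)
      (gd_cont.stronglyMeasurableAtFilter _ _) gd_cont.continuousAt
  have hF : ∀ t : ℝ, HasDerivAt (fun t : ℝ => Gammaℝ (1/2 + t * I) * exp (-(∫ u in (0:ℝ)..t, gd u))) 0 t := by
    intro t
    have h := (gam_hasDeriv t).mul ((hl t).neg.cexp)
    refine h.congr_deriv ?_
    ring
  have hc := is_const_of_deriv_eq_zero (fun t => (hF t).differentiableAt) (fun t => (hF t).deriv) t 0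
  simp only [intervalIntegral.integral_same, neg_zero, Complex.exp_zero, mul_one] at hc
  rw [← hc, mul_assoc, ← Complex.exp_add, neg_add_cancel, Complex.exp_zero, mul_one]

theorem gam_ne (t : ℝ) : Gammaℝ (1/2 + t * I) ≠ 0 := by
  apply Complex.Gammaℝ_ne_zero_of_re_pos
  simp

theorem uu_exp (t : ℝ) : uu t = exp (th t * I) := by
  unfold LZ.uu th
  rw [gam_exp t]
  set g0 := Gammaℝ (1/2 + (0 : ℝ) * I) with hg0
  set l := ∫ u in (0:ℝ)..t, gd u with hl
  have hne : g0 ≠ 0 := gam_ne 0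
  have hn : (‖g0‖ : ℂ) ≠ 0 := by exact_mod_cast norm_ne_zero_iff.2 hne
  rw [norm_mul, Complex.norm_exp]
  have h1 : exp l = ((Real.exp l.re : ℝ) : ℂ) * exp ((l.im : ℂ) * I) := by
    rw [Complex.ofReal_exp, ← Complex.exp_add, Complex.re_add_im]
  have h2 : g0 = (‖g0‖ : ℂ) * exp ((arg g0 : ℂ) * I) := (Complex.norm_mul_exp_arg_mul_I g0).symm
  have h3 : ((Real.exp l.re : ℝ) : ℂ) ≠ 0 := by exact_mod_cast (Real.exp_pos _).ne'
  have h4 : exp (((arg g0 + l.im : ℝ) : ℂ) * I) = exp ((arg g0 : ℂ) * I) * exp ((l.im : ℂ) * I) := by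
    rw [← Complex.exp_add]
    congr 1
    push_cast
    ring
  rw [h4, h1, Complex.ofReal_mul]
  conv_lhs => rw [h2]
  rw [Complex.norm_mul_exp_arg_mul_I]
  field_simp
  rw [mul_comm I]
  exact h2

theorem th_hasDeriv (t : ℝ) : HasDerivAt th (thd t) t := by
  have hl : HasDerivAt (fun t => ∫ u in (0:ℝ)..t, gd u) (gd t) t :=
    intervalIntegral.integral_hasDerivAt_right (gd_cont.intervalIntegrable _ _)
      (gd_cont.stronglyMeasurableAtFilter _ _) gd_cont.continuousAt
  have h := (Complex.imCLM.hasFDerivAt.comp_hasDerivAt t hl).const_add (arg (Gammaℝ (1/2 + (0 : ℝ) * I)))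
  simp only [Complex.imCLM_apply, gd_im] at h
  exact h

theorem thd_bound {t : ℝ} (ht : 1 ≤ t) : |thd t - Real.log (t / (2 * Real.pi)) / 2| ≤ 6 / t := by
  have h := digamma_re (σ := 1/4) (τ := t / 2) (by norm_num) (by norm_num) (by linarith)
  unfold thd
  have e1 : Real.log (t / (2 * Real.pi)) = Real.log (t / 2) - Real.log Real.pi := by
    rw [← Real.log_div (by positivity) Real.pi_ne_zero]
    congr 1
    field_simp
  have e2 : (((1/4 : ℝ) : ℂ) + ((t / 2 : ℝ) : ℂ) * I) = 1/4 + ((t / 2 : ℝ) : ℂ) * I := by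
    push_cast
    ring
  rw [e2] at h
  rw [e1]
  have e3 : -(Real.log Real.pi) / 2 + (digamma (1/4 + ((t / 2 : ℝ) : ℂ) * I)).re / 2 -
      (Real.log (t / 2) - Real.log Real.pi) / 2 = ((digamma (1/4 + ((t / 2 : ℝ) : ℂ) * I)).re - Real.log (t / 2)) / 2 := by
    ring
  rw [e3, abs_div, abs_two]
  have e4 : 6 / (t / 2) = 2 * (6 / t) := by field_simp
  rw [e4] at h
  linarith

/-- increase of the phase -/
theorem th_lower {T1 T2 : ℝ} (h1 : 1 ≤ T1) (h2 : T1 ≤ T2) :
    (T2 - T1) / 2 * Real.log (T1 / (2 * Real.pi)) - 6 * Real.log T2 ≤ th T2 - th T1 := by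
  have hpi := Real.pi_pos
  have hd : ∀ t : ℝ, 0 < t → HasDerivAt (fun t => th t + 6 * Real.log t - t / 2 * Real.log (T1 / (2 * Real.pi)))
      (thd t + 6 * t⁻¹ - 1 / 2 * Real.log (T1 / (2 * Real.pi))) t := by
    intro t ht
    exact ((th_hasDeriv t).add ((Real.hasDerivAt_log ht.ne').const_mul 6)).sub
      (((hasDerivAt_id t).div_const 2).mul_const _)
  have hmono : MonotoneOn (fun t => th t + 6 * Real.log t - t / 2 * Real.log (T1 / (2 * Real.pi))) (Icc T1 T2) := by
    apply monotoneOn_of_hasDerivWithinAt_nonneg (convex_Icc T1 T2)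
      (fun t ht => (hd t (by linarith [ht.1])).continuousAt.continuousWithinAt)
      (fun t ht => (hd t (by rw [interior_Icc] at ht; linarith [ht.1])).hasDerivWithinAt)
    intro t ht
    rw [interior_Icc] at ht
    have ht1 : 1 ≤ t := by linarith [ht.1]
    have h3 := (abs_le.mp (thd_bound ht1)).1
    have h4 : Real.log (T1 / (2 * Real.pi)) ≤ Real.log (t / (2 * Real.pi)) := by
      apply Real.log_le_log (by positivity)
      gcongr
      exact ht.1.le
    have h5 : 6 / t = 6 * t⁻¹ := by ring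
    rw [h5] at h3
    linarith
  have h := hmono (left_mem_Icc.2 h2) (right_mem_Icc.2 h2) h2
  simp only at h
  have h6 : 0 ≤ Real.log T1 := Real.log_nonneg h1
  linarith

theorem zeta_diff {t : ℝ} : DifferentiableAt ℂ riemannZeta (1/2 + t * I) := by
  apply differentiableAt_riemannZeta
  intro h
  have := congrArg Complex.re h
  simp at this

/-- the criterion -/
theorem simple_crit {lam T t : ℝ} (hT : 0 < Real.log T) (h1 : lam * thd t ≠ Real.log T)
    (h2 : VV lam T (1/2 + t * I) ≠ 0) (h3 : (exp (th t * I) * VV lam T (1/2 + t * I)).re = 0) :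
    riemannZeta (1/2 + t * I) = 0 ∧ deriv riemannZeta (1/2 + t * I) ≠ 0 := by
  obtain ⟨-, -, hreal⟩ := LZ.uu_facts
  have hin : HasDerivAt (fun u : ℝ => (1/2 : ℂ) + u * I) I t := by
    have h4 : HasDerivAt (fun u : ℝ => (u : ℂ)) 1 t := (hasDerivAt_id t).ofReal_comp
    have h5 := (h4.mul_const I).const_add (1/2 : ℂ)
    rwa [one_mul] at h5
  have hz : HasDerivAt (fun u : ℝ => riemannZeta (1/2 + u * I)) (deriv riemannZeta (1/2 + t * I) * I) t :=
    HasDerivAt.comp (h := fun u : ℝ => (1/2 : ℂ) + u * I) t (zeta_diff (t := t)).hasDerivAt hin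
  have hth : HasDerivAt (fun u : ℝ => exp (th u * I)) (exp (th t * I) * (thd t * I)) t :=
    ((th_hasDeriv t).ofReal_comp.mul_const I).cexp
  have hp := hth.mul hz
  have him := Complex.imCLM.hasFDerivAt.comp_hasDerivAt t hp
  have hzero : (fun u : ℝ => Complex.imCLM ((fun u : ℝ => exp (th u * I)) u * (fun u : ℝ => riemannZeta (1/2 + u * I)) u)) =
      fun _ => 0 := by
    funext u
    show (exp (th u * I) * riemannZeta (1/2 + u * I)).im = 0
    rw [← uu_exp]
    exact hreal u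
  have him' : HasDerivAt (fun _ : ℝ => (0 : ℝ)) (Complex.imCLM (exp (th t * I) * (thd t * I) * riemannZeta (1/2 + t * I) +
      exp (th t * I) * (deriv riemannZeta (1/2 + t * I) * I))) t := by
    rw [← hzero]
    exact him
  have h4 := him'.unique (hasDerivAt_const t (0 : ℝ))
  rw [Complex.imCLM_apply] at h4
  have h5 : (exp (th t * I) * riemannZeta (1/2 + t * I)).im = 0 := by
    rw [← uu_exp]
    exact hreal t
  set e := exp (th t * I) with he
  set z := riemannZeta (1/2 + t * I) with hz'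
  set z' := deriv riemannZeta (1/2 + t * I) with hz''
  have h6 : (e * z').re = -thd t * (e * z).re := by
    have e1 : e * (thd t * I) * z + e * (z' * I) = (thd t * (e * z) + e * z') * I := by ring
    rw [e1, Complex.mul_I_im, Complex.add_re, Complex.re_ofReal_mul] at h4
    linarith
  have h7 : (e * VV lam T (1/2 + t * I)).re = (e * z).re * (1 - lam / Real.log T * thd t) := by
    unfold VV
    rw [mul_add, Complex.add_re, mul_left_comm, Complex.re_ofReal_mul, h6]
    ring
  rw [h7] at h3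
  have h8 : 1 - lam / Real.log T * thd t ≠ 0 := by
    intro h
    apply h1
    field_simp at h
    linarith
  have h9 : (e * z).re = 0 := by
    rcases mul_eq_zero.mp h3 with h | h
    · exact h
    · exact absurd h h8
  have h10 : e * z = 0 := Complex.ext h9 h5
  have h11 : z = 0 := by
    rcases mul_eq_zero.mp h10 with h | h
    · exact absurd h (Complex.exp_ne_zero _)
    · exact h
  refine ⟨h11, fun h12 => h2 ?_⟩
  unfold VV
  rw [← hz', ← hz'', h11, h12]
  ring

end LS
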