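import Pool.Agent.Lib.MP_0f5a55_nt.S.Arg3
import Pool.Agent.Lib.MP_0f5a55_nt.V.V23
import Pool.Agent.Lib.MP_0f5a55_nt.V.V48
import Pool.Agent.Lib.MP_0f5a55_nt.V.V94

/-! # Backlund's argument for the horizontal sides, and the factorisation in a rectangle -/

open Complex Set Filter Topology MeasureTheory
open scoped ComplexConjugate

namespace LS

theorem isSimplyConnected_univ' : IsSimplyConnected (univ : Set ℂ) := by
  have h : SimplyConnectedSpace ℂ := inferInstance
  exact ((Homeomorph.Set.univ ℂ).toHomotopyEquiv.simplyConnectedSpace_iff).2 h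

theorem finite_of_card_le {α : Type*} {S : Set α} {N : ℝ}
    (h : ∀ A : Finset α, (∀ a ∈ A, a ∈ S) → (A.card : ℝ) ≤ N) :
    ∃ Z : Finset α, (∀ a, a ∈ Z ↔ a ∈ S) ∧ (Z.card : ℝ) ≤ N := by
  classical
  have hfin : S.Finite := by
    by_contra hinf
    obtain ⟨A, hA, hc⟩ := Set.Infinite.exists_subset_card_eq hinf (⌊N⌋₊ + 1)
    have h1 := h A (fun a ha => hA (Finset.mem_coe.2 ha))
    rw [hc] at h1
    push_cast at h1
    have h2 := Nat.lt_floor_add_one N
    linarith
  refine ⟨hfin.toFinset, fun a => Set.Finite.mem_toFinset hfin, h _ fun a ha => ?_⟩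
  exact (Set.Finite.mem_toFinset hfin).1 ha

/-! ### the function V -/

theorem zeta_diffOn : DifferentiableOn ℂ riemannZeta {1}ᶜ := fun _ hs =>
  (differentiableAt_riemannZeta hs).differentiableWithinAt

theorem VV_diffOn (lam T : ℝ) : DifferentiableOn ℂ (VV lam T) {1}ᶜ := by
  unfold VV
  exact zeta_diffOn.add ((zeta_diffOn.deriv isOpen_compl_singleton).const_mul _)

theorem zeta_deriv_conj (s : ℂ) : deriv riemannZeta (conj s) = conj (deriv riemannZeta s) := by
  by_cases hs : s = 1
  · subst hs
    have h : ¬ DifferentiableAt ℂ riemannZeta 1 := by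
      intro h
      have h1 := h.continuousAt.tendsto
      have h2 := riemannZeta_residue_one
      have h3 : Tendsto (fun s : ℂ => (s - 1) * riemannZeta s) (𝓝[≠] 1) (𝓝 ((1 - 1) * riemannZeta 1)) :=
        ((continuousAt_id.sub continuousAt_const).tendsto.mul h1).mono_left nhdsWithin_le_nhds
      rw [sub_self, zero_mul] at h3
      exact zero_ne_one (tendsto_nhds_unique h3 h2)
    rw [map_one, deriv_zero_of_not_differentiableAt h, map_zero]
  · have h1 := (differentiableAt_riemannZeta hs).hasDerivAt
    have h2 := h1.conj_conj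
    have h3 : (conj ∘ riemannZeta ∘ conj) = riemannZeta := by
      funext z
      simp only [Function.comp_apply]
      rw [← riemannZeta_conj, Complex.conj_conj]
    rw [h3] at h2
    exact h2.deriv

theorem VV_conj (lam T : ℝ) (s : ℂ) : VV lam T (conj s) = conj (VV lam T s) := by
  unfold VV
  rw [riemannZeta_conj, zeta_deriv_conj, map_add, map_mul, conj_ofReal]

theorem zeta_two (t : ℝ) : 1/4 ≤ (riemannZeta (2 + t * I)).re := by
  have hre : (2 + t * I : ℂ).re = 2 := by simp
  have hs : 1 < (2 + t * I : ℂ).re := by rw [hre]; norm_num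
  have hz := zeta_eq_tsum_one_div_nat_add_one_cpow hs
  have hsumm : Summable (fun n : ℕ => 1 / ((n : ℝ) + 1) ^ 2) := by
    have := (summable_nat_add_iff 1).2 (Real.summable_one_div_nat_pow.2 (show 1 < 2 by norm_num))
    simpa using this
  have hnorm : ∀ n : ℕ, ‖1 / ((n : ℂ) + 1) ^ (2 + t * I : ℂ)‖ = 1 / ((n : ℝ) + 1) ^ 2 := by
    intro n
    have e : ((n : ℂ) + 1) = (((n : ℝ) + 1 : ℝ) : ℂ) := by push_cast; rfl
    rw [norm_div, norm_one, e, Complex.norm_cpow_eq_rpow_re_of_pos (by positivity), hre]
    norm_num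
  have hsummC : Summable (fun n : ℕ => 1 / ((n : ℂ) + 1) ^ (2 + t * I : ℂ)) := by
    apply Summable.of_norm
    simp_rw [hnorm]
    exact hsumm
  have htot : ∑' n : ℕ, 1 / ((n : ℝ) + 1) ^ 2 = Real.pi ^ 2 / 6 := by
    have h := hasSum_zeta_two
    have h5 := h.tsum_eq
    rw [Summable.tsum_eq_zero_add h.summable] at h5
    simpa using h5
  have hpi : Real.pi ^ 2 / 6 ≤ 7 / 4 := by
    have := Real.pi_lt_d2
    have h6 := Real.pi_pos
    nlinarith
  have h7 : ‖riemannZeta (2 + t * I) - 1‖ ≤ 3 / 4 := by
    rw [hz, Summable.tsum_eq_zero_add hsummC]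
    have e0 : 1 / (((0 : ℕ) : ℂ) + 1) ^ (2 + t * I : ℂ) = 1 := by simp
    rw [e0, add_sub_cancel_left]
    have hs1 : Summable (fun n : ℕ => ‖1 / (((n + 1 : ℕ) : ℂ) + 1) ^ (2 + t * I : ℂ)‖) := by
      have := (summable_nat_add_iff 1).2 hsummC.norm
      exact this
    refine (norm_tsum_le_tsum_norm hs1).trans ?_
    have e2 : ∑' n : ℕ, ‖1 / (((n + 1 : ℕ) : ℂ) + 1) ^ (2 + t * I : ℂ)‖ = Real.pi ^ 2 / 6 - 1 := by
      have h8 := Summable.tsum_eq_zero_add hsumm
      rw [htot] at h8
      have h9 : ∑' n : ℕ, ‖1 / (((n + 1 : ℕ) : ℂ) + 1) ^ (2 + t * I : ℂ)‖ =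
          ∑' n : ℕ, 1 / (((n + 1 : ℕ) : ℝ) + 1) ^ 2 := tsum_congr (fun n => hnorm (n + 1))
      rw [h9, h8]
      norm_num
    rw [e2]
    linarith
  have h8 := (Complex.abs_re_le_norm (riemannZeta (2 + t * I) - 1)).trans h7
  rw [Complex.sub_re, Complex.one_re, abs_le] at h8
  linarith [h8.1]

/-- bounds for V -/
theorem VV_bounds (lam : ℝ) : ∃ C T0 : ℝ, 0 < C ∧ 3 ≤ T0 ∧ ∀ T : ℝ, T0 ≤ T →
    (∀ s : ℂ, 3/8 ≤ s.re → 2 ≤ |s.im| → ‖VV lam T s‖ ≤ C * (2 + |s.im|)) ∧
    (∀ t : ℝ, 2 ≤ |t| → 1/8 ≤ (VV lam T (2 + t * I)).re) := by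
  obtain ⟨C1, hC1, hz⟩ := LZ.zeta_pol
  obtain ⟨C2, hC2, hz2⟩ := LZ.A08_zeta
  refine ⟨C1 + |lam| * (16 * C1), max 3 (Real.exp (16 * |lam| * C2 + 1)), by positivity, le_max_left _ _,
    fun T hT => ⟨fun s hs hi => ?_, fun t ht => ?_⟩⟩
  · have hlog : 1 ≤ Real.log T := by
      have h1 := (le_max_right 3 (Real.exp (16 * |lam| * C2 + 1))).trans hT
      have h2 := Real.log_le_log (Real.exp_pos _) h1
      rw [Real.log_exp] at h2
      have : 0 ≤ 16 * |lam| * C2 := by positivity
      linarith
    have h1 : ‖riemannZeta s‖ ≤ C1 * (2 + |s.im|) := by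
      refine (hz s (by linarith) ?_).trans ?_
      · have := Complex.abs_im_le_norm (s - 1)
        simp only [Complex.sub_im, Complex.one_im, sub_zero] at this
        linarith
      · gcongr
        norm_num
    have h2 : ‖deriv riemannZeta s‖ ≤ C1 * (2 + |s.im|) / (1/16) := by
      apply Complex.norm_deriv_le_of_forall_mem_sphere_norm_le (by norm_num : (0:ℝ) < 1/16)
      · apply DifferentiableOn.diffContOnCl
        rw [closure_ball s (by norm_num)]
        intro w hw
        rw [mem_closedBall_iff_norm] at hw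
        have h3 := (Complex.abs_im_le_norm (w - s)).trans hw
        rw [Complex.sub_im] at h3
        apply (differentiableAt_riemannZeta _).differentiableWithinAt
        rintro rfl
        rw [Complex.one_im, zero_sub, abs_neg] at h3
        linarith
      · intro w hw
        rw [mem_sphere_iff_norm] at hw
        have h3 := Complex.abs_im_le_norm (w - s)
        have h4 := Complex.abs_re_le_norm (w - s)
        rw [hw] at h3 h4
        rw [Complex.sub_im] at h3
        rw [Complex.sub_re, abs_le] at h4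
        have h5 : |w.im| ≤ |s.im| + 1/16 := by
          have := abs_sub_abs_le_abs_sub w.im s.im
          linarith
        have h6 : |s.im| - 1/16 ≤ |w.im| := by
          have := abs_sub_abs_le_abs_sub s.im w.im
          rw [abs_sub_comm] at this
          linarith
        refine (hz w (by linarith [h4.1]) ?_).trans ?_
        · have := Complex.abs_im_le_norm (w - 1)
          simp only [Complex.sub_im, Complex.one_im, sub_zero] at this
          linarith
        · exact mul_le_mul_of_nonneg_left (by linarith) hC1.le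
    unfold VV
    refine (norm_add_le _ _).trans ?_
    rw [norm_mul, Complex.norm_real, Real.norm_eq_abs, abs_div, abs_of_pos (by linarith : 0 < Real.log T)]
    have h3 : |lam| / Real.log T * ‖deriv riemannZeta s‖ ≤ |lam| * (C1 * (2 + |s.im|) / (1/16)) := by
      apply mul_le_mul _ h2 (norm_nonneg _) (abs_nonneg _)
      exact div_le_self (abs_nonneg _) hlog
    calc _ ≤ C1 * (2 + |s.im|) + |lam| * (C1 * (2 + |s.im|) / (1/16)) := add_le_add h1 h3
      _ = _ := by ring
  · have hlog : 16 * |lam| * C2 + 1 ≤ Real.log T := by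
      have h1 := (le_max_right 3 (Real.exp (16 * |lam| * C2 + 1))).trans hT
      have h2 := Real.log_le_log (Real.exp_pos _) h1
      rwa [Real.log_exp] at h2
    have hl0 : 0 ≤ 16 * |lam| * C2 := by positivity
    have h1 := zeta_two t
    have h2 : ‖deriv riemannZeta (2 + t * I)‖ ≤ C2 / (1/2) := by
      apply Complex.norm_deriv_le_of_forall_mem_sphere_norm_le (by norm_num : (0:ℝ) < 1/2)
      · apply DifferentiableOn.diffContOnCl
        rw [closure_ball _ (by norm_num)]
        intro w hw
        rw [mem_closedBall_iff_norm] at hw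
        have h3 := (Complex.abs_re_le_norm (w - (2 + t * I))).trans hw
        have e : (w - (2 + t * I)).re = w.re - 2 := by simp
        rw [e] at h3
        apply (differentiableAt_riemannZeta _).differentiableWithinAt
        rintro rfl
        norm_num at h3
      · intro w hw
        rw [mem_sphere_iff_norm] at hw
        have h4 := Complex.abs_re_le_norm (w - (2 + t * I))
        have e : (w - (2 + t * I)).re = w.re - 2 := by simp
        rw [hw, e, abs_le] at h4
        exact hz2 w (by linarith [h4.1])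
    unfold VV
    rw [Complex.add_re, Complex.re_ofReal_mul]
    have h3 := Complex.abs_re_le_norm (deriv riemannZeta (2 + t * I))
    have h4 : |lam / Real.log T * (deriv riemannZeta (2 + t * I)).re| ≤ 1/8 := by
      rw [abs_mul, abs_div, abs_of_pos (by linarith : 0 < Real.log T), div_mul_eq_mul_div,
        div_le_iff₀ (by linarith)]
      have h5 : |(deriv riemannZeta (2 + t * I)).re| ≤ 2 * C2 := by linarith
      have h6 := mul_le_mul_of_nonneg_left h5 (abs_nonneg lam)
      linarith
    have h5 := (abs_le.mp h4).1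
    linarith

/-- Backlund: the real part on a horizontal segment -/
theorem backlund (lam K : ℝ) (hK : 1 ≤ K) : ∃ C T0 : ℝ, 0 < C ∧ 3 ≤ T0 ∧ ∀ T : ℝ, T0 ≤ T → ∀ τ : ℝ, 4 ≤ τ → τ ≤ K * T →
    ∃ Z : Finset ℝ, (Z.card : ℝ) ≤ C * Real.log T ∧
      ∀ x ∈ Icc (1/2 : ℝ) 2, (VV lam T (x + τ * I)).re = 0 → x ∈ Z := by
  classical
  obtain ⟨C, T0, hC, hT0, hV⟩ := VV_bounds lam
  have hq : 0 < Real.log (13/12) := Real.log_pos (by norm_num)
  have hl3 : 1 ≤ Real.log 3 := by
    rw [Real.le_log_iff_exp_le (by norm_num)]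
    exact Real.exp_one_lt_d9.le.trans (by norm_num)
  set D : ℝ := 8 * (C * (4 + K)) + 1 with hD
  have hD1 : 1 ≤ D := by
    have : 0 < C * (4 + K) := by positivity
    linarith
  have hlD : 0 ≤ Real.log D := Real.log_nonneg hD1
  refine ⟨(Real.log D + 1) / Real.log (13/12), T0, by positivity, hT0, fun T hT τ h4 hτ => ?_⟩
  obtain ⟨hV1, hV2⟩ := hV T hT
  have hT3 : 3 ≤ T := hT0.trans hT
  have hlT : 1 ≤ Real.log T := hl3.trans (Real.log_le_log (by norm_num) hT3)
  set h : ℂ → ℂ := fun z => (VV lam T (z + τ * I) + VV lam T (z - τ * I)) / 2 with hh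
  have hreal : ∀ x : ℝ, h x = ((VV lam T (x + τ * I)).re : ℂ) := by
    intro x
    have e : (x : ℂ) - τ * I = conj ((x : ℂ) + τ * I) := by
      simp [sub_eq_add_neg]
    rw [hh]
    simp only
    rw [e, VV_conj, Complex.add_conj]
    push_cast
    ring
  obtain ⟨Z, hZ, hZc⟩ := finite_of_card_le (S := {x : ℝ | x ∈ Icc (1/2 : ℝ) 2 ∧ (VV lam T (x + τ * I)).re = 0})
    (N := (Real.log D + 1) / Real.log (13/12) * Real.log T) (by
    intro A hA
    set B : Finset ℂ := A.image (fun x : ℝ => (x : ℂ)) with hB
    have hBc : B.card = A.card := Finset.card_image_of_injective _ Complex.ofReal_injective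
    have hM : ∀ z : ℂ, ‖z - 2‖ = 13/8 → ‖h z‖ ≤ C * (4 + K) * T := by
      intro z hz
      have h1 := Complex.abs_re_le_norm (z - 2)
      have h2 := Complex.abs_im_le_norm (z - 2)
      rw [hz] at h1 h2
      have e1 : (z - 2).re = z.re - 2 := by simp
      have e2 : (z - 2).im = z.im := by simp
      rw [e1, abs_le] at h1
      rw [e2, abs_le] at h2
      have i1 : (z + τ * I).im = z.im + τ := by simp
      have i2 : (z - τ * I).im = z.im - τ := by simp
      have r1 : (z + τ * I).re = z.re := by simp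
      have r2 : (z - τ * I).re = z.re := by simp
      have h3 := hV1 (z + τ * I) (by rw [r1]; linarith [h1.1]) (by
        rw [i1, abs_of_pos (by linarith [h2.1])]
        linarith [h2.1])
      have h5 := hV1 (z - τ * I) (by rw [r2]; linarith [h1.1]) (by
        rw [i2, abs_of_neg (by linarith [h2.2])]
        linarith [h2.2])
      rw [i1, abs_of_pos (by linarith [h2.1])] at h3
      rw [i2, abs_of_neg (by linarith [h2.2])] at h5
      have h6 : 4 + τ ≤ (4 + K) * T := by nlinarith
      have h7 : ‖VV lam T (z + τ * I)‖ ≤ C * (4 + K) * T := by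
        refine h3.trans ?_
        rw [mul_assoc]
        apply mul_le_mul_of_nonneg_left _ hC.le
        linarith [h2.2]
      have h8 : ‖VV lam T (z - τ * I)‖ ≤ C * (4 + K) * T := by
        refine h5.trans ?_
        rw [mul_assoc]
        apply mul_le_mul_of_nonneg_left _ hC.le
        linarith [h2.1]
      rw [hh]
      simp only
      rw [norm_div, Complex.norm_ofNat]
      have := norm_add_le (VV lam T (z + τ * I)) (VV lam T (z - τ * I))
      linarith
    have hdiff : DifferentiableOn ℂ h (Metric.closedBall 2 (13/8)) := by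
      intro z hz
      rw [mem_closedBall_iff_norm] at hz
      have h2 := (Complex.abs_im_le_norm (z - 2)).trans hz
      have e2 : (z - 2).im = z.im := by simp
      rw [e2, abs_le] at h2
      have hn1 : z + τ * I ∈ ({1}ᶜ : Set ℂ) := by
        intro h
        have := congrArg Complex.im (mem_singleton_iff.1 h)
        simp at this
        linarith [h2.1]
      have hn2 : z - τ * I ∈ ({1}ᶜ : Set ℂ) := by
        intro h
        have := congrArg Complex.im (mem_singleton_iff.1 h)
        simp at this
        linarith [h2.2]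
      have d1 : DifferentiableAt ℂ (fun z => VV lam T (z + τ * I)) z :=
        DifferentiableAt.comp (g := VV lam T) (f := fun z : ℂ => z + τ * I) z
          ((VV_diffOn lam T).differentiableAt (isOpen_compl_singleton.mem_nhds hn1)) (by fun_prop)
      have d2 : DifferentiableAt ℂ (fun z => VV lam T (z - τ * I)) z :=
        DifferentiableAt.comp (g := VV lam T) (f := fun z : ℂ => z - τ * I) z
          ((VV_diffOn lam T).differentiableAt (isOpen_compl_singleton.mem_nhds hn2)) (by fun_prop)
      exact ((d1.add d2).div_const 2).differentiableWithinAt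
    have hmain := LZ.G01_bl (13/8) (3/2) (C * (4 + K) * T) 2 (by norm_num) (by norm_num) B h hdiff hM (by
      intro a ha
      rw [hB, Finset.mem_image] at ha
      obtain ⟨x, hx, rfl⟩ := ha
      obtain ⟨hx1, hx2⟩ := hA x hx
      refine ⟨by rw [hreal, hx2, Complex.ofReal_zero], ?_⟩
      have e : (x : ℂ) - 2 = ((x - 2 : ℝ) : ℂ) := by push_cast; ring
      rw [e, Complex.norm_real, Real.norm_eq_abs, abs_le]
      constructor <;> linarith [hx1.1, hx1.2])
    rw [hBc] at hmain
    have hlow : 1/8 ≤ ‖h 2‖ := by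
      have h1 := hV2 τ (by rw [abs_of_pos (by linarith)]; linarith)
      have h2 := hreal 2
      rw [Complex.ofReal_ofNat] at h2
      rw [h2, Complex.norm_real, Real.norm_eq_abs]
      exact h1.trans (le_abs_self _)
    have hX : 0 < C * (4 + K) * T := by positivity
    have h1 : 1/8 ≤ C * (4 + K) * T * ((3/2 : ℝ) / (13/8)) ^ A.card := hlow.trans hmain
    have h2 : ((13/12 : ℝ)) ^ A.card ≤ 8 * (C * (4 + K) * T) := by
      have e : ((3/2 : ℝ) / (13/8)) ^ A.card * (13/12) ^ A.card = 1 := by
        rw [← mul_pow]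
        norm_num
      have hp : (0:ℝ) < (13/12) ^ A.card := by positivity
      have h3 := mul_le_mul_of_nonneg_right h1 hp.le
      rw [mul_assoc, e, mul_one] at h3
      linarith
    have h3 : (A.card : ℝ) * Real.log (13/12) ≤ Real.log (8 * (C * (4 + K) * T)) := by
      rw [← Real.log_pow]
      exact Real.log_le_log (by positivity) h2
    have h5 : Real.log (8 * (C * (4 + K) * T)) ≤ Real.log D + Real.log T := by
      rw [← Real.log_mul (by linarith) (by linarith)]
      apply Real.log_le_log (by positivity)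
      rw [hD]
      nlinarith
    have h6 : Real.log D ≤ Real.log D * Real.log T := by nlinarith
    rw [div_mul_eq_mul_div, le_div_iff₀ hq]
    linarith)
  exact ⟨Z, hZc, fun x hx h0 => (hZ x).2 ⟨hx, h0⟩⟩

end LS
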