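import Pool.Agent.Lib.MP_0f5a55_nt.S.Arg4

/-! # Factorisation on a closed rectangle and the block estimate -/

open Complex Set Filter Topology MeasureTheory
open scoped ComplexConjugate

namespace LS

/-- the order of a product of linear factors -/
theorem order_prod (A : Finset ℂ) (μ : ℂ → ℕ) {z : ℂ} (hz : z ∈ A) :
    analyticOrderAt (fun w => ∏ ρ ∈ A, (w - ρ) ^ μ ρ) z = μ z := by
  classical
  have h1 : (fun w => ∏ ρ ∈ A, (w - ρ) ^ μ ρ) = fun w => (w - z) ^ μ z * ∏ ρ ∈ A.erase z, (w - ρ) ^ μ ρ := by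
    funext w
    exact (Finset.mul_prod_erase A (fun ρ => (w - ρ) ^ μ ρ) hz).symm
  have ha : AnalyticAt ℂ (fun w => (w - z) ^ μ z * ∏ ρ ∈ A.erase z, (w - ρ) ^ μ ρ) z := by fun_prop
  rw [h1, ha.analyticOrderAt_eq_natCast]
  refine ⟨fun w => ∏ ρ ∈ A.erase z, (w - ρ) ^ μ ρ, by fun_prop, ?_, Eventually.of_forall fun w => rfl⟩
  rw [Finset.prod_ne_zero_iff]
  intro ρ hρ
  exact pow_ne_zero _ (sub_ne_zero.2 (Finset.ne_of_mem_erase hρ).symm)

/-- zeros in a compact set are finitely many -/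
theorem finite_zeros {f : ℂ → ℂ} {U R : Set ℂ} (hU : IsOpen U) (hUc : IsPreconnected U) (hf : DifferentiableOn ℂ f U)
    (hR : IsCompact R) (hRU : R ⊆ U) {z0 : ℂ} (hz0 : z0 ∈ U) (h0 : f z0 ≠ 0) : {z ∈ R | f z = 0}.Finite := by
  have hfa : AnalyticOnNhd ℂ f U := hf.analyticOnNhd hU
  have hloc : ∀ z ∈ R, ∃ V ∈ 𝓝 z, {w ∈ V | f w = 0} ⊆ {z} := by
    intro z hz
    rcases (hfa z (hRU hz)).eventually_eq_zero_or_eventually_ne_zero with h | h
    · exact absurd (hfa.eqOn_zero_of_preconnected_of_eventuallyEq_zero hUc (hRU hz) h hz0) h0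
    · rw [eventually_nhdsWithin_iff] at h
      refine ⟨_, h, ?_⟩
      rintro w ⟨hw1, hw2⟩
      by_contra hne
      exact hw1 hne hw2
  choose! V hV hVs using hloc
  obtain ⟨t, ht, htR⟩ := hR.elim_nhds_subcover V hV
  refine (t.finite_toSet).subset ?_
  rintro z ⟨hz1, hz2⟩
  obtain ⟨w, hw, hzw⟩ := mem_iUnion₂.1 (htR hz1)
  have := hVs w (ht w hw) ⟨hzw, hz2⟩
  rw [mem_singleton_iff] at this
  rw [this]
  exact hw

/-- factorisation on a closed rectangle with an exponential as the nonvanishing factor -/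
theorem rect_factor {f : ℂ → ℂ} {U : Set ℂ} (hU : IsOpen U) (hUc : IsPreconnected U) (hf : DifferentiableOn ℂ f U)
    {x0 x1 y0 y1 : ℝ} (hx : x0 ≤ x1) (hy : y0 ≤ y1)
    (hRU : ∀ z : ℂ, x0 ≤ z.re → z.re ≤ x1 → y0 ≤ z.im → z.im ≤ y1 → z ∈ U) {z0 : ℂ} (hz0 : z0 ∈ U) (h0 : f z0 ≠ 0) :
    ∃ (A : Finset ℂ) (G : ℂ → ℂ), Continuous G ∧
      (∀ z, z ∈ A ↔ (x0 ≤ z.re ∧ z.re ≤ x1 ∧ y0 ≤ z.im ∧ z.im ≤ y1 ∧ f z = 0)) ∧
      (∀ z ∈ A, 1 ≤ analyticOrderNatAt f z) ∧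
      (∀ z : ℂ, x0 ≤ z.re → z.re ≤ x1 → y0 ≤ z.im → z.im ≤ y1 →
        f z = (∏ ρ ∈ A, (z - ρ) ^ analyticOrderNatAt f ρ) * exp (G z)) := by
  classical
  have hRc : IsCompact (Icc x0 x1 ×ℂ Icc y0 y1) := isCompact_Icc.reProdIm isCompact_Icc
  have hRU' : Icc x0 x1 ×ℂ Icc y0 y1 ⊆ U := by
    intro z hz
    obtain ⟨h1, h2⟩ := Complex.mem_reProdIm.1 hz
    exact hRU z h1.1 h1.2 h2.1 h2.2
  have hfin := finite_zeros hU hUc hf hRc hRU' hz0 h0
  have hfa : AnalyticOnNhd ℂ f U := hf.analyticOnNhd hU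
  have hA : ∀ z, z ∈ hfin.toFinset ↔ (x0 ≤ z.re ∧ z.re ≤ x1 ∧ y0 ≤ z.im ∧ z.im ≤ y1 ∧ f z = 0) := by
    intro z
    rw [Set.Finite.mem_toFinset]
    constructor
    · rintro ⟨h1, h2⟩
      obtain ⟨h3, h4⟩ := Complex.mem_reProdIm.1 h1
      exact ⟨h3.1, h3.2, h4.1, h4.2, h2⟩
    · rintro ⟨h1, h2, h3, h4, h5⟩
      exact ⟨Complex.mem_reProdIm.2 ⟨⟨h1, h2⟩, ⟨h3, h4⟩⟩, h5⟩
  set A := hfin.toFinset with hAdef
  have hAU : ∀ ρ ∈ A, ρ ∈ U := by
    intro ρ hρ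
    obtain ⟨h1, h2, h3, h4, -⟩ := (hA ρ).1 hρ
    exact hRU ρ h1 h2 h3 h4
  have htop : ∀ z ∈ U, analyticOrderAt f z ≠ ⊤ := by
    intro z hz h
    rw [analyticOrderAt_eq_top] at h
    exact h0 (hfa.eqOn_zero_of_preconnected_of_eventuallyEq_zero hUc hz h hz0)
  have hcast : ∀ z ∈ U, ((analyticOrderNatAt f z : ℕ) : ℕ∞) = analyticOrderAt f z := by
    intro z hz
    exact Nat.cast_analyticOrderNatAt (htop z hz)
  obtain ⟨g, hg, hfg⟩ := LW.factor_zeros hU hf A (analyticOrderNatAt f) hAU (fun ρ hρ => (hcast ρ (hAU ρ hρ)).le)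
  have hg0 : ∀ z : ℂ, x0 ≤ z.re → z.re ≤ x1 → y0 ≤ z.im → z.im ≤ y1 → g z ≠ 0 := by
    intro z h1 h2 h3 h4 hgz
    have hzU := hRU z h1 h2 h3 h4
    have hfz : f z = 0 := by rw [hfg z hzU, hgz, mul_zero]
    have hzA : z ∈ A := (hA z).2 ⟨h1, h2, h3, h4, hfz⟩
    have hga : AnalyticAt ℂ g z := hg.analyticAt (hU.mem_nhds hzU)
    have hev : f =ᶠ[𝓝 z] (fun w => ∏ ρ ∈ A, (w - ρ) ^ analyticOrderNatAt f ρ) * g := by
      filter_upwards [hU.mem_nhds hzU] with w hw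
      exact hfg w hw
    have h5 : analyticOrderAt f z = analyticOrderAt (fun w => ∏ ρ ∈ A, (w - ρ) ^ analyticOrderNatAt f ρ) z +
        analyticOrderAt g z := by
      rw [analyticOrderAt_congr hev]
      exact analyticOrderAt_mul (by fun_prop) hga
    rw [order_prod A _ hzA, ← hcast z hzU] at h5
    have h6 : 1 ≤ analyticOrderAt g z := by
      rw [Order.one_le_iff_ne_zero]
      intro h
      exact (hga.analyticOrderAt_eq_zero.1 h) hgz
    have h7 : ((analyticOrderNatAt f z : ℕ) : ℕ∞) + 1 ≤ (analyticOrderNatAt f z : ℕ) := by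
      calc ((analyticOrderNatAt f z : ℕ) : ℕ∞) + 1 ≤ (analyticOrderNatAt f z : ℕ) + analyticOrderAt g z := by gcongr
        _ = _ := h5.symm
    have h8 : analyticOrderNatAt f z + 1 ≤ analyticOrderNatAt f z := by exact_mod_cast h7
    omega
  -- clamp
  set cl : ℂ → ℂ := fun z => (max x0 (min z.re x1) : ℝ) + (max y0 (min z.im y1) : ℝ) * I with hcl
  have hcl_cont : Continuous cl := by
    rw [hcl]
    fun_prop
  have hcl_re : ∀ z, (cl z).re = max x0 (min z.re x1) := by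
    intro z
    simp [hcl]
  have hcl_im : ∀ z, (cl z).im = max y0 (min z.im y1) := by
    intro z
    simp [hcl]
  have hcl_in : ∀ z, x0 ≤ (cl z).re ∧ (cl z).re ≤ x1 ∧ y0 ≤ (cl z).im ∧ (cl z).im ≤ y1 := by
    intro z
    rw [hcl_re, hcl_im]
    exact ⟨le_max_left _ _, max_le hx (min_le_right _ _), le_max_left _ _, max_le hy (min_le_right _ _)⟩
  have hgc : Continuous (fun z => g (cl z)) := by
    refine hg.continuousOn.comp_continuous hcl_cont fun z => ?_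
    obtain ⟨h1, h2, h3, h4⟩ := hcl_in z
    exact hRU _ h1 h2 h3 h4
  obtain ⟨G, hG, hGe⟩ := exists_continuousOn_eqOn_exp_comp isSimplyConnected_univ' isOpen_univ
    (g := fun z => g (cl z)) hgc.continuousOn (by
      rintro ⟨z, -, hz⟩
      obtain ⟨h1, h2, h3, h4⟩ := hcl_in z
      exact hg0 _ h1 h2 h3 h4 hz)
  refine ⟨A, G, continuousOn_univ.1 hG, hA, fun z hz => ?_, fun z h1 h2 h3 h4 => ?_⟩
  · have hzU := hAU z hz
    have h1 : analyticOrderAt f z ≠ 0 := by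
      intro h
      exact ((hfa z hzU).analyticOrderAt_eq_zero.1 h) ((hA z).1 hz).2.2.2.2
    rw [← hcast z hzU] at h1
    have h2 : analyticOrderNatAt f z ≠ 0 := by exact_mod_cast h1
    omega
  · rw [hfg z (hRU z h1 h2 h3 h4)]
    congr 1
    have h5 : cl z = z := by
      apply Complex.ext
      · rw [hcl_re, min_eq_left h2, max_eq_right h1]
      · rw [hcl_im, min_eq_left h4, max_eq_right h3]
    have h6 := hGe (mem_univ z)
    simp only [Function.comp_apply, h5] at h6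
    exact h6.symm

end LS
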