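import Pool.Agent.Lib.MP_0f5a55_nt.V.V37
import Pool.Agent.Lib.MP_0f5a55_nt.S.S00

open Complex MeasureTheory Set Filter Topology
open scoped ComplexConjugate FourierTransform

namespace LS

private theorem B1_ne (u : ℝ) : (1 + (u : ℂ) * I) ≠ 0 := by
  intro h
  have := congrArg Complex.re h
  simp at this

private theorem B1_sq (u : ℝ) : ‖(1 + (u : ℂ) * I)‖ ^ 2 = 1 + u ^ 2 := by
  rw [← Complex.normSq_eq_norm_sq, Complex.normSq_apply]
  simp
  ring

private theorem B1_low (u : ℝ) : (1 + |u|) / 2 ≤ ‖(1 + (u : ℂ) * I)‖ := by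
  have h1 : |(1 + (u : ℂ) * I).re| ≤ ‖(1 + (u : ℂ) * I)‖ := Complex.abs_re_le_norm _
  have h2 : |(1 + (u : ℂ) * I).im| ≤ ‖(1 + (u : ℂ) * I)‖ := Complex.abs_im_le_norm _
  have e1 : (1 + (u : ℂ) * I).re = 1 := by simp
  have e2 : (1 + (u : ℂ) * I).im = u := by simp
  rw [e1, abs_one] at h1
  rw [e2] at h2
  linarith

/-- elementary facts on the kernel -/
theorem kn_facts (n : ℕ) : Continuous (kn n) ∧ ∃ C : ℝ, 0 < C ∧ ∀ u : ℝ, ‖kn n u‖ ≤ C * (1 + |u|) ^ (-((n : ℝ) + 1)) := by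
  have hcont : Continuous (kn n) := by
    unfold kn
    apply Continuous.mul
    · fun_prop
    · apply Continuous.inv₀
      · fun_prop
      · intro u
        exact pow_ne_zero _ (B1_ne u)
  refine ⟨hcont, ‖(n.factorial : ℂ) / (2 * Real.pi)‖ * Real.exp 1 * 2 ^ (n + 1), ?_, ?_⟩
  · have h1 : (n.factorial : ℂ) / (2 * Real.pi) ≠ 0 := by
      refine div_ne_zero ?_ ?_
      · exact_mod_cast n.factorial_ne_zero
      · refine mul_ne_zero two_ne_zero ?_
        exact_mod_cast Real.pi_ne_zero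
    have h2 : 0 < ‖(n.factorial : ℂ) / (2 * Real.pi)‖ := norm_pos_iff.2 h1
    positivity
  · intro u
    have hu : (0 : ℝ) < 1 + |u| := by positivity
    have h3 : (1 + |u|) ^ (-((n : ℝ) + 1)) = ((1 + |u|) ^ (n + 1))⁻¹ := by
      rw [Real.rpow_neg hu.le]
      congr 1
      rw [← Real.rpow_natCast]
      congr 1
      push_cast
      ring
    rw [h3]
    unfold kn
    rw [norm_mul, norm_mul, norm_inv, norm_pow, Complex.norm_exp]
    have h4 : (1 + (u : ℂ) * I).re = 1 := by simp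
    rw [h4, mul_assoc (‖(n.factorial : ℂ) / (2 * Real.pi)‖ * Real.exp 1)]
    apply mul_le_mul_of_nonneg_left _ (by positivity)
    have h5 : ((1 + |u|) / 2) ^ (n + 1) ≤ ‖(1 + (u : ℂ) * I)‖ ^ (n + 1) :=
      pow_le_pow_left₀ (by positivity) (B1_low u) _
    calc (‖(1 + (u : ℂ) * I)‖ ^ (n + 1))⁻¹ ≤ (((1 + |u|) / 2) ^ (n + 1))⁻¹ :=
          inv_anti₀ (by positivity) h5
      _ = 2 ^ (n + 1) * ((1 + |u|) ^ (n + 1))⁻¹ := by
          rw [div_pow, inv_div, div_eq_mul_inv]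

/-- the function `t^n exp(-t)` on `t > 0` -/
private noncomputable def B1_g (n : ℕ) (t : ℝ) : ℂ := (((max 0 t) ^ n * Real.exp (-t) : ℝ) : ℂ)

/-- its transform -/
private noncomputable def B1_h (n : ℕ) (u : ℝ) : ℂ := (n.factorial : ℂ) * ((1 + (u : ℂ) * I) ^ (n + 1))⁻¹

private theorem B1_g_cont (n : ℕ) : Continuous (B1_g n) := by
  unfold B1_g
  fun_prop

private theorem B1_g_ind (n : ℕ) (hn : 1 ≤ n) : B1_g n = (Ioi (0 : ℝ)).indicator
    (fun x : ℝ => (x : ℂ) ^ (((n + 1 : ℕ) : ℂ) - 1) * cexp (-(1 * x))) := by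
  funext t
  by_cases ht : t ∈ Ioi (0 : ℝ)
  · rw [Set.indicator_of_mem ht]
    have ht0 : 0 < t := ht
    unfold B1_g
    rw [max_eq_right ht0.le]
    have h1 : ((n + 1 : ℕ) : ℂ) - 1 = (n : ℂ) := by push_cast; ring
    rw [h1, Complex.cpow_natCast]
    push_cast
    rw [one_mul]
  · rw [Set.indicator_of_notMem ht]
    have ht0 : t ≤ 0 := not_lt.1 ht
    unfold B1_g
    rw [max_eq_left ht0, zero_pow (by omega)]
    simp

private theorem B1_re (n : ℕ) : 0 < (((n + 1 : ℕ) : ℂ)).re := by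
  rw [Complex.natCast_re]
  positivity

private theorem B1_g_int (n : ℕ) (hn : 1 ≤ n) : Integrable (B1_g n) := by
  rw [B1_g_ind n hn, integrable_indicator_iff measurableSet_Ioi]
  have h := LZX.exp_int_intg (s := ((n + 1 : ℕ) : ℂ)) (B1_re n) (W := 1) (by norm_num)
  exact h

private theorem B1_h_cont (n : ℕ) : Continuous (B1_h n) := by
  unfold B1_h
  apply Continuous.mul continuous_const
  apply Continuous.inv₀
  · fun_prop
  · intro u
    exact pow_ne_zero _ (B1_ne u)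

private theorem B1_h_int (n : ℕ) (hn : 1 ≤ n) : Integrable (B1_h n) := by
  have hI := integrable_inv_one_add_sq.const_mul ‖(n.factorial : ℂ)‖
  apply hI.mono' (B1_h_cont n).aestronglyMeasurable
  filter_upwards with u
  unfold B1_h
  rw [norm_mul, norm_inv, norm_pow]
  apply mul_le_mul_of_nonneg_left _ (norm_nonneg _)
  have h1 := B1_sq u
  have h2 : (1 : ℝ) ≤ ‖(1 + (u : ℂ) * I)‖ := by
    have h3 : |(1 + (u : ℂ) * I).re| ≤ ‖(1 + (u : ℂ) * I)‖ := Complex.abs_re_le_norm _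
    have e1 : (1 + (u : ℂ) * I).re = 1 := by simp
    rwa [e1, abs_one] at h3
  apply inv_anti₀ (by positivity)
  calc 1 + u ^ 2 = ‖(1 + (u : ℂ) * I)‖ ^ 2 := h1.symm
    _ ≤ ‖(1 + (u : ℂ) * I)‖ ^ (n + 1) := pow_le_pow_right₀ h2 (by omega)

private theorem B1_fourier (n : ℕ) (hn : 1 ≤ n) (w : ℝ) : 𝓕 (B1_g n) w = B1_h n (2 * Real.pi * w) := by
  rw [Real.fourier_real_eq_integral_exp_smul]
  have h1 : ∀ v : ℝ, cexp (((-2 * Real.pi * v * w : ℝ) : ℂ) * I) • B1_g n v =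
      (Ioi (0 : ℝ)).indicator (fun x : ℝ => (x : ℂ) ^ (((n + 1 : ℕ) : ℂ) - 1) *
        cexp (-((1 + ((2 * Real.pi * w : ℝ) : ℂ) * I) * x))) v := by
    intro v
    rw [B1_g_ind n hn]
    by_cases hv : v ∈ Ioi (0 : ℝ)
    · rw [Set.indicator_of_mem hv, Set.indicator_of_mem hv, smul_eq_mul]
      have : cexp (-((1 + ((2 * Real.pi * w : ℝ) : ℂ) * I) * v)) =
          cexp (((-2 * Real.pi * v * w : ℝ) : ℂ) * I) * cexp (-(1 * (v : ℂ))) := by
        rw [← Complex.exp_add]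
        congr 1
        push_cast
        ring
      rw [this]; ring
    · rw [Set.indicator_of_notMem hv, Set.indicator_of_notMem hv, smul_zero]
  simp_rw [h1]
  rw [integral_indicator measurableSet_Ioi]
  rw [LZX.exp_int (s := ((n + 1 : ℕ) : ℂ)) (B1_re n) (W := 1 + ((2 * Real.pi * w : ℝ) : ℂ) * I) (by simp)]
  unfold B1_h
  have h2 : Gamma ((n + 1 : ℕ) : ℂ) = (n.factorial : ℂ) := by
    have := Complex.Gamma_nat_eq_factorial n
    rw [← this]
    congr 1
    push_cast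
    ring
  have h3 : (1 + ((2 * Real.pi * w : ℝ) : ℂ) * I) ^ (-((n + 1 : ℕ) : ℂ)) =
      ((1 + ((2 * Real.pi * w : ℝ) : ℂ) * I) ^ (n + 1))⁻¹ := by
    rw [Complex.cpow_neg, Complex.cpow_natCast]
  rw [h2, h3]
  ring

private theorem B1_inv (n : ℕ) (hn : 1 ≤ n) (X : ℝ) :
    B1_g n X = ((2 * Real.pi : ℝ) : ℂ)⁻¹ * ∫ u : ℝ, cexp ((u * X : ℝ) * I) * B1_h n u := by
  have hpi : (0 : ℝ) < 2 * Real.pi := Real.two_pi_pos
  have hF : 𝓕 (B1_g n) = fun w => B1_h n (2 * Real.pi * w) := funext (B1_fourier n hn)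
  have hFi : Integrable (𝓕 (B1_g n)) := by
    rw [hF]
    exact (B1_h_int n hn).comp_mul_left' hpi.ne'
  have h1 := (B1_g_int n hn).fourierInv_fourier_eq hFi ((B1_g_cont n).continuousAt (x := X))
  rw [← h1, Real.fourierInv_eq_fourier_neg, Real.fourier_real_eq_integral_exp_smul, hF]
  have h2 : ∀ v : ℝ, cexp (((-2 * Real.pi * v * -X : ℝ) : ℂ) * I) • B1_h n (2 * Real.pi * v) =
      (fun u : ℝ => cexp ((u * X : ℝ) * I) * B1_h n u) (2 * Real.pi * v) := by
    intro v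
    simp only [smul_eq_mul]
    congr 2
    push_cast
    ring
  simp_rw [h2]
  rw [MeasureTheory.Measure.integral_comp_mul_left (fun u : ℝ => cexp ((u * X : ℝ) * I) * B1_h n u),
    abs_of_pos (inv_pos.2 hpi), Complex.real_smul]
  push_cast
  rfl

/-- Fourier inversion, adapt V37 (wt_eq), general exponent -/
theorem wn_eq (n : ℕ) (hn : 1 ≤ n) (x : ℝ) : (wn n x : ℂ) = ∫ u : ℝ, kn n u * exp (-((1 + u * I) * x)) := by
  have h1 : ∀ u : ℝ, kn n u * exp (-((1 + u * I) * x)) =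
      cexp (((1 - x : ℝ) : ℂ)) * (((2 * Real.pi : ℝ) : ℂ)⁻¹ *
        (cexp ((u * (1 - x) : ℝ) * I) * B1_h n u)) := by
    intro u
    unfold kn B1_h
    have h2 : cexp (1 + u * I) * cexp (-((1 + u * I) * x)) =
        cexp (((1 - x : ℝ) : ℂ)) * cexp ((u * (1 - x) : ℝ) * I) := by
      rw [← Complex.exp_add, ← Complex.exp_add]
      congr 1
      push_cast
      ring
    calc _ = (n.factorial : ℂ) / (2 * Real.pi) * ((1 + u * I) ^ (n + 1))⁻¹ *
          (cexp (1 + u * I) * cexp (-((1 + u * I) * x))) := by ring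
      _ = _ := by rw [h2]; push_cast; ring
  simp_rw [h1]
  rw [integral_const_mul, integral_const_mul, ← B1_inv n hn (1 - x)]
  unfold B1_g wn
  rw [← Complex.ofReal_exp]
  rw [← Complex.ofReal_mul]
  congr 1
  rw [mul_left_comm, ← Real.exp_add]
  simp

end LS
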