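import Pool.Agent.Lib.MP_0f5a55_nt.S.S00
import Mathlib.Analysis.Complex.LocallyUniformLimit

open Complex MeasureTheory Set Filter Topology
open scoped ComplexConjugate

namespace LS

/-- Cauchy's formula for the value and the first derivative -/
theorem B11_cauchy {f : ℂ → ℂ} {U : Set ℂ} (hU : IsOpen U) {c : ℂ} (hc : Metric.closedBall c (1/2) ⊆ U)
    (hf : DifferentiableOn ℂ f U) :
    ∫ θ in (0:ℝ)..2 * Real.pi, f (c + 1/2 * exp (θ * I)) * (1 + 11/5 * exp (-(θ * I))) =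
      2 * Real.pi * (f c + 11/10 * deriv f c) := by
  have hR : (0:ℝ) < 1/2 := by norm_num
  have hw : c ∈ Metric.ball c (1/2 : ℝ) := Metric.mem_ball_self hR
  have hpi : (2 * Real.pi * I : ℂ) ≠ 0 := by
    simp [Real.pi_ne_zero]
  have hfc : ContinuousOn f (Metric.sphere c (1/2)) :=
    hf.continuousOn.mono (Metric.sphere_subset_closedBall.trans hc)
  have h1 : (∮ z in C(c, 1/2), (z - c)⁻¹ • f z) = (2 * Real.pi * I : ℂ) • f c :=
    (hf.mono hc).circleIntegral_sub_inv_smul hw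
  have h2 : ((2 * Real.pi * I : ℂ)⁻¹ • ∮ z in C(c, 1/2), ((z - c) ^ 2)⁻¹ • f z) = deriv f c :=
    two_pi_I_inv_smul_circleIntegral_sub_sq_inv_smul_of_differentiable hU hc hf hw
  have e1 : (∮ z in C(c, 1/2), (z - c)⁻¹ • f z) =
      I * ∫ θ in (0:ℝ)..2 * Real.pi, f (c + 1/2 * exp (θ * I)) := by
    rw [circleIntegral, ← intervalIntegral.integral_const_mul]
    apply intervalIntegral.integral_congr
    intro θ _
    simp only [deriv_circleMap, circleMap, smul_eq_mul]
    have h3 : exp ((θ : ℂ) * I) ≠ 0 := exp_ne_zero _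
    push_cast
    field_simp
    ring_nf
  have e2 : (∮ z in C(c, 1/2), ((z - c) ^ 2)⁻¹ • f z) =
      2 * I * ∫ θ in (0:ℝ)..2 * Real.pi, f (c + 1/2 * exp (θ * I)) * exp (-(θ * I)) := by
    rw [circleIntegral, ← intervalIntegral.integral_const_mul]
    apply intervalIntegral.integral_congr
    intro θ _
    simp only [deriv_circleMap, circleMap, smul_eq_mul]
    have h3 : exp ((θ : ℂ) * I) ≠ 0 := exp_ne_zero _
    rw [exp_neg]
    push_cast
    field_simp
    ring_nf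
  have hmap : Continuous (fun θ : ℝ => c + 1/2 * exp (θ * I)) := by fun_prop
  have hmem : ∀ θ : ℝ, c + 1/2 * exp (θ * I) ∈ Metric.sphere c (1/2 : ℝ) := by
    intro θ
    rw [mem_sphere_iff_norm]
    simp [norm_exp_ofReal_mul_I]
  have hcf : Continuous (fun θ : ℝ => f (c + 1/2 * exp (θ * I))) :=
    hfc.comp_continuous hmap hmem
  have i1 : IntervalIntegrable (fun θ : ℝ => f (c + 1/2 * exp (θ * I))) volume 0 (2 * Real.pi) :=
    hcf.intervalIntegrable _ _
  have i2 : IntervalIntegrable (fun θ : ℝ => 11/5 * (f (c + 1/2 * exp (θ * I)) * exp (-(θ * I)))) volume 0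
      (2 * Real.pi) := by
    apply Continuous.intervalIntegrable
    have : Continuous (fun θ : ℝ => exp (-((θ : ℂ) * I))) := by fun_prop
    exact continuous_const.mul (hcf.mul this)
  have e3 : ∫ θ in (0:ℝ)..2 * Real.pi, f (c + 1/2 * exp (θ * I)) * (1 + 11/5 * exp (-(θ * I))) =
      (∫ θ in (0:ℝ)..2 * Real.pi, f (c + 1/2 * exp (θ * I))) +
      11/5 * ∫ θ in (0:ℝ)..2 * Real.pi, f (c + 1/2 * exp (θ * I)) * exp (-(θ * I)) := by
    rw [← intervalIntegral.integral_const_mul, ← intervalIntegral.integral_add i1 i2]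
    apply intervalIntegral.integral_congr
    intro θ _
    ring
  rw [e1] at h1
  rw [e2] at h2
  set A := ∫ θ in (0:ℝ)..2 * Real.pi, f (c + 1/2 * exp (θ * I)) with hA
  set B := ∫ θ in (0:ℝ)..2 * Real.pi, f (c + 1/2 * exp (θ * I)) * exp (-(θ * I)) with hB
  rw [e3]
  have hI : (I : ℂ) ≠ 0 := I_ne_zero
  have h4 : A = 2 * Real.pi * f c := by
    rw [smul_eq_mul] at h1
    apply mul_left_cancel₀ hI
    rw [h1]
    ring
  have h5 : B = Real.pi * deriv f c := by
    rw [← h2, smul_eq_mul]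
    have : (Real.pi : ℂ) ≠ 0 := by exact_mod_cast Real.pi_ne_zero
    field_simp
  rw [h4, h5]
  ring

/-- numerator of XL -/
noncomputable def B11_N (a b : ℂ) : ℂ :=
  JJ (6/25 * a) (6/25 * b) - exp (-(a + b)) * JJ (-(6/25 * a)) (-(6/25 * b))

/-- its derivative in b -/
noncomputable def B11_Nb (a b : ℂ) : ℂ :=
  36/3125 * a + 3/25 + exp (-(a + b)) * JJ (-(6/25 * a)) (-(6/25 * b)) -
    exp (-(a + b)) * (36/3125 * a - 3/25)

theorem B11_db (a b : ℂ) (h : a + b ≠ 0) : HasDerivAt (fun b => XL a b)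
    (25/6 * (B11_Nb a b * (a + b) - B11_N a b) / (a + b) ^ 2) b := by
  have hs : HasDerivAt (fun b : ℂ => a + b) 1 b := by
    simpa using (hasDerivAt_id b).const_add a
  have he : HasDerivAt (fun b : ℂ => exp (-(a + b))) (exp (-(a + b)) * (-1)) b := (hs.neg).cexp
  have hJ1 : HasDerivAt (fun b : ℂ => JJ (6/25 * a) (6/25 * b)) (36/3125 * a + 3/25) b := by
    have h1 : HasDerivAt (fun b : ℂ => (36/3125 * a + 3/25) * b + (3/25 * a + 4/3))
        ((36/3125 * a + 3/25) * 1) b := ((hasDerivAt_id b).const_mul _).add_const _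
    rw [mul_one] at h1
    refine h1.congr_of_eventuallyEq (Eventually.of_forall fun b => ?_)
    simp only [JJ]
    ring
  have hJ2 : HasDerivAt (fun b : ℂ => JJ (-(6/25 * a)) (-(6/25 * b))) (36/3125 * a - 3/25) b := by
    have h1 : HasDerivAt (fun b : ℂ => (36/3125 * a - 3/25) * b + (-(3/25) * a + 4/3))
        ((36/3125 * a - 3/25) * 1) b := ((hasDerivAt_id b).const_mul _).add_const _
    rw [mul_one] at h1
    refine h1.congr_of_eventuallyEq (Eventually.of_forall fun b => ?_)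
    simp only [JJ]
    ring
  have hN : HasDerivAt (fun b : ℂ => B11_N a b) (B11_Nb a b) b := by
    have h1 := hJ1.sub (he.mul hJ2)
    refine h1.congr_deriv ?_
    unfold B11_Nb
    ring
  have hX := (hN.fun_div hs h).const_mul (25/6 : ℂ)
  have h2 : HasDerivAt (fun b => XL a b) _ b :=
    hX.congr_of_eventuallyEq (Eventually.of_forall fun b => by
      simp only [XL, B11_N]
      ring)
  refine h2.congr_deriv ?_
  ring

/-- XL is symmetric -/
theorem B11_symm (a b : ℂ) : XL a b = XL b a := by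
  unfold XL JJ
  rw [add_comm b a]
  ring

/-- the inner value -/
noncomputable def B11_G (a : ℂ) : ℂ :=
  25/6 * B11_N a (-2) / (a - 2) + 11/10 * (25/6 * (B11_Nb a (-2) * (a - 2) - B11_N a (-2)) / (a - 2) ^ 2)

theorem B11_open : IsOpen {z : ℂ | z.re < -1} := isOpen_lt continuous_re continuous_const

theorem B11_ball : Metric.closedBall (-2 : ℂ) (1/2) ⊆ {z : ℂ | z.re < -1} := by
  intro z hz
  rw [mem_closedBall_iff_norm] at hz
  have h1 := (abs_re_le_norm (z - -2)).trans hz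
  rw [abs_le] at h1
  have h2 : (z - -2).re = z.re + 2 := by simp
  rw [h2] at h1
  show z.re < -1
  linarith [h1.2]

theorem B11_ne {a b : ℂ} (ha : a.re < -1) (hb : b.re < -1) : a + b ≠ 0 := by
  intro h
  have := congrArg Complex.re h
  simp at this
  linarith

theorem B11_inner (a : ℂ) (ha : a.re < -1) :
    ∫ φ in (0:ℝ)..2 * Real.pi, XL a (-2 + 1/2 * exp (φ * I)) * (1 + 11/5 * exp (-(φ * I))) =
      2 * Real.pi * B11_G a := by
  have hd : DifferentiableOn ℂ (fun b => XL a b) {z : ℂ | z.re < -1} := fun b hb =>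
    (B11_db a b (B11_ne ha hb)).differentiableAt.differentiableWithinAt
  rw [B11_cauchy B11_open B11_ball hd]
  have h2 : a + -2 ≠ 0 := B11_ne ha (by norm_num)
  rw [(B11_db a (-2) h2).deriv]
  unfold B11_G
  have e : a + -2 = a - 2 := by ring
  rw [e] at h2 ⊢
  congr 2
  unfold XL B11_N
  rw [e]
  ring

theorem B11_dN (a b : ℂ) : HasDerivAt (fun a => B11_N a b) (B11_Nb b a) a := by
  have he : HasDerivAt (fun a : ℂ => exp (-(a + b))) (exp (-(a + b)) * (-1)) a := by
    have hs : HasDerivAt (fun a : ℂ => a + b) 1 a := by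
      simpa using (hasDerivAt_id a).add_const b
    exact (hs.neg).cexp
  have hJ1 : HasDerivAt (fun a : ℂ => JJ (6/25 * a) (6/25 * b)) (36/3125 * b + 3/25) a := by
    have h1 : HasDerivAt (fun a : ℂ => (36/3125 * b + 3/25) * a + (3/25 * b + 4/3))
        ((36/3125 * b + 3/25) * 1) a := ((hasDerivAt_id a).const_mul _).add_const _
    rw [mul_one] at h1
    refine h1.congr_of_eventuallyEq (Eventually.of_forall fun a => ?_)
    simp only [JJ]
    ring
  have hJ2 : HasDerivAt (fun a : ℂ => JJ (-(6/25 * a)) (-(6/25 * b))) (36/3125 * b - 3/25) a := by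
    have h1 : HasDerivAt (fun a : ℂ => (36/3125 * b - 3/25) * a + (-(3/25) * b + 4/3))
        ((36/3125 * b - 3/25) * 1) a := ((hasDerivAt_id a).const_mul _).add_const _
    rw [mul_one] at h1
    refine h1.congr_of_eventuallyEq (Eventually.of_forall fun a => ?_)
    simp only [JJ]
    ring
  have h1 := hJ1.sub (he.mul hJ2)
  refine h1.congr_deriv ?_
  unfold B11_Nb JJ
  rw [add_comm b a]
  ring

/-- mixed derivative of the numerator -/
noncomputable def B11_Nab (a b : ℂ) : ℂ :=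
  36/3125 - exp (-(a + b)) * JJ (-(6/25 * a)) (-(6/25 * b)) + exp (-(a + b)) * (36/3125 * b - 3/25) +
    exp (-(a + b)) * (36/3125 * a - 3/25) - exp (-(a + b)) * (36/3125)

theorem B11_dNb (a b : ℂ) : HasDerivAt (fun a => B11_Nb a b) (B11_Nab a b) a := by
  have he : HasDerivAt (fun a : ℂ => exp (-(a + b))) (exp (-(a + b)) * (-1)) a := by
    have hs : HasDerivAt (fun a : ℂ => a + b) 1 a := by
      simpa using (hasDerivAt_id a).add_const b
    exact (hs.neg).cexp
  have hJ2 : HasDerivAt (fun a : ℂ => JJ (-(6/25 * a)) (-(6/25 * b))) (36/3125 * b - 3/25) a := by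
    have h1 : HasDerivAt (fun a : ℂ => (36/3125 * b - 3/25) * a + (-(3/25) * b + 4/3))
        ((36/3125 * b - 3/25) * 1) a := ((hasDerivAt_id a).const_mul _).add_const _
    rw [mul_one] at h1
    refine h1.congr_of_eventuallyEq (Eventually.of_forall fun a => ?_)
    simp only [JJ]
    ring
  have hl1 : HasDerivAt (fun a : ℂ => 36/3125 * a + 3/25) (36/3125 * 1) a :=
    ((hasDerivAt_id a).const_mul _).add_const _
  have hl2 : HasDerivAt (fun a : ℂ => 36/3125 * a - 3/25) (36/3125 * 1) a :=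
    ((hasDerivAt_id a).const_mul _).sub_const _
  have h1 := (hl1.add (he.mul hJ2)).sub (he.mul hl2)
  refine h1.congr_deriv ?_
  unfold B11_Nab
  ring

theorem B11_dG (a : ℂ) (ha : a - 2 ≠ 0) : HasDerivAt B11_G
    (25/6 * (B11_Nb (-2) a / (a - 2) - B11_N a (-2) / (a - 2) ^ 2 +
      11/10 * (B11_Nab a (-2) / (a - 2) - B11_Nb a (-2) / (a - 2) ^ 2 - B11_Nb (-2) a / (a - 2) ^ 2 +
        2 * B11_N a (-2) / (a - 2) ^ 3))) a := by
  have hs : HasDerivAt (fun a : ℂ => a - 2) 1 a := (hasDerivAt_id a).sub_const 2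
  have hs2 : HasDerivAt (fun a : ℂ => (a - 2) ^ 2) (2 * (a - 2)) a := by
    simpa using hs.fun_pow 2
  have hN := B11_dN a (-2)
  have hNb := B11_dNb a (-2)
  have h2 : (a - 2) ^ 2 ≠ 0 := pow_ne_zero 2 ha
  have h1 := ((hN.const_mul (25/6 : ℂ)).fun_div hs ha).fun_add
    ((((((hNb.fun_mul hs).fun_sub hN).const_mul (25/6 : ℂ))).fun_div hs2 h2).const_mul (11/10 : ℂ))
  refine h1.congr_deriv ?_
  field_simp
  ring

/-- Cauchy's formula in both variables; (1 + lam d/da)(1 + lam d/db) XL at a = b = -2, lam = 11/10, r = 1/2 -/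
theorem circ_eval : ((2 * Real.pi : ℝ) : ℂ)⁻¹ ^ 2 * ∫ θ in (0:ℝ)..2 * Real.pi, ∫ φ in (0:ℝ)..2 * Real.pi,
    XL (-2 + 1/2 * exp (θ * I)) (-2 + 1/2 * exp (φ * I)) *
      ((1 + 11/5 * exp (-(θ * I))) * (1 + 11/5 * exp (-(φ * I)))) = (D0 : ℂ) := by
  have hre : ∀ θ : ℝ, (-2 + 1/2 * exp (θ * I) : ℂ).re < -1 := by
    intro θ
    apply B11_ball
    rw [mem_closedBall_iff_norm]
    simp [norm_exp_ofReal_mul_I]
  have h1 : ∀ θ : ℝ, ∫ φ in (0:ℝ)..2 * Real.pi,
      XL (-2 + 1/2 * exp (θ * I)) (-2 + 1/2 * exp (φ * I)) *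
      ((1 + 11/5 * exp (-(θ * I))) * (1 + 11/5 * exp (-(φ * I)))) =
      (2 * Real.pi) * (B11_G (-2 + 1/2 * exp (θ * I)) * (1 + 11/5 * exp (-(θ * I)))) := by
    intro θ
    have h2 := B11_inner _ (hre θ)
    have h3 : ∀ φ : ℝ, XL (-2 + 1/2 * exp (θ * I)) (-2 + 1/2 * exp (φ * I)) *
      ((1 + 11/5 * exp (-(θ * I))) * (1 + 11/5 * exp (-(φ * I)))) =
      (1 + 11/5 * exp (-(θ * I))) * (XL (-2 + 1/2 * exp (θ * I)) (-2 + 1/2 * exp (φ * I)) *
        (1 + 11/5 * exp (-(φ * I)))) := fun φ => by ring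
    simp only [h3]
    rw [intervalIntegral.integral_const_mul, h2]
    ring
  simp only [h1]
  rw [intervalIntegral.integral_const_mul]
  have hd : DifferentiableOn ℂ B11_G {z : ℂ | z.re < -1} := fun a ha => by
    have h2 : a - 2 ≠ 0 := by
      intro h
      have := congrArg Complex.re h
      simp at this
      have ha' : a.re < -1 := ha
      linarith
    exact (B11_dG a h2).differentiableAt.differentiableWithinAt
  rw [B11_cauchy B11_open B11_ball hd, (B11_dG (-2) (by norm_num)).deriv]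
  have hpi : ((2 * Real.pi : ℝ) : ℂ) ≠ 0 := by
    rw [Ne, ofReal_eq_zero]
    exact (mul_pos two_pos Real.pi_pos).ne'
  have e1 : ((2 * Real.pi : ℝ) : ℂ) = 2 * Real.pi := by push_cast; ring
  rw [← e1]
  have e4 : exp (-(-2 + -2) : ℂ) = ((Real.exp 4 : ℝ) : ℂ) := by
    rw [ofReal_exp]
    congr 1
    norm_num
  have e5 : ((2 * Real.pi : ℝ) : ℂ)⁻¹ ^ 2 * (((2 * Real.pi : ℝ) : ℂ) * (((2 * Real.pi : ℝ) : ℂ) *
      (B11_G (-2) + 11/10 * (25/6 * (B11_Nb (-2) (-2) / (-2 - 2) - B11_N (-2) (-2) / (-2 - 2) ^ 2 +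
      11/10 * (B11_Nab (-2) (-2) / (-2 - 2) - B11_Nb (-2) (-2) / (-2 - 2) ^ 2 - B11_Nb (-2) (-2) / (-2 - 2) ^ 2 +
        2 * B11_N (-2) (-2) / (-2 - 2) ^ 3)))))) =
      (B11_G (-2) + 11/10 * (25/6 * (B11_Nb (-2) (-2) / (-2 - 2) - B11_N (-2) (-2) / (-2 - 2) ^ 2 +
      11/10 * (B11_Nab (-2) (-2) / (-2 - 2) - B11_Nb (-2) (-2) / (-2 - 2) ^ 2 - B11_Nb (-2) (-2) / (-2 - 2) ^ 2 +
        2 * B11_N (-2) (-2) / (-2 - 2) ^ 3)))) := by
    field_simp
  rw [e5]
  unfold B11_G B11_N B11_Nb B11_Nab JJ D0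
  rw [e4]
  push_cast
  ring

/-- numerics: D0 = 7.0050..., log D0 = 1.9467 -/
theorem D0_num : 7 < D0 ∧ Real.log D0 < 39/20 := by
  have h1 := Real.exp_one_gt_d9
  have h2 := Real.exp_one_lt_d9
  have e : Real.exp 4 = Real.exp 1 ^ 4 := by
    rw [← Real.exp_nat_mul]
    norm_num
  have l : (54598/1000 : ℝ) < Real.exp 4 := by
    rw [e]
    calc (54598/1000 : ℝ) < 2.7182818283 ^ 4 := by norm_num
      _ < _ := pow_lt_pow_left₀ h1 (by norm_num) (by norm_num)
  have u : Real.exp 4 < 54599/1000 := by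
    rw [e]
    calc Real.exp 1 ^ 4 < 2.7182818286 ^ 4 := pow_lt_pow_left₀ h2 (Real.exp_pos _).le (by norm_num)
      _ < _ := by norm_num
  have d1 : 7 < D0 := by
    unfold D0
    linarith
  have d2 : D0 < 7.0054 := by
    unfold D0
    linarith
  refine ⟨d1, ?_⟩
  rw [Real.log_lt_iff_lt_exp (by linarith)]
  apply lt_of_pow_lt_pow_left₀ 20 (Real.exp_pos _).le
  have e2 : Real.exp (39/20) ^ 20 = Real.exp 1 ^ 39 := by
    rw [← Real.exp_nat_mul, ← Real.exp_nat_mul]
    norm_num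
  rw [e2]
  calc D0 ^ 20 < 7.0054 ^ 20 := pow_lt_pow_left₀ d2 (by linarith) (by norm_num)
    _ < 2.7182818283 ^ 39 := by norm_num
    _ < _ := pow_lt_pow_left₀ h1 (by norm_num) (by norm_num)

end LS
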