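import Pool.Agent.Lib.MP_0f5a55_nt.S.B9
import Pool.Agent.Lib.MP_0f5a55_nt.S.B11
import Pool.Agent.Lib.MP_0f5a55_nt.V.V17
import Pool.Agent.Lib.MP_0f5a55_nt.V.V43

open Complex MeasureTheory Set Filter Topology
open scoped ComplexConjugate

namespace LS

open LZ (PP nS EE Ac)

/-- point of the circle -/
private noncomputable def B10_a (θ : ℝ) : ℂ := -2 + 1/2 * exp (θ * I)

/-- Cauchy weight -/
private noncomputable def B10_w (θ : ℝ) : ℂ := 1 + 11/5 * exp (-(θ * I))

private theorem B10_a_cont : Continuous B10_a := by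
  unfold B10_a
  fun_prop

private theorem B10_w_cont : Continuous B10_w := by
  unfold B10_w
  fun_prop

private theorem B10_a_norm (θ : ℝ) : ‖B10_a θ + 2‖ ≤ 1/2 := by
  have h : B10_a θ + 2 = 1/2 * exp (θ * I) := by
    unfold B10_a
    ring
  rw [h, norm_mul, norm_exp_ofReal_mul_I]
  norm_num

private theorem B10_a_re (θ : ℝ) : |(B10_a θ).re + 2| ≤ 1/2 := by
  have h := (abs_re_le_norm (B10_a θ + 2)).trans (B10_a_norm θ)
  simpa using h

private theorem B10_a_im (θ : ℝ) : |(B10_a θ).im| ≤ 1/2 := by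
  have h := (abs_im_le_norm (B10_a θ + 2)).trans (B10_a_norm θ)
  simpa using h

private theorem B10_w_norm (θ : ℝ) : ‖B10_w θ‖ ≤ 16/5 := by
  unfold B10_w
  have h1 : ‖exp (-((θ : ℂ) * I))‖ = 1 := by
    have h2 : -((θ : ℂ) * I) = ((-θ : ℝ) : ℂ) * I := by
      push_cast
      ring
    rw [h2, norm_exp_ofReal_mul_I]
  refine (norm_add_le _ _).trans ?_
  rw [norm_mul, h1]
  norm_num

/-- the shifted point has real part < 1/2 -/
private theorem B10_re (L θ : ℝ) (t : ℝ) :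
    (1/2 + B10_a θ / L + t * I : ℂ).re = 1/2 + (B10_a θ).re / L := by
  have h1 : (B10_a θ / (L : ℂ)).re = (B10_a θ).re / L := by
    rw [div_ofReal_re]
  simp [h1]

private theorem B10_im (L θ : ℝ) (t : ℝ) :
    (1/2 + B10_a θ / L + t * I : ℂ).im = (B10_a θ).im / L + t := by
  have h1 : (B10_a θ / (L : ℂ)).im = (B10_a θ).im / L := by
    rw [div_ofReal_im]
  simp [h1]

private theorem B10_lt {L : ℝ} (hL : 0 < L) (θ : ℝ) (t : ℝ) :
    (1/2 + B10_a θ / L + t * I : ℂ).re < 1/2 := by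
  rw [B10_re L]
  have h2 := (abs_le.mp (B10_a_re θ)).2
  have h3 : (B10_a θ).re / L < 0 := div_neg_of_neg_of_pos (by linarith) hL
  linarith

private theorem B10_ne {L : ℝ} (hL : 0 < L) (θ : ℝ) (t : ℝ) :
    (1/2 + B10_a θ / L + t * I : ℂ) ≠ 1 := by
  intro h
  have := B10_lt hL θ t
  rw [h] at this
  norm_num at this

/-- Cauchy: V as a circle integral -/
private theorem B10_V {T : ℝ} (hT : 1 < T) (t : ℝ) :
    VV (11/10) T (1/2 - 2 / Real.log T + t * I) = ((2 * Real.pi : ℝ) : ℂ)⁻¹ *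
      ∫ θ in (0:ℝ)..2 * Real.pi, riemannZeta (1/2 + B10_a θ / Real.log T + t * I) * B10_w θ := by
  set L := Real.log T with hLdef
  have hL : 0 < L := Real.log_pos hT
  have hLc : (L : ℂ) ≠ 0 := by exact_mod_cast hL.ne'
  set U : Set ℂ := {z : ℂ | z.re < -1} with hU
  have hUo : IsOpen U := B11_open
  have hne : ∀ w ∈ U, (1/2 + w / L + t * I : ℂ) ≠ 1 := by
    intro w hw h
    have h1 : (1/2 + w / L + t * I : ℂ).re = 1/2 + w.re / L := by
      have h1 : (w / (L : ℂ)).re = w.re / L := by rw [div_ofReal_re]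
      simp [h1]
    rw [h] at h1
    have h2 : w.re / L < 0 := div_neg_of_neg_of_pos (by have := hw; simp only [hU, Set.mem_ofPred_eq] at this; linarith) hL
    simp at h1
    linarith
  have hd : ∀ w : ℂ, HasDerivAt (fun w : ℂ => (1/2 + w / L + t * I : ℂ)) ((L : ℂ)⁻¹) w := by
    intro w
    have h1 : HasDerivAt (fun w : ℂ => w / (L : ℂ)) ((L : ℂ)⁻¹) w := by
      have := (hasDerivAt_id w).div_const (L : ℂ)
      simpa [one_div] using this
    exact (h1.const_add (1/2 : ℂ)).add_const (t * I : ℂ)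
  have hdz : ∀ w ∈ U, HasDerivAt (fun w : ℂ => riemannZeta (1/2 + w / L + t * I))
      (deriv riemannZeta (1/2 + w / L + t * I) * (L : ℂ)⁻¹) w := by
    intro w hw
    exact (differentiableAt_riemannZeta (hne w hw)).hasDerivAt.comp w (hd w)
  have hdiff : DifferentiableOn ℂ (fun w : ℂ => riemannZeta (1/2 + w / L + t * I)) U := fun w hw =>
    (hdz w hw).differentiableAt.differentiableWithinAt
  have hcau := B11_cauchy hUo B11_ball hdiff
  have hm2 : (-2 : ℂ) ∈ U := B11_ball (Metric.mem_closedBall_self (by norm_num))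
  rw [(hdz _ hm2).deriv] at hcau
  have e1 : (∫ θ in (0:ℝ)..2 * Real.pi, riemannZeta (1/2 + B10_a θ / L + t * I) * B10_w θ) =
      2 * Real.pi * (riemannZeta (1/2 + (-2) / L + t * I) +
        11/10 * (deriv riemannZeta (1/2 + (-2) / L + t * I) * (L : ℂ)⁻¹)) := hcau
  rw [e1]
  have e2 : (1/2 - 2 / (L : ℂ) + t * I : ℂ) = 1/2 + (-2) / L + t * I := by ring
  unfold VV
  rw [← hLdef, e2]
  have hpi : (Real.pi : ℂ) ≠ 0 := by exact_mod_cast Real.pi_ne_zero
  push_cast
  field_simp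

/-- conjugation of V -/
private theorem B10_conjV (T : ℝ) (s : ℂ) : conj (VV (11/10) T s) = VV (11/10) T (conj s) := by
  have h1 : deriv riemannZeta (conj s) = conj (deriv riemannZeta s) := by
    have h2 : (conj ∘ riemannZeta ∘ conj : ℂ → ℂ) = riemannZeta := by
      funext z
      simp [riemannZeta_conj]
    have h3 := congrFun (deriv_conj_conj (f := riemannZeta)) (conj s)
    rw [h2] at h3
    simpa using h3
  unfold VV
  rw [map_add, map_mul, conj_ofReal, h1, riemannZeta_conj]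

private theorem B10_nS_pos {z : ℕ} {S : Finset ℕ} (hS : S ∈ (PP z).powerset) : 1 ≤ nS S := by
  unfold LZ.nS
  refine Finset.one_le_prod' fun p hp => ?_
  have h1 := Finset.mem_powerset.mp hS hp
  have h2 := (Finset.mem_filter.mp h1).2
  exact h2.one_lt.le

private theorem B10_mo_cont (l : ℝ) : Continuous fun s : ℂ => Mo l s := by
  unfold Mo
  refine continuous_finsetSum _ fun S hS => ?_
  refine continuous_const.mul ?_
  have h3 := B10_nS_pos hS
  have h4 : (nS S : ℂ) ≠ 0 := by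
    have : nS S ≠ 0 := by omega
    exact_mod_cast this
  exact (continuous_neg).const_cpow (Or.inl h4)

private theorem B10_mo (l : ℝ) : ∃ M : ℝ, 0 < M ∧ ∀ s : ℂ, 0 ≤ s.re → ‖Mo l s‖ ≤ M := by
  refine ⟨∑ S ∈ (PP ⌊Real.exp l⌋₊).powerset, |cf l S| + 1, ?_, fun s hs => ?_⟩
  · have : 0 ≤ ∑ S ∈ (PP ⌊Real.exp l⌋₊).powerset, |cf l S| := Finset.sum_nonneg fun _ _ => abs_nonneg _
    linarith
  unfold Mo
  refine (norm_sum_le _ _).trans ?_
  have h2 : ∑ S ∈ (PP ⌊Real.exp l⌋₊).powerset, ‖(cf l S : ℂ) * (nS S : ℂ) ^ (-s)‖ ≤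
      ∑ S ∈ (PP ⌊Real.exp l⌋₊).powerset, |cf l S| := by
    refine Finset.sum_le_sum fun S hS => ?_
    rw [norm_mul, Complex.norm_real, Real.norm_eq_abs]
    have h3 := B10_nS_pos hS
    have h4 : ‖(nS S : ℂ) ^ (-s)‖ ≤ 1 := by
      rw [Complex.norm_natCast_cpow_of_pos (by omega)]
      apply Real.rpow_le_one_of_one_le_of_nonpos
      · exact_mod_cast h3
      · simpa using hs
    exact mul_le_of_le_one_right (abs_nonneg _) h4
  linarith

private theorem B10_mo_conj (l : ℝ) (s : ℂ) : conj (Mo l s) = Mo l (conj s) := by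
  unfold Mo
  rw [map_sum]
  refine Finset.sum_congr rfl fun S hS => ?_
  rw [map_mul, conj_ofReal]
  have h3 := B10_nS_pos hS
  have h5 : ((nS S : ℕ) : ℂ).arg ≠ Real.pi := by
    rw [natCast_arg]
    exact Real.pi_ne_zero.symm
  congr 1
  have h6 := cpow_conj ((nS S : ℕ) : ℂ) (-s) h5
  rw [map_neg, conj_natCast] at h6
  exact h6.symm

/-- the identity |V Mo|^2 = double circle integral -/
private theorem B10_point {T : ℝ} (hT : 1 < T) (t : ℝ) :
    ((‖VV (11/10) T (1/2 - 2 / Real.log T + t * I) * Mo (6/25 * Real.log T) (1/2 + t * I)‖ ^ 2 : ℝ) : ℂ) =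
      ((2 * Real.pi : ℝ) : ℂ)⁻¹ ^ 2 * ∫ θ in (0:ℝ)..2 * Real.pi, ∫ φ in (0:ℝ)..2 * Real.pi,
        XI (6/25 * Real.log T) (B10_a θ / Real.log T) (B10_a φ / Real.log T) t * (B10_w θ * B10_w φ) := by
  set L := Real.log T with hLdef
  set M1 := Mo (6/25 * L) (1/2 + t * I) with hM1
  set M2 := Mo (6/25 * L) (1/2 - t * I) with hM2
  have hM : conj M1 = M2 := by
    rw [hM1, B10_mo_conj, hM2]
    congr 1
    simp only [map_add, map_mul, conj_ofReal, conj_I, map_div₀, map_one, map_ofNat]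
    ring
  have hV := B10_V hT t
  have hV' := B10_V hT (-t)
  rw [← hLdef] at hV hV'
  have hVc : conj (VV (11/10) T (1/2 - 2 / L + t * I)) = VV (11/10) T (1/2 - 2 / L + ((-t : ℝ) : ℂ) * I) := by
    rw [B10_conjV]
    congr 1
    simp only [map_add, map_sub, map_mul, conj_ofReal, conj_I, map_div₀, map_one, map_ofNat, ofReal_neg]
    ring
  have e0 : ((‖VV (11/10) T (1/2 - 2 / L + t * I) * M1‖ ^ 2 : ℝ) : ℂ) =
      (VV (11/10) T (1/2 - 2 / L + t * I) * VV (11/10) T (1/2 - 2 / L + ((-t : ℝ) : ℂ) * I)) * (M1 * M2) := by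
    rw [← hVc, ← hM, ofReal_pow, ← mul_conj', map_mul]
    ring
  rw [e0, hV, hV']
  set A := fun θ : ℝ => riemannZeta (1/2 + B10_a θ / L + t * I) * B10_w θ with hA
  set B := fun φ : ℝ => riemannZeta (1/2 + B10_a φ / L + ((-t : ℝ) : ℂ) * I) * B10_w φ with hB
  have e1 : (∫ θ in (0:ℝ)..2 * Real.pi, ∫ φ in (0:ℝ)..2 * Real.pi,
        XI (6/25 * L) (B10_a θ / L) (B10_a φ / L) t * (B10_w θ * B10_w φ)) =
      ∫ θ in (0:ℝ)..2 * Real.pi, ∫ φ in (0:ℝ)..2 * Real.pi, A θ * (B φ * (M1 * M2)) := by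
    apply intervalIntegral.integral_congr
    intro θ _
    apply intervalIntegral.integral_congr
    intro φ _
    simp only [XI, hA, hB]
    have h1 : (1/2 + B10_a φ / L + ((-t : ℝ) : ℂ) * I : ℂ) = 1/2 + B10_a φ / L - t * I := by
      push_cast
      ring
    rw [h1]
    ring
  rw [e1]
  have e2 : ∀ θ : ℝ, (∫ φ in (0:ℝ)..2 * Real.pi, A θ * (B φ * (M1 * M2))) =
      A θ * ((∫ φ in (0:ℝ)..2 * Real.pi, B φ) * (M1 * M2)) := by
    intro θ
    rw [intervalIntegral.integral_const_mul, intervalIntegral.integral_mul_const]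
  simp_rw [e2]
  rw [intervalIntegral.integral_mul_const]
  ring

/-- measure of the circle -/
private noncomputable abbrev B10_m : Measure ℝ := volume.restrict (Ioc 0 (2 * Real.pi))

private theorem B10_ii (f : ℝ → ℂ) : (∫ θ in (0:ℝ)..2 * Real.pi, f θ) = ∫ θ, f θ ∂B10_m :=
  intervalIntegral.integral_of_le (by positivity)

/-- integrand with weights -/
private noncomputable def B10_H (L r : ℝ) (p : (ℝ × ℝ) × ℝ) : ℂ :=
  XI (6/25 * L) (B10_a p.1.1 / L) (B10_a p.1.2 / L) p.2 * (B10_w p.1.1 * B10_w p.1.2) *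
    (Real.exp (-p.2 / r) : ℂ)

private theorem B10_zcont {X : Type*} [TopologicalSpace X] {L : ℝ} (hL : 0 < L) {f g : X → ℝ}
    (hf : Continuous f) (hg : Continuous g) :
    Continuous fun x => riemannZeta (1/2 + B10_a (f x) / L + g x * I) := by
  rw [continuous_iff_continuousAt]
  intro x
  have h1 := B10_ne hL (f x) (g x)
  have h2 : Continuous fun x => (1/2 + B10_a (f x) / L + g x * I : ℂ) := by
    have := B10_a_cont.comp hf
    have h3 : Continuous fun x => B10_a (f x) := this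
    fun_prop
  exact (differentiableAt_riemannZeta h1).continuousAt.comp
    (f := fun x => (1/2 + B10_a (f x) / L + g x * I : ℂ)) h2.continuousAt

private theorem B10_XI_cont {X : Type*} [TopologicalSpace X] {L : ℝ} (hL : 0 < L) {f g h : X → ℝ}
    (hf : Continuous f) (hg : Continuous g) (hh : Continuous h) :
    Continuous fun x => XI (6/25 * L) (B10_a (f x) / L) (B10_a (g x) / L) (h x) := by
  unfold XI
  have h1 := B10_zcont hL hf hh
  have h2 := B10_zcont hL hg hh.neg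
  have h3 : Continuous fun x => Mo (6/25 * L) (1/2 + h x * I) := (B10_mo_cont _).comp (by fun_prop)
  have h4 : Continuous fun x => Mo (6/25 * L) (1/2 - h x * I) := (B10_mo_cont _).comp (by fun_prop)
  have h5 : Continuous fun x => riemannZeta (1/2 + B10_a (g x) / L - h x * I) := by
    refine h2.congr fun x => ?_
    have e : (1/2 + B10_a (g x) / L + ((-h) x : ℝ) * I : ℂ) = 1/2 + B10_a (g x) / L - h x * I := by
      rw [Pi.neg_apply, ofReal_neg]
      ring
    rw [e]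
  exact (h1.mul h5).mul (h3.mul h4)

private theorem B10_H_cont {L : ℝ} (hL : 0 < L) (r : ℝ) : Continuous (B10_H L r) := by
  unfold B10_H
  have h1 : Continuous fun p : (ℝ × ℝ) × ℝ =>
      XI (6/25 * L) (B10_a p.1.1 / L) (B10_a p.1.2 / L) p.2 :=
    B10_XI_cont hL (by fun_prop) (by fun_prop) (by fun_prop)
  have h2 : Continuous fun p : (ℝ × ℝ) × ℝ => B10_w p.1.1 := B10_w_cont.comp (by fun_prop)
  have h3 : Continuous fun p : (ℝ × ℝ) × ℝ => B10_w p.1.2 := B10_w_cont.comp (by fun_prop)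
  have h4 : Continuous fun p : (ℝ × ℝ) × ℝ => (Real.exp (-p.2 / r) : ℂ) := by fun_prop
  exact (h1.mul (h2.mul h3)).mul h4

/-- pointwise bound of zeta -/
private theorem B10_zb : ∃ Z : ℝ, 0 < Z ∧ ∀ L : ℝ, 40 ≤ L → ∀ θ t : ℝ,
    ‖riemannZeta (1/2 + B10_a θ / L + t * I)‖ ≤ Z * (1 + |t|) := by
  obtain ⟨Z, hZ, hz⟩ := LZ.zeta_pol
  refine ⟨2 * Z, by positivity, fun L hL θ t => ?_⟩
  have hL0 : 0 < L := by linarith
  have h1 := B10_lt hL0 θ t
  have h2 : 5/16 ≤ (1/2 + B10_a θ / L + t * I : ℂ).re := by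
    rw [B10_re]
    have h3 := (abs_le.mp (B10_a_re θ)).1
    have h4 : -(1/16) ≤ (B10_a θ).re / L := by
      rw [le_div_iff₀ hL0]
      linarith
    linarith
  have h5 : 1/4 ≤ ‖(1/2 + B10_a θ / L + t * I : ℂ) - 1‖ := by
    refine le_trans ?_ (abs_re_le_norm _)
    rw [sub_re, one_re, abs_of_nonpos (by linarith)]
    linarith
  refine (hz _ h2 h5).trans ?_
  have h6 : |(1/2 + B10_a θ / L + t * I : ℂ).im| ≤ 1 + |t| := by
    rw [B10_im]
    refine (abs_add_le _ _).trans (add_le_add ?_ le_rfl)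
    rw [abs_div, abs_of_pos hL0, div_le_iff₀ hL0]
    have := B10_a_im θ
    linarith
  have h7 := abs_nonneg t
  have h8 : Z * (1 + |(1/2 + B10_a θ / L + t * I : ℂ).im|) ≤ Z * (1 + (1 + |t|)) :=
    mul_le_mul_of_nonneg_left (by linarith) hZ.le
  refine h8.trans ?_
  have h9 : 0 ≤ Z * |t| := by positivity
  linarith

private theorem B10_H_int {L r : ℝ} (hL : 40 ≤ L) (hr : 0 < r) :
    Integrable (B10_H L r) ((B10_m.prod B10_m).prod (volume.restrict (Ioi 0))) := by
  have hL0 : 0 < L := by linarith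
  obtain ⟨Z, hZ, hz⟩ := B10_zb
  obtain ⟨M, hM, hm⟩ := B10_mo (6/25 * L)
  have hg : Integrable (fun t : ℝ => (Z ^ 2 * M ^ 2 * (16/5) ^ 2) * ((1 + |t|) ^ 2 * Real.exp (-t / r)))
      (volume.restrict (Ioi 0)) := (LZ.M06_intg hr).const_mul _
  refine (hg.comp_snd (B10_m.prod B10_m)).mono' (B10_H_cont hL0 r).aestronglyMeasurable
    (Filter.Eventually.of_forall fun p => ?_)
  obtain ⟨⟨θ, φ⟩, t⟩ := p
  simp only [B10_H, XI]
  have e1 : (1/2 + B10_a φ / L - t * I : ℂ) = 1/2 + B10_a φ / L + ((-t : ℝ) : ℂ) * I := by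
    push_cast
    ring
  have h1 := hz L hL θ t
  have h2 := hz L hL φ (-t)
  rw [abs_neg] at h2
  have h3 := hm (1/2 + t * I) (by simp)
  have h4 := hm (1/2 - t * I) (by simp)
  have h5 := B10_w_norm θ
  have h6 := B10_w_norm φ
  rw [e1, norm_mul, norm_mul, norm_mul, norm_mul, norm_mul, norm_mul, norm_real, Real.norm_eq_abs,
    abs_of_pos (Real.exp_pos _)]
  have h7 : 0 ≤ 1 + |t| := by positivity
  calc _ ≤ (Z * (1 + |t|)) * (Z * (1 + |t|)) * (M * M) * ((16/5) * (16/5)) * Real.exp (-t / r) := by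
        gcongr
    _ = _ := by ring

/-- Fubini -/
private theorem B10_fub {T r : ℝ} (hT : 1 < T) (hL : 40 ≤ Real.log T) (hr : 0 < r) :
    ((LZ.ER r (fun t => ‖VV (11/10) T (1/2 - 2 / Real.log T + t * I) *
      Mo (6/25 * Real.log T) (1/2 + t * I)‖ ^ 2) : ℝ) : ℂ) =
      ((2 * Real.pi : ℝ) : ℂ)⁻¹ ^ 2 * ∫ q : ℝ × ℝ,
        EE r (XI (6/25 * Real.log T) (B10_a q.1 / Real.log T) (B10_a q.2 / Real.log T)) *
          (B10_w q.1 * B10_w q.2) ∂(B10_m.prod B10_m) := by
  set L := Real.log T with hLdef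
  have hL0 : 0 < L := by linarith
  have hint := B10_H_int hL hr
  set c : ℂ := ((2 * Real.pi : ℝ) : ℂ)⁻¹ ^ 2 with hc
  have hfin : ∀ t : ℝ, Integrable (fun q : ℝ × ℝ => XI (6/25 * L) (B10_a q.1 / L) (B10_a q.2 / L) t *
      (B10_w q.1 * B10_w q.2)) (B10_m.prod B10_m) := by
    intro t
    have hcont : Continuous (fun q : ℝ × ℝ => XI (6/25 * L) (B10_a q.1 / L) (B10_a q.2 / L) t *
      (B10_w q.1 * B10_w q.2)) := by
      have h1 : Continuous fun q : ℝ × ℝ => XI (6/25 * L) (B10_a q.1 / L) (B10_a q.2 / L) t :=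
        B10_XI_cont hL0 continuous_fst continuous_snd continuous_const
      exact h1.mul ((B10_w_cont.comp continuous_fst).mul (B10_w_cont.comp continuous_snd))
    have hi : IntegrableOn (fun q : ℝ × ℝ => XI (6/25 * L) (B10_a q.1 / L) (B10_a q.2 / L) t *
      (B10_w q.1 * B10_w q.2)) (Icc 0 (2 * Real.pi) ×ˢ Icc 0 (2 * Real.pi)) (volume.prod volume) :=
      hcont.continuousOn.integrableOn_compact (isCompact_Icc.prod isCompact_Icc)
    have h2 := hi.mono_set (prod_mono Ioc_subset_Icc_self Ioc_subset_Icc_self :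
      Ioc 0 (2 * Real.pi) ×ˢ Ioc 0 (2 * Real.pi) ⊆ Icc 0 (2 * Real.pi) ×ˢ Icc 0 (2 * Real.pi))
    rw [IntegrableOn, ← Measure.prod_restrict] at h2
    exact h2
  have e1 : ((LZ.ER r (fun t => ‖VV (11/10) T (1/2 - 2 / L + t * I) * Mo (6/25 * L) (1/2 + t * I)‖ ^ 2) : ℝ) : ℂ) =
      (r : ℂ)⁻¹ * ∫ t in Ioi (0:ℝ), c * ∫ q, B10_H L r (q, t) ∂(B10_m.prod B10_m) := by
    unfold LZ.ER
    rw [ofReal_mul, ofReal_inv, ← integral_complex_ofReal]
    congr 1
    refine integral_congr_ae (Filter.Eventually.of_forall fun t => ?_)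
    simp only
    rw [ofReal_mul, B10_point hT t, ← hLdef]
    simp_rw [B10_ii]
    rw [← integral_prod (fun q : ℝ × ℝ => XI (6/25 * L) (B10_a q.1 / L) (B10_a q.2 / L) t *
      (B10_w q.1 * B10_w q.2)) (hfin t), mul_assoc, ← integral_mul_const]
    rfl
  rw [e1, integral_const_mul, integral_integral_swap (f := fun t q => B10_H L r (q, t)) hint.swap,
    mul_left_comm, ← integral_const_mul]
  congr 1
  refine integral_congr_ae (Filter.Eventually.of_forall fun q => ?_)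
  simp only [B10_H, EE]
  have e2 : ∀ t : ℝ, XI (6/25 * L) (B10_a q.1 / L) (B10_a q.2 / L) t * (B10_w q.1 * B10_w q.2) *
      (Real.exp (-t / r) : ℂ) = (XI (6/25 * L) (B10_a q.1 / L) (B10_a q.2 / L) t *
      (Real.exp (-t / r) : ℂ)) * (B10_w q.1 * B10_w q.2) := fun t => by ring
  simp_rw [e2]
  rw [integral_mul_const]
  ring

private theorem B10_XL_cont : Continuous fun q : ℝ × ℝ => XL (B10_a q.1) (B10_a q.2) * (B10_w q.1 * B10_w q.2) := by
  have h1 : Continuous fun q : ℝ × ℝ => B10_a q.1 := B10_a_cont.comp continuous_fst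
  have h2 : Continuous fun q : ℝ × ℝ => B10_a q.2 := B10_a_cont.comp continuous_snd
  have h3 : Continuous fun q : ℝ × ℝ => B10_w q.1 := B10_w_cont.comp continuous_fst
  have h4 : Continuous fun q : ℝ × ℝ => B10_w q.2 := B10_w_cont.comp continuous_snd
  have h5 : ∀ q : ℝ × ℝ, B10_a q.1 + B10_a q.2 ≠ 0 := by
    intro q h
    have h6 := (abs_le.mp (B10_a_re q.1)).2
    have h7 := (abs_le.mp (B10_a_re q.2)).2
    have h8 := congrArg Complex.re h
    rw [add_re, zero_re] at h8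
    linarith
  unfold XL JJ
  refine Continuous.mul ?_ (h3.mul h4)
  refine Continuous.mul (continuous_const.div (h1.add h2) h5) ?_
  fun_prop

private theorem B10_int_of_cont {f : ℝ × ℝ → ℂ} (hcont : Continuous f) : Integrable f (B10_m.prod B10_m) := by
  have hi : IntegrableOn f (Icc 0 (2 * Real.pi) ×ˢ Icc 0 (2 * Real.pi)) (volume.prod volume) :=
    hcont.continuousOn.integrableOn_compact (isCompact_Icc.prod isCompact_Icc)
  have h2 := hi.mono_set (prod_mono Ioc_subset_Icc_self Ioc_subset_Icc_self :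
    Ioc 0 (2 * Real.pi) ×ˢ Ioc 0 (2 * Real.pi) ⊆ Icc 0 (2 * Real.pi) ×ˢ Icc 0 (2 * Real.pi))
  rw [IntegrableOn, ← Measure.prod_restrict] at h2
  exact h2

private theorem B10_val : ((2 * Real.pi : ℝ) : ℂ)⁻¹ ^ 2 * ∫ q : ℝ × ℝ,
    XL (B10_a q.1) (B10_a q.2) * (B10_w q.1 * B10_w q.2) ∂(B10_m.prod B10_m) = (D0 : ℂ) := by
  rw [integral_prod _ (B10_int_of_cont B10_XL_cont), ← circ_eval]
  simp_rw [B10_ii]
  rfl

private theorem B10_meas {L r : ℝ} (hL : 40 ≤ L) (hr : 0 < r) :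
    AEStronglyMeasurable (fun q : ℝ × ℝ =>
      EE r (XI (6/25 * L) (B10_a q.1 / L) (B10_a q.2 / L)) * (B10_w q.1 * B10_w q.2)) (B10_m.prod B10_m) := by
  have h1 := (B10_H_int hL hr).integral_prod_left.aestronglyMeasurable.const_mul ((r : ℂ)⁻¹)
  refine h1.congr (Filter.Eventually.of_forall fun q => ?_)
  simp only [B10_H, EE]
  have e2 : ∀ t : ℝ, XI (6/25 * L) (B10_a q.1 / L) (B10_a q.2 / L) t * (B10_w q.1 * B10_w q.2) *
      (Real.exp (-t / r) : ℂ) = (XI (6/25 * L) (B10_a q.1 / L) (B10_a q.2 / L) t *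
      (Real.exp (-t / r) : ℂ)) * (B10_w q.1 * B10_w q.2) := fun t => by ring
  simp_rw [e2]
  rw [integral_mul_const]
  ring

/-- V(1/2 - 2/L + it) = (1/2 pi) integral of zeta(1/2 + (-2 + e(th)/2)/L + it) (1 + (11/5) e(-th)) d th (Cauchy);
|V|^2 = V(s) V(conj s) for the two signs of t; Fubini; mean_lim, mean_bdd, dominated convergence in th, ph; circ_eval -/
theorem V_mean (κ : ℝ) (hκ : 1 ≤ κ) :
    Tendsto (fun T : ℝ => LZ.ER (T / κ) (fun t => ‖VV (11/10) T (1/2 - 2 / Real.log T + t * I) *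
      Mo (6/25 * Real.log T) (1/2 + t * I)‖ ^ 2)) atTop (𝓝 D0) := by
  obtain ⟨C, T0, hC, hT0, hb⟩ := mean_bdd κ hκ
  have hκ0 : 0 < κ := by linarith
  have hlog : ∀ᶠ T : ℝ in atTop, 40 ≤ Real.log T := Real.tendsto_log_atTop.eventually_ge_atTop 40
  have hT1 : ∀ᶠ T : ℝ in atTop, 1 < T := eventually_gt_atTop 1
  have : IsFiniteMeasure (B10_m.prod B10_m) := by infer_instance
  have hlim : Tendsto (fun T : ℝ => ∫ q : ℝ × ℝ,
      EE (T / κ) (XI (6/25 * Real.log T) (B10_a q.1 / Real.log T) (B10_a q.2 / Real.log T)) *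
        (B10_w q.1 * B10_w q.2) ∂(B10_m.prod B10_m)) atTop
      (𝓝 (∫ q : ℝ × ℝ, XL (B10_a q.1) (B10_a q.2) * (B10_w q.1 * B10_w q.2) ∂(B10_m.prod B10_m))) := by
    refine tendsto_integral_filter_of_dominated_convergence (fun _ => C * ((16/5) * (16/5))) ?_ ?_ ?_ ?_
    · filter_upwards [hlog, hT1] with T h1 h2
      exact B10_meas h1 (by positivity)
    · filter_upwards [eventually_ge_atTop T0] with T h1
      refine Filter.Eventually.of_forall fun q => ?_
      rw [norm_mul, norm_mul]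
      have h3 := hb T h1 (B10_a q.1) (B10_a q.2) (B10_a_norm q.1) (B10_a_norm q.2)
      have h5 := B10_w_norm q.1
      have h6 := B10_w_norm q.2
      gcongr
    · exact integrable_const _
    · refine Filter.Eventually.of_forall fun q => ?_
      exact (mean_lim κ hκ (B10_a q.1) (B10_a q.2) (B10_a_norm q.1) (B10_a_norm q.2)).mul_const _
  have h2 := hlim.const_mul (((2 * Real.pi : ℝ) : ℂ)⁻¹ ^ 2)
  rw [B10_val] at h2
  have h3 := (Complex.continuous_re.tendsto _).comp h2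
  rw [ofReal_re] at h3
  refine h3.congr' ?_
  filter_upwards [hlog, hT1] with T h4 h5
  simp only [Function.comp]
  rw [← B10_fub h5 h4 (by positivity), ofReal_re]

end LS
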