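import Pool.Agent.Lib.MP_0f5a55_nt.V.V45
import Pool.Agent.Lib.MP_0f5a55_nt.S.B1

open Complex MeasureTheory Set Filter Topology
open scoped ComplexConjugate

namespace LS

open LZ (PP nS EE Ac)

private theorem B2_kn_int : Integrable (kn 2) := by
  obtain ⟨h1, C, hC, h2⟩ := kn_facts 2
  have h3 : Integrable (fun u : ℝ => C * (1 + u ^ 2)⁻¹) := integrable_inv_one_add_sq.const_mul C
  refine h3.mono' h1.aestronglyMeasurable (Eventually.of_forall fun u => (h2 u).trans ?_)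
  refine mul_le_mul_of_nonneg_left ?_ hC.le
  have h4 : (0 : ℝ) < 1 + |u| := by positivity
  have h5 : (-(((2 : ℕ) : ℝ) + 1)) = -((3 : ℕ) : ℝ) := by norm_num
  rw [h5, Real.rpow_neg h4.le, Real.rpow_natCast]
  refine inv_anti₀ (by positivity) ?_
  have h6 : u ^ 2 = |u| ^ 2 := (sq_abs u).symm
  rw [h6]
  nlinarith [abs_nonneg u, sq_nonneg |u|, mul_nonneg (abs_nonneg u) (sq_nonneg |u|)]

private theorem B2_phi_int (n : ℕ) (hn : 0 < n) (l : ℝ) (e c : ℂ) :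
    Integrable (fun u : ℝ => c * (kn 2 u * (n : ℂ) ^ (-(1 + e + (1 + u * I) / l)))) := by
  apply Integrable.const_mul
  have hn0 : (n : ℂ) ≠ 0 := by exact_mod_cast hn.ne'
  have hcont : Continuous (fun u : ℝ => (n : ℂ) ^ (-(1 + e + (1 + u * I) / l))) := by
    refine Continuous.const_cpow ?_ (Or.inl hn0)
    fun_prop
  refine B2_kn_int.mul_bdd (c := (n : ℝ) ^ (-(1 + e.re + 1 / l))) hcont.aestronglyMeasurable
    (Eventually.of_forall fun u => ?_)
  rw [Complex.norm_natCast_cpow_of_pos hn]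
  apply le_of_eq
  congr 1
  have : ((1 + (u : ℂ) * I) / (l : ℂ)).re = 1 / l := by
    rw [Complex.div_ofReal_re]
    simp
  simp only [neg_re, add_re, one_re, this]

private theorem B2_phi_val (n : ℕ) (hn : 0 < n) (l : ℝ) (e : ℂ) :
    (wn 2 (Real.log n / l) : ℂ) * (n : ℂ) ^ (-1 - e) =
      ∫ u : ℝ, kn 2 u * (n : ℂ) ^ (-(1 + e + (1 + u * I) / l)) := by
  have hn0 : (n : ℂ) ≠ 0 := by exact_mod_cast hn.ne'
  rw [wn_eq 2 (by norm_num), ← integral_mul_const]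
  refine integral_congr_ae (Eventually.of_forall fun u => ?_)
  simp only
  rw [mul_assoc]
  congr 1
  rw [Complex.cpow_def_of_ne_zero hn0, Complex.cpow_def_of_ne_zero hn0, ← Complex.exp_add]
  congr 1
  have hlog : Complex.log (n : ℂ) = (Real.log n : ℂ) := (Complex.natCast_log).symm
  rw [hlog]
  push_cast
  ring

private theorem B2_euler (P : Finset ℕ) (hP : ∀ p ∈ P, p.Prime) (A B C : ℂ) :
    ∑ S ∈ P.powerset ×ˢ P.powerset, (((-1) ^ S.1.card : ℝ) : ℂ) * (((-1) ^ S.2.card : ℝ) : ℂ) *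
      ((nS S.1 : ℂ) ^ (-A) * (nS S.2 : ℂ) ^ (-B) * ((Nat.gcd (nS S.1) (nS S.2) : ℕ) : ℂ) ^ C)
    = ∏ p ∈ P, (1 - (p : ℂ) ^ (-A) - (p : ℂ) ^ (-B) + (p : ℂ) ^ (-(A + B - C))) := by
  have h1 : ∀ n : ℕ, (1 : DirichletCharacter ℂ 1) (n : ZMod 1) = 1 := by
    intro n
    have h2 : (n : ZMod 1) = 1 := Subsingleton.elim _ _
    rw [h2, map_one]
  have h := LP.euler2 P hP (1 : DirichletCharacter ℂ 1) 1 A B C
  simp only [h1, mul_one, LP.loc, one_pow, one_mul] at h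
  exact h

/-- adapt V45 (Q2_integral) / V37 (QQ_integral) with euler2 of V26 -/
theorem SS_integral (z : ℕ) (l : ℝ) (hl : 0 < l) (a b : ℂ) : SS z l a b = ∫ u : ℝ × ℝ, kn 2 u.1 * kn 2 u.2 *
    ∏ p ∈ PP z, (1 - (p : ℂ) ^ (-(1 + a + (1 + u.1 * I) / l)) - (p : ℂ) ^ (-(1 + b + (1 + u.2 * I) / l)) +
      (p : ℂ) ^ (-(1 + (2 + (u.1 + u.2) * I) / l))) := by
  have hP : ∀ p ∈ PP z, p.Prime := fun p hp => (Finset.mem_filter.1 hp).2
  have hpos : ∀ S ∈ (PP z).powerset, 0 < nS S := by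
    intro S hS
    rw [Finset.mem_powerset] at hS
    exact Finset.prod_pos fun p hp => (hP p (hS hp)).pos
  set φ : ℂ → Finset ℕ → ℝ → ℂ := fun e S u =>
    (((-1) ^ S.card : ℝ) : ℂ) * (kn 2 u * (nS S : ℂ) ^ (-(1 + e + (1 + u * I) / l))) with hφ
  have hint : ∀ e, ∀ S ∈ (PP z).powerset, Integrable (φ e S) := fun e S hS =>
    B2_phi_int _ (hpos S hS) l e _
  have hval : ∀ e, ∀ S ∈ (PP z).powerset,
      (cf l S : ℂ) * (nS S : ℂ) ^ (-1 - e) = ∫ u : ℝ, φ e S u := by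
    intro e S hS
    rw [hφ]
    simp only
    rw [integral_const_mul, ← B2_phi_val _ (hpos S hS) l e]
    unfold cf
    push_cast
    ring
  unfold SS
  have h1 : ∀ S ∈ (PP z).powerset ×ˢ (PP z).powerset,
      (cf l S.1 : ℂ) * (cf l S.2 : ℂ) *
      ((nS S.1 : ℂ) ^ (-1 - a) * (nS S.2 : ℂ) ^ (-1 - b) *
        ((Nat.gcd (nS S.1) (nS S.2) : ℕ) : ℂ) ^ (1 + (a + b))) =
      ∫ u : ℝ × ℝ, (φ a S.1 u.1 * φ b S.2 u.2) *
        (((Nat.gcd (nS S.1) (nS S.2) : ℕ) : ℂ) ^ (1 + (a + b))) := by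
    intro S hS
    rw [Finset.mem_product] at hS
    rw [integral_mul_const, Measure.volume_eq_prod, integral_prod_mul (φ a S.1) (φ b S.2),
      ← hval a S.1 hS.1, ← hval b S.2 hS.2]
    ring
  rw [Finset.sum_congr rfl h1, ← integral_finsetSum]
  · refine integral_congr_ae (Eventually.of_forall fun u => ?_)
    simp only
    have h2 := B2_euler (PP z) hP (1 + a + (1 + u.1 * I) / l) (1 + b + (1 + u.2 * I) / l)
      (1 + (a + b))
    have h3 : 1 + a + (1 + (u.1 : ℂ) * I) / l + (1 + b + (1 + (u.2 : ℂ) * I) / l) - (1 + (a + b)) =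
        1 + (2 + ((u.1 : ℂ) + u.2) * I) / l := by
      ring
    rw [h3] at h2
    rw [← h2, Finset.mul_sum]
    refine Finset.sum_congr rfl fun S _ => ?_
    rw [hφ]
    simp only
    ring
  · intro S hS
    rw [Finset.mem_product] at hS
    apply Integrable.mul_const
    rw [Measure.volume_eq_prod]
    exact (hint a S.1 hS.1).mul_prod (hint b S.2 hS.2)

end LS
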