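import Pool.Agent.Lib.MP_0f5a55_nt.V.V10
import Pool.Agent.Lib.MP_0f5a55_nt.V.V35
import Pool.Agent.Lib.MP_0f5a55_nt.S.S00

open Complex MeasureTheory Set Filter Topology
open scoped ComplexConjugate

namespace LS

open LZ (PP nS EE Ac)

private theorem B3_abs (l : ℝ) (hl : 0 < l) (S : Finset ℕ) : |cf l S| ≤ 1 := by
  unfold cf wn
  rw [abs_mul, abs_pow, abs_neg, abs_one, one_pow, one_mul]
  have h2 : 0 ≤ max 0 (1 - Real.log (nS S) / l) := le_max_left _ _
  rw [abs_of_nonneg (pow_nonneg h2 2)]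
  have h3 : max 0 (1 - Real.log (nS S) / l) ≤ 1 := by
    apply max_le zero_le_one
    have : 0 ≤ Real.log (nS S) / l := div_nonneg (Real.log_natCast_nonneg _) hl.le
    linarith
  exact pow_le_one₀ h2 h3

private theorem B3_pos {z : ℕ} {S : Finset ℕ} (hS : S ∈ (PP z).powerset) : 0 < nS S := by
  rw [Finset.mem_powerset] at hS
  unfold nS
  apply Finset.prod_pos
  intro q hq
  have := hS hq
  unfold PP at this
  rw [Finset.mem_filter] at this
  exact this.2.pos

private theorem B3_zero {l : ℝ} (hl : 0 < l) {S : Finset ℕ} (hpos : 0 < nS S)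
    (h : Real.exp l ≤ nS S) : cf l S = 0 := by
  have h3 : l ≤ Real.log (nS S) := by
    rw [Real.le_log_iff_exp_le (by exact_mod_cast hpos)]
    exact h
  have h4 : 1 ≤ Real.log (nS S) / l := by
    rw [le_div_iff₀ hl]
    linarith
  unfold cf wn
  rw [max_eq_left (by linarith)]
  simp

private theorem B3_supp (l : ℝ) (hl : 0 < l) (z : ℕ) (S : Finset ℕ) (hS : S ∈ (PP z).powerset)
    (hcf : cf l S ≠ 0) : 1 ≤ nS S ∧ (nS S : ℝ) ≤ Real.exp l := by
  refine ⟨B3_pos hS, ?_⟩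
  by_contra hcon
  push Not at hcon
  exact hcf (B3_zero hl (B3_pos hS) hcon.le)

theorem cf_facts (l : ℝ) (hl : 0 < l) : (∀ S : Finset ℕ, |cf l S| ≤ 1) ∧
    (∀ z : ℕ, ∀ S ∈ (PP z).powerset, cf l S ≠ 0 → 1 ≤ nS S ∧ (nS S : ℝ) ≤ Real.exp l) ∧
    (∀ e : ℝ, 0 ≤ e → ∀ z : ℕ, ∑ S ∈ (PP z).powerset, |cf l S| * (nS S : ℝ) ^ e ≤ Real.exp ((1 + e) * l)) := by
  refine ⟨B3_abs l hl, B3_supp l hl, ?_⟩
  intro e he z
  classical
  set T := (PP z).powerset.filter (fun S => cf l S ≠ 0) with hT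
  have h2 : ∑ S ∈ (PP z).powerset, |cf l S| * (nS S : ℝ) ^ e =
      ∑ S ∈ T, |cf l S| * (nS S : ℝ) ^ e := by
    rw [hT, Finset.sum_filter]
    apply Finset.sum_congr rfl
    intro S _
    split_ifs with h
    · rfl
    · push Not at h
      rw [h, abs_zero, zero_mul]
  rw [h2]
  have h3 : ∑ S ∈ T, |cf l S| * (nS S : ℝ) ^ e ≤ ∑ S ∈ T, Real.exp (e * l) := by
    refine Finset.sum_le_sum fun S hS => ?_
    rw [hT, Finset.mem_filter] at hS
    obtain ⟨h5, h6⟩ := B3_supp l hl z S hS.1 hS.2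
    have h7 : (nS S : ℝ) ^ e ≤ Real.exp (e * l) := by
      have h8 : Real.exp (e * l) = (Real.exp l) ^ e := by
        rw [← Real.exp_mul, mul_comm]
      rw [h8]
      exact Real.rpow_le_rpow (by positivity) h6 he
    calc |cf l S| * (nS S : ℝ) ^ e ≤ 1 * (nS S : ℝ) ^ e :=
          mul_le_mul_of_nonneg_right (B3_abs l hl S) (by positivity)
      _ = (nS S : ℝ) ^ e := one_mul _
      _ ≤ Real.exp (e * l) := h7
  refine h3.trans ?_
  rw [Finset.sum_const, nsmul_eq_mul]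
  have h4 : T.card ≤ (Finset.Icc 1 ⌊Real.exp l⌋₊).card := by
    apply Finset.card_le_card_of_injOn nS
    · intro S hS
      rw [Finset.mem_coe, hT, Finset.mem_filter] at hS
      obtain ⟨h5, h6⟩ := B3_supp l hl z S hS.1 hS.2
      rw [Finset.mem_coe, Finset.mem_Icc]
      exact ⟨h5, Nat.le_floor h6⟩
    · intro S hS S' hS' hSS
      rw [Finset.mem_coe, hT, Finset.mem_filter, Finset.mem_powerset] at hS hS'
      have hp : ∀ S : Finset ℕ, S ⊆ PP z → (nS S).primeFactors = S := by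
        intro S hS
        unfold nS
        apply Nat.primeFactors_prod
        intro p hp
        have := hS hp
        unfold PP at this
        rw [Finset.mem_filter] at this
        exact this.2
      rw [← hp S hS.1, ← hp S' hS'.1, hSS]
  rw [Nat.card_Icc, Nat.add_sub_cancel] at h4
  have h5 : (T.card : ℝ) ≤ Real.exp l :=
    (by exact_mod_cast h4 : (T.card : ℝ) ≤ (⌊Real.exp l⌋₊ : ℝ)).trans
      (Nat.floor_le (Real.exp_pos l).le)
  calc (T.card : ℝ) * Real.exp (e * l) ≤ Real.exp l * Real.exp (e * l) :=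
        mul_le_mul_of_nonneg_right h5 (Real.exp_pos _).le
    _ = Real.exp ((1 + e) * l) := by
        rw [← Real.exp_add]
        ring_nf

private theorem B3_big (l : ℝ) (hl : 0 < l) (z : ℕ) (S : Finset ℕ) (hS : S ⊆ PP z)
    (hnS : S ∉ (PP ⌊Real.exp l⌋₊).powerset) : cf l S = 0 := by
  rw [Finset.mem_powerset, Finset.not_subset] at hnS
  obtain ⟨p, hp1, hp2⟩ := hnS
  have hpz := hS hp1
  have hpl : Real.exp l ≤ p := by
    by_contra h
    push Not at h
    apply hp2
    unfold PP at hpz ⊢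
    rw [Finset.mem_filter, Finset.mem_range] at hpz ⊢
    exact ⟨Nat.lt_succ_of_le (Nat.le_floor h.le), hpz.2⟩
  have hpos : 0 < nS S := B3_pos (Finset.mem_powerset.mpr hS)
  have h1 : p ≤ nS S := Nat.le_of_dvd hpos (Finset.dvd_prod_of_mem _ hp1)
  exact B3_zero hl hpos (hpl.trans (by exact_mod_cast h1))

/-- adapt V35 (QQ_stable) -/
theorem SS_stable (z : ℕ) (l : ℝ) (hl : 0 < l) (a b : ℂ) (hz : ⌊Real.exp l⌋₊ ≤ z) :
    SS z l a b = SS ⌊Real.exp l⌋₊ l a b := by
  have hPP : PP ⌊Real.exp l⌋₊ ⊆ PP z := by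
    intro p hp
    unfold PP at hp ⊢
    rw [Finset.mem_filter, Finset.mem_range] at hp ⊢
    exact ⟨by omega, hp.2⟩
  unfold SS
  symm
  apply Finset.sum_subset
  · exact Finset.product_subset_product (Finset.powerset_mono.mpr hPP)
      (Finset.powerset_mono.mpr hPP)
  · intro S hS hnS
    rw [Finset.mem_product] at hS hnS
    have h1 := Finset.mem_powerset.mp hS.1
    have h2 := Finset.mem_powerset.mp hS.2
    by_cases h : S.1 ∈ (PP ⌊Real.exp l⌋₊).powerset
    · have h3 : S.2 ∉ (PP ⌊Real.exp l⌋₊).powerset := fun h' => hnS ⟨h, h'⟩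
      rw [B3_big l hl z S.2 h2 h3]
      simp
    · rw [B3_big l hl z S.1 h1 h]
      simp

end LS
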