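import Pool.Agent.Lib.MP_0f5a55_nt.V.V47
import Pool.Agent.Lib.MP_0f5a55_nt.S.B2
import Pool.Agent.Lib.MP_0f5a55_nt.S.B3

open Complex MeasureTheory Set Filter Topology
open scoped ComplexConjugate

namespace LS

open LZ (PP nS EE Ac)

private lemma B4_term {p : ℕ} (hp : p.Prime) (s : ℂ) : ‖(p : ℂ) ^ (-s)‖ ≤ (p : ℝ) ^ (-s.re) := by
  rw [Complex.norm_natCast_cpow_of_pos hp.pos, Complex.neg_re]

private lemma B4_sum (z : ℕ) {a : ℝ} (ha : 1 < a) :
    ∑ p ∈ PP z, (p : ℝ) ^ (-a) ≤ ∑' n : ℕ, (n : ℝ) ^ (-a) := by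
  have hs : Summable (fun n : ℕ => (n : ℝ) ^ (-a)) := Real.summable_nat_rpow.mpr (by linarith)
  exact hs.sum_le_tsum _ (fun n _ => Real.rpow_nonneg (Nat.cast_nonneg _) _)

private lemma B4_bound (z : ℕ) (A B D : ℂ) (hA : 1 < A.re) (hB : 1 < B.re) (hD : 1 < D.re) :
    ‖∏ p ∈ PP z, (1 - (p : ℂ) ^ (-A) - (p : ℂ) ^ (-B) + (p : ℂ) ^ (-D))‖ ≤
      Real.exp ((∑' n : ℕ, (n : ℝ) ^ (-A.re)) + (∑' n : ℕ, (n : ℝ) ^ (-B.re)) +
        (∑' n : ℕ, (n : ℝ) ^ (-D.re))) := by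
  rw [norm_prod]
  have h1 : ∀ p ∈ PP z, ‖1 - (p : ℂ) ^ (-A) - (p : ℂ) ^ (-B) + (p : ℂ) ^ (-D)‖ ≤
      Real.exp ((p : ℝ) ^ (-A.re) + (p : ℝ) ^ (-B.re) + (p : ℝ) ^ (-D.re)) := by
    intro p hp
    have hp' : p.Prime := (Finset.mem_filter.mp hp).2
    have a1 := B4_term hp' A
    have a2 := B4_term hp' B
    have a3 := B4_term hp' D
    have h2 : ‖1 - (p : ℂ) ^ (-A) - (p : ℂ) ^ (-B) + (p : ℂ) ^ (-D)‖ ≤
        1 + (p : ℝ) ^ (-A.re) + (p : ℝ) ^ (-B.re) + (p : ℝ) ^ (-D.re) := by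
      refine (norm_add_le _ _).trans ?_
      refine add_le_add ?_ a3
      refine (norm_sub_le _ _).trans ?_
      refine add_le_add ?_ a2
      refine (norm_sub_le _ _).trans ?_
      refine add_le_add ?_ a1
      simp
    have h3 := Real.add_one_le_exp ((p : ℝ) ^ (-A.re) + (p : ℝ) ^ (-B.re) + (p : ℝ) ^ (-D.re))
    linarith
  refine (Finset.prod_le_prod (fun p _ => norm_nonneg _) h1).trans ?_
  rw [← Real.exp_sum]
  refine Real.exp_le_exp.mpr ?_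
  rw [Finset.sum_add_distrib, Finset.sum_add_distrib]
  have b1 := B4_sum z hA
  have b2 := B4_sum z hB
  have b3 := B4_sum z hD
  linarith

private lemma B4_kn_int : Continuous (kn 2) ∧ Integrable (fun u : ℝ => ‖kn 2 u‖) := by
  obtain ⟨hc, C, hC, hb⟩ := kn_facts 2
  refine ⟨hc, ?_⟩
  have h1 : Integrable (fun u : ℝ => C * (1 + ‖u‖) ^ (-(3 : ℝ))) :=
    (integrable_one_add_norm (by simp)).const_mul C
  refine h1.mono' hc.norm.aestronglyMeasurable (Eventually.of_forall (fun u => ?_))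
  rw [norm_norm, Real.norm_eq_abs]
  have h2 := hb u
  norm_num at h2 ⊢
  exact h2

/-- adapt V45 (Q2_mu_integral): z -> oo in SS_integral, dominated convergence (fixed l), LZ.mu_prod -/
theorem SS_mu_integral (l : ℝ) (hl : 1 ≤ l) (a b : ℂ) (ha : |a.re| ≤ 3 / (4 * l)) (hb : |b.re| ≤ 3 / (4 * l)) :
    SS ⌊Real.exp l⌋₊ l a b = ∫ u : ℝ × ℝ, kn 2 u.1 * kn 2 u.2 *
      (riemannZeta (1 + (2 + (u.1 + u.2) * I) / l) /
        (riemannZeta (1 + a + (1 + u.1 * I) / l) * riemannZeta (1 + b + (1 + u.2 * I) / l)) *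
        LZ.R1 (1 + a + (1 + u.1 * I) / l) (1 + b + (1 + u.2 * I) / l) (1 + (2 + (u.1 + u.2) * I) / l)) := by
  obtain ⟨hkc, hki2⟩ := B4_kn_int
  have hl0 : 0 < l := by linarith
  have ha' := abs_le.mp ha
  have hb' := abs_le.mp hb
  have h8 : 3 / (4 * l) = 3 / 4 * (1 / l) := by field_simp
  have hl1 : 0 < 1 / l := by positivity
  rw [h8] at ha' hb'
  have h2l : 2 / l = 2 * (1 / l) := by ring
  have hAre : ∀ (e : ℂ) (x : ℝ), (1 + e + (1 + (x : ℂ) * I) / l).re = 1 + e.re + 1 / l := by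
    intro e x
    rw [add_re, add_re, one_re, div_ofReal_re, add_re, one_re, re_ofReal_mul, I_re]
    ring
  have hDre : ∀ x y : ℝ, (1 + (2 + ((x : ℂ) + y) * I) / l).re = 1 + 2 / l := by
    intro x y
    rw [add_re, one_re, div_ofReal_re]
    simp
  set F : ℕ → (ℝ × ℝ) → ℂ := fun z u => kn 2 u.1 * kn 2 u.2 *
    ∏ p ∈ PP z, (1 - (p : ℂ) ^ (-(1 + a + (1 + u.1 * I) / l)) - (p : ℂ) ^ (-(1 + b + (1 + u.2 * I) / l)) +
      (p : ℂ) ^ (-(1 + (2 + (u.1 + u.2) * I) / l))) with hF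
  have hFQ : ∀ z : ℕ, SS z l a b = ∫ u, F z u := by
    intro z
    rw [SS_integral z l hl0 a b]
  have hFc : ∀ z : ℕ, Continuous (F z) := by
    intro z
    have h1 : Continuous (fun u : ℝ × ℝ => kn 2 u.1 * kn 2 u.2) :=
      (hkc.comp continuous_fst).mul (hkc.comp continuous_snd)
    refine h1.mul (continuous_finsetProd _ (fun p hp => ?_))
    have hp0 : (p : ℂ) ≠ 0 := by
      exact_mod_cast (Finset.mem_filter.mp hp).2.ne_zero
    have c1 : Continuous (fun u : ℝ × ℝ => (p : ℂ) ^ (-(1 + a + (1 + (u.1 : ℂ) * I) / l))) :=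
      Continuous.const_cpow (by fun_prop) (Or.inl hp0)
    have c2 : Continuous (fun u : ℝ × ℝ => (p : ℂ) ^ (-(1 + b + (1 + (u.2 : ℂ) * I) / l))) :=
      Continuous.const_cpow (by fun_prop) (Or.inl hp0)
    have c3 : Continuous (fun u : ℝ × ℝ =>
        (p : ℂ) ^ (-(1 + (2 + ((u.1 : ℂ) + u.2) * I) / l))) :=
      Continuous.const_cpow (by fun_prop) (Or.inl hp0)
    exact ((continuous_const.sub c1).sub c2).add c3
  set M : ℝ := Real.exp ((∑' n : ℕ, (n : ℝ) ^ (-(1 + a.re + 1 / l))) +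
    (∑' n : ℕ, (n : ℝ) ^ (-(1 + b.re + 1 / l))) +
        (∑' n : ℕ, (n : ℝ) ^ (-(1 + 2 / l)))) with hM
  have hbi : Integrable (fun u : ℝ × ℝ => (‖kn 2 u.1‖ * ‖kn 2 u.2‖) * M) :=
    (hki2.mul_prod hki2).mul_const M
  have hA1 : 1 < 1 + a.re + 1 / l := by linarith
  have hB1 : 1 < 1 + b.re + 1 / l := by linarith
  have hD1 : 1 < 1 + 2 / l := by rw [h2l]; linarith
  have hFb : ∀ z : ℕ, ∀ u : ℝ × ℝ, ‖F z u‖ ≤ (‖kn 2 u.1‖ * ‖kn 2 u.2‖) * M := by
    intro z u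
    simp only [hF]
    rw [norm_mul, norm_mul]
    refine mul_le_mul_of_nonneg_left ?_ (mul_nonneg (norm_nonneg _) (norm_nonneg _))
    have h5 := B4_bound z (1 + a + (1 + u.1 * I) / l) (1 + b + (1 + u.2 * I) / l)
        (1 + (2 + (u.1 + u.2) * I) / l) (by rw [hAre]; exact hA1)
        (by rw [hAre]; exact hB1) (by rw [hDre]; exact hD1)
    rw [hAre, hAre, hDre] at h5
    exact h5
  have hlim : ∀ u : ℝ × ℝ, Tendsto (fun z => F z u) atTop (𝓝 (kn 2 u.1 * kn 2 u.2 *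
      (riemannZeta (1 + (2 + (u.1 + u.2) * I) / l) /
        (riemannZeta (1 + a + (1 + u.1 * I) / l) * riemannZeta (1 + b + (1 + u.2 * I) / l)) *
        LZ.R1 (1 + a + (1 + u.1 * I) / l) (1 + b + (1 + u.2 * I) / l) (1 + (2 + (u.1 + u.2) * I) / l)))) := by
    intro u
    exact (LZ.mu_prod (1 + a + (1 + u.1 * I) / l) (1 + b + (1 + u.2 * I) / l)
        (1 + (2 + (u.1 + u.2) * I) / l) (by rw [hAre]; exact hA1)
        (by rw [hAre]; exact hB1) (by rw [hDre]; exact hD1)).const_mul _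
  have key := tendsto_integral_of_dominated_convergence _ (fun z => (hFc z).aestronglyMeasurable) hbi
    (fun z => Eventually.of_forall (hFb z)) (Eventually.of_forall hlim)
  have hconst : Tendsto (fun z => ∫ u, F z u) atTop (𝓝 (SS ⌊Real.exp l⌋₊ l a b)) := by
    refine tendsto_const_nhds.congr' ?_
    filter_upwards [eventually_ge_atTop ⌊Real.exp l⌋₊] with z hz
    rw [← hFQ z]
    exact (SS_stable z l hl0 a b hz).symm
  exact tendsto_nhds_unique hconst key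

end LS
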