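import Pool.Agent.Lib.MP_0f5a55_nt.V.V06
import Pool.Agent.Lib.MP_0f5a55_nt.V.V17

open Complex MeasureTheory Set Filter Topology
open scoped ComplexConjugate

namespace LS

/-- 3-4-1 for the zeta function -/
private theorem B5_prod {x : ℝ} (hx : 0 < x) (y : ℝ) :
    1 ≤ ‖riemannZeta (1 + x)‖ ^ 3 * ‖riemannZeta (1 + x + I * y)‖ ^ 4 *
      ‖riemannZeta (1 + x + 2 * I * y)‖ := by
  have h := DirichletCharacter.norm_LFunction_product_ge_one (N := 1)
    (1 : DirichletCharacter ℂ 1) hx y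
  rw [DirichletCharacter.LFunctionTrivChar, DirichletCharacter.LFunction_modOne_eq,
    DirichletCharacter.LFunction_modOne_eq, norm_mul, norm_mul, norm_pow, norm_pow] at h
  exact h

/-- |u| <= l: zeta_one (V06); |u| >= l: 3-4-1 (DirichletCharacter.norm_LSeries_product_ge_one in Mathlib), zeta(1+x) <= C/x,
and zeta_pol (V17) for the point with 2u -/
theorem inv_zeta_bound : ∃ C l0 : ℝ, 0 < C ∧ 1 ≤ l0 ∧ ∀ l : ℝ, l0 ≤ l → ∀ x : ℂ, ‖x‖ ≤ 3/4 → ∀ u : ℝ,
    ‖riemannZeta (1 + (1 + x + u * I) / l)‖⁻¹ ≤ C / l * (1 + |u|) ^ (7/4 : ℝ) := by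
  obtain ⟨C1, hC1, h1⟩ := LZ.zeta_one
  obtain ⟨C2, hC2, h2⟩ := LZ.zeta_pol
  -- constant for the second case
  set K : ℝ := (4 * C1) ^ 3 * (C2 * 9) * 64 with hK
  have hK0 : 0 < K := by positivity
  refine ⟨2 * C1 + (1 + K), 4, by positivity, by norm_num, ?_⟩
  intro l hl x hx u
  have hl0 : 0 < l := by linarith
  have hlc : (l : ℂ) ≠ 0 := by exact_mod_cast hl0.ne'
  have hxre : |x.re| ≤ 3/4 := (abs_re_le_norm x).trans hx
  have hxim : |x.im| ≤ 3/4 := (abs_im_le_norm x).trans hx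
  obtain ⟨ha, hb⟩ := abs_le.1 hxre
  have hu0 : 0 ≤ |u| := abs_nonneg u
  have hA : 1 ≤ 1 + |u| := by linarith
  have hA0 : 0 < 1 + |u| := by linarith
  have hP : 1 + |u| ≤ (1 + |u|) ^ (7/4 : ℝ) := by
    calc 1 + |u| = (1 + |u|) ^ (1 : ℝ) := (Real.rpow_one _).symm
      _ ≤ _ := Real.rpow_le_rpow_of_exponent_le hA (by norm_num)
  have hP0 : 0 < (1 + |u|) ^ (7/4 : ℝ) := by positivity
  set w : ℂ := (1 + x + u * I) / l with hw
  have hwre : w.re = (1 + x.re) / l := by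
    rw [hw, div_ofReal_re]
    simp
  have hwim : w.im = (x.im + u) / l := by
    rw [hw, div_ofReal_im]
    simp
  have hσ : 1 / (4 * l) ≤ w.re := by
    rw [hwre, div_le_div_iff₀ (by positivity) hl0]
    nlinarith
  have hσ0 : 0 < w.re := lt_of_lt_of_le (by positivity) hσ
  have hσ1 : w.re ≤ 7/16 := by
    rw [hwre, div_le_iff₀ hl0]
    linarith
  have hnw : ‖w‖ ≤ 2 * (1 + |u|) / l := by
    rw [hw, norm_div, norm_real, Real.norm_eq_abs, abs_of_pos hl0]
    apply div_le_div_of_nonneg_right _ hl0.le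
    have e1 : ‖(1 + x + u * I : ℂ)‖ ≤ 1 + ‖x‖ + |u| := by
      refine (norm_add_le _ _).trans (add_le_add ((norm_add_le _ _).trans ?_) ?_)
      · rw [norm_one]
      · rw [norm_mul, norm_I, norm_real, Real.norm_eq_abs, mul_one]
    linarith
  rcases le_or_gt ‖w‖ 1 with hle | hgt
  · -- near the pole
    have h3 := (h1 w hσ0 hle).2
    calc ‖riemannZeta (1 + w)‖⁻¹ ≤ C1 * ‖w‖ := h3
      _ ≤ C1 * (2 * (1 + |u|) / l) := mul_le_mul_of_nonneg_left hnw hC1.le
      _ = 2 * C1 / l * (1 + |u|) := by ring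
      _ ≤ (2 * C1 + (1 + K)) / l * (1 + |u|) := by
        apply mul_le_mul_of_nonneg_right _ hA0.le
        apply div_le_div_of_nonneg_right _ hl0.le
        linarith
      _ ≤ (2 * C1 + (1 + K)) / l * (1 + |u|) ^ (7/4 : ℝ) :=
        mul_le_mul_of_nonneg_left hP (by positivity)
  · -- 3-4-1
    have hul : l ≤ 2 * (1 + |u|) := by
      have := hgt.le.trans hnw
      rwa [le_div_iff₀ hl0, one_mul] at this
    have him : 1/2 < |w.im| := by
      by_contra hcon
      have h4 := Complex.norm_le_abs_re_add_abs_im w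
      rw [abs_of_pos hσ0] at h4
      linarith [not_lt.1 hcon]
    have him2 : |w.im| ≤ 2 * (1 + |u|) / l := (abs_im_le_norm w).trans hnw
    have h5 := B5_prod hσ0 w.im
    have e2 : (1 : ℂ) + (w.re : ℂ) + I * (w.im : ℂ) = 1 + w := by
      conv_rhs => rw [← re_add_im w]
      ring
    rw [e2] at h5
    -- the first factor
    have hz1 : ‖riemannZeta (1 + (w.re : ℂ))‖ ≤ 4 * C1 * l := by
      have h6 := (h1 (w.re : ℂ) (by simpa using hσ0) (by
        rw [norm_real, Real.norm_eq_abs, abs_of_pos hσ0]; linarith)).1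
      rw [norm_real, Real.norm_eq_abs, abs_of_pos hσ0] at h6
      refine h6.trans ?_
      rw [div_le_iff₀ hσ0]
      rw [div_le_iff₀ (by positivity)] at hσ
      nlinarith
    -- the third factor
    have hz3 : ‖riemannZeta (1 + (w.re : ℂ) + 2 * I * (w.im : ℂ))‖ ≤ C2 * 9 * ((1 + |u|) / l) := by
      have e3 : (1 + (w.re : ℂ) + 2 * I * (w.im : ℂ)).re = 1 + w.re := by simp
      have e4 : (1 + (w.re : ℂ) + 2 * I * (w.im : ℂ)).im = 2 * w.im := by simp
      have h6 := h2 (1 + (w.re : ℂ) + 2 * I * (w.im : ℂ)) (by rw [e3]; linarith) (by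
        refine le_trans ?_ (abs_im_le_norm _)
        rw [sub_im, e4, one_im, sub_zero, abs_mul, abs_two]
        linarith)
      rw [e4, abs_mul, abs_two] at h6
      refine h6.trans ?_
      rw [mul_assoc]
      apply mul_le_mul_of_nonneg_left _ hC2.le
      have h7 : 1 ≤ 2 * (1 + |u|) / l := by rwa [le_div_iff₀ hl0, one_mul]
      have h8 : 2 * (1 + |u|) / l = 2 * ((1 + |u|) / l) := by ring
      have h9 : 0 ≤ (1 + |u|) / l := by positivity
      rw [h8] at h7 him2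
      linarith
    have hne : riemannZeta (1 + w) ≠ 0 := riemannZeta_ne_zero_of_one_le_re (by
      rw [add_re, one_re]; linarith)
    have hnp : 0 < ‖riemannZeta (1 + w)‖ := norm_pos_iff.2 hne
    -- fourth power
    have h10 : (‖riemannZeta (1 + w)‖⁻¹) ^ 4 ≤ (4 * C1 * l) ^ 3 * (C2 * 9 * ((1 + |u|) / l)) := by
      rw [inv_pow, inv_le_iff_one_le_mul₀ (by positivity)]
      refine h5.trans ?_
      calc ‖riemannZeta (1 + (w.re : ℂ))‖ ^ 3 * ‖riemannZeta (1 + w)‖ ^ 4 *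
            ‖riemannZeta (1 + (w.re : ℂ) + 2 * I * (w.im : ℂ))‖
          ≤ (4 * C1 * l) ^ 3 * ‖riemannZeta (1 + w)‖ ^ 4 * (C2 * 9 * ((1 + |u|) / l)) := by
            gcongr
        _ = _ := by ring
    have h11 : (4 * C1 * l) ^ 3 * (C2 * 9 * ((1 + |u|) / l)) ≤ K / l ^ 4 * (1 + |u|) ^ 7 := by
      have e5 : (4 * C1 * l) ^ 3 * (C2 * 9 * ((1 + |u|) / l)) =
          (4 * C1) ^ 3 * (C2 * 9) / l ^ 4 * (1 + |u|) * l ^ 6 := by
        field_simp
      have e6 : K / l ^ 4 * (1 + |u|) ^ 7 =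
          (4 * C1) ^ 3 * (C2 * 9) / l ^ 4 * (1 + |u|) * (2 * (1 + |u|)) ^ 6 := by
        rw [hK]; ring
      rw [e5, e6]
      gcongr
    have h12 : K / l ^ 4 * (1 + |u|) ^ 7 ≤ ((1 + K) / l * (1 + |u|) ^ (7/4 : ℝ)) ^ 4 := by
      have e7 : ((1 + |u|) ^ (7/4 : ℝ)) ^ 4 = (1 + |u|) ^ 7 := by
        rw [← Real.rpow_natCast, ← Real.rpow_mul hA0.le]
        norm_num
      rw [mul_pow, e7, div_pow]
      have e8 : K ≤ (1 + K) ^ 4 := by
        have : (1 + K) ^ 1 ≤ (1 + K) ^ 4 := pow_le_pow_right₀ (by linarith) (by norm_num)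
        linarith
      gcongr
    have h13 : ‖riemannZeta (1 + w)‖⁻¹ ≤ (1 + K) / l * (1 + |u|) ^ (7/4 : ℝ) :=
      le_of_pow_le_pow_left₀ (by norm_num) (by positivity) (h10.trans (h11.trans h12))
    refine h13.trans ?_
    apply mul_le_mul_of_nonneg_right _ hP0.le
    apply div_le_div_of_nonneg_right _ hl0.le
    linarith

theorem zeta_le_l : ∃ C l0 : ℝ, 0 < C ∧ 1 ≤ l0 ∧ ∀ l : ℝ, l0 ≤ l → ∀ w : ℝ,
    ‖riemannZeta (1 + (2 + w * I) / l)‖ ≤ C * l := by
  obtain ⟨C1, hC1, h1⟩ := LZ.zeta_one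
  refine ⟨C1, 2, hC1, by norm_num, ?_⟩
  intro l hl w
  have hl0 : 0 < l := by linarith
  have hσ0 : 0 < 2 / l := by positivity
  set s : ℂ := 1 + (2 + w * I) / l with hs
  have hre : s.re = 1 + 2 / l := by
    rw [hs, add_re, one_re, div_ofReal_re]
    simp
  have h2 : 1 < s.re := by rw [hre]; linarith
  have h3 : ‖riemannZeta s‖ ≤ ∑' n : ℕ, ((n : ℝ) + 1) ^ (-(1 + 2 / l)) := by
    rw [zeta_eq_tsum_one_div_nat_add_one_cpow h2]
    refine tsum_of_norm_bounded (Summable.hasSum ?_) ?_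
    · have := (summable_nat_add_iff 1).2 (Real.summable_nat_rpow.2 (show -(1 + 2 / l) < -1 by linarith))
      simpa using this
    · intro n
      have hc : ((n : ℂ) + 1) = (((n : ℝ) + 1 : ℝ) : ℂ) := by push_cast; ring
      rw [norm_div, norm_one, hc, Complex.norm_cpow_eq_rpow_re_of_pos (by positivity), one_div,
        ← Real.rpow_neg (by positivity), hre]
  have h4 : ((∑' n : ℕ, ((n : ℝ) + 1) ^ (-(1 + 2 / l)) : ℝ) : ℂ) = riemannZeta (1 + ((2 / l : ℝ) : ℂ)) := by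
    rw [zeta_eq_tsum_one_div_nat_add_one_cpow (by simp [hσ0]), ofReal_tsum]
    congr 1
    funext n
    have hc : ((n : ℂ) + 1) = (((n : ℝ) + 1 : ℝ) : ℂ) := by push_cast; ring
    rw [hc, one_div, Real.rpow_neg (by positivity), ofReal_inv, ofReal_cpow (by positivity)]
    push_cast
    ring_nf
  have h5 : 0 ≤ ∑' n : ℕ, ((n : ℝ) + 1) ^ (-(1 + 2 / l)) := tsum_nonneg fun n => by positivity
  have h6 := (h1 ((2 / l : ℝ) : ℂ) (by simpa using hσ0) (by
    rw [norm_real, Real.norm_eq_abs, abs_of_pos hσ0, div_le_one hl0]; exact hl)).1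
  rw [← h4, norm_real, norm_real, Real.norm_eq_abs, Real.norm_eq_abs, abs_of_nonneg h5,
    abs_of_pos hσ0] at h6
  refine (h3.trans h6).trans ?_
  rw [div_le_iff₀ hσ0]
  have : C1 * l * (2 / l) = 2 * C1 := by field_simp
  rw [this]
  linarith

theorem zeta_lim (w : ℂ) (hw : w ≠ 0) :
    Tendsto (fun l : ℝ => riemannZeta (1 + w / l) / l) atTop (𝓝 (1 / w)) := by
  have h1 := riemannZeta_residue_one
  have h2 : Tendsto (fun l : ℝ => (1 : ℂ) + w / l) atTop (𝓝[≠] 1) := by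
    refine tendsto_nhdsWithin_iff.2 ⟨?_, ?_⟩
    · have h3 : Tendsto (fun l : ℝ => (l : ℂ)⁻¹) atTop (𝓝 0) := by
        have h := (continuous_ofReal.tendsto 0).comp (tendsto_inv_atTop_zero (𝕜 := ℝ))
        rw [ofReal_zero] at h
        refine h.congr fun l => ?_
        simp
      have h4 : Tendsto (fun l : ℝ => (1 : ℂ) + w * (l : ℂ)⁻¹) atTop (𝓝 (1 + w * 0)) :=
        tendsto_const_nhds.add (tendsto_const_nhds.mul h3)
      simpa [div_eq_mul_inv] using h4
    · filter_upwards [eventually_gt_atTop 0] with l hl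
      intro h5
      have h6 : (1 : ℂ) + w / l = 1 := h5
      have h7 : w / (l : ℂ) = 0 := add_eq_left.1 h6
      rcases div_eq_zero_iff.1 h7 with h8 | h8
      · exact hw h8
      · exact hl.ne' (ofReal_eq_zero.1 h8)
  have h9 := (h1.comp h2).const_mul (1 / w)
  rw [mul_one] at h9
  refine h9.congr' ?_
  filter_upwards [eventually_gt_atTop 0] with l hl
  have hlc : (l : ℂ) ≠ 0 := by exact_mod_cast hl.ne'
  simp only [Function.comp]
  field_simp
  ring_nf

end LS
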