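import Pool.Agent.Lib.MP_0f5a55_nt.V.V31
import Pool.Agent.Lib.MP_0f5a55_nt.S.B4
import Pool.Agent.Lib.MP_0f5a55_nt.S.B5

open Complex MeasureTheory Set Filter Topology
open scoped ComplexConjugate

namespace LS

open LZ (PP nS EE Ac)

/-- the integrand of SS_mu_integral times l -/
private lemma B6_alg (l a b c : ℂ) (hl : l ≠ 0) :
    a / l / (b / l * (c / l)) = l * (a / (b * c)) := by
  rw [div_mul_div_comm, div_div_eq_mul_div]
  have h : a / l * (l * l) = l * a := by field_simp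
  rw [h, mul_div_assoc]

private noncomputable def B6_F (l : ℝ) (x y : ℂ) (u : ℝ × ℝ) : ℂ :=
  kn 2 u.1 * kn 2 u.2 * ((l : ℂ) * (riemannZeta (1 + (2 + (u.1 + u.2) * I) / l) /
    (riemannZeta (1 + x / l + (1 + u.1 * I) / l) * riemannZeta (1 + y / l + (1 + u.2 * I) / l)) *
    LZ.R1 (1 + x / l + (1 + u.1 * I) / l) (1 + y / l + (1 + u.2 * I) / l) (1 + (2 + (u.1 + u.2) * I) / l)))

private lemma B6_re (l : ℝ) (x : ℂ) (v : ℝ) :
    (1 + x / l + (1 + v * I) / l : ℂ).re = 1 + (1 + x.re) / l := by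
  simp [Complex.div_ofReal_re]
  ring

private lemma B6_reD (l : ℝ) (v w : ℝ) :
    (1 + (2 + (v + w) * I) / l : ℂ).re = 1 + 2 / l := by
  simp [Complex.div_ofReal_re]

private lemma B6_xre {x : ℂ} (hx : ‖x‖ ≤ 3/4) : 1/4 ≤ 1 + x.re := by
  have := (abs_le.1 ((Complex.abs_re_le_norm x).trans hx)).1
  linarith

private lemma B6_zeta_cont {g : ℝ × ℝ → ℂ} (hg : Continuous g) (h : ∀ u, 1 < (g u).re) :
    Continuous fun u => riemannZeta (g u) := by
  rw [continuous_iff_continuousAt]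
  intro u
  have h1 : g u ≠ 1 := by
    intro h2
    have := h u
    rw [h2] at this
    simp at this
  exact (differentiableAt_riemannZeta h1).continuousAt.comp hg.continuousAt

private lemma B6_meas (l : ℝ) (hl : 0 < l) (x y : ℂ) (hx : ‖x‖ ≤ 3/4) (hy : ‖y‖ ≤ 3/4) :
    AEStronglyMeasurable (B6_F l x y) := by
  obtain ⟨K, hK, hRb, hRt, hRl⟩ := LZ.R1_facts
  have hx' := B6_xre hx
  have hy' := B6_xre hy
  have hl' : 0 < 2 / l := by positivity
  have ax : 0 < (1 + x.re) / l := div_pos (by linarith) hl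
  have ay : 0 < (1 + y.re) / l := div_pos (by linarith) hl
  have cA : Continuous fun u : ℝ × ℝ => (1 + x / l + (1 + u.1 * I) / l : ℂ) := by fun_prop
  have cB : Continuous fun u : ℝ × ℝ => (1 + y / l + (1 + u.2 * I) / l : ℂ) := by fun_prop
  have cD : Continuous fun u : ℝ × ℝ => (1 + (2 + (u.1 + u.2) * I) / l : ℂ) := by fun_prop
  have hA : ∀ u : ℝ × ℝ, 1 < (1 + x / l + (1 + u.1 * I) / l : ℂ).re := fun u => by
    rw [B6_re]; linarith
  have hB : ∀ u : ℝ × ℝ, 1 < (1 + y / l + (1 + u.2 * I) / l : ℂ).re := fun u => by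
    rw [B6_re]; linarith
  have hD : ∀ u : ℝ × ℝ, 1 < (1 + (2 + (u.1 + u.2) * I) / l : ℂ).re := fun u => by
    rw [B6_reD]; linarith
  have hk := (kn_facts 2).1
  have mR : Measurable fun u : ℝ × ℝ => LZ.R1 (1 + x / l + (1 + u.1 * I) / l)
      (1 + y / l + (1 + u.2 * I) / l) (1 + (2 + (u.1 + u.2) * I) / l) := by
    refine measurable_of_tendsto_metrizable (f := fun (z : ℕ) (u : ℝ × ℝ) =>
      ∏ p ∈ PP z, ((1 - (p : ℂ) ^ (-(1 + x / l + (1 + u.1 * I) / l : ℂ)) -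
        (p : ℂ) ^ (-(1 + y / l + (1 + u.2 * I) / l : ℂ)) + (p : ℂ) ^ (-(1 + (2 + (u.1 + u.2) * I) / l : ℂ))) *
        (1 - (p : ℂ) ^ (-(1 + (2 + (u.1 + u.2) * I) / l : ℂ))) /
        ((1 - (p : ℂ) ^ (-(1 + x / l + (1 + u.1 * I) / l : ℂ))) *
          (1 - (p : ℂ) ^ (-(1 + y / l + (1 + u.2 * I) / l : ℂ)))))) ?_ ?_
    · intro z
      refine Finset.measurable_prod _ fun p hp => ?_
      have mp : ∀ g : ℝ × ℝ → ℂ, Continuous g → Measurable fun u => (p : ℂ) ^ (-(g u)) := by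
        intro g hg
        exact Measurable.const_pow hg.neg.measurable _
      have m1 := mp _ cA
      have m2 := mp _ cB
      have m3 := mp _ cD
      exact ((((measurable_const.sub m1).sub m2).add m3).mul (measurable_const.sub m3)).div
        ((measurable_const.sub m1).mul (measurable_const.sub m2))
    · rw [tendsto_pi_nhds]
      intro u
      exact hRt _ _ _ (hA u).le (hB u).le (hD u).le
  have m1 := (B6_zeta_cont cA hA).measurable
  have m2 := (B6_zeta_cont cB hB).measurable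
  have m3 := (B6_zeta_cont cD hD).measurable
  have mk1 : Measurable fun u : ℝ × ℝ => kn 2 u.1 := (hk.comp continuous_fst).measurable
  have mk2 : Measurable fun u : ℝ × ℝ => kn 2 u.2 := (hk.comp continuous_snd).measurable
  exact ((mk1.mul mk2).mul (measurable_const.mul ((m3.div (m1.mul m2)).mul mR))).aestronglyMeasurable

private lemma B6_h_int : Integrable fun u : ℝ => (1 + |u|) ^ (-(5/4) : ℝ) := by
  have h := integrable_one_add_norm (E := ℝ) (μ := volume) (r := 5/4) (by simp; norm_num)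
  simpa [Real.norm_eq_abs] using h

private lemma B6_bound : ∃ M l0 : ℝ, 0 < M ∧ 1 ≤ l0 ∧ ∀ l : ℝ, l0 ≤ l → ∀ x y : ℂ, ‖x‖ ≤ 3/4 → ‖y‖ ≤ 3/4 →
    ∀ u : ℝ × ℝ, ‖B6_F l x y u‖ ≤ M * ((1 + |u.1|) ^ (-(5/4) : ℝ) * (1 + |u.2|) ^ (-(5/4) : ℝ)) := by
  obtain ⟨K, hK, hRb, hRt, hRl⟩ := LZ.R1_facts
  obtain ⟨-, Ck, hCk, hk⟩ := kn_facts 2
  obtain ⟨Ci, l1, hCi, hl1, hi⟩ := inv_zeta_bound
  obtain ⟨Cz, l2, hCz, hl2, hz⟩ := zeta_le_l
  refine ⟨Ck * Ck * (Cz * Ci * Ci * K), max l1 l2, by positivity, hl1.trans (le_max_left _ _), ?_⟩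
  intro l hl x y hx hy u
  have hll1 : l1 ≤ l := (le_max_left _ _).trans hl
  have hll2 : l2 ≤ l := (le_max_right _ _).trans hl
  have hl0 : 0 < l := by linarith
  have hx' := B6_xre hx
  have hy' := B6_xre hy
  have ax : 0 ≤ (1 + x.re) / l := div_nonneg (by linarith) hl0.le
  have ay : 0 ≤ (1 + y.re) / l := div_nonneg (by linarith) hl0.le
  have a1 := hi l hll1 x hx u.1
  have a2 := hi l hll1 y hy u.2
  have e1 : (1 + (1 + x + u.1 * I) / l : ℂ) = 1 + x / l + (1 + u.1 * I) / l := by ring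
  have e2 : (1 + (1 + y + u.2 * I) / l : ℂ) = 1 + y / l + (1 + u.2 * I) / l := by ring
  rw [e1] at a1
  rw [e2] at a2
  have a3 := hz l hll2 (u.1 + u.2)
  push_cast at a3
  have a4 := hRb (1 + x / l + (1 + u.1 * I) / l) (1 + y / l + (1 + u.2 * I) / l)
    (1 + (2 + (u.1 + u.2) * I) / l) (by rw [B6_re]; linarith) (by rw [B6_re]; linarith)
    (by rw [B6_reD]; have : 0 ≤ 2 / l := by positivity
        linarith)
  have k1 := hk u.1
  have k2 := hk u.2
  have p1 : 0 < 1 + |u.1| := by positivity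
  have p2 : 0 < 1 + |u.2| := by positivity
  have q1 : (1 + |u.1|) ^ (-(((2 : ℕ) : ℝ) + 1)) * (1 + |u.1|) ^ (7/4 : ℝ) = (1 + |u.1|) ^ (-(5/4) : ℝ) := by
    rw [← Real.rpow_add p1]; norm_num
  have q2 : (1 + |u.2|) ^ (-(((2 : ℕ) : ℝ) + 1)) * (1 + |u.2|) ^ (7/4 : ℝ) = (1 + |u.2|) ^ (-(5/4) : ℝ) := by
    rw [← Real.rpow_add p2]; norm_num
  have hn : ‖B6_F l x y u‖ = ‖kn 2 u.1‖ * ‖kn 2 u.2‖ * (l * (‖riemannZeta (1 + (2 + (u.1 + u.2) * I) / l)‖ *
      (‖riemannZeta (1 + x / l + (1 + u.1 * I) / l)‖⁻¹ * ‖riemannZeta (1 + y / l + (1 + u.2 * I) / l)‖⁻¹) *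
      ‖LZ.R1 (1 + x / l + (1 + u.1 * I) / l) (1 + y / l + (1 + u.2 * I) / l) (1 + (2 + (u.1 + u.2) * I) / l)‖)) := by
    unfold B6_F
    rw [norm_mul, norm_mul, norm_mul, norm_mul, norm_div, norm_mul, Complex.norm_real, Real.norm_of_nonneg hl0.le,
      div_eq_mul_inv, mul_inv]
  rw [hn, ← q1, ← q2]
  calc ‖kn 2 u.1‖ * ‖kn 2 u.2‖ * (l * (‖riemannZeta (1 + (2 + (u.1 + u.2) * I) / l)‖ *
      (‖riemannZeta (1 + x / l + (1 + u.1 * I) / l)‖⁻¹ * ‖riemannZeta (1 + y / l + (1 + u.2 * I) / l)‖⁻¹) *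
      ‖LZ.R1 (1 + x / l + (1 + u.1 * I) / l) (1 + y / l + (1 + u.2 * I) / l) (1 + (2 + (u.1 + u.2) * I) / l)‖))
      ≤ (Ck * (1 + |u.1|) ^ (-(((2 : ℕ) : ℝ) + 1))) * (Ck * (1 + |u.2|) ^ (-(((2 : ℕ) : ℝ) + 1))) *
        (l * ((Cz * l) * ((Ci / l * (1 + |u.1|) ^ (7/4 : ℝ)) * (Ci / l * (1 + |u.2|) ^ (7/4 : ℝ))) * K)) := by
        gcongr
    _ = Ck * Ck * (Cz * Ci * Ci * K) * ((1 + |u.1|) ^ (-(((2 : ℕ) : ℝ) + 1)) * (1 + |u.1|) ^ (7/4 : ℝ) *
        ((1 + |u.2|) ^ (-(((2 : ℕ) : ℝ) + 1)) * (1 + |u.2|) ^ (7/4 : ℝ))) := by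
        field_simp

private lemma B6_G_int (M : ℝ) : Integrable fun u : ℝ × ℝ =>
    M * ((1 + |u.1|) ^ (-(5/4) : ℝ) * (1 + |u.2|) ^ (-(5/4) : ℝ)) :=
  (Integrable.mul_prod B6_h_int B6_h_int).const_mul _

private lemma B6_eq (l : ℝ) (hl : 1 ≤ l) (x y : ℂ) (hx : ‖x‖ ≤ 3/4) (hy : ‖y‖ ≤ 3/4) :
    (l : ℂ) * SS ⌊Real.exp l⌋₊ l (x / l) (y / l) = ∫ u : ℝ × ℝ, B6_F l x y u := by
  have hl0 : 0 < l := by linarith
  have key : ∀ w : ℂ, ‖w‖ ≤ 3/4 → |(w / l : ℂ).re| ≤ 3 / (4 * l) := by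
    intro w hw
    rw [Complex.div_ofReal_re, abs_div, abs_of_pos hl0]
    have h1 := (Complex.abs_re_le_norm w).trans hw
    rw [div_le_div_iff₀ hl0 (by positivity)]
    nlinarith
  rw [SS_mu_integral l hl _ _ (key x hx) (key y hy), ← integral_const_mul]
  refine integral_congr_ae (Eventually.of_forall fun u => ?_)
  simp only [B6_F]
  ring

/-- dominated convergence in SS_mu_integral; domination C (1+|u|)^(-3+7/4) (1+|v|)^(-3+7/4) by B5, R1_facts, kn_facts -/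
theorem SS_lim (x y : ℂ) (hx : ‖x‖ ≤ 3/4) (hy : ‖y‖ ≤ 3/4) :
    Tendsto (fun l : ℝ => (l : ℂ) * SS ⌊Real.exp l⌋₊ l (x / l) (y / l)) atTop
      (𝓝 (∫ u : ℝ × ℝ, kn 2 u.1 * kn 2 u.2 *
        ((1 + x + u.1 * I) * (1 + y + u.2 * I) / (2 + (u.1 + u.2) * I)))) := by
  obtain ⟨M, l0, hM, hl0, hb⟩ := B6_bound
  obtain ⟨K, hK, hRb, hRt, hRl⟩ := LZ.R1_facts
  have hx' := B6_xre hx
  have hy' := B6_xre hy
  have h1 : (fun l : ℝ => ∫ u : ℝ × ℝ, B6_F l x y u) =ᶠ[atTop]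
      fun l : ℝ => (l : ℂ) * SS ⌊Real.exp l⌋₊ l (x / l) (y / l) := by
    filter_upwards [eventually_ge_atTop (1 : ℝ)] with l hl
    exact (B6_eq l hl x y hx hy).symm
  refine Tendsto.congr' h1 ?_
  refine tendsto_integral_filter_of_dominated_convergence
    (fun u : ℝ × ℝ => M * ((1 + |u.1|) ^ (-(5/4) : ℝ) * (1 + |u.2|) ^ (-(5/4) : ℝ))) ?_ ?_ (B6_G_int M) ?_
  · filter_upwards [eventually_ge_atTop (1 : ℝ)] with l hl
    exact B6_meas l (by linarith) x y hx hy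
  · filter_upwards [eventually_ge_atTop l0] with l hl
    exact Eventually.of_forall fun u => hb l hl x y hx hy u
  · refine Eventually.of_forall fun u => ?_
    have wA : (1 + x + u.1 * I : ℂ) ≠ 0 := by
      intro h
      have := congrArg Complex.re h
      simp at this
      linarith
    have wB : (1 + y + u.2 * I : ℂ) ≠ 0 := by
      intro h
      have := congrArg Complex.re h
      simp at this
      linarith
    have wD : (2 + (u.1 + u.2) * I : ℂ) ≠ 0 := by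
      intro h
      have := congrArg Complex.re h
      simp at this
    have tA := zeta_lim _ wA
    have tB := zeta_lim _ wB
    have tD := zeta_lim _ wD
    have hinv : Tendsto (fun l : ℝ => (l : ℂ)⁻¹) atTop (𝓝 0) := by
      have := (tendsto_inv_atTop_zero (𝕜 := ℝ))
      have h2 := (Complex.continuous_ofReal.tendsto 0).comp this
      simpa [Function.comp_def] using h2
    have lim1 : ∀ w : ℂ, Tendsto (fun l : ℝ => (1 + w / l : ℂ)) atTop (𝓝 1) := by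
      intro w
      have := (hinv.const_mul w).const_add 1
      simpa [div_eq_mul_inv] using this
    have tR : Tendsto (fun l : ℝ => LZ.R1 (1 + x / l + (1 + u.1 * I) / l)
        (1 + y / l + (1 + u.2 * I) / l) (1 + (2 + (u.1 + u.2) * I) / l)) atTop (𝓝 1) := by
      rw [Metric.tendsto_nhds]
      intro ε hε
      obtain ⟨ρ, hρ, hR⟩ := hRl 1 (by simp) (ε / 2) (by positivity)
      have n1 := (Metric.tendsto_nhds.1 (lim1 (1 + x + u.1 * I))) ρ hρ
      have n2 := (Metric.tendsto_nhds.1 (lim1 (1 + y + u.2 * I))) ρ hρ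
      have n3 := (Metric.tendsto_nhds.1 (lim1 (2 + (u.1 + u.2) * I))) ρ hρ
      filter_upwards [n1, n2, n3, eventually_gt_atTop (0 : ℝ)] with l d1 d2 d3 hl
      have e1 : (1 + (1 + x + u.1 * I) / l : ℂ) = 1 + x / l + (1 + u.1 * I) / l := by ring
      have e2 : (1 + (1 + y + u.2 * I) / l : ℂ) = 1 + y / l + (1 + u.2 * I) / l := by ring
      rw [e1, dist_eq_norm] at d1
      rw [e2, dist_eq_norm] at d2
      rw [dist_eq_norm] at d3
      have ax : 0 ≤ (1 + x.re) / l := div_nonneg (by linarith) hl.le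
      have ay : 0 ≤ (1 + y.re) / l := div_nonneg (by linarith) hl.le
      have := hR _ _ _ (by rw [B6_re]; linarith) (by rw [B6_re]; linarith)
        (by rw [B6_reD]; have : 0 ≤ 2 / l := by positivity
            linarith) d1.le d2.le d3.le
      rw [dist_eq_norm]
      linarith
    have tt := (tD.div (tA.mul tB) (mul_ne_zero (one_div_ne_zero wA) (one_div_ne_zero wB))).mul tR
    have tt2 := tt.const_mul (kn 2 u.1 * kn 2 u.2)
    have ev : (fun l : ℝ => kn 2 u.1 * kn 2 u.2 * (riemannZeta (1 + (2 + (u.1 + u.2) * I) / l) / l /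
        (riemannZeta (1 + (1 + x + u.1 * I) / l) / l * (riemannZeta (1 + (1 + y + u.2 * I) / l) / l)) *
        LZ.R1 (1 + x / l + (1 + u.1 * I) / l)
        (1 + y / l + (1 + u.2 * I) / l) (1 + (2 + (u.1 + u.2) * I) / l))) =ᶠ[atTop] fun l => B6_F l x y u := by
      filter_upwards [eventually_gt_atTop (0 : ℝ)] with l hl
      have e1 : (1 + (1 + x + u.1 * I) / l : ℂ) = 1 + x / l + (1 + u.1 * I) / l := by ring
      have e2 : (1 + (1 + y + u.2 * I) / l : ℂ) = 1 + y / l + (1 + u.2 * I) / l := by ring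
      rw [e1, e2]
      unfold B6_F
      have hlc : (l : ℂ) ≠ 0 := by exact_mod_cast hl.ne'
      congr 1
      rw [← mul_assoc]
      congr 1
      exact B6_alg _ _ _ _ hlc
    refine Tendsto.congr' ev ?_
    have tt3 : Tendsto (fun l : ℝ => kn 2 u.1 * kn 2 u.2 * (riemannZeta (1 + (2 + (u.1 + u.2) * I) / l) / l /
        (riemannZeta (1 + (1 + x + u.1 * I) / l) / l * (riemannZeta (1 + (1 + y + u.2 * I) / l) / l)) *
        LZ.R1 (1 + x / l + (1 + u.1 * I) / l)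
        (1 + y / l + (1 + u.2 * I) / l) (1 + (2 + (u.1 + u.2) * I) / l))) atTop
        (𝓝 (kn 2 u.1 * kn 2 u.2 * (1 / (2 + (u.1 + u.2) * I) /
          (1 / (1 + x + u.1 * I) * (1 / (1 + y + u.2 * I))) * 1))) := tt2
    convert tt3 using 2
    rw [mul_one]
    field_simp

theorem SS_bdd : ∃ C l0 : ℝ, 0 < C ∧ 1 ≤ l0 ∧ ∀ l : ℝ, l0 ≤ l → ∀ x y : ℂ, ‖x‖ ≤ 3/4 → ‖y‖ ≤ 3/4 →
    ‖(l : ℂ) * SS ⌊Real.exp l⌋₊ l (x / l) (y / l)‖ ≤ C := by
  obtain ⟨M, l0, hM, hl0, hb⟩ := B6_bound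
  refine ⟨(∫ u : ℝ × ℝ, M * ((1 + |u.1|) ^ (-(5/4) : ℝ) * (1 + |u.2|) ^ (-(5/4) : ℝ))) + 1, l0, ?_, hl0, ?_⟩
  · have : 0 ≤ ∫ u : ℝ × ℝ, M * ((1 + |u.1|) ^ (-(5/4) : ℝ) * (1 + |u.2|) ^ (-(5/4) : ℝ)) :=
      integral_nonneg fun u => by positivity
    linarith
  · intro l hl x y hx hy
    rw [B6_eq l (hl0.trans hl) x y hx hy]
    have := norm_integral_le_of_norm_le (B6_G_int M) (Eventually.of_forall fun u => hb l hl x y hx hy u)
    linarith

end LS
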