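import Pool.Agent.Lib.MP_0f5a55_nt.S.B1

open Complex MeasureTheory Set Filter Topology
open scoped ComplexConjugate

namespace LS

private theorem B7_ne (u : ℝ) : (1 : ℂ) + u * I ≠ 0 := by
  intro h
  have := congrArg Complex.re h
  simp at this

private theorem B7_kn (u : ℝ) : kn 2 u * (1 + u * I) = 2 * kn 1 u := by
  unfold kn
  have h := B7_ne u
  have hpi : (Real.pi : ℂ) ≠ 0 := by exact_mod_cast Real.pi_ne_zero
  simp only [Nat.factorial]
  push_cast
  field_simp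

private theorem B7_int {n : ℕ} (hn : 1 ≤ n) : Integrable (kn n) := by
  obtain ⟨hc, C, hC, hb⟩ := kn_facts n
  have h1 : Integrable (fun u : ℝ => C * (1 + ‖u‖) ^ (-((n : ℝ) + 1))) := by
    refine (integrable_one_add_norm (r := (n : ℝ) + 1) ?_).const_mul C
    have : (1 : ℝ) ≤ n := by exact_mod_cast hn
    simp only [Module.finrank_self, Nat.cast_one]
    linarith
  exact h1.mono' hc.aestronglyMeasurable (Filter.Eventually.of_forall fun u => hb u)

private theorem B7_g (x : ℂ) (u : ℝ) : kn 2 u * (1 + x + u * I) = x * kn 2 u + 2 * kn 1 u := by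
  rw [← B7_kn]
  ring

private theorem B7_gint (x : ℂ) : Integrable (fun u : ℝ => kn 2 u * (1 + x + u * I)) := by
  simp only [B7_g]
  exact ((B7_int (by norm_num)).const_mul x).add ((B7_int le_rfl).const_mul 2)

private theorem B7_gcont (x : ℂ) : Continuous (fun u : ℝ => kn 2 u * (1 + x + u * I)) := by
  have := (kn_facts 2).1
  fun_prop

private theorem B7_expint {n : ℕ} (hn : 1 ≤ n) (t : ℝ) :
    Integrable (fun u : ℝ => kn n u * exp (-((1 + u * I) * t))) := by
  refine (B7_int hn).mul_bdd (c := Real.exp (-t)) ?_ ?_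
  · exact Continuous.aestronglyMeasurable (by fun_prop)
  · refine Filter.Eventually.of_forall fun u => ?_
    rw [Complex.norm_exp]
    simp

private theorem B7_transform (x : ℂ) (t : ℝ) :
    ∫ u : ℝ, kn 2 u * (1 + x + u * I) * exp (-((1 + u * I) * t)) =
      x * wn 2 t + 2 * wn 1 t := by
  have h1 : ∀ u : ℝ, kn 2 u * (1 + x + u * I) * exp (-((1 + u * I) * t)) =
      x * (kn 2 u * exp (-((1 + u * I) * t))) + 2 * (kn 1 u * exp (-((1 + u * I) * t))) := by
    intro u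
    rw [B7_g]
    ring
  simp only [h1]
  rw [integral_add ((B7_expint (by norm_num) t).const_mul x) ((B7_expint le_rfl t).const_mul 2),
    integral_const_mul, integral_const_mul, ← wn_eq 2 (by norm_num) t, ← wn_eq 1 le_rfl t]

private theorem B7_final (x y : ℂ) :
    ∫ t in Ioi (0 : ℝ), (x * wn 2 t + 2 * wn 1 t) * (y * wn 2 t + 2 * wn 1 t) = JJ x y := by
  have h1 : ∫ t in Ioi (0 : ℝ), (x * (wn 2 t : ℂ) + 2 * wn 1 t) * (y * wn 2 t + 2 * wn 1 t) =
      ∫ t in Ioc (0 : ℝ) 1, (x * (wn 2 t : ℂ) + 2 * wn 1 t) * (y * wn 2 t + 2 * wn 1 t) := by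
    refine setIntegral_eq_of_subset_of_forall_sdiff_eq_zero measurableSet_Ioi
      Ioc_subset_Ioi_self ?_
    intro t ht
    have ht1 : 1 < t := by
      by_contra hc
      exact ht.2 ⟨ht.1, not_lt.mp hc⟩
    have h0 : max 0 (1 - t) = 0 := max_eq_left (by linarith)
    simp [wn, h0]
  have h2 : ∫ t in Ioc (0 : ℝ) 1, (x * (wn 2 t : ℂ) + 2 * wn 1 t) * (y * wn 2 t + 2 * wn 1 t) =
      ∫ t in Ioc (0 : ℝ) 1, (x * ((1 - t : ℝ) : ℂ) ^ 2 + 2 * ((1 - t : ℝ) : ℂ)) *
        (y * ((1 - t : ℝ) : ℂ) ^ 2 + 2 * ((1 - t : ℝ) : ℂ)) := by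
    refine setIntegral_congr_fun measurableSet_Ioc fun t ht => ?_
    have h0 : max 0 (1 - t) = 1 - t := max_eq_right (by linarith [ht.2])
    simp only [wn, h0, pow_one]
    push_cast
    ring
  rw [h1, h2, ← intervalIntegral.integral_of_le zero_le_one]
  have h3 := intervalIntegral.integral_comp_sub_left
    (f := fun s : ℝ => (x * (s : ℂ) ^ 2 + 2 * (s : ℂ)) * (y * (s : ℂ) ^ 2 + 2 * (s : ℂ)))
    (a := 0) (b := 1) 1
  rw [h3]
  simp only [sub_self, sub_zero]
  have h4 : ∀ s ∈ uIcc (0 : ℝ) 1, HasDerivAt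
      (fun s : ℝ => x * y * (s : ℂ) ^ 5 / 5 + (x + y) * (s : ℂ) ^ 4 / 2 + 4 * (s : ℂ) ^ 3 / 3)
      ((x * (s : ℂ) ^ 2 + 2 * (s : ℂ)) * (y * (s : ℂ) ^ 2 + 2 * (s : ℂ))) s := by
    intro s _
    have h5 : HasDerivAt (fun z : ℂ => x * y * z ^ 5 / 5 + (x + y) * z ^ 4 / 2 + 4 * z ^ 3 / 3)
        (x * y * (5 * (s : ℂ) ^ 4) / 5 + (x + y) * (4 * (s : ℂ) ^ 3) / 2 + 4 * (3 * (s : ℂ) ^ 2) / 3)
        (s : ℂ) := by
      have e5 := hasDerivAt_pow 5 (s : ℂ)
      have e4 := hasDerivAt_pow 4 (s : ℂ)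
      have e3 := hasDerivAt_pow 3 (s : ℂ)
      have := (((e5.const_mul (x * y)).div_const 5).add ((e4.const_mul (x + y)).div_const 2)).add
        ((e3.const_mul 4).div_const 3)
      exact this.congr_deriv (by push_cast; ring)
    exact h5.comp_ofReal.congr_deriv (by ring)
  rw [intervalIntegral.integral_eq_sub_of_hasDerivAt h4
    (Continuous.intervalIntegrable (by fun_prop) _ _)]
  unfold JJ
  push_cast
  ring

/-- 1/(2+iu+iv) = integral over t > 0 of exp(-(1+iu)t) exp(-(1+iv)t); Fubini; wn_eq for n = 2 and n = 1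
(kn 2 u (1+iu) = 2 kn 1 u); integral over (0,1) of (x(1-t)^2+2(1-t))(y(1-t)^2+2(1-t)) -/
theorem J_eval (x y : ℂ) : ∫ u : ℝ × ℝ, kn 2 u.1 * kn 2 u.2 *
    ((1 + x + u.1 * I) * (1 + y + u.2 * I) / (2 + (u.1 + u.2) * I)) = JJ x y := by
  have hF : Integrable (fun p : (ℝ × ℝ) × ℝ =>
      (kn 2 p.1.1 * (1 + x + p.1.1 * I)) * (kn 2 p.1.2 * (1 + y + p.1.2 * I)) *
        exp (-((2 + (p.1.1 + p.1.2) * I) * p.2)))
      ((volume : Measure (ℝ × ℝ)).prod (volume.restrict (Ioi (0 : ℝ)))) := by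
    have h1 : Integrable (fun t : ℝ => Real.exp (-2 * t)) (volume.restrict (Ioi (0 : ℝ))) :=
      integrableOn_exp_mul_Ioi (by norm_num) 0
    have h2 : Integrable (fun u : ℝ × ℝ => ‖kn 2 u.1 * (1 + x + u.1 * I)‖ *
        ‖kn 2 u.2 * (1 + y + u.2 * I)‖) :=
      (B7_gint x).norm.mul_prod (B7_gint y).norm
    have h3 := h2.mul_prod h1
    refine h3.mono' ?_ (Filter.Eventually.of_forall fun p => ?_)
    · have hk := (kn_facts 2).1
      exact Continuous.aestronglyMeasurable (by fun_prop)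
    · rw [norm_mul, norm_mul, Complex.norm_exp]
      refine le_of_eq ?_
      congr 2
      simp
  have hinner : ∀ u : ℝ × ℝ, kn 2 u.1 * kn 2 u.2 *
      ((1 + x + u.1 * I) * (1 + y + u.2 * I) / (2 + (u.1 + u.2) * I)) =
      ∫ t in Ioi (0 : ℝ), (kn 2 u.1 * (1 + x + u.1 * I)) * (kn 2 u.2 * (1 + y + u.2 * I)) *
        exp (-((2 + (u.1 + u.2) * I) * t)) := by
    intro u
    rw [integral_const_mul]
    have ha : (-(2 + ((u.1 : ℂ) + u.2) * I)).re < 0 := by simp
    have h1 := integral_exp_mul_complex_Ioi ha 0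
    have h2 : ∫ t in Ioi (0 : ℝ), exp (-((2 + ((u.1 : ℂ) + u.2) * I) * t)) =
        1 / (2 + (u.1 + u.2) * I) := by
      simp only [neg_mul, ofReal_zero, mul_zero, neg_zero, exp_zero] at h1
      rw [h1]
      rw [neg_div_neg_eq]
    rw [h2]
    ring
  calc ∫ u : ℝ × ℝ, kn 2 u.1 * kn 2 u.2 *
      ((1 + x + u.1 * I) * (1 + y + u.2 * I) / (2 + (u.1 + u.2) * I))
      = ∫ u : ℝ × ℝ, ∫ t in Ioi (0 : ℝ), (kn 2 u.1 * (1 + x + u.1 * I)) *
        (kn 2 u.2 * (1 + y + u.2 * I)) * exp (-((2 + (u.1 + u.2) * I) * t)) :=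
        integral_congr_ae (Filter.Eventually.of_forall hinner)
    _ = ∫ t in Ioi (0 : ℝ), ∫ u : ℝ × ℝ, (kn 2 u.1 * (1 + x + u.1 * I)) *
        (kn 2 u.2 * (1 + y + u.2 * I)) * exp (-((2 + (u.1 + u.2) * I) * t)) :=
        integral_integral_swap hF
    _ = ∫ t in Ioi (0 : ℝ), (x * wn 2 t + 2 * wn 1 t) * (y * wn 2 t + 2 * wn 1 t) := by
        refine integral_congr_ae (Filter.Eventually.of_forall fun t => ?_)
        have h1 : ∀ u : ℝ × ℝ, (kn 2 u.1 * (1 + x + u.1 * I)) *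
            (kn 2 u.2 * (1 + y + u.2 * I)) * exp (-((2 + (u.1 + u.2) * I) * t)) =
            (kn 2 u.1 * (1 + x + u.1 * I) * exp (-((1 + u.1 * I) * t))) *
            (kn 2 u.2 * (1 + y + u.2 * I) * exp (-((1 + u.2 * I) * t))) := by
          intro u
          have : exp (-((2 + ((u.1 : ℂ) + u.2) * I) * t)) =
              exp (-((1 + u.1 * I) * t)) * exp (-((1 + u.2 * I) * t)) := by
            rw [← Complex.exp_add]
            congr 1
            ring
          rw [this]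
          ring
        simp only [h1]
        rw [← B7_transform x t, ← B7_transform y t]
        exact integral_prod_mul (μ := volume) (ν := volume)
          (fun u : ℝ => kn 2 u * (1 + x + u * I) * exp (-((1 + u * I) * t)))
          (fun u : ℝ => kn 2 u * (1 + y + u * I) * exp (-((1 + u * I) * t)))
    _ = JJ x y := B7_final x y

end LS
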