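import Pool.Agent.Lib.MP_0f5a55_nt.V.V30
import Pool.Agent.Lib.MP_0f5a55_nt.V.V10
import Pool.Agent.Lib.MP_0f5a55_nt.V.V38
import Pool.Agent.Lib.MP_0f5a55_nt.S.A8
import Pool.Agent.Lib.MP_0f5a55_nt.S.B3

open Complex MeasureTheory Set Filter Topology
open scoped ComplexConjugate

namespace LS

open LZ (PP nS EE Ac)

private lemma B8_nS_pos (z : ℕ) (S : Finset ℕ) (hS : S ∈ (PP z).powerset) : 1 ≤ nS S :=
  LZ.M02_pos hS

private lemma B8_cont_plus (α : ℂ) (hα : |α.re| ≤ 1/200) :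
    Continuous (fun t : ℝ => riemannZeta (1/2 + α + t * I)) := by
  rw [continuous_iff_continuousAt]
  intro t
  have hne : (1/2 + α + t * I : ℂ) ≠ 1 := by
    intro h
    have := congrArg Complex.re h
    simp at this
    have h2 := (abs_le.mp hα).2
    linarith
  have h1 : ContinuousAt riemannZeta (1/2 + α + t * I : ℂ) :=
    (differentiableAt_riemannZeta hne).continuousAt
  have h2 : Continuous (fun t : ℝ => (1/2 + α + t * I : ℂ)) := by fun_prop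
  exact ContinuousAt.comp (f := fun t : ℝ => (1/2 + α + t * I : ℂ)) (g := riemannZeta) h1 h2.continuousAt

private lemma B8_cont_minus (β : ℂ) (hβ : |β.re| ≤ 1/200) :
    Continuous (fun t : ℝ => riemannZeta (1/2 + β - t * I)) := by
  have h := (B8_cont_plus β hβ).comp (continuous_neg (G := ℝ))
  refine h.congr ?_
  intro t
  simp only [Function.comp]
  congr 1
  push_cast
  ring

private lemma B8_zeta_bound (C : ℝ) (hC : ∀ s : ℂ, 5/16 ≤ s.re → 1/4 ≤ ‖s - 1‖ →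
    ‖riemannZeta s‖ ≤ C * (1 + |s.im|)) (hC0 : 0 < C) (U : ℝ) (α : ℂ) (hα : |α.re| ≤ 1/200)
    (hαi : |α.im| ≤ U) (t : ℝ) :
    ‖riemannZeta (1/2 + α + t * I)‖ ≤ C * (1 + U + |t|) := by
  have hre : (1/2 + α + t * I : ℂ).re = 1/2 + α.re := by simp
  have him : (1/2 + α + t * I : ℂ).im = α.im + t := by simp
  have h1 := (abs_le.mp hα).1
  have h2 := (abs_le.mp hα).2
  have hb := hC (1/2 + α + t * I) (by rw [hre]; linarith) (by
    have h3 : |((1/2 + α + t * I : ℂ) - 1).re| ≤ ‖(1/2 + α + t * I : ℂ) - 1‖ := Complex.abs_re_le_norm _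
    have h4 : ((1/2 + α + t * I : ℂ) - 1).re = α.re - 1/2 := by
      rw [Complex.sub_re, hre, Complex.one_re]; ring
    rw [h4] at h3
    have h5 : 1/4 ≤ |α.re - 1/2| := by
      rw [abs_of_nonpos (by linarith)]
      linarith
    linarith)
  rw [him] at hb
  refine hb.trans (mul_le_mul_of_nonneg_left ?_ hC0.le)
  have := abs_add_le α.im t
  linarith

private lemma B8_integrable (C : ℝ) (hC : ∀ s : ℂ, 5/16 ≤ s.re → 1/4 ≤ ‖s - 1‖ →
    ‖riemannZeta s‖ ≤ C * (1 + |s.im|)) (hC0 : 0 < C) (U : ℝ) (hU : 0 ≤ U) (α β : ℂ)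
    (hα : |α.re| ≤ 1/200) (hβ : |β.re| ≤ 1/200)
    (hαi : |α.im| ≤ U) (hβi : |β.im| ≤ U) (h k : ℕ) (hh : 1 ≤ h) (hk : 1 ≤ k) (T : ℝ) (hT : 0 < T) :
    IntegrableOn (fun t : ℝ => (riemannZeta (1/2 + α + t * I) * riemannZeta (1/2 + β - t * I) *
        ((h : ℂ) ^ (-(t * I)) * (k : ℂ) ^ (t * I))) * (Real.exp (-t / T) : ℂ)) (Ioi (0:ℝ)) := by
  have hh0 : (h : ℂ) ≠ 0 := by exact_mod_cast (by omega : h ≠ 0)
  have hk0 : (k : ℂ) ≠ 0 := by exact_mod_cast (by omega : k ≠ 0)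
  have hcont : Continuous (fun t : ℝ => (riemannZeta (1/2 + α + t * I) * riemannZeta (1/2 + β - t * I) *
        ((h : ℂ) ^ (-(t * I)) * (k : ℂ) ^ (t * I))) * (Real.exp (-t / T) : ℂ)) := by
    have c1 := B8_cont_plus α hα
    have c2 := B8_cont_minus β hβ
    have c3 : Continuous (fun t : ℝ => (h : ℂ) ^ (-(t * I))) :=
      Continuous.const_cpow (by fun_prop) (Or.inl hh0)
    have c4 : Continuous (fun t : ℝ => (k : ℂ) ^ (t * I)) :=
      Continuous.const_cpow (by fun_prop) (Or.inl hk0)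
    have c5 : Continuous (fun t : ℝ => (Real.exp (-t / T) : ℂ)) := by fun_prop
    exact ((c1.mul c2).mul (c3.mul c4)).mul c5
  have hdom : IntegrableOn (fun t : ℝ => (C * (1 + U + 4 * T)) ^ 2 * Real.exp (-(1 / (2 * T)) * t))
      (Ioi (0:ℝ)) :=
    (exp_neg_integrableOn_Ioi 0 (by positivity)).const_mul _
  refine Integrable.mono' hdom hcont.aestronglyMeasurable ?_
  filter_upwards [ae_restrict_mem measurableSet_Ioi] with t ht
  have ht0 : (0:ℝ) < t := ht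
  have hb1 := B8_zeta_bound C hC hC0 U α hα hαi t
  have hb2 := B8_zeta_bound C hC hC0 U β hβ hβi (-t)
  have e2 : (1/2 + β + ((-t : ℝ) : ℂ) * I) = 1/2 + β - t * I := by push_cast; ring
  rw [e2, abs_neg] at hb2
  rw [abs_of_pos ht0] at hb1 hb2
  have n1 : ‖(h : ℂ) ^ (-(t * I : ℂ))‖ = 1 := by
    rw [Complex.norm_natCast_cpow_of_pos (by omega)]
    simp
  have n2 : ‖(k : ℂ) ^ ((t * I : ℂ))‖ = 1 := by
    rw [Complex.norm_natCast_cpow_of_pos (by omega)]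
    simp
  rw [norm_mul, norm_mul, norm_mul, norm_mul, n1, n2, mul_one, mul_one]
  have n3 : ‖((Real.exp (-t / T) : ℝ) : ℂ)‖ = Real.exp (-t / T) := by
    rw [Complex.norm_real, Real.norm_eq_abs, abs_of_pos (Real.exp_pos _)]
  rw [n3]
  have hlin : 1 + U + t ≤ (1 + U + 4 * T) * Real.exp (t / (4 * T)) := by
    have h1 : t / (4 * T) + 1 ≤ Real.exp (t / (4 * T)) := Real.add_one_le_exp _
    have h2 : (1 + U + 4 * T) * (t / (4 * T) + 1) ≤ (1 + U + 4 * T) * Real.exp (t / (4 * T)) :=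
      mul_le_mul_of_nonneg_left h1 (by positivity)
    have h3 : 1 + U + t ≤ (1 + U + 4 * T) * (t / (4 * T) + 1) := by
      have h4 : (1 + U + 4 * T) * (t / (4 * T) + 1) =
          1 + U + 4 * T + (1 + U) * (t / (4 * T)) + t := by
        field_simp
        ring
      rw [h4]
      have : 0 ≤ (1 + U) * (t / (4 * T)) := by positivity
      linarith
    linarith
  have hz : ‖riemannZeta (1/2 + α + t * I)‖ * ‖riemannZeta (1/2 + β - t * I)‖ ≤
      (C * (1 + U + 4 * T)) ^ 2 * (Real.exp (t / (4 * T)) * Real.exp (t / (4 * T))) := by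
    have h1 : ‖riemannZeta (1/2 + α + t * I)‖ ≤ C * ((1 + U + 4 * T) * Real.exp (t / (4 * T))) :=
      hb1.trans (mul_le_mul_of_nonneg_left hlin hC0.le)
    have h2 : ‖riemannZeta (1/2 + β - t * I)‖ ≤ C * ((1 + U + 4 * T) * Real.exp (t / (4 * T))) :=
      hb2.trans (mul_le_mul_of_nonneg_left hlin hC0.le)
    calc ‖riemannZeta (1/2 + α + t * I)‖ * ‖riemannZeta (1/2 + β - t * I)‖
        ≤ (C * ((1 + U + 4 * T) * Real.exp (t / (4 * T)))) *
          (C * ((1 + U + 4 * T) * Real.exp (t / (4 * T)))) :=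
          mul_le_mul h1 h2 (norm_nonneg _) (by positivity)
      _ = _ := by ring
  calc ‖riemannZeta (1/2 + α + t * I)‖ * ‖riemannZeta (1/2 + β - t * I)‖ * Real.exp (-t / T)
      ≤ (C * (1 + U + 4 * T)) ^ 2 * (Real.exp (t / (4 * T)) * Real.exp (t / (4 * T))) *
        Real.exp (-t / T) := mul_le_mul_of_nonneg_right hz (Real.exp_pos _).le
    _ = (C * (1 + U + 4 * T)) ^ 2 * Real.exp (-(1 / (2 * T)) * t) := by
      rw [mul_assoc, ← Real.exp_add, ← Real.exp_add]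
      congr 2
      field_simp
      ring

/-- the main term of one pair -/
private lemma B8_term (T : ℝ) (c d : ℂ) (m n : ℕ) (hm : 0 < m) (hn : 0 < n) (α β : ℂ) :
    (c * d * ((m : ℂ) ^ (-(1/2) : ℂ) * (n : ℂ) ^ (-(1/2) : ℂ))) * LZ.mainT T α β m n =
      riemannZeta (1 + (α + β)) * (c * d * ((m : ℂ) ^ (-1 - β) * (n : ℂ) ^ (-1 - α) *
        ((Nat.gcd m n : ℕ) : ℂ) ^ (1 + (β + α)))) +
      ((2 * Real.pi / T : ℝ) : ℂ) ^ (α + β) * Ac (α + β) * (c * d * ((m : ℂ) ^ (-1 - (-α)) *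
        (n : ℂ) ^ (-1 - (-β)) * ((Nat.gcd m n : ℕ) : ℂ) ^ (1 + (-α + -β)))) := by
  set g := Nat.gcd m n with hg
  have hg0 : 0 < g := Nat.gcd_pos_of_pos_left _ hm
  have hgh : g ∣ m := Nat.gcd_dvd_left _ _
  have hgk : g ∣ n := Nat.gcd_dvd_right _ _
  have hhg : 0 < m / g := Nat.div_pos (Nat.le_of_dvd hm hgh) hg0
  have hkg : 0 < n / g := Nat.div_pos (Nat.le_of_dvd hn hgk) hg0
  have hgR : (g : ℝ) ≠ 0 := by exact_mod_cast hg0.ne'
  have hmR : (m : ℝ) ≠ 0 := by exact_mod_cast hm.ne'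
  have hnR : (n : ℝ) ≠ 0 := by exact_mod_cast hn.ne'
  have l1 : Real.log ((m / g : ℕ) : ℝ) = Real.log m - Real.log g := by
    rw [Nat.cast_div hgh hgR, Real.log_div hmR hgR]
  have l2 : Real.log ((n / g : ℕ) : ℝ) = Real.log n - Real.log g := by
    rw [Nat.cast_div hgk hgR, Real.log_div hnR hgR]
  rw [LZ.mainT, ← hg]
  simp only [LZ.M02_nat hm, LZ.M02_nat hn, LZ.M02_nat hg0, LZ.M02_nat hhg, LZ.M02_nat hkg, l1, l2,
    ofReal_sub]
  set L1 : ℂ := (Real.log m : ℂ)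
  set L2 : ℂ := (Real.log n : ℂ)
  set G : ℂ := (Real.log g : ℂ)
  have i1 : exp (L1 * (-(1/2))) * exp (L2 * (-(1/2))) * (exp ((L1 - G) * (-1/2 - β)) *
        exp ((L2 - G) * (-1/2 - α))) =
      exp (L1 * (-1 - β)) * exp (L2 * (-1 - α)) * exp (G * (1 + (β + α))) := by
    simp only [← exp_add]
    congr 1
    ring
  have i2 : exp (L1 * (-(1/2))) * exp (L2 * (-(1/2))) * (exp ((L1 - G) * (-1/2 + α)) *
        exp ((L2 - G) * (-1/2 + β))) =
      exp (L1 * (-1 - (-α))) * exp (L2 * (-1 - (-β))) * exp (G * (1 + (-α + -β))) := by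
    simp only [← exp_add]
    congr 1
    ring
  linear_combination (riemannZeta (1 + (α + β)) * (c * d)) * i1 +
    (((2 * Real.pi / T : ℝ) : ℂ) ^ (α + β) * Ac (α + β) * (c * d)) * i2

/-- expand XI, tsm2 for every pair (hk <= exp(2l) <= T), sum of the errors (hk)^(-1/2+5/8) T^(-3/4) <= exp(9l/4) T^(-3/4)
by cf_facts (e = 1/8); mainT algebra as in V38 (M02_term) -/
theorem mean_main (U B : ℝ) (hU : 0 ≤ U) (hB : 0 ≤ B) : ∃ C T0 : ℝ, 0 < C ∧ 2 ≤ T0 ∧ ∀ T : ℝ, T0 ≤ T → ∀ l : ℝ, 0 < l →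
    l ≤ 6/25 * Real.log T + B → ∀ α β : ℂ, |α.re| ≤ 1/200 → |β.re| ≤ 1/200 → |α.im| ≤ U → |β.im| ≤ U → α + β ≠ 0 →
    ‖EE T (XI l α β) - (riemannZeta (1 + (α + β)) * SS ⌊Real.exp l⌋₊ l β α +
      ((2 * Real.pi / T : ℝ) : ℂ) ^ (α + β) * Ac (α + β) * SS ⌊Real.exp l⌋₊ l (-α) (-β))‖ ≤
      C * (1 + 1 / ‖α + β‖) * T ^ (-(1/100) : ℝ) := by
  obtain ⟨C, T1, hC, hT1, htsm⟩ := tsm2 U hU
  obtain ⟨Cz, hCz0, hCz⟩ := LZ.zeta_pol
  refine ⟨C * Real.exp (9/4 * B), max T1 (Real.exp (4 * B)), by positivity, hT1.trans (le_max_left _ _), ?_⟩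
  intro T hT l hl hlT α β hα hβ hαi hβi hαβ
  have hTT1 : T1 ≤ T := (le_max_left _ _).trans hT
  have hTpos : 0 < T := by linarith
  have hlogB : 4 * B ≤ Real.log T := by
    rw [Real.le_log_iff_exp_le hTpos]
    exact (le_max_right _ _).trans hT
  have hlog0 : 0 ≤ Real.log T := by linarith
  obtain ⟨hcf1, hcf2, hcf3⟩ := cf_facts l hl
  set z : ℕ := ⌊Real.exp l⌋₊ with hz
  set P := (PP z).powerset ×ˢ (PP z).powerset with hP
  set a : Finset ℕ × Finset ℕ → ℂ := fun S =>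
    (cf l S.1 : ℂ) * (cf l S.2 : ℂ) * ((nS S.1 : ℂ) ^ (-(1/2) : ℂ) * (nS S.2 : ℂ) ^ (-(1/2) : ℂ)) with ha
  set f : Finset ℕ × Finset ℕ → ℝ → ℂ := fun S t =>
    riemannZeta (1/2 + α + t * I) * riemannZeta (1/2 + β - t * I) *
      ((nS S.1 : ℂ) ^ (-(t * I)) * (nS S.2 : ℂ) ^ (t * I)) with hf
  have hnpos : ∀ S ∈ P, 1 ≤ nS S.1 ∧ 1 ≤ nS S.2 := by
    intro S hS
    rw [hP, Finset.mem_product] at hS
    exact ⟨B8_nS_pos z _ hS.1, B8_nS_pos z _ hS.2⟩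
  have hX : XI l α β = fun t => ∑ S ∈ P, a S * f S t := by
    funext t
    unfold XI Mo
    rw [Finset.sum_mul_sum, ← Finset.sum_product', Finset.mul_sum]
    refine Finset.sum_congr rfl fun S hS => ?_
    have h1 := (hnpos S hS).1
    have h2 := (hnpos S hS).2
    have n1 : (nS S.1 : ℂ) ≠ 0 := by exact_mod_cast (by omega : nS S.1 ≠ 0)
    have n2 : (nS S.2 : ℂ) ≠ 0 := by exact_mod_cast (by omega : nS S.2 ≠ 0)
    have e1 : (nS S.1 : ℂ) ^ (-(1/2 + t * I : ℂ)) = (nS S.1 : ℂ) ^ (-(1/2) : ℂ) * (nS S.1 : ℂ) ^ (-(t * I) : ℂ) := by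
      rw [← Complex.cpow_add _ _ n1]
      congr 1
      ring
    have e2 : (nS S.2 : ℂ) ^ (-(1/2 - t * I : ℂ)) = (nS S.2 : ℂ) ^ (-(1/2) : ℂ) * (nS S.2 : ℂ) ^ (t * I : ℂ) := by
      rw [← Complex.cpow_add _ _ n2]
      congr 1
      ring
    simp only [ha, hf]
    rw [e1, e2]
    ring
  have hint : ∀ S ∈ P, IntegrableOn (fun t : ℝ => f S t * (Real.exp (-t / T) : ℂ)) (Ioi (0:ℝ)) := by
    intro S hS
    exact B8_integrable Cz hCz hCz0 U hU α β hα hβ hαi hβi _ _ (hnpos S hS).1 (hnpos S hS).2 T hTpos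
  have hEE : EE T (XI l α β) = ∑ S ∈ P, a S * EE T (f S) := by
    rw [hX]
    unfold EE
    have h1 : ∀ t : ℝ, (∑ S ∈ P, a S * f S t) * (Real.exp (-t / T) : ℂ) =
        ∑ S ∈ P, a S * (f S t * (Real.exp (-t / T) : ℂ)) := by
      intro t
      rw [Finset.sum_mul]
      refine Finset.sum_congr rfl fun S _ => by ring
    simp_rw [h1]
    rw [integral_finsetSum]
    · rw [Finset.mul_sum]
      refine Finset.sum_congr rfl fun S _ => ?_
      rw [integral_const_mul]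
      ring
    · intro S hS
      exact (hint S hS).const_mul _
  have hmain : ∑ S ∈ P, a S * LZ.mainT T α β (nS S.1) (nS S.2) =
      riemannZeta (1 + (α + β)) * SS z l β α +
      ((2 * Real.pi / T : ℝ) : ℂ) ^ (α + β) * Ac (α + β) * SS z l (-α) (-β) := by
    unfold SS
    rw [Finset.mul_sum, Finset.mul_sum, ← Finset.sum_add_distrib]
    refine Finset.sum_congr rfl fun S hS => ?_
    exact B8_term T (cf l S.1) (cf l S.2) (nS S.1) (nS S.2) (hnpos S hS).1 (hnpos S hS).2 α β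
  rw [hEE, ← hmain, ← Finset.sum_sub_distrib]
  have hexp2 : Real.exp l * Real.exp l = Real.exp (2 * l) := by
    rw [← Real.exp_add]; congr 1; ring
  have hK0 : 0 ≤ C * (1 + 1 / ‖α + β‖) * T ^ (-(3/4) : ℝ) := by
    have := Real.rpow_nonneg hTpos.le (-(3/4) : ℝ)
    positivity
  have hterm : ∀ S ∈ P, ‖a S * EE T (f S) - a S * LZ.mainT T α β (nS S.1) (nS S.2)‖ ≤
      (|cf l S.1| * (nS S.1 : ℝ) ^ (1/8 : ℝ) * (|cf l S.2| * (nS S.2 : ℝ) ^ (1/8 : ℝ))) *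
        (C * (1 + 1 / ‖α + β‖) * T ^ (-(3/4) : ℝ)) := by
    intro S hS
    obtain ⟨h1, h2⟩ := hnpos S hS
    have hS' := hS
    rw [hP, Finset.mem_product] at hS'
    have r1 : (0 : ℝ) < nS S.1 := by exact_mod_cast h1
    have r2 : (0 : ℝ) < nS S.2 := by exact_mod_cast h2
    rw [← mul_sub, norm_mul]
    have hna : ‖a S‖ = |cf l S.1| * |cf l S.2| * ((nS S.1 : ℝ) ^ (-(1/2) : ℝ) * (nS S.2 : ℝ) ^ (-(1/2) : ℝ)) := by
      simp only [ha]
      rw [norm_mul, norm_mul, norm_mul, Complex.norm_real, Complex.norm_real, Real.norm_eq_abs, Real.norm_eq_abs,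
        Complex.norm_natCast_cpow_of_pos (by omega), Complex.norm_natCast_cpow_of_pos (by omega)]
      simp
    by_cases hzero : |cf l S.1| * |cf l S.2| = 0
    · rw [hna, hzero, zero_mul, zero_mul]
      positivity
    · have hne1 : cf l S.1 ≠ 0 := fun h => hzero (by rw [h]; simp)
      have hne2 : cf l S.2 ≠ 0 := fun h => hzero (by rw [h]; simp)
      have hle1 := (hcf2 z S.1 hS'.1 hne1).2
      have hle2 := (hcf2 z S.2 hS'.2 hne2).2
      have hprod : ((nS S.1 : ℝ) * (nS S.2 : ℝ)) ≤ T := by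
        calc (nS S.1 : ℝ) * nS S.2 ≤ Real.exp l * Real.exp l :=
              mul_le_mul hle1 hle2 r2.le (Real.exp_pos l).le
          _ = Real.exp (2 * l) := hexp2
          _ ≤ Real.exp (Real.log T) := by
              apply Real.exp_le_exp.mpr
              linarith
          _ = T := Real.exp_log hTpos
      have ht := htsm T hTT1 (nS S.1) (nS S.2) h1 h2 hprod α β hα hβ hαi hβi hαβ
      have hsplit : ((nS S.1 : ℝ) * (nS S.2 : ℝ)) ^ (5/8 : ℝ) =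
          (nS S.1 : ℝ) ^ (5/8 : ℝ) * (nS S.2 : ℝ) ^ (5/8 : ℝ) := Real.mul_rpow r1.le r2.le
      have hp1 : (nS S.1 : ℝ) ^ (-(1/2) : ℝ) * (nS S.1 : ℝ) ^ (5/8 : ℝ) = (nS S.1 : ℝ) ^ (1/8 : ℝ) := by
        rw [← Real.rpow_add r1]; norm_num
      have hp2 : (nS S.2 : ℝ) ^ (-(1/2) : ℝ) * (nS S.2 : ℝ) ^ (5/8 : ℝ) = (nS S.2 : ℝ) ^ (1/8 : ℝ) := by
        rw [← Real.rpow_add r2]; norm_num
      have hfS : ‖EE T (f S) - LZ.mainT T α β (nS S.1) (nS S.2)‖ ≤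
          C * (1 + 1 / ‖α + β‖) * ((nS S.1 : ℝ) * (nS S.2 : ℝ)) ^ (5/8 : ℝ) * T ^ (-(3/4) : ℝ) := ht
      rw [hna]
      calc _ ≤ |cf l S.1| * |cf l S.2| * ((nS S.1 : ℝ) ^ (-(1/2) : ℝ) * (nS S.2 : ℝ) ^ (-(1/2) : ℝ)) *
            (C * (1 + 1 / ‖α + β‖) * ((nS S.1 : ℝ) * (nS S.2 : ℝ)) ^ (5/8 : ℝ) * T ^ (-(3/4) : ℝ)) :=
            mul_le_mul_of_nonneg_left hfS (by positivity)
        _ = _ := by
            rw [hsplit, ← hp1, ← hp2]
            ring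
  refine (norm_sum_le _ _).trans ((Finset.sum_le_sum hterm).trans ?_)
  rw [← Finset.sum_mul]
  have hsum : ∑ S ∈ P, |cf l S.1| * (nS S.1 : ℝ) ^ (1/8 : ℝ) * (|cf l S.2| * (nS S.2 : ℝ) ^ (1/8 : ℝ)) ≤
      Real.exp (9/4 * l) := by
    rw [hP, Finset.sum_product]
    simp only
    rw [← Finset.sum_mul_sum]
    have h1 := hcf3 (1/8) (by norm_num) z
    have h0 : 0 ≤ ∑ S ∈ (PP z).powerset, |cf l S| * (nS S : ℝ) ^ (1/8 : ℝ) :=
      Finset.sum_nonneg fun S _ => by positivity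
    calc _ ≤ Real.exp ((1 + 1/8) * l) * Real.exp ((1 + 1/8) * l) := mul_le_mul h1 h1 h0 (Real.exp_pos _).le
      _ = _ := by rw [← Real.exp_add]; congr 1; ring
  refine (mul_le_mul_of_nonneg_right hsum hK0).trans ?_
  have hfin : Real.exp (9/4 * l) * T ^ (-(3/4) : ℝ) ≤ Real.exp (9/4 * B) * T ^ (-(1/100) : ℝ) := by
    rw [Real.rpow_def_of_pos hTpos, Real.rpow_def_of_pos hTpos, ← Real.exp_add, ← Real.exp_add]
    apply Real.exp_le_exp.mpr
    nlinarith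
  calc Real.exp (9/4 * l) * (C * (1 + 1 / ‖α + β‖) * T ^ (-(3/4) : ℝ))
      = C * (1 + 1 / ‖α + β‖) * (Real.exp (9/4 * l) * T ^ (-(3/4) : ℝ)) := by ring
    _ ≤ C * (1 + 1 / ‖α + β‖) * (Real.exp (9/4 * B) * T ^ (-(1/100) : ℝ)) :=
        mul_le_mul_of_nonneg_left hfin (by positivity)
    _ = _ := by ring

end LS
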