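import Pool.Agent.Lib.MP_0f5a55_nt.S.B5
import Pool.Agent.Lib.MP_0f5a55_nt.S.B6
import Pool.Agent.Lib.MP_0f5a55_nt.S.B7
import Pool.Agent.Lib.MP_0f5a55_nt.S.B8
import Pool.Agent.Lib.MP_0f5a55_nt.V.V30

open Complex MeasureTheory Set Filter Topology
open scoped ComplexConjugate

namespace LS

open LZ (PP nS EE Ac)

private lemma B9_int : ∃ C : ℝ, 0 ≤ C ∧ ∀ η : ℂ, |η.re| ≤ 1/8 →
    ‖∫ y in Ioi (0:ℝ), (y : ℂ) ^ (-η) * (LZ.f1 y : ℂ)‖ ≤ C := by
  set g : ℝ → ℝ := fun y => y ^ (-(1/8 : ℝ)) * Real.exp (-y) + y ^ (1/8 : ℝ) * Real.exp (-y) with hg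
  have hgi : IntegrableOn g (Ioi 0) := by
    refine Integrable.add ?_ ?_
    · have h := integrableOn_rpow_mul_exp_neg_mul_rpow (s := -(1/8 : ℝ)) (p := 1) (b := 1) (by norm_num) one_pos one_pos
      refine h.congr_fun (fun t _ => ?_) measurableSet_Ioi
      simp only [Real.rpow_one, neg_mul, one_mul]
    · have h := integrableOn_rpow_mul_exp_neg_mul_rpow (s := (1/8 : ℝ)) (p := 1) (b := 1) (by norm_num) one_pos one_pos
      refine h.congr_fun (fun t _ => ?_) measurableSet_Ioi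
      simp only [Real.rpow_one, neg_mul, one_mul]
  set C3 : ℝ := ∫ y in Ioi (0 : ℝ), g y with hC3
  have hint : ∀ η : ℂ, |η.re| ≤ 1/8 → ‖∫ y in Ioi (0:ℝ), (y : ℂ) ^ (-η) * (LZ.f1 y : ℂ)‖ ≤ C3 := by
    intro η hη
    refine norm_integral_le_of_norm_le hgi ?_
    refine (ae_restrict_iff' measurableSet_Ioi).2 (Eventually.of_forall fun y hy => ?_)
    have hy0 : (0 : ℝ) < y := hy
    obtain ⟨h1, h2⟩ := LZ.A15_f1 hy0
    obtain ⟨h3, h4⟩ := abs_le.1 hη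
    rw [norm_mul, Complex.norm_cpow_eq_rpow_re_of_pos hy0, neg_re, Complex.norm_real, Real.norm_of_nonneg h1]
    have h5 : y ^ (-η.re) ≤ y ^ (-(1/8 : ℝ)) + y ^ (1/8 : ℝ) := by
      rcases le_total 1 y with h | h
      · have := Real.rpow_le_rpow_of_exponent_le h (by linarith : -η.re ≤ 1/8)
        have h6 : 0 ≤ y ^ (-(1/8 : ℝ)) := by positivity
        linarith
      · have := Real.rpow_le_rpow_of_exponent_ge hy0 h (by linarith : -(1/8) ≤ -η.re)
        have h6 : 0 ≤ y ^ (1/8 : ℝ) := by positivity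
        linarith
    calc y ^ (-η.re) * LZ.f1 y ≤ (y ^ (-(1/8 : ℝ)) + y ^ (1/8 : ℝ)) * Real.exp (-y) := by gcongr
      _ = g y := by rw [hg]; ring
  exact ⟨C3, (norm_nonneg _).trans (hint 0 (by simp)), hint⟩

theorem Ac_lim : Tendsto (fun η : ℂ => η * Ac η) (𝓝[≠] 0) (𝓝 (-1)) := by
  obtain ⟨C, hC0, hC⟩ := B9_int
  have h1 : Tendsto (fun η : ℂ => -Gamma (1 - η)) (𝓝[≠] 0) (𝓝 (-1)) := by
    have h2 : ContinuousAt (fun η : ℂ => -Gamma (1 - η)) 0 := by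
      refine ContinuousAt.neg ?_
      refine ContinuousAt.comp (g := Gamma) (f := fun η : ℂ => 1 - η) ?_ (by fun_prop)
      refine (differentiableAt_Gamma _ ?_).continuousAt
      intro m h
      have h2 := congrArg Complex.re h
      simp only [one_re, neg_re, natCast_re, sub_zero] at h2
      have h3 : (0 : ℝ) ≤ m := Nat.cast_nonneg m
      linarith
    have h3 := h2.tendsto
    rw [sub_zero, Gamma_one] at h3
    exact h3.mono_left nhdsWithin_le_nhds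
  have h2 : Tendsto (fun η : ℂ => η * ∫ y in Ioi (0:ℝ), (y : ℂ) ^ (-η) * (LZ.f1 y : ℂ)) (𝓝[≠] 0) (𝓝 0) := by
    refine squeeze_zero_norm' (a := fun η : ℂ => ‖η‖ * C) ?_ ?_
    · have h3 : ∀ᶠ η : ℂ in 𝓝[≠] 0, ‖η‖ < 1/8 := by
        refine Filter.Eventually.filter_mono nhdsWithin_le_nhds ?_
        have h4 : Tendsto (fun η : ℂ => ‖η‖) (𝓝 0) (𝓝 0) := by
          have := (continuous_norm (E := ℂ)).tendsto 0
          rwa [norm_zero] at this
        exact h4.eventually (eventually_lt_nhds (by norm_num))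
      filter_upwards [h3] with η hη
      rw [norm_mul]
      exact mul_le_mul_of_nonneg_left (hC η ((abs_re_le_norm η).trans hη.le)) (norm_nonneg _)
    · have h4 : Tendsto (fun η : ℂ => ‖η‖ * C) (𝓝 0) (𝓝 (‖(0:ℂ)‖ * C)) :=
        ((continuous_norm (E := ℂ)).mul continuous_const).tendsto 0
      rw [norm_zero, zero_mul] at h4
      exact h4.mono_left nhdsWithin_le_nhds
  have h3 := h1.add h2
  rw [add_zero] at h3
  refine h3.congr' ?_
  filter_upwards [self_mem_nhdsWithin] with η hη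
  have hη0 : η ≠ 0 := hη
  unfold Ac
  rw [mul_add, mul_div_cancel₀ _ hη0]

private lemma B9_ab {a b : ℂ} (ha : ‖a + 2‖ ≤ 1/2) (hb : ‖b + 2‖ ≤ 1/2) : 3 ≤ ‖a + b‖ := by
  have h1 : ‖(a + 2) + (b + 2)‖ ≤ 1 := (norm_add_le _ _).trans (by linarith)
  have h2 : ‖(4 : ℂ)‖ ≤ ‖a + b‖ + ‖(a + 2) + (b + 2)‖ := by
    have h4 : (4 : ℂ) = -(a + b) + ((a + 2) + (b + 2)) := by ring
    calc ‖(4:ℂ)‖ = ‖-(a + b) + ((a + 2) + (b + 2))‖ := by rw [← h4]
      _ ≤ _ := (norm_add_le _ _).trans (by rw [norm_neg])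
  have h3 : ‖(4 : ℂ)‖ = 4 := by norm_num
  linarith

private lemma B9_a {a : ℂ} (ha : ‖a + 2‖ ≤ 1/2) : ‖a‖ ≤ 5/2 := by
  have h1 : a = (a + 2) + (-2) := by ring
  have h2 : ‖(-2 : ℂ)‖ = 2 := by norm_num
  calc ‖a‖ = ‖(a + 2) + (-2)‖ := by rw [← h1]
    _ ≤ ‖a + 2‖ + ‖(-2 : ℂ)‖ := norm_add_le _ _
    _ ≤ 5/2 := by rw [h2]; linarith

private lemma B9_x {a : ℂ} (ha : ‖a + 2‖ ≤ 1/2) : ‖6/25 * a‖ ≤ 3/4 := by
  have h1 : ‖(6/25 : ℂ)‖ = 6/25 := by norm_num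
  rw [norm_mul, h1]
  have := B9_a ha
  linarith

private lemma B9_nx {a : ℂ} (ha : ‖a + 2‖ ≤ 1/2) : ‖-(6/25 * a)‖ ≤ 3/4 := by
  rw [norm_neg]; exact B9_x ha

/-- scaling of the arguments -/
private lemma B9_sc (L : ℝ) (hL : 0 < L) (a : ℂ) : a / (L : ℂ) = (6/25 * a) / ((6/25 * L : ℝ) : ℂ) := by
  have h : (L : ℂ) ≠ 0 := ofReal_ne_zero.2 hL.ne'
  push_cast
  field_simp

private lemma B9_nsc (L : ℝ) (hL : 0 < L) (a : ℂ) : -(a / (L : ℂ)) = (-(6/25 * a)) / ((6/25 * L : ℝ) : ℂ) := by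
  rw [B9_sc L hL, neg_div]

private lemma B9_M1 (L : ℝ) (hL : 0 < L) (a b : ℂ) :
    riemannZeta (1 + (a / L + b / L)) * SS ⌊Real.exp (6/25 * L)⌋₊ (6/25 * L) (b / L) (a / L) =
      riemannZeta (1 + (a + b) / L) / L * (25/6 * (((6/25 * L : ℝ) : ℂ) *
        SS ⌊Real.exp (6/25 * L)⌋₊ (6/25 * L) ((6/25 * b) / ((6/25 * L : ℝ) : ℂ))
          ((6/25 * a) / ((6/25 * L : ℝ) : ℂ)))) := by
  have h : (L : ℂ) ≠ 0 := ofReal_ne_zero.2 hL.ne'
  rw [← B9_sc L hL, ← B9_sc L hL, ← add_div]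
  generalize riemannZeta (1 + (a + b) / L) = Z
  generalize SS ⌊Real.exp (6/25 * L)⌋₊ (6/25 * L) (b / L) (a / L) = W
  push_cast
  field_simp

private lemma B9_M2 (L x : ℝ) (hL : 0 < L) (a b : ℂ) (hab : a + b ≠ 0) :
    (x : ℂ) ^ (a / L + b / L) * Ac (a / L + b / L) *
        SS ⌊Real.exp (6/25 * L)⌋₊ (6/25 * L) (-(a / L)) (-(b / L)) =
      (x : ℂ) ^ ((a + b) / L) * ((a + b) / L * Ac ((a + b) / L)) * (25/6 / (a + b) * (((6/25 * L : ℝ) : ℂ) *
        SS ⌊Real.exp (6/25 * L)⌋₊ (6/25 * L) ((-(6/25 * a)) / ((6/25 * L : ℝ) : ℂ))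
          ((-(6/25 * b)) / ((6/25 * L : ℝ) : ℂ)))) := by
  have h : (L : ℂ) ≠ 0 := ofReal_ne_zero.2 hL.ne'
  rw [← B9_nsc L hL, ← B9_nsc L hL, ← add_div]
  generalize (x : ℂ) ^ ((a + b) / L) = Z
  generalize SS ⌊Real.exp (6/25 * L)⌋₊ (6/25 * L) (-(a / L)) (-(b / L)) = W
  generalize Ac ((a + b) / L) = V
  push_cast
  field_simp

/-- mean_main at T/kap -/
private lemma B9_err (κ : ℝ) (hκ : 1 ≤ κ) : ∃ C T0 : ℝ, 0 < C ∧ 2 ≤ T0 ∧ ∀ T : ℝ, T0 ≤ T → ∀ a b : ℂ,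
    ‖a + 2‖ ≤ 1/2 → ‖b + 2‖ ≤ 1/2 →
    ‖EE (T / κ) (XI (6/25 * Real.log T) (a / Real.log T) (b / Real.log T)) -
      (riemannZeta (1 + (a / Real.log T + b / Real.log T)) *
        SS ⌊Real.exp (6/25 * Real.log T)⌋₊ (6/25 * Real.log T) (b / Real.log T) (a / Real.log T) +
      ((2 * Real.pi / (T / κ) : ℝ) : ℂ) ^ (a / Real.log T + b / Real.log T) *
        Ac (a / Real.log T + b / Real.log T) *
        SS ⌊Real.exp (6/25 * Real.log T)⌋₊ (6/25 * Real.log T) (-(a / Real.log T)) (-(b / Real.log T)))‖ ≤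
      C * (1 + Real.log T) * (T / κ) ^ (-(1/100) : ℝ) := by
  have hk0 : 0 < κ := by linarith
  have hlk : 0 ≤ Real.log κ := Real.log_nonneg hκ
  obtain ⟨C, T1, hC, hT1, hmm⟩ := mean_main 1 (6/25 * Real.log κ) (by norm_num) (by positivity)
  refine ⟨C, max 2 (max (κ * T1) (Real.exp 500)), hC, le_max_left _ _, ?_⟩
  intro T hT a b ha hb
  have hT2 : 2 ≤ T := (le_max_left _ _).trans hT
  have hTk : κ * T1 ≤ T := ((le_max_left _ _).trans (le_max_right _ _)).trans hT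
  have hTe : Real.exp 500 ≤ T := ((le_max_right _ _).trans (le_max_right _ _)).trans hT
  have hT0 : 0 < T := by linarith
  have hL : 500 ≤ Real.log T := by
    rw [← Real.log_exp 500]
    exact Real.log_le_log (Real.exp_pos _) hTe
  have hL0 : 0 < Real.log T := by linarith
  have hT1' : T1 ≤ T / κ := by
    rw [le_div_iff₀ hk0]
    linarith
  have hl : 6/25 * Real.log T ≤ 6/25 * Real.log (T / κ) + 6/25 * Real.log κ := by
    rw [Real.log_div hT0.ne' hk0.ne']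
    linarith
  have hsmall : ∀ c : ℂ, ‖c + 2‖ ≤ 1/2 → ‖c / (Real.log T : ℂ)‖ ≤ 1/200 := by
    intro c hc
    rw [norm_div, Complex.norm_real, Real.norm_of_nonneg hL0.le, div_le_iff₀ hL0]
    have := B9_a hc
    linarith
  have hab3 := B9_ab ha hb
  have hab : a + b ≠ 0 := by
    intro h
    rw [h, norm_zero] at hab3
    linarith
  have hLc : (Real.log T : ℂ) ≠ 0 := ofReal_ne_zero.2 hL0.ne'
  have hne : a / (Real.log T : ℂ) + b / (Real.log T : ℂ) ≠ 0 := by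
    rw [← add_div]
    exact div_ne_zero hab hLc
  have h := hmm (T / κ) hT1' (6/25 * Real.log T) (by positivity) hl (a / Real.log T) (b / Real.log T)
    ((abs_re_le_norm _).trans (hsmall a ha)) ((abs_re_le_norm _).trans (hsmall b hb))
    ((abs_im_le_norm _).trans ((hsmall a ha).trans (by norm_num)))
    ((abs_im_le_norm _).trans ((hsmall b hb).trans (by norm_num))) hne
  refine h.trans ?_
  have h1 : 1 / ‖a / (Real.log T : ℂ) + b / (Real.log T : ℂ)‖ ≤ Real.log T := by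
    rw [← add_div, norm_div, Complex.norm_real, Real.norm_of_nonneg hL0.le, one_div_div,
      div_le_iff₀ (by linarith)]
    nlinarith
  have h2 : 0 ≤ (T / κ) ^ (-(1/100) : ℝ) := by positivity
  gcongr

private lemma B9_errlim (κ C : ℝ) (hκ : 1 ≤ κ) :
    Tendsto (fun T : ℝ => C * (1 + Real.log T) * (T / κ) ^ (-(1/100) : ℝ)) atTop (𝓝 0) := by
  have hk0 : 0 < κ := by linarith
  have h1 : Tendsto (fun T : ℝ => T ^ (-(1/100) : ℝ)) atTop (𝓝 0) :=
    tendsto_rpow_neg_atTop (by norm_num)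
  have h2 : Tendsto (fun T : ℝ => Real.log T * T ^ (-(1/100) : ℝ)) atTop (𝓝 0) := by
    have h3 := (isLittleO_log_rpow_atTop (r := 1/100) (by norm_num)).tendsto_div_nhds_zero
    refine h3.congr' ?_
    filter_upwards [eventually_gt_atTop 0] with T hT
    rw [Real.rpow_neg hT.le, div_eq_mul_inv]
  have h4 : Tendsto (fun T : ℝ => C * κ ^ ((1/100) : ℝ) * (T ^ (-(1/100) : ℝ) + Real.log T * T ^ (-(1/100) : ℝ)))
      atTop (𝓝 (C * κ ^ ((1/100) : ℝ) * (0 + 0))) := (h1.add h2).const_mul _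
  rw [add_zero, mul_zero] at h4
  refine h4.congr' ?_
  filter_upwards [eventually_gt_atTop 0] with T hT
  rw [Real.div_rpow hT.le hk0.le, Real.rpow_neg hk0.le, div_inv_eq_mul]
  ring

private lemma B9_pow (κ : ℝ) (hκ : 1 ≤ κ) (c : ℂ) :
    Tendsto (fun T : ℝ => ((2 * Real.pi / (T / κ) : ℝ) : ℂ) ^ (c / Real.log T)) atTop (𝓝 (exp (-c))) := by
  have hk0 : 0 < κ := by linarith
  have hpi := Real.pi_pos
  have h1 : Tendsto (fun T : ℝ => (Real.log (2 * Real.pi * κ) : ℝ) * (Real.log T)⁻¹ - 1) atTop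
      (𝓝 (Real.log (2 * Real.pi * κ) * 0 - 1)) :=
    ((tendsto_inv_atTop_zero.comp Real.tendsto_log_atTop).const_mul _).sub tendsto_const_nhds
  rw [mul_zero, zero_sub] at h1
  have h2 : Tendsto (fun T : ℝ => (((Real.log (2 * Real.pi * κ) : ℝ) * (Real.log T)⁻¹ - 1 : ℝ) : ℂ)) atTop
      (𝓝 ((-1 : ℝ) : ℂ)) := (continuous_ofReal.tendsto _).comp h1
  have h3 : Tendsto (fun T : ℝ => exp ((((Real.log (2 * Real.pi * κ) : ℝ) * (Real.log T)⁻¹ - 1 : ℝ) : ℂ) * c))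
      atTop (𝓝 (exp (((-1 : ℝ) : ℂ) * c))) := (continuous_exp.tendsto _).comp (h2.mul_const c)
  have h4 : ((-1 : ℝ) : ℂ) * c = -c := by push_cast; ring
  rw [h4] at h3
  refine h3.congr' ?_
  filter_upwards [eventually_gt_atTop 1] with T hT
  have hT0 : 0 < T := by linarith
  have hL0 : 0 < Real.log T := Real.log_pos hT
  have hLc : (Real.log T : ℂ) ≠ 0 := ofReal_ne_zero.2 hL0.ne'
  have hx : 0 < 2 * Real.pi / (T / κ) := by positivity
  rw [cpow_def_of_ne_zero (ofReal_ne_zero.2 hx.ne'), ← ofReal_log hx.le]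
  congr 1
  have h5 : Real.log (2 * Real.pi / (T / κ)) = Real.log (2 * Real.pi * κ) - Real.log T := by
    rw [show 2 * Real.pi / (T / κ) = 2 * Real.pi * κ / T by field_simp, Real.log_div (by positivity) hT0.ne']
  rw [h5]
  push_cast
  field_simp

/-- mean_main at T/kap (l = 6/25 log(T/kap) + 6/25 log kap), SS_lim, J_eval, Ac_lim, zeta near 1 -/
theorem mean_lim (κ : ℝ) (hκ : 1 ≤ κ) (a b : ℂ) (ha : ‖a + 2‖ ≤ 1/2) (hb : ‖b + 2‖ ≤ 1/2) :
    Tendsto (fun T : ℝ => EE (T / κ) (XI (6/25 * Real.log T) (a / Real.log T) (b / Real.log T))) atTop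
      (𝓝 (XL a b)) := by
  obtain ⟨C, T0, hC, hT0, herr⟩ := B9_err κ hκ
  have hab3 := B9_ab ha hb
  have hab : a + b ≠ 0 := by
    intro h
    rw [h, norm_zero] at hab3
    linarith
  have hlog := Real.tendsto_log_atTop
  have hl : Tendsto (fun T : ℝ => 6/25 * Real.log T) atTop atTop :=
    hlog.const_mul_atTop (by norm_num)
  have e1 : Tendsto (fun T : ℝ => riemannZeta (1 + (a + b) / Real.log T) / Real.log T) atTop (𝓝 (1 / (a + b))) :=
    (zeta_lim (a + b) hab).comp hlog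
  have e2 : Tendsto (fun T : ℝ => ((6/25 * Real.log T : ℝ) : ℂ) *
        SS ⌊Real.exp (6/25 * Real.log T)⌋₊ (6/25 * Real.log T) ((6/25 * b) / ((6/25 * Real.log T : ℝ) : ℂ))
          ((6/25 * a) / ((6/25 * Real.log T : ℝ) : ℂ))) atTop (𝓝 (JJ (6/25 * b) (6/25 * a))) := by
    have h := (SS_lim (6/25 * b) (6/25 * a) (B9_x hb) (B9_x ha)).comp hl
    rw [J_eval] at h
    exact h
  have e3 : Tendsto (fun T : ℝ => ((6/25 * Real.log T : ℝ) : ℂ) *
        SS ⌊Real.exp (6/25 * Real.log T)⌋₊ (6/25 * Real.log T) ((-(6/25 * a)) / ((6/25 * Real.log T : ℝ) : ℂ))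
          ((-(6/25 * b)) / ((6/25 * Real.log T : ℝ) : ℂ))) atTop (𝓝 (JJ (-(6/25 * a)) (-(6/25 * b)))) := by
    have h := (SS_lim (-(6/25 * a)) (-(6/25 * b)) (B9_nx ha) (B9_nx hb)).comp hl
    rw [J_eval] at h
    exact h
  have e4 : Tendsto (fun T : ℝ => (a + b) / (Real.log T : ℂ) * Ac ((a + b) / Real.log T)) atTop (𝓝 (-1)) := by
    refine Ac_lim.comp (g := fun η : ℂ => η * Ac η) (f := fun T : ℝ => (a + b) / (Real.log T : ℂ)) ?_
    refine tendsto_nhdsWithin_iff.2 ⟨?_, ?_⟩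
    · have h3 : Tendsto (fun T : ℝ => ((Real.log T)⁻¹ : ℝ)) atTop (𝓝 0) := tendsto_inv_atTop_zero.comp hlog
      have h5 : Tendsto (fun T : ℝ => (((Real.log T)⁻¹ : ℝ) : ℂ)) atTop (𝓝 ((0 : ℝ) : ℂ)) :=
        (continuous_ofReal.tendsto _).comp h3
      have h4 : Tendsto (fun T : ℝ => (a + b) * (((Real.log T)⁻¹ : ℝ) : ℂ)) atTop (𝓝 ((a + b) * ((0 : ℝ) : ℂ))) :=
        h5.const_mul _
      rw [ofReal_zero, mul_zero] at h4
      refine h4.congr fun T => ?_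
      rw [ofReal_inv, div_eq_mul_inv]
    · filter_upwards [eventually_gt_atTop 1] with T hT
      exact div_ne_zero hab (ofReal_ne_zero.2 (Real.log_pos hT).ne')
  have e5 := B9_pow κ hκ (a + b)
  have m1 := e1.mul (e2.const_mul (25/6 : ℂ))
  have m2 := (e5.mul e4).mul (e3.const_mul (25/6 / (a + b) : ℂ))
  have m := m1.add m2
  have hXL : 1 / (a + b) * (25/6 * JJ (6/25 * b) (6/25 * a)) +
      exp (-(a + b)) * -1 * (25/6 / (a + b) * JJ (-(6/25 * a)) (-(6/25 * b))) = XL a b := by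
    unfold XL
    have hs : JJ (6/25 * b) (6/25 * a) = JJ (6/25 * a) (6/25 * b) := by unfold JJ; ring
    rw [hs]
    ring
  rw [hXL] at m
  have hd : Tendsto (fun T : ℝ => EE (T / κ) (XI (6/25 * Real.log T) (a / Real.log T) (b / Real.log T)) -
      (riemannZeta (1 + (a / Real.log T + b / Real.log T)) *
        SS ⌊Real.exp (6/25 * Real.log T)⌋₊ (6/25 * Real.log T) (b / Real.log T) (a / Real.log T) +
      ((2 * Real.pi / (T / κ) : ℝ) : ℂ) ^ (a / Real.log T + b / Real.log T) *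
        Ac (a / Real.log T + b / Real.log T) *
        SS ⌊Real.exp (6/25 * Real.log T)⌋₊ (6/25 * Real.log T) (-(a / Real.log T)) (-(b / Real.log T)))) atTop
      (𝓝 0) := by
    refine squeeze_zero_norm' ?_ (B9_errlim κ C hκ)
    filter_upwards [eventually_ge_atTop T0] with T hT
    exact herr T hT a b ha hb
  have hs := hd.add m
  rw [zero_add] at hs
  refine hs.congr' ?_
  filter_upwards [eventually_gt_atTop 1] with T hT
  have hL0 : 0 < Real.log T := Real.log_pos hT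
  rw [B9_M1 _ hL0 a b, B9_M2 _ _ hL0 a b hab]
  ring

theorem mean_bdd (κ : ℝ) (hκ : 1 ≤ κ) : ∃ C T0 : ℝ, 0 < C ∧ 2 ≤ T0 ∧ ∀ T : ℝ, T0 ≤ T → ∀ a b : ℂ,
    ‖a + 2‖ ≤ 1/2 → ‖b + 2‖ ≤ 1/2 →
    ‖EE (T / κ) (XI (6/25 * Real.log T) (a / Real.log T) (b / Real.log T))‖ ≤ C := by
  have hk0 : 0 < κ := by linarith
  have hpi := Real.pi_pos
  obtain ⟨C, T1, hC, hT1, herr⟩ := B9_err κ hκ
  obtain ⟨Cs, l0, hCs, hl0, hSS⟩ := SS_bdd
  obtain ⟨Cz, hCz, hzA⟩ := LZ.zA_bounds 1 zero_le_one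
  obtain ⟨T2, hT2⟩ := eventually_atTop.1 ((B9_errlim κ C hκ).eventually (eventually_le_nhds (zero_lt_one)))
  set P : ℝ := Real.exp (5 * |Real.log (2 * Real.pi * κ)| + 5) with hP
  have hP0 : 0 < P := Real.exp_pos _
  refine ⟨1 + Cz * 2 * (25/6 * Cs) + P * (Cz * 2) * (25/6 * Cs),
    max (max T1 T2) (max (Real.exp 500) (Real.exp (25/6 * l0))), by positivity,
    hT1.trans ((le_max_left _ _).trans (le_max_left _ _)), ?_⟩
  intro T hT a b ha hb
  have hTT1 : T1 ≤ T := ((le_max_left _ _).trans (le_max_left _ _)).trans hT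
  have hTT2 : T2 ≤ T := ((le_max_right _ _).trans (le_max_left _ _)).trans hT
  have hTe : Real.exp 500 ≤ T := ((le_max_left _ _).trans (le_max_right _ _)).trans hT
  have hTl : Real.exp (25/6 * l0) ≤ T := ((le_max_right _ _).trans (le_max_right _ _)).trans hT
  have hT0 : 0 < T := by linarith
  set L : ℝ := Real.log T with hLdef
  have hL : 500 ≤ L := by
    rw [hLdef, ← Real.log_exp 500]
    exact Real.log_le_log (Real.exp_pos _) hTe
  have hL0 : 0 < L := by linarith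
  have hLl : l0 ≤ 6/25 * L := by
    have : 25/6 * l0 ≤ L := by
      rw [hLdef, ← Real.log_exp (25/6 * l0)]
      exact Real.log_le_log (Real.exp_pos _) hTl
    linarith
  have hab3 := B9_ab ha hb
  have hab : a + b ≠ 0 := by
    intro h
    rw [h, norm_zero] at hab3
    linarith
  have hab5 : ‖a + b‖ ≤ 5 := by
    have h1 := B9_a ha
    have h2 := B9_a hb
    exact (norm_add_le _ _).trans (by linarith)
  have hLc : (L : ℂ) ≠ 0 := ofReal_ne_zero.2 hL0.ne'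
  have hne : (a + b) / (L : ℂ) ≠ 0 := div_ne_zero hab hLc
  have hnorm : ‖(a + b) / (L : ℂ)‖ = ‖a + b‖ / L := by
    rw [norm_div, Complex.norm_real, Real.norm_of_nonneg hL0.le]
  have hsm : ‖(a + b) / (L : ℂ)‖ ≤ 1/8 := by
    rw [hnorm, div_le_iff₀ hL0]
    linarith
  obtain ⟨hz, hA⟩ := hzA ((a + b) / L) ((abs_re_le_norm _).trans hsm)
    ((abs_im_le_norm _).trans (hsm.trans (by norm_num))) hne
  have h1 : 1 + 1 / ‖(a + b) / (L : ℂ)‖ ≤ 2 * L := by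
    rw [hnorm, one_div_div]
    have : L / ‖a + b‖ ≤ L := by
      rw [div_le_iff₀ (by linarith)]
      nlinarith
    linarith
  have hz' : ‖riemannZeta (1 + (a + b) / L) / L‖ ≤ Cz * 2 := by
    rw [norm_div, Complex.norm_real, Real.norm_of_nonneg hL0.le, div_le_iff₀ hL0]
    calc _ ≤ Cz * (1 + 1 / ‖(a + b) / (L : ℂ)‖) := hz
      _ ≤ Cz * (2 * L) := by gcongr
      _ = _ := by ring
  have hA' : ‖(a + b) / (L : ℂ) * Ac ((a + b) / L) * (1 / (a + b))‖ ≤ Cz * 2 := by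
    rw [norm_mul, norm_mul, hnorm, norm_div, norm_one]
    have h0 : 0 < ‖a + b‖ := by linarith
    calc ‖a + b‖ / L * ‖Ac ((a + b) / L)‖ * (1 / ‖a + b‖) = ‖Ac ((a + b) / L)‖ / L := by field_simp
      _ ≤ Cz * 2 := by
        rw [div_le_iff₀ hL0]
        calc _ ≤ Cz * (1 + 1 / ‖(a + b) / (L : ℂ)‖) := hA
          _ ≤ Cz * (2 * L) := by gcongr
          _ = _ := by ring
  have hS1 := hSS (6/25 * L) hLl (6/25 * b) (6/25 * a) (B9_x hb) (B9_x ha)
  have hS2 := hSS (6/25 * L) hLl (-(6/25 * a)) (-(6/25 * b)) (B9_nx ha) (B9_nx hb)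
  have hpow : ‖((2 * Real.pi / (T / κ) : ℝ) : ℂ) ^ ((a + b) / (L : ℂ))‖ ≤ P := by
    have hx : 0 < 2 * Real.pi / (T / κ) := by positivity
    rw [Complex.norm_cpow_eq_rpow_re_of_pos hx, Real.rpow_def_of_pos hx, hP]
    apply Real.exp_le_exp.mpr
    have h5 : Real.log (2 * Real.pi / (T / κ)) = Real.log (2 * Real.pi * κ) - L := by
      rw [show 2 * Real.pi / (T / κ) = 2 * Real.pi * κ / T by field_simp, Real.log_div (by positivity) hT0.ne']
    rw [h5, div_ofReal_re]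
    have h6 : |(a + b).re| ≤ 5 := (abs_re_le_norm _).trans hab5
    have h7 : (Real.log (2 * Real.pi * κ) - L) * ((a + b).re / L) ≤
        |Real.log (2 * Real.pi * κ) - L| * (5 / L) := by
      refine (le_abs_self _).trans ?_
      rw [abs_mul, abs_div, abs_of_pos hL0]
      gcongr
    have h8 : |Real.log (2 * Real.pi * κ) - L| ≤ |Real.log (2 * Real.pi * κ)| + L := by
      refine (abs_sub _ _).trans ?_
      rw [abs_of_pos hL0]
    have h9 : (|Real.log (2 * Real.pi * κ)| + L) * (5 / L) ≤ 5 * |Real.log (2 * Real.pi * κ)| + 5 := by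
      rw [mul_div_assoc', div_le_iff₀ hL0]
      have := abs_nonneg (Real.log (2 * Real.pi * κ))
      nlinarith
    refine h7.trans (le_trans ?_ h9)
    gcongr
  have he := herr T hTT1 a b ha hb
  have he1 : C * (1 + Real.log T) * (T / κ) ^ (-(1/100) : ℝ) ≤ 1 := hT2 T hTT2
  rw [← hLdef, B9_M1 L hL0 a b, B9_M2 L _ hL0 a b hab] at he
  rw [← hLdef] at he1
  set E := EE (T / κ) (XI (6/25 * L) (a / L) (b / L)) with hE
  set S1 := (((6/25 * L : ℝ) : ℂ) * SS ⌊Real.exp (6/25 * L)⌋₊ (6/25 * L) ((6/25 * b) / ((6/25 * L : ℝ) : ℂ))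
          ((6/25 * a) / ((6/25 * L : ℝ) : ℂ))) with hS1d
  set S2 := (((6/25 * L : ℝ) : ℂ) * SS ⌊Real.exp (6/25 * L)⌋₊ (6/25 * L) ((-(6/25 * a)) / ((6/25 * L : ℝ) : ℂ))
          ((-(6/25 * b)) / ((6/25 * L : ℝ) : ℂ))) with hS2d
  have hc : ‖(25/6 : ℂ)‖ = 25/6 := by norm_num
  have hM1 : ‖riemannZeta (1 + (a + b) / L) / L * (25/6 * S1)‖ ≤ Cz * 2 * (25/6 * Cs) := by
    rw [norm_mul, norm_mul, hc]
    gcongr
  have hM2 : ‖((2 * Real.pi / (T / κ) : ℝ) : ℂ) ^ ((a + b) / (L : ℂ)) *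
      ((a + b) / L * Ac ((a + b) / L)) * (25/6 / (a + b) * S2)‖ ≤ P * (Cz * 2) * (25/6 * Cs) := by
    have hrw : ((2 * Real.pi / (T / κ) : ℝ) : ℂ) ^ ((a + b) / (L : ℂ)) *
      ((a + b) / L * Ac ((a + b) / L)) * (25/6 / (a + b) * S2) =
      ((2 * Real.pi / (T / κ) : ℝ) : ℂ) ^ ((a + b) / (L : ℂ)) *
      ((a + b) / L * Ac ((a + b) / L) * (1 / (a + b))) * (25/6 * S2) := by ring
    rw [hrw, norm_mul, norm_mul, norm_mul (25/6 : ℂ), hc]
    gcongr
  have hfin := norm_add_le (E - (riemannZeta (1 + (a + b) / L) / L * (25/6 * S1) +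
    ((2 * Real.pi / (T / κ) : ℝ) : ℂ) ^ ((a + b) / (L : ℂ)) *
      ((a + b) / L * Ac ((a + b) / L)) * (25/6 / (a + b) * S2)))
    (riemannZeta (1 + (a + b) / L) / L * (25/6 * S1) +
    ((2 * Real.pi / (T / κ) : ℝ) : ℂ) ^ ((a + b) / (L : ℂ)) *
      ((a + b) / L * Ac ((a + b) / L)) * (25/6 / (a + b) * S2))
  rw [sub_add_cancel] at hfin
  have h12 := norm_add_le (riemannZeta (1 + (a + b) / L) / L * (25/6 * S1))
    (((2 * Real.pi / (T / κ) : ℝ) : ℂ) ^ ((a + b) / (L : ℂ)) *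
      ((a + b) / L * Ac ((a + b) / L)) * (25/6 / (a + b) * S2))
  linarith

end LS
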