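import Pool.Agent.Lib.MP_0f5a55_nt.S.B10
import Pool.Agent.Lib.MP_0f5a55_nt.V.V06
import Mathlib.Analysis.Real.Pi.Leibniz

open Complex MeasureTheory Set Filter Topology
open scoped ComplexConjugate

namespace LS

open LZ (PP nS EE Ac)

/-- the integrand -/
private noncomputable def C1_G (T t : ℝ) : ℝ :=
  ‖VV (11/10) T (1/2 - 2 / Real.log T + t * I) * Mo (6/25 * Real.log T) (1/2 + t * I)‖ ^ 2

private theorem C1_nS_ne {z : ℕ} {S : Finset ℕ} (hS : S ∈ (PP z).powerset) : (nS S : ℂ) ≠ 0 := by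
  rw [Finset.mem_powerset] at hS
  unfold nS
  rw [Nat.cast_ne_zero, Finset.prod_ne_zero_iff]
  intro p hp
  have h := hS hp
  unfold PP at h
  exact (Finset.mem_filter.1 h).2.ne_zero

private theorem C1_Mo_cont (l : ℝ) : Continuous (Mo l) := by
  unfold Mo
  refine continuous_finsetSum _ fun S hS => ?_
  refine continuous_const.mul ?_
  have h := C1_nS_ne hS
  exact continuous_neg.const_cpow (Or.inl h)

private theorem C1_Mo_conj (l : ℝ) (s : ℂ) : Mo l (conj s) = conj (Mo l s) := by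
  unfold Mo
  rw [map_sum]
  refine Finset.sum_congr rfl fun S _ => ?_
  rw [map_mul, conj_ofReal]
  congr 1
  have h := cpow_conj ((nS S : ℕ) : ℂ) (-s) (by
    rw [natCast_arg]
    exact Real.pi_pos.ne)
  rw [map_neg, conj_natCast] at h
  exact h

private theorem C1_deriv_conj (s : ℂ) : deriv riemannZeta (conj s) = conj (deriv riemannZeta s) := by
  have h1 : (conj : ℂ → ℂ) ∘ riemannZeta ∘ (conj : ℂ → ℂ) = riemannZeta := by
    funext z
    simp [riemannZeta_conj]
  have h2 : deriv riemannZeta = (conj : ℂ → ℂ) ∘ deriv riemannZeta ∘ (conj : ℂ → ℂ) := by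
    conv_lhs => rw [← h1]
    exact deriv_conj_conj
  have h3 := congrFun h2 (conj s)
  simpa using h3

private theorem C1_VV_conj (lam T : ℝ) (s : ℂ) : VV lam T (conj s) = conj (VV lam T s) := by
  unfold VV
  rw [riemannZeta_conj, C1_deriv_conj, map_add, map_mul, conj_ofReal]

private theorem C1_VV_cont (lam T : ℝ) {s : ℂ} (hs : s ≠ 1) : ContinuousAt (VV lam T) s := by
  unfold VV
  have h1 : ContinuousAt riemannZeta s := (differentiableAt_riemannZeta hs).continuousAt
  have h2 : DifferentiableOn ℂ riemannZeta {1}ᶜ := fun z hz =>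
    (differentiableAt_riemannZeta hz).differentiableWithinAt
  have h3 : DifferentiableOn ℂ (deriv riemannZeta) {1}ᶜ := h2.deriv isOpen_compl_singleton
  have h4 : ContinuousAt (deriv riemannZeta) s :=
    ((h3 s hs).differentiableAt (isOpen_compl_singleton.mem_nhds hs)).continuousAt
  exact h1.add (continuousAt_const.mul h4)

private theorem C1_G_cont {T : ℝ} (hT : 2 ≤ T) : Continuous (C1_G T) := by
  unfold C1_G
  have hlog : 0 < Real.log T := Real.log_pos (by linarith)
  have h1 : Continuous fun t : ℝ => VV (11/10) T (1/2 - 2 / Real.log T + t * I) := by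
    rw [continuous_iff_continuousAt]
    intro t
    have hne : (1/2 - 2 / Real.log T + t * I : ℂ) ≠ 1 := by
      intro h
      have h2 := congrArg Complex.re h
      have h3 : (1/2 - 2 / Real.log T + t * I : ℂ) = ((1/2 - 2 / Real.log T : ℝ) : ℂ) + t * I := by
        push_cast
        ring
      rw [h3] at h2
      simp at h2
      have h4 : 0 < 2 / Real.log T := by positivity
      linarith
    have hc : Continuous fun t : ℝ => (1/2 - 2 / Real.log T + t * I : ℂ) := by fun_prop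
    exact ContinuousAt.comp (f := fun t : ℝ => (1/2 - 2 / Real.log T + t * I : ℂ))
      (g := VV (11/10) T) (C1_VV_cont _ _ hne) hc.continuousAt
  have h2 : Continuous fun t : ℝ => Mo (6/25 * Real.log T) (1/2 + t * I) :=
    (C1_Mo_cont _).comp (by fun_prop)
  exact ((h1.mul h2).norm).pow 2

private theorem C1_G_even (T t : ℝ) : C1_G T (-t) = C1_G T t := by
  unfold C1_G
  have h2 : conj (2 : ℂ) = 2 := Complex.conj_ofNat 2
  have e1 : (1/2 - 2 / Real.log T + (-t : ℝ) * I : ℂ) = conj (1/2 - 2 / Real.log T + t * I) := by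
    simp only [map_add, map_sub, map_mul, map_div₀, map_one, h2, conj_ofReal, conj_I]
    push_cast
    ring
  have e2 : (1/2 + (-t : ℝ) * I : ℂ) = conj (1/2 + t * I) := by
    simp only [map_add, map_mul, map_div₀, map_one, h2, conj_ofReal, conj_I]
    push_cast
    ring
  rw [e1, e2, C1_VV_conj, C1_Mo_conj, ← map_mul, norm_conj]

/-- pointwise bound -/
private theorem C1_cosh (K : ℕ) {x : ℝ} (hx : 0 < x) :
    (Real.cosh x)⁻¹ ≤ 2 * ∑ k ∈ Finset.range (2 * K + 1), (-1 : ℝ) ^ k * Real.exp (-((2 * k + 1) * x)) := by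
  set q : ℝ := Real.exp (-(2 * x)) with hq
  have hq0 : 0 < q := Real.exp_pos _
  have h1 : ∀ k : ℕ, (-1 : ℝ) ^ k * Real.exp (-((2 * k + 1) * x)) = Real.exp (-x) * (-q) ^ k := by
    intro k
    rw [neg_pow q k, hq, ← Real.exp_nat_mul]
    rw [show -((2 * (k:ℝ) + 1) * x) = -x + k * (-(2 * x)) by ring, Real.exp_add]
    ring
  have h2 : ∑ k ∈ Finset.range (2 * K + 1), (-1 : ℝ) ^ k * Real.exp (-((2 * k + 1) * x)) =
      Real.exp (-x) * ((1 + q ^ (2 * K + 1)) / (1 + q)) := by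
    rw [Finset.sum_congr rfl fun k _ => h1 k, ← Finset.mul_sum, geom_sum_eq (by linarith)]
    congr 1
    rw [Odd.neg_pow ⟨K, rfl⟩]
    rw [div_eq_div_iff (by linarith) (by linarith)]
    ring
  rw [h2, Real.cosh_eq]
  have h3 : (Real.exp x + Real.exp (-x)) / 2 = Real.exp x * (1 + q) / 2 := by
    rw [hq, mul_add, mul_one, ← Real.exp_add]
    ring_nf
  rw [h3]
  have h4 : (Real.exp x * (1 + q) / 2)⁻¹ = 2 * (Real.exp (-x) * (1 / (1 + q))) := by
    rw [Real.exp_neg]
    have := Real.exp_pos x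
    field_simp
  rw [h4]
  gcongr
  have := pow_pos hq0 (2 * K + 1)
  linarith

/-- abstract form -/
private theorem C1_main (K : ℕ) {T : ℝ} (hT : 0 < T) {G : ℝ → ℝ} (hG : Continuous G) (hG0 : ∀ t, 0 ≤ G t)
    (he : ∀ t, G (-t) = G t)
    (hint : ∀ k ∈ Finset.range (2 * K + 1),
      IntegrableOn (fun t => G t * Real.exp (-t / (T / (2 * (k:ℝ) + 1)))) (Ioi 0)) :
    Integrable (fun u : ℝ => G (Real.pi * T * u) * LW.sw u) ∧
    ∫ u : ℝ, G (Real.pi * T * u) * LW.sw u ≤
      4 / Real.pi * ∑ k ∈ Finset.range (2 * K + 1), (-1 : ℝ) ^ k / (2 * k + 1) *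
        LZ.ER (T / (2 * (k:ℝ) + 1)) G := by
  have hpi := Real.pi_pos
  have harg : ∀ (k : ℕ) (t : ℝ), -t / (T / (2 * (k:ℝ) + 1)) = -((2 * k + 1) * (t / T)) := by
    intro k t
    have : (2 * (k:ℝ) + 1) ≠ 0 := by positivity
    field_simp
  set F : ℝ → ℝ := fun t => G t * (Real.cosh (t / T))⁻¹ with hF
  have hFc : Continuous F :=
    hG.mul ((Real.continuous_cosh.comp (continuous_id.div_const T)).inv₀ fun t => (Real.cosh_pos _).ne')
  have hFe : ∀ t, F (-t) = F t := by
    intro t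
    simp only [hF]
    rw [he, neg_div, Real.cosh_neg]
  have hF0 : ∀ t, 0 ≤ F t := fun t => mul_nonneg (hG0 t) (inv_nonneg.2 (Real.cosh_pos _).le)
  -- integrability on the half line
  have hb : IntegrableOn (fun t => 2 * ∑ k ∈ Finset.range (2 * K + 1), (-1 : ℝ) ^ k *
      (G t * Real.exp (-t / (T / (2 * (k:ℝ) + 1))))) (Ioi 0) := by
    refine Integrable.const_mul ?_ 2
    exact integrable_finsetSum _ fun k hk => (hint k hk).const_mul _
  have hle : ∀ t ∈ Ioi (0:ℝ), F t ≤ 2 * ∑ k ∈ Finset.range (2 * K + 1), (-1 : ℝ) ^ k *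
      (G t * Real.exp (-t / (T / (2 * (k:ℝ) + 1)))) := by
    intro t ht
    have h1 := C1_cosh K (x := t / T) (div_pos ht hT)
    have h2 := mul_le_mul_of_nonneg_left h1 (hG0 t)
    refine h2.trans (le_of_eq ?_)
    rw [mul_left_comm, Finset.mul_sum]
    congr 1
    refine Finset.sum_congr rfl fun k _ => ?_
    rw [harg]
    ring
  have hFI : IntegrableOn F (Ioi 0) := by
    refine hb.mono' hFc.aestronglyMeasurable ?_
    refine (ae_restrict_iff' measurableSet_Ioi).2 (Eventually.of_forall fun t ht => ?_)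
    rw [Real.norm_of_nonneg (hF0 t)]
    exact hle t ht
  have hFint : Integrable F := by
    have h1 : IntegrableOn F (Iic 0) := by
      have h2 := (Measure.measurePreserving_neg (volume : Measure ℝ)).integrableOn_comp_preimage
        (MeasurableEquiv.neg ℝ).measurableEmbedding (f := F) (s := Ici 0)
      have h3 : F ∘ Neg.neg = F := by
        funext t
        exact hFe t
      rw [h3] at h2
      have h4 : (Neg.neg ⁻¹' Ici (0:ℝ)) = Iic 0 := by
        ext t
        simp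
      rw [h4] at h2
      exact h2.2 (Iff.mpr integrableOn_Ici_iff_integrableOn_Ioi hFI)
    have h5 : IntegrableOn F (Iic 0 ∪ Ioi 0) := h1.union hFI
    rwa [Iic_union_Ioi, integrableOn_univ] at h5
  have hFtot : ∫ t, F t = 2 * ∫ t in Ioi (0:ℝ), F t := by
    rw [← integral_comp_abs]
    refine integral_congr_ae (Eventually.of_forall fun t => ?_)
    rcases abs_choice t with h | h
    · simp only [h]
    · simp only [h]
      exact (hFe t).symm
  -- scaling
  have hsc : ∀ u : ℝ, G (Real.pi * T * u) * LW.sw u = F (Real.pi * T * u) := by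
    intro u
    simp only [hF, LW.sw]
    congr 3
    field_simp
  have hne : Real.pi * T ≠ 0 := by positivity
  refine ⟨?_, ?_⟩
  · simp_rw [hsc]
    exact (integrable_comp_mul_left_iff F hne).2 hFint
  · simp_rw [hsc]
    rw [Measure.integral_comp_mul_left F (Real.pi * T), hFtot]
    have h1 : ∫ t in Ioi (0:ℝ), F t ≤ ∫ t in Ioi (0:ℝ), 2 * ∑ k ∈ Finset.range (2 * K + 1), (-1 : ℝ) ^ k *
      (G t * Real.exp (-t / (T / (2 * (k:ℝ) + 1)))) :=
      setIntegral_mono_on hFI hb measurableSet_Ioi hle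
    have h2 : ∫ t in Ioi (0:ℝ), 2 * ∑ k ∈ Finset.range (2 * K + 1), (-1 : ℝ) ^ k *
      (G t * Real.exp (-t / (T / (2 * (k:ℝ) + 1)))) =
      2 * ∑ k ∈ Finset.range (2 * K + 1), (-1 : ℝ) ^ k *
        ((T / (2 * (k:ℝ) + 1)) * LZ.ER (T / (2 * (k:ℝ) + 1)) G) := by
      rw [integral_const_mul, integral_finsetSum _ fun k hk => (hint k hk).const_mul _]
      congr 1
      refine Finset.sum_congr rfl fun k _ => ?_
      rw [integral_const_mul]
      congr 1
      unfold LZ.ER
      have h3 : (T / (2 * (k:ℝ) + 1)) ≠ 0 := by positivity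
      rw [← mul_assoc, mul_inv_cancel₀ h3, one_mul]
    rw [h2] at h1
    rw [abs_inv, abs_of_pos (by positivity : 0 < Real.pi * T), smul_eq_mul]
    calc (Real.pi * T)⁻¹ * (2 * ∫ t in Ioi (0:ℝ), F t)
        ≤ (Real.pi * T)⁻¹ * (2 * (2 * ∑ k ∈ Finset.range (2 * K + 1), (-1 : ℝ) ^ k *
        ((T / (2 * (k:ℝ) + 1)) * LZ.ER (T / (2 * (k:ℝ) + 1)) G))) := by gcongr
      _ = 4 / Real.pi * ∑ k ∈ Finset.range (2 * K + 1), (-1 : ℝ) ^ k / (2 * k + 1) *
        LZ.ER (T / (2 * (k:ℝ) + 1)) G := by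
        rw [← mul_assoc, ← mul_assoc, Finset.mul_sum, Finset.mul_sum]
        refine Finset.sum_congr rfl fun k _ => ?_
        have h3 : (2 * (k:ℝ) + 1) ≠ 0 := by positivity
        field_simp
        ring

/-- 1/cosh x <= 2 sum_{k <= 2K} (-1)^k exp(-(2k+1)x) for x > 0; the sum of 2 (-1)^k/(2k+1) tends to pi/2; V_mean with
kap = 2k+1; u -> -u symmetry (zeta and Mo are real) -/
theorem sech_mean (ε : ℝ) (hε : 0 < ε) : ∃ T0 : ℝ, 2 ≤ T0 ∧ ∀ T : ℝ, T0 ≤ T →
    Integrable (fun u : ℝ => ‖VV (11/10) T (1/2 - 2 / Real.log T + (Real.pi * T * u : ℝ) * I) *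
      Mo (6/25 * Real.log T) (1/2 + (Real.pi * T * u : ℝ) * I)‖ ^ 2 * LW.sw u) ∧
    ∫ u : ℝ, ‖VV (11/10) T (1/2 - 2 / Real.log T + (Real.pi * T * u : ℝ) * I) *
      Mo (6/25 * Real.log T) (1/2 + (Real.pi * T * u : ℝ) * I)‖ ^ 2 * LW.sw u ≤ D0 + ε := by
  have hpi := Real.pi_pos
  have hD0 : 7 < D0 := D0_num.1
  -- choice of K
  obtain ⟨K, hK⟩ : ∃ K : ℕ, 4 / Real.pi * (∑ k ∈ Finset.range (2 * K + 1), (-1 : ℝ) ^ k / (2 * k + 1)) * D0 <
      D0 + ε := by
    have h1 := (Real.tendsto_sum_pi_div_four.const_mul (4 / Real.pi)).mul_const D0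
    have h2 : 4 / Real.pi * (Real.pi / 4) * D0 < D0 + ε := by
      have : 4 / Real.pi * (Real.pi / 4) = 1 := by field_simp
      rw [this]
      linarith
    have h3 := h1.eventually_lt_const h2
    have h4 : Tendsto (fun K : ℕ => 2 * K + 1) atTop atTop :=
      tendsto_atTop_mono (fun K => by show K ≤ 2 * K + 1; omega) tendsto_id
    obtain ⟨K, hK⟩ := (h4.eventually h3).exists
    exact ⟨K, hK⟩
  -- limit of the finite sum
  have hlim : ∀ k : ℕ, Tendsto (fun T : ℝ => LZ.ER (T / (2 * (k:ℝ) + 1)) (C1_G T)) atTop (𝓝 D0) := fun k =>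
    V_mean (2 * (k:ℝ) + 1) (by linarith [Nat.cast_nonneg (α := ℝ) k])
  have hsum : Tendsto (fun T : ℝ => 4 / Real.pi * ∑ k ∈ Finset.range (2 * K + 1), (-1 : ℝ) ^ k / (2 * k + 1) *
        LZ.ER (T / (2 * (k:ℝ) + 1)) (C1_G T)) atTop
      (𝓝 (4 / Real.pi * ∑ k ∈ Finset.range (2 * K + 1), (-1 : ℝ) ^ k / (2 * k + 1) * D0)) := by
    refine Tendsto.const_mul _ ?_
    exact tendsto_finsetSum _ fun k _ => (hlim k).const_mul _
  have hK' : 4 / Real.pi * ∑ k ∈ Finset.range (2 * K + 1), (-1 : ℝ) ^ k / (2 * k + 1) * D0 < D0 + ε := by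
    rw [← Finset.sum_mul, ← mul_assoc]
    exact hK
  have hev1 := hsum.eventually_lt_const hK'
  have hev2 : ∀ᶠ T : ℝ in atTop, ∀ k ∈ Finset.range (2 * K + 1),
      0 < LZ.ER (T / (2 * (k:ℝ) + 1)) (C1_G T) := by
    rw [Filter.eventually_all_finset]
    intro k _
    exact (hlim k).eventually_const_lt (by linarith)
  obtain ⟨T1, hT1⟩ := eventually_atTop.1 (hev1.and hev2)
  refine ⟨max T1 2, le_max_right _ _, fun T hT => ?_⟩
  obtain ⟨h1, h2⟩ := hT1 T ((le_max_left _ _).trans hT)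
  have hT2 : 2 ≤ T := (le_max_right _ _).trans hT
  have hint : ∀ k ∈ Finset.range (2 * K + 1),
      IntegrableOn (fun t => C1_G T t * Real.exp (-t / (T / (2 * (k:ℝ) + 1)))) (Ioi 0) := by
    intro k hk
    by_contra hcon
    have h3 := h2 k hk
    unfold LZ.ER at h3
    rw [integral_undef hcon, mul_zero] at h3
    exact lt_irrefl _ h3
  obtain ⟨h4, h5⟩ := C1_main K (by linarith : 0 < T) (C1_G_cont hT2) (fun t => sq_nonneg _) (C1_G_even T) hint
  exact ⟨h4, h5.trans h1.le⟩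

end LS
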