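import Pool.Agent.Lib.MP_0f5a55_nt.V.V95

open Complex MeasureTheory Set Filter Topology
open scoped ComplexConjugate

namespace LW

theorem D2_nsin_sq (w : ℂ) :
    ‖Complex.sin w‖ ^ 2 = Real.sin w.re ^ 2 + Real.sinh w.im ^ 2 := by
  have h : Complex.sin w = ((Real.sin w.re * Real.cosh w.im : ℝ) : ℂ) +
      ((Real.cos w.re * Real.sinh w.im : ℝ) : ℂ) * I := by
    rw [Complex.sin_eq]
    push_cast
    ring
  rw [← Complex.normSq_eq_norm_sq, h, Complex.normSq_add_mul_I]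
  have h1 := Real.sin_sq_add_cos_sq w.re
  have h2 := Real.cosh_sq w.im
  linear_combination (Real.sin w.re ^ 2) * h2 + (Real.sinh w.im ^ 2) * h1

/-- log ((1+x)/(1-x)) ≥ 2x -/
theorem D2_exp_two_mul_le {x : ℝ} (h0 : 0 ≤ x) (h1 : x ≤ 1) : Real.exp (2 * x) * (1 - x) ≤ 1 + x := by
  rcases h1.eq_or_lt with h | h
  · subst h
    norm_num
  have hx : |x| < 1 := by rwa [abs_of_nonneg h0]
  have hs := Real.hasSum_log_sub_log_of_abs_lt_one hx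
  have h2 : 2 * x ≤ Real.log (1 + x) - Real.log (1 - x) := by
    have h3 := le_hasSum hs 0 (fun k _ => by positivity)
    simpa using h3
  have h3 : 0 < 1 - x := by linarith
  have h4 : 0 < 1 + x := by linarith
  rw [← Real.log_div h4.ne' h3.ne'] at h2
  have h5 := Real.exp_le_exp.2 h2
  rw [Real.exp_log (by positivity)] at h5
  rwa [le_div_iff₀ h3] at h5

/-- weight of a zero, seen from the centre -/
noncomputable def D2_sz (ρ : ℂ) : ℝ := Real.sin (Real.pi * ρ.re) / Real.cosh (Real.pi * ρ.im)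

theorem D2_sz_nonneg {ρ : ℂ} (h0 : 0 < ρ.re) (h1 : ρ.re < 1) : 0 ≤ D2_sz ρ := by
  unfold D2_sz
  have hp := Real.pi_pos
  refine div_nonneg (Real.sin_nonneg_of_nonneg_of_le_pi (by positivity) (by nlinarith)) (Real.cosh_pos _).le

/-- the factor at the centre -/
theorem D2_ib_half {ρ : ℂ} (h0 : 0 < ρ.re) (h1 : ρ.re < 1) :
    Real.exp (2 * D2_sz ρ) * ‖1/2 - ρ‖ ^ 2 ≤ ‖ib ρ (1/2)‖ ^ 2 := by
  by_cases hz : (1/2 : ℂ) = ρ
  · rw [← hz]
    simp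
  rw [ib_eq hz, norm_mul, mul_pow, mul_comm]
  apply mul_le_mul_of_nonneg_left _ (sq_nonneg _)
  have hz' : (1/2 : ℂ) - ρ ≠ 0 := sub_ne_zero.2 hz
  have hp0 := Real.pi_pos
  have hw : (Real.pi * (1/2 - ρ) / 2 : ℂ) ≠ 0 := by
    have hp : (Real.pi : ℂ) ≠ 0 := by exact_mod_cast Real.pi_ne_zero
    exact div_ne_zero (mul_ne_zero hp hz') two_ne_zero
  have e1 : (Real.pi * (1/2 - ρ) / 2 : ℂ) = ((Real.pi / 2 : ℝ) : ℂ) * (1/2 - ρ) := by
    push_cast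
    ring
  have e2 : (Real.pi * (1/2 + conj ρ) / 2 : ℂ) = ((Real.pi / 2 : ℝ) : ℂ) * (1/2 + conj ρ) := by
    push_cast
    ring
  have h12 : (1/2 : ℂ).re = 1/2 := by norm_num
  have h12' : (1/2 : ℂ).im = 0 := by norm_num
  have r1 : (Real.pi * (1/2 - ρ) / 2 : ℂ).re = Real.pi * (1/2 - ρ.re) / 2 := by
    rw [e1, Complex.re_ofReal_mul, Complex.sub_re, h12]
    ring
  have i1 : (Real.pi * (1/2 - ρ) / 2 : ℂ).im = -(Real.pi * ρ.im / 2) := by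
    rw [e1, Complex.im_ofReal_mul, Complex.sub_im, h12']
    ring
  have r2 : (Real.pi * (1/2 + conj ρ) / 2 : ℂ).re = Real.pi * (1/2 + ρ.re) / 2 := by
    rw [e2, Complex.re_ofReal_mul, Complex.add_re, Complex.conj_re, h12]
    ring
  have i2 : (Real.pi * (1/2 + conj ρ) / 2 : ℂ).im = -(Real.pi * ρ.im / 2) := by
    rw [e2, Complex.im_ofReal_mul, Complex.add_im, Complex.conj_im, h12']
    ring
  have hs : Complex.sin (Real.pi * (1/2 - ρ) / 2) ≠ 0 := by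
    rw [← sn_mul]
    refine mul_ne_zero hw (sn_ne ?_)
    rw [r1, abs_lt]
    constructor <;> nlinarith
  have hA := D2_nsin_sq (Real.pi * (1/2 + conj ρ) / 2)
  have hB := D2_nsin_sq (Real.pi * (1/2 - ρ) / 2)
  rw [r2, i2] at hA
  rw [r1, i1] at hB
  set C : ℝ := Real.cosh (Real.pi * ρ.im) with hC
  set S : ℝ := Real.sin (Real.pi * ρ.re) with hS
  have hsh : Real.sinh (-(Real.pi * ρ.im / 2)) ^ 2 = (C - 1) / 2 := by
    have e1 : Real.pi * ρ.im = 2 * (Real.pi * ρ.im / 2) := by ring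
    rw [hC, e1, Real.cosh_two_mul, Real.sinh_neg, Real.cosh_sq]
    ring_nf
  have hs1 : Real.sin (Real.pi * (1/2 + ρ.re) / 2) ^ 2 = (1 + S) / 2 := by
    rw [Real.sin_sq_eq_half_sub]
    have e1 : 2 * (Real.pi * (1/2 + ρ.re) / 2) = Real.pi * ρ.re + Real.pi / 2 := by ring
    rw [e1, Real.cos_add_pi_div_two]
    ring
  have hs2 : Real.sin (Real.pi * (1/2 - ρ.re) / 2) ^ 2 = (1 - S) / 2 := by
    rw [Real.sin_sq_eq_half_sub]
    have e1 : 2 * (Real.pi * (1/2 - ρ.re) / 2) = Real.pi / 2 - Real.pi * ρ.re := by ring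
    rw [e1, Real.cos_pi_div_two_sub]
    ring
  rw [hsh, hs1] at hA
  rw [hsh, hs2] at hB
  have hpos : 0 < ‖Complex.sin (Real.pi * (1/2 - ρ) / 2)‖ ^ 2 := by positivity
  rw [norm_div, div_pow, le_div_iff₀ hpos, hA, hB]
  have hC1 : 1 ≤ C := Real.one_le_cosh _
  have hS0 : 0 ≤ S := Real.sin_nonneg_of_nonneg_of_le_pi (by positivity) (by nlinarith)
  have hS1 : S ≤ 1 := Real.sin_le_one _
  have hx0 : 0 ≤ S / C := by positivity
  have hx1 : S / C ≤ 1 := by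
    rw [div_le_one (by linarith)]
    linarith
  have key := D2_exp_two_mul_le hx0 hx1
  have hsz : D2_sz ρ = S / C := rfl
  rw [hsz]
  have h3 := mul_le_mul_of_nonneg_right key (show 0 ≤ C by linarith)
  have h4 : (1 - S / C) * C = C - S := by field_simp
  have h5 : (1 + S / C) * C = C + S := by field_simp
  rw [mul_assoc, h4, h5] at h3
  linarith

/-- Blaschke division, all zeros in the open strip -/
theorem D2_strip_H {f : ℂ → ℂ} {η K : ℝ} (hη : 0 < η)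
    (hf : DifferentiableOn ℂ f {z : ℂ | -η < z.re ∧ z.re < 1 + η})
    (hb : ∀ z : ℂ, 0 ≤ z.re → z.re ≤ 1 → ‖f z‖ ≤ K * Real.exp (|z.im| / 2))
    (A : Finset ℂ) (μ : ℂ → ℕ) (hA : ∀ ρ ∈ A, 0 < ρ.re ∧ ρ.re < 1)
    (hμ : ∀ ρ ∈ A, (μ ρ : ℕ∞) ≤ analyticOrderAt f ρ) :
    ∃ (H : ℂ → ℂ) (K' : ℝ), (∀ z : ℂ, 0 ≤ z.re → z.re ≤ 1 → DifferentiableAt ℂ H z) ∧
      (∀ z : ℂ, 0 ≤ z.re → z.re ≤ 1 → ‖H z‖ ≤ K' * Real.exp (|z.im| / 2)) ∧
      (∀ u : ℝ, ‖H (u * I)‖ = ‖f (u * I)‖) ∧ (∀ u : ℝ, ‖H (1 + u * I)‖ = ‖f (1 + u * I)‖) ∧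
      ‖f (1/2)‖ ^ 2 * Real.exp (2 * ∑ ρ ∈ A, (μ ρ : ℝ) * D2_sz ρ) ≤ ‖H (1/2)‖ ^ 2 := by
  have hU : IsOpen {z : ℂ | -η < z.re ∧ z.re < 1 + η} :=
    (isOpen_lt continuous_const Complex.continuous_re).inter
      (isOpen_lt Complex.continuous_re continuous_const)
  have hAU : ∀ ρ ∈ A, ρ ∈ {z : ℂ | -η < z.re ∧ z.re < 1 + η} := by
    intro ρ hρ
    obtain ⟨h1, h2⟩ := hA ρ hρ
    exact ⟨by linarith, by linarith⟩
  obtain ⟨g, hg, hfg⟩ := factor_zeros hU hf A μ hAU hμ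
  have hin : ∀ z : ℂ, 0 ≤ z.re → z.re ≤ 1 → z ∈ {z : ℂ | -η < z.re ∧ z.re < 1 + η} := by
    intro z h1 h2
    exact ⟨by linarith, by linarith⟩
  have hdiff : ∀ z : ℂ, 0 ≤ z.re → z.re ≤ 1 →
      DifferentiableAt ℂ (fun z => (∏ ρ ∈ A, (ib ρ z) ^ μ ρ) * g z) z := by
    intro z h1 h2
    refine DifferentiableAt.mul ?_ (hg.differentiableAt (hU.mem_nhds (hin z h1 h2)))
    refine DifferentiableAt.fun_finsetProd fun ρ hρ => ?_
    obtain ⟨h3, h4⟩ := hA ρ hρ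
    exact (ib_diff h3 h4 h1 h2).pow _
  have hnf : ∀ z : ℂ, 0 ≤ z.re → z.re ≤ 1 →
      ‖f z‖ = (∏ ρ ∈ A, ‖z - ρ‖ ^ μ ρ) * ‖g z‖ := by
    intro z h1 h2
    rw [hfg z (hin z h1 h2), norm_mul, norm_prod]
    simp only [norm_pow]
  have hnH : ∀ z : ℂ, ‖(∏ ρ ∈ A, (ib ρ z) ^ μ ρ) * g z‖ = (∏ ρ ∈ A, ‖ib ρ z‖ ^ μ ρ) * ‖g z‖ := by
    intro z
    rw [norm_mul, norm_prod]
    simp only [norm_pow]
  -- bound of the imaginary parts
  obtain ⟨D, hD0, hD⟩ : ∃ D : ℝ, 0 ≤ D ∧ ∀ ρ ∈ A, |ρ.im| ≤ D := by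
    refine ⟨∑ ρ ∈ A, |ρ.im|, Finset.sum_nonneg fun _ _ => abs_nonneg _, fun ρ hρ => ?_⟩
    exact Finset.single_le_sum (f := fun ρ : ℂ => |ρ.im|) (fun _ _ => abs_nonneg _) hρ
  have hcpt : IsCompact (Icc (0:ℝ) 1 ×ℂ Icc (-(D+2):ℝ) (D+2)) := isCompact_Icc.reProdIm isCompact_Icc
  have hcont : ContinuousOn (fun z => (∏ ρ ∈ A, (ib ρ z) ^ μ ρ) * g z)
      (Icc (0:ℝ) 1 ×ℂ Icc (-(D+2):ℝ) (D+2)) := by
    intro z hz
    obtain ⟨h1, h2⟩ := Complex.mem_reProdIm.1 hz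
    exact (hdiff z h1.1 h1.2).continuousAt.continuousWithinAt
  obtain ⟨B, hB⟩ := hcpt.exists_bound_of_continuousOn hcont
  refine ⟨fun z => (∏ ρ ∈ A, (ib ρ z) ^ μ ρ) * g z, (∏ ρ ∈ A, (2:ℝ) ^ μ ρ) * |K| + |B|, hdiff,
    ?_, ?_, ?_, ?_⟩
  · intro z h1 h2
    have hexp : (1:ℝ) ≤ Real.exp (|z.im| / 2) := Real.one_le_exp (by positivity)
    have hP : (0:ℝ) ≤ ∏ ρ ∈ A, (2:ℝ) ^ μ ρ := Finset.prod_nonneg fun _ _ => by positivity
    rcases le_or_gt |z.im| (D+2) with h3 | h3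
    · have h4 := hB z (Complex.mem_reProdIm.2 ⟨⟨h1, h2⟩, abs_le.1 h3⟩)
      calc _ ≤ B := h4
        _ ≤ |B| * 1 := by rw [mul_one]; exact le_abs_self B
        _ ≤ |B| * Real.exp (|z.im| / 2) := mul_le_mul_of_nonneg_left hexp (abs_nonneg B)
        _ ≤ ((∏ ρ ∈ A, (2:ℝ) ^ μ ρ) * |K| + |B|) * Real.exp (|z.im| / 2) := by
            apply mul_le_mul_of_nonneg_right _ (by positivity)
            have : 0 ≤ (∏ ρ ∈ A, (2:ℝ) ^ μ ρ) * |K| := mul_nonneg hP (abs_nonneg K)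
            linarith
    · rw [hnH]
      have h5 : (∏ ρ ∈ A, ‖ib ρ z‖ ^ μ ρ) ≤ ∏ ρ ∈ A, ((2:ℝ) ^ μ ρ * ‖z - ρ‖ ^ μ ρ) := by
        refine Finset.prod_le_prod (fun _ _ => by positivity) fun ρ hρ => ?_
        rw [← mul_pow]
        refine pow_le_pow_left₀ (norm_nonneg _) (ib_far ?_) _
        have h6 := hD ρ hρ
        have h7 : |z.im| ≤ |z.im - ρ.im| + |ρ.im| := by
          have := abs_add_le (z.im - ρ.im) ρ.im
          rwa [sub_add_cancel] at this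
        linarith
      rw [Finset.prod_mul_distrib] at h5
      calc (∏ ρ ∈ A, ‖ib ρ z‖ ^ μ ρ) * ‖g z‖
          ≤ ((∏ ρ ∈ A, (2:ℝ) ^ μ ρ) * ∏ ρ ∈ A, ‖z - ρ‖ ^ μ ρ) * ‖g z‖ :=
            mul_le_mul_of_nonneg_right h5 (norm_nonneg _)
        _ = (∏ ρ ∈ A, (2:ℝ) ^ μ ρ) * ‖f z‖ := by rw [hnf z h1 h2]; ring
        _ ≤ (∏ ρ ∈ A, (2:ℝ) ^ μ ρ) * (|K| * Real.exp (|z.im| / 2)) := by
            apply mul_le_mul_of_nonneg_left _ hP
            exact (hb z h1 h2).trans (mul_le_mul_of_nonneg_right (le_abs_self K) (by positivity))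
        _ ≤ ((∏ ρ ∈ A, (2:ℝ) ^ μ ρ) * |K| + |B|) * Real.exp (|z.im| / 2) := by
            have : 0 ≤ |B| * Real.exp (|z.im| / 2) := by positivity
            linarith
  · intro u
    have h1 : (0:ℝ) ≤ ((u:ℂ) * I).re := by simp
    have h2 : ((u:ℂ) * I).re ≤ 1 := by simp
    show ‖(∏ ρ ∈ A, (ib ρ (u * I)) ^ μ ρ) * g (u * I)‖ = ‖f (u * I)‖
    rw [hnH, hnf _ h1 h2]
    congr 1
    refine Finset.prod_congr rfl fun ρ hρ => ?_
    obtain ⟨h3, h4⟩ := hA ρ hρ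
    rw [ib_left h3 h4 u]
  · intro u
    have h1 : (0:ℝ) ≤ (1 + (u:ℂ) * I).re := by simp
    have h2 : (1 + (u:ℂ) * I).re ≤ 1 := by simp
    show ‖(∏ ρ ∈ A, (ib ρ (1 + u * I)) ^ μ ρ) * g (1 + u * I)‖ = ‖f (1 + u * I)‖
    rw [hnH, hnf _ h1 h2]
    congr 1
    refine Finset.prod_congr rfl fun ρ hρ => ?_
    obtain ⟨h3, h4⟩ := hA ρ hρ
    rw [ib_right h3 h4 u]
  · have h1 : (0:ℝ) ≤ ((1:ℂ) / 2).re := by norm_num
    have h2 : ((1:ℂ) / 2).re ≤ 1 := by norm_num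
    show ‖f (1/2)‖ ^ 2 * Real.exp (2 * ∑ ρ ∈ A, (μ ρ : ℝ) * D2_sz ρ) ≤
      ‖(∏ ρ ∈ A, (ib ρ (1/2)) ^ μ ρ) * g (1/2)‖ ^ 2
    have hex : Real.exp (2 * ∑ ρ ∈ A, (μ ρ : ℝ) * D2_sz ρ) = ∏ ρ ∈ A, Real.exp (2 * D2_sz ρ) ^ μ ρ := by
      rw [Finset.mul_sum, Real.exp_sum]
      refine Finset.prod_congr rfl fun ρ _ => ?_
      rw [← Real.exp_nat_mul]
      congr 1
      ring
    rw [hex, hnH, hnf _ h1 h2, mul_pow, mul_pow, ← Finset.prod_pow, ← Finset.prod_pow,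
      mul_right_comm, ← Finset.prod_mul_distrib]
    apply mul_le_mul_of_nonneg_right _ (by positivity)
    refine Finset.prod_le_prod (fun ρ hρ => by positivity) fun ρ hρ => ?_
    obtain ⟨h3, h4⟩ := hA ρ hρ
    have h6 := D2_ib_half h3 h4
    rw [← pow_mul, ← pow_mul, mul_comm (μ ρ) 2, pow_mul, pow_mul, ← mul_pow]
    refine pow_le_pow_left₀ (by positivity) ?_ _
    rw [mul_comm]
    exact h6

/-- integrability on both sides of the strip -/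
theorem D2_int_left {h : ℂ → ℂ} {K : ℝ}
    (hd : ∀ z : ℂ, 0 ≤ z.re → z.re ≤ 1 → DifferentiableAt ℂ h z)
    (hb : ∀ z : ℂ, 0 ≤ z.re → z.re ≤ 1 → ‖h z‖ ≤ K * Real.exp (|z.im| / 2)) :
    Integrable fun u : ℝ => ‖h (u * I)‖ ^ 2 * sw u := by
  have c0 := W07_cont (x := 0) le_rfl zero_le_one hd
  have b0 := W07_bd (x := 0) le_rfl zero_le_one hb
  simp only [ofReal_zero, zero_add] at c0 b0
  have h1 := W07_int (φ := fun u : ℝ => ‖h (u * I)‖ ^ 2) (C := K ^ 2) (c0.norm.pow 2) (fun u => by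
      rw [Real.norm_eq_abs, abs_of_nonneg (by positivity)]
      exact b0 u)
  refine h1.congr ?_
  filter_upwards with u
  simp only [smul_eq_mul]
  ring

theorem D2_int_right {h : ℂ → ℂ} {K : ℝ}
    (hd : ∀ z : ℂ, 0 ≤ z.re → z.re ≤ 1 → DifferentiableAt ℂ h z)
    (hb : ∀ z : ℂ, 0 ≤ z.re → z.re ≤ 1 → ‖h z‖ ≤ K * Real.exp (|z.im| / 2)) :
    Integrable fun u : ℝ => ‖h (1 + u * I)‖ ^ 2 * sw u := by
  have c0 := W07_cont (x := 1) zero_le_one le_rfl hd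
  have b0 := W07_bd (x := 1) zero_le_one le_rfl hb
  simp only [ofReal_one] at c0 b0
  have h1 := W07_int (φ := fun u : ℝ => ‖h (1 + u * I)‖ ^ 2) (C := K ^ 2) (c0.norm.pow 2) (fun u => by
      rw [Real.norm_eq_abs, abs_of_nonneg (by positivity)]
      exact b0 u)
  refine h1.congr ?_
  filter_upwards with u
  simp only [smul_eq_mul]
  ring

/-- sharp Jensen inequality for the strip -/
theorem strip_kappa {f : ℂ → ℂ} {η K : ℝ} (κ : ℝ) (hη : 0 < η)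
    (hf : DifferentiableOn ℂ f {z : ℂ | -η < z.re ∧ z.re < 1 + η})
    (hb : ∀ z : ℂ, 0 ≤ z.re → z.re ≤ 1 → ‖f z‖ ≤ K * Real.exp (|z.im| / 2))
    (A : Finset ℂ) (μ : ℂ → ℕ) (hA : ∀ ρ ∈ A, 0 < ρ.re ∧ ρ.re < 1)
    (hμ : ∀ ρ ∈ A, (μ ρ : ℕ∞) ≤ analyticOrderAt f ρ) :
    ‖f (1/2)‖ ^ 2 * Real.exp (2 * ∑ ρ ∈ A, (μ ρ : ℝ) * D2_sz ρ) ≤
      2⁻¹ * (Real.exp (-κ) * (∫ u : ℝ, ‖f (u * I)‖ ^ 2 * sw u) +
        Real.exp κ * (∫ u : ℝ, ‖f (1 + u * I)‖ ^ 2 * sw u)) := by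
  obtain ⟨H, K', hd, hbH, hl, hr, hm⟩ := D2_strip_H hη hf hb A μ hA hμ
  have hre : ∀ z : ℂ, (2 * (κ : ℂ) * (z - 1/2)).re = 2 * κ * (z.re - 1/2) := by
    intro z
    have e : (2 * (κ : ℂ) * (z - 1/2)) = ((2 * κ : ℝ) : ℂ) * (z - 1/2) := by
      push_cast
      ring
    rw [e, Complex.re_ofReal_mul, Complex.sub_re]
    norm_num
  have hmean := strip_mean (g := fun z => H z ^ 2 * Complex.exp (2 * κ * (z - 1/2)))
    (K := K' ^ 2 * Real.exp |κ|)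
    (fun z h0 h1 => ((hd z h0 h1).pow 2).mul (by fun_prop)) (fun z h0 h1 => by
      rw [norm_mul, norm_pow, Complex.norm_exp, hre]
      have h2 := hbH z h0 h1
      have h3 : Real.exp (2 * κ * (z.re - 1/2)) ≤ Real.exp |κ| := by
        apply Real.exp_le_exp.2
        have h4 : |2 * κ * (z.re - 1/2)| ≤ |κ| := by
          have h5 : |z.re - 1/2| ≤ 1/2 := by
            rw [abs_le]
            constructor <;> linarith
          rw [abs_mul, abs_mul, abs_two]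
          have := abs_nonneg κ
          nlinarith
        exact (le_abs_self _).trans h4
      calc ‖H z‖ ^ 2 * Real.exp (2 * κ * (z.re - 1/2))
          ≤ (K' * Real.exp (|z.im| / 2)) ^ 2 * Real.exp |κ| := by gcongr
        _ = K' ^ 2 * Real.exp |κ| * Real.exp |z.im| := by
          rw [mul_pow, ← Real.exp_nat_mul]
          have e : ((2 : ℕ) : ℝ) * (|z.im| / 2) = |z.im| := by
            push_cast
            ring
          rw [e]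
          ring)
  have hdf := W07_diff hη hf
  have i0 := D2_int_left hdf hb
  have i1 := D2_int_right hdf hb
  have h1 : ‖H (1 / 2)‖ ^ 2 ≤ 2⁻¹ * ∫ u : ℝ, (Real.exp (-κ) * (‖f (u * I)‖ ^ 2 * sw u) +
      Real.exp κ * (‖f (1 + u * I)‖ ^ 2 * sw u)) := by
    have e0 : H (1/2) ^ 2 = H (1/2) ^ 2 * Complex.exp (2 * κ * (1/2 - 1/2)) := by
      rw [sub_self, mul_zero, Complex.exp_zero, mul_one]
    rw [← norm_pow, e0, hmean, norm_mul]
    have h2 : ‖(2⁻¹ : ℂ)‖ = 2⁻¹ := by simp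
    rw [h2]
    apply mul_le_mul_of_nonneg_left _ (by norm_num)
    refine (norm_integral_le_integral_norm _).trans ?_
    apply integral_mono_of_nonneg
    · filter_upwards with u
      exact norm_nonneg _
    · exact (i0.const_mul _).add (i1.const_mul _)
    · filter_upwards with u
      rw [norm_mul, Complex.norm_real, Real.norm_eq_abs, abs_of_pos (sw_pos u)]
      have h3 : ‖H (u * I) ^ 2 * Complex.exp (2 * κ * (u * I - 1/2)) +
          H (1 + u * I) ^ 2 * Complex.exp (2 * κ * (1 + u * I - 1/2))‖ ≤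
          Real.exp (-κ) * ‖f (u * I)‖ ^ 2 + Real.exp κ * ‖f (1 + u * I)‖ ^ 2 := by
        refine (norm_add_le _ _).trans (le_of_eq ?_)
        rw [norm_mul, norm_mul, norm_pow, norm_pow, hl, hr, Complex.norm_exp, Complex.norm_exp, hre, hre]
        have r0 : ((u : ℂ) * I).re = 0 := by simp
        have r1 : (1 + (u : ℂ) * I).re = 1 := by simp
        rw [r0, r1]
        have e1 : 2 * κ * (0 - 1/2) = -κ := by ring
        have e2 : 2 * κ * (1 - 1/2) = κ := by ring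
        rw [e1, e2]
        ring
      calc _ ≤ (Real.exp (-κ) * ‖f (u * I)‖ ^ 2 + Real.exp κ * ‖f (1 + u * I)‖ ^ 2) * sw u :=
            mul_le_mul_of_nonneg_right h3 (sw_pos u).le
        _ = _ := by ring
  rw [integral_add (i0.const_mul _) (i1.const_mul _), integral_const_mul, integral_const_mul] at h1
  exact hm.trans h1


/-- sharp form of strip_H / strip_zeros (V95): the Blaschke factor at 1/2 is (1-s)/(1+s) with
s = sin(pi x)/cosh(pi v), (1+s)/(1-s) >= exp(2s); apply strip_mean to (H(z) exp(a (z - 1/2)))^2 with exp(2a) = P/Q -/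
theorem strip_sharp {f : ℂ → ℂ} {η K : ℝ} (hη : 0 < η)
    (hf : DifferentiableOn ℂ f {z : ℂ | -η < z.re ∧ z.re < 1 + η})
    (hb : ∀ z : ℂ, 0 ≤ z.re → z.re ≤ 1 → ‖f z‖ ≤ K * Real.exp (|z.im| / 2))
    (A : Finset ℂ) (μ : ℂ → ℕ) (hA : ∀ ρ ∈ A, 0 < ρ.re ∧ ρ.re ≤ 1/4)
    (hμ : ∀ ρ ∈ A, (μ ρ : ℕ∞) ≤ analyticOrderAt f ρ) {P Q : ℝ} (hP : 0 < P) (hQ : 0 < Q)
    (hL : ∫ u : ℝ, ‖f (u * I)‖ ^ 2 * sw u ≤ P) (hR : ∫ u : ℝ, ‖f (1 + u * I)‖ ^ 2 * sw u ≤ Q) :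
    ‖f (1/2)‖ ^ 4 * Real.exp (4 * ∑ ρ ∈ A, (μ ρ : ℝ) * (Real.sin (Real.pi * ρ.re) / Real.cosh (Real.pi * ρ.im))) ≤
      P * Q := by
  have h1 := strip_kappa (Real.log (P / Q) / 2) hη hf hb A μ
    (fun ρ hρ => ⟨(hA ρ hρ).1, by linarith [(hA ρ hρ).2]⟩) hμ
  set S : ℝ := ∑ ρ ∈ A, (μ ρ : ℝ) * D2_sz ρ with hS
  have hS' : ∑ ρ ∈ A, (μ ρ : ℝ) * (Real.sin (Real.pi * ρ.re) / Real.cosh (Real.pi * ρ.im)) = S := rfl
  rw [hS']
  have hPQ : 0 < P / Q := div_pos hP hQ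
  set κ : ℝ := Real.log (P / Q) / 2 with hκ
  have e1 : Real.exp κ * Real.exp κ = P / Q := by
    rw [← Real.exp_add, hκ, add_halves, Real.exp_log hPQ]
  have e2 : Real.exp (-κ) * Real.exp κ = 1 := by
    rw [← Real.exp_add, neg_add_cancel, Real.exp_zero]
  have hk := Real.exp_pos κ
  have hk' := Real.exp_pos (-κ)
  have e3 : Real.exp (-κ) * P = Real.exp κ * Q := by
    have e4 : P = P / Q * Q := by field_simp
    rw [e4, ← e1]
    calc Real.exp (-κ) * (Real.exp κ * Real.exp κ * Q) = (Real.exp (-κ) * Real.exp κ) * (Real.exp κ * Q) := by ring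
      _ = _ := by rw [e2, one_mul]
  have h2 : ‖f (1/2)‖ ^ 2 * Real.exp (2 * S) ≤ Real.exp κ * Q := by
    refine h1.trans ?_
    have h3 := mul_le_mul_of_nonneg_left hL hk'.le
    have h4 := mul_le_mul_of_nonneg_left hR hk.le
    linarith
  have h3 : (‖f (1/2)‖ ^ 2 * Real.exp (2 * S)) ^ 2 ≤ (Real.exp κ * Q) ^ 2 :=
    pow_le_pow_left₀ (by positivity) h2 2
  have e5 : (Real.exp κ * Q) ^ 2 = P * Q := by
    calc (Real.exp κ * Q) ^ 2 = (Real.exp κ * Real.exp κ) * Q ^ 2 := by ring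
      _ = P / Q * Q ^ 2 := by rw [e1]
      _ = P * Q := by field_simp
  have e6 : (‖f (1/2)‖ ^ 2 * Real.exp (2 * S)) ^ 2 = ‖f (1/2)‖ ^ 4 * Real.exp (4 * S) := by
    have e7 : Real.exp (2 * S) ^ 2 = Real.exp (4 * S) := by
      rw [← Real.exp_nat_mul]
      congr 1
      push_cast
      ring
    rw [mul_pow, e7, ← pow_mul]
  rw [e5, e6] at h3
  exact h3

end LW
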