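import Pool.Agent.Lib.MP_0f5a55_nt.V.V96
import Pool.Agent.Lib.MP_0f5a55_nt.V.V97
import Pool.Agent.Lib.MP_0f5a55_nt.S.C1
import Pool.Agent.Lib.MP_0f5a55_nt.S.D2

open Complex MeasureTheory Set Filter Topology
open scoped ComplexConjugate

namespace LS.D3

open LW


/-- entire function equal to (s-1) zeta(s) for s ≠ 1 -/
noncomputable def EZ (s : ℂ) : ℂ := LW.El (1 : DirichletCharacter ℂ 1) s

theorem EZ_diff : Differentiable ℂ EZ := LW.El_diff _

theorem EZ_eq {s : ℂ} (hs : s ≠ 1) : EZ s = (s - 1) * riemannZeta s := by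
  have h := LW.El_eq (1 : DirichletCharacter ℂ 1) hs
  unfold LX.Lf at h
  rw [DirichletCharacter.LFunction_modOne_eq] at h
  exact h

/-- entire function equal to (s-1)^2 (zeta + m zeta') for s ≠ 1 -/
noncomputable def WZ (m : ℝ) (s : ℂ) : ℂ := (s - 1) * EZ s + (m : ℂ) * ((s - 1) * deriv EZ s - EZ s)

theorem WZ_diff (m : ℝ) : Differentiable ℂ (WZ m) := by
  unfold WZ
  have h1 := EZ_diff
  have h2 := EZ_diff.deriv
  fun_prop

theorem WZ_eq (m : ℝ) {s : ℂ} (hs : s ≠ 1) :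
    WZ m s = (s - 1) ^ 2 * (riemannZeta s + (m : ℂ) * deriv riemannZeta s) := by
  have h1 : EZ =ᶠ[𝓝 s] fun z => (z - 1) * riemannZeta z := by
    filter_upwards [isOpen_compl_singleton.mem_nhds hs] with z hz
    exact EZ_eq hz
  have h2 : deriv EZ s = riemannZeta s + (s - 1) * deriv riemannZeta s := by
    rw [h1.deriv_eq]
    have h3 : HasDerivAt (fun z : ℂ => z - 1) 1 s := (hasDerivAt_id s).sub_const 1
    have h4 := h3.mul (differentiableAt_riemannZeta hs).hasDerivAt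
    have h5 : HasDerivAt (fun z => (z - 1) * riemannZeta z)
        (1 * riemannZeta s + (s - 1) * deriv riemannZeta s) s := h4
    rw [h5.deriv, one_mul]
  unfold WZ
  rw [h2, EZ_eq hs]
  ring

theorem EZ_growth : ∃ C : ℝ, 0 < C ∧ ∀ s : ℂ, 5/16 ≤ s.re → ‖EZ s‖ ≤ C * (1 + ‖s‖) ^ 2 := by
  obtain ⟨C, hC, hz⟩ := LZ.zeta_pol
  have hK : IsCompact (Metric.closedBall (1 : ℂ) (1/4)) := isCompact_closedBall _ _
  obtain ⟨B, hB⟩ := hK.exists_bound_of_continuousOn EZ_diff.continuous.continuousOn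
  refine ⟨C + |B|, by positivity, fun s hs => ?_⟩
  have hn := norm_nonneg s
  have hone : (1 : ℝ) ≤ (1 + ‖s‖) ^ 2 := by nlinarith
  by_cases h : 1/4 ≤ ‖s - 1‖
  · have hs1 : s ≠ 1 := by
      rintro rfl
      rw [sub_self, norm_zero] at h
      norm_num at h
    rw [EZ_eq hs1, norm_mul]
    have h2 := hz s hs h
    have h3 : ‖s - 1‖ ≤ 1 + ‖s‖ := by
      have := norm_sub_le s 1
      rw [norm_one] at this
      linarith
    have h4 : |s.im| ≤ ‖s‖ := Complex.abs_im_le_norm s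
    calc ‖s - 1‖ * ‖riemannZeta s‖ ≤ (1 + ‖s‖) * (C * (1 + |s.im|)) :=
          mul_le_mul h3 h2 (norm_nonneg _) (by linarith)
      _ ≤ (1 + ‖s‖) * (C * (1 + ‖s‖)) := by gcongr
      _ = C * (1 + ‖s‖) ^ 2 := by ring
      _ ≤ (C + |B|) * (1 + ‖s‖) ^ 2 := by
          apply mul_le_mul_of_nonneg_right _ (by positivity)
          linarith [abs_nonneg B]
  · push Not at h
    have h2 : ‖EZ s‖ ≤ B := hB s (by rw [Metric.mem_closedBall, dist_eq_norm]; exact h.le)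
    calc ‖EZ s‖ ≤ |B| := h2.trans (le_abs_self B)
      _ ≤ C + |B| := by linarith
      _ ≤ (C + |B|) * (1 + ‖s‖) ^ 2 := le_mul_of_one_le_right (by positivity) hone

theorem EZ'_growth : ∃ C : ℝ, 0 < C ∧ ∀ s : ℂ, 3/8 ≤ s.re → ‖deriv EZ s‖ ≤ C * (1 + ‖s‖) ^ 2 := by
  obtain ⟨C, hC, hE⟩ := EZ_growth
  refine ⟨64 * C, by positivity, fun s hs => ?_⟩
  have hn := norm_nonneg s
  have h1 : ∀ z ∈ Metric.sphere s (1/16), ‖EZ z‖ ≤ 4 * C * (1 + ‖s‖) ^ 2 := by
    intro z hz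
    rw [mem_sphere_iff_norm] at hz
    have h2 : |(z - s).re| ≤ 1/16 := (Complex.abs_re_le_norm _).trans hz.le
    rw [Complex.sub_re] at h2
    have h3 := (abs_le.1 h2).1
    have h4 : ‖z‖ ≤ ‖s‖ + 1/16 := by
      have h5 : z = s + (z - s) := by ring
      rw [h5]
      exact (norm_add_le _ _).trans (by linarith)
    have h5 : 1 + ‖z‖ ≤ 2 * (1 + ‖s‖) := by linarith
    calc ‖EZ z‖ ≤ C * (1 + ‖z‖) ^ 2 := hE z (by linarith)
      _ ≤ C * (2 * (1 + ‖s‖)) ^ 2 := by gcongr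
      _ = 4 * C * (1 + ‖s‖) ^ 2 := by ring
  have h2 := Complex.norm_deriv_le_of_forall_mem_sphere_norm_le (by norm_num : (0:ℝ) < 1/16)
    EZ_diff.diffContOnCl h1
  calc ‖deriv EZ s‖ ≤ 4 * C * (1 + ‖s‖) ^ 2 / (1/16) := h2
    _ = 64 * C * (1 + ‖s‖) ^ 2 := by ring

theorem WZ_growth (m : ℝ) : ∃ C : ℝ, 0 < C ∧ ∀ s : ℂ, 3/8 ≤ s.re → ‖WZ m s‖ ≤ C * (1 + ‖s‖) ^ 3 := by
  obtain ⟨C, hC, hE⟩ := EZ_growth
  obtain ⟨C', hC', hE'⟩ := EZ'_growth
  refine ⟨C + |m| * (C' + C), by positivity, fun s hs => ?_⟩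
  have hn := norm_nonneg s
  have h1 := hE s (by linarith)
  have h2 := hE' s hs
  have h3 : ‖s - 1‖ ≤ 1 + ‖s‖ := by
    have := norm_sub_le s 1
    rw [norm_one] at this
    linarith
  have h4 : ‖(s - 1) * EZ s‖ ≤ C * (1 + ‖s‖) ^ 3 := by
    rw [norm_mul]
    calc ‖s - 1‖ * ‖EZ s‖ ≤ (1 + ‖s‖) * (C * (1 + ‖s‖) ^ 2) := mul_le_mul h3 h1 (norm_nonneg _) (by linarith)
      _ = _ := by ring
  have h5 : ‖(s - 1) * deriv EZ s‖ ≤ C' * (1 + ‖s‖) ^ 3 := by
    rw [norm_mul]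
    calc ‖s - 1‖ * ‖deriv EZ s‖ ≤ (1 + ‖s‖) * (C' * (1 + ‖s‖) ^ 2) := mul_le_mul h3 h2 (norm_nonneg _) (by linarith)
      _ = _ := by ring
  have h6 : ‖EZ s‖ ≤ C * (1 + ‖s‖) ^ 3 := by
    refine h1.trans ?_
    have : (1 + ‖s‖) ^ 2 ≤ (1 + ‖s‖) ^ 3 := pow_le_pow_right₀ (by linarith) (by norm_num)
    gcongr
  unfold WZ
  calc ‖(s - 1) * EZ s + (m : ℂ) * ((s - 1) * deriv EZ s - EZ s)‖
      ≤ ‖(s - 1) * EZ s‖ + |m| * (‖(s - 1) * deriv EZ s‖ + ‖EZ s‖) := by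
        refine (norm_add_le _ _).trans ?_
        rw [norm_mul (m : ℂ), Complex.norm_real, Real.norm_eq_abs]
        gcongr
        exact norm_sub_le _ _
    _ ≤ C * (1 + ‖s‖) ^ 3 + |m| * (C' * (1 + ‖s‖) ^ 3 + C * (1 + ‖s‖) ^ 3) := by gcongr
    _ = _ := by ring

/-- the entire function for Jensen (up to the denominator) -/
noncomputable def FZ (m : ℝ) (M : ℂ → ℂ) (s : ℂ) : ℂ := WZ m s * M s / (s + 1) ^ 2

theorem den_ne {s : ℂ} (hs : -1 < s.re) : s + 1 ≠ 0 := by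
  intro h
  have h1 := congrArg Complex.re h
  simp at h1
  linarith

theorem FZ_diff (m : ℝ) {M : ℂ → ℂ} (hM : Differentiable ℂ M) {s : ℂ} (hs : -1 < s.re) :
    DifferentiableAt ℂ (FZ m M) s := by
  unfold FZ
  have h1 := (WZ_diff m) s
  have h2 := hM s
  have h3 : (s + 1) ^ 2 ≠ 0 := pow_ne_zero _ (den_ne hs)
  exact (h1.mul h2).div (by fun_prop) h3

theorem FZ_eq (m : ℝ) (M : ℂ → ℂ) {s : ℂ} (hs : s ≠ 1) :
    FZ m M s = ((s - 1) / (s + 1)) ^ 2 * ((riemannZeta s + (m : ℂ) * deriv riemannZeta s) * M s) := by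
  unfold FZ
  rw [WZ_eq m hs, div_pow]
  ring

theorem FZ_growth (m : ℝ) {M : ℂ → ℂ} (hMb : ∃ C : ℝ, 0 < C ∧ ∀ s : ℂ, 0 ≤ s.re → ‖M s‖ ≤ C) :
    ∃ C : ℝ, 0 < C ∧ ∀ s : ℂ, 3/8 ≤ s.re → ‖FZ m M s‖ ≤ C * (1 + ‖s‖) ^ 3 := by
  obtain ⟨C, hC, h1⟩ := WZ_growth m
  obtain ⟨D, hD, h2⟩ := hMb
  refine ⟨C * D, by positivity, fun s hs => ?_⟩
  have h3 : 1 ≤ ‖(s + 1) ^ 2‖ := by
    rw [norm_pow]
    have h4 : (s + 1).re ≤ ‖s + 1‖ := Complex.re_le_norm _
    rw [add_re, one_re] at h4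
    nlinarith
  unfold FZ
  rw [norm_div, norm_mul]
  calc ‖WZ m s‖ * ‖M s‖ / ‖(s + 1) ^ 2‖ ≤ ‖WZ m s‖ * ‖M s‖ := div_le_self (by positivity) h3
    _ ≤ (C * (1 + ‖s‖) ^ 3) * D := mul_le_mul (h1 s hs) (h2 s (by linarith)) (norm_nonneg _) (by positivity)
    _ = _ := by ring

/-! on the right -/

theorem tail_term {σ : ℝ} (hσ : 3 ≤ σ) (n : ℕ) :
    ((n : ℝ) + 2) ^ (-σ) ≤ 4 * (2 : ℝ) ^ (-σ) * (1 / ((n : ℝ) + 1) - 1 / ((n : ℝ) + 2)) := by
  have h1 : ((n : ℝ) + 2) ^ (-σ) = (2 : ℝ) ^ (-σ) * (((n : ℝ) + 2) / 2) ^ (-σ) := by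
    rw [← Real.mul_rpow (by norm_num) (by positivity)]
    congr 1
    ring
  have h2 : (((n : ℝ) + 2) / 2) ^ (-σ) ≤ (((n : ℝ) + 2) / 2) ^ (-2 : ℝ) :=
    Real.rpow_le_rpow_of_exponent_le (by have : (0 : ℝ) ≤ n := Nat.cast_nonneg n; linarith) (by linarith)
  have h3 : (((n : ℝ) + 2) / 2) ^ (-2 : ℝ) = 4 / ((n : ℝ) + 2) ^ 2 := by
    rw [Real.rpow_neg (by positivity)]
    have : (((n : ℝ) + 2) / 2) ^ (2 : ℝ) = (((n : ℝ) + 2) / 2) ^ 2 := by norm_cast
    rw [this]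
    field_simp
    norm_num
  have h4 : 4 / ((n : ℝ) + 2) ^ 2 ≤ 4 * (1 / ((n : ℝ) + 1) - 1 / ((n : ℝ) + 2)) := by
    have : 1 / ((n : ℝ) + 1) - 1 / ((n : ℝ) + 2) = 1 / (((n : ℝ) + 1) * ((n : ℝ) + 2)) := by
      field_simp
      ring
    rw [this, mul_one_div]
    gcongr
    nlinarith [(Nat.cast_nonneg n : (0 : ℝ) ≤ n)]
  rw [h1]
  calc (2 : ℝ) ^ (-σ) * (((n : ℝ) + 2) / 2) ^ (-σ) ≤ (2 : ℝ) ^ (-σ) * (4 * (1 / ((n : ℝ) + 1) - 1 / ((n : ℝ) + 2))) := by
        gcongr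
        exact h2.trans (h3.le.trans h4)
    _ = _ := by ring

theorem tail_range {σ : ℝ} (hσ : 3 ≤ σ) (M : ℕ) :
    ∑ n ∈ Finset.range M, ((n : ℝ) + 2) ^ (-σ) ≤ 4 * (2 : ℝ) ^ (-σ) := by
  refine (Finset.sum_le_sum fun n _ => tail_term hσ n).trans ?_
  rw [← Finset.mul_sum]
  have h : ∑ n ∈ Finset.range M, (1 / ((n : ℝ) + 1) - 1 / ((n : ℝ) + 2)) = 1 - 1 / ((M : ℝ) + 1) := by
    induction M with
    | zero => simp
    | succ k ih =>
      rw [Finset.sum_range_succ, ih]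
      push_cast
      ring
  rw [h]
  have h2 : 0 ≤ 1 / ((M : ℝ) + 1) := by positivity
  have h3 : 0 < (2 : ℝ) ^ (-σ) := by positivity
  nlinarith

theorem tail_summable {σ : ℝ} (hσ : 3 ≤ σ) : Summable fun n : ℕ => ((n : ℝ) + 2) ^ (-σ) :=
  summable_of_sum_range_le (fun n => by positivity) (tail_range hσ)

theorem tail_tsum {σ : ℝ} (hσ : 3 ≤ σ) : ∑' n : ℕ, ((n : ℝ) + 2) ^ (-σ) ≤ 4 * (2 : ℝ) ^ (-σ) :=
  Real.tsum_le_of_sum_range_le (fun n => by positivity) (tail_range hσ)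

theorem zeta_near {s : ℂ} (hs : 3 ≤ s.re) : ‖riemannZeta s - 1‖ ≤ 4 * (2 : ℝ) ^ (-s.re) := by
  have hs1 : 1 < s.re := by linarith
  rw [← LSeries_one_eq_riemannZeta hs1]
  have hsum : Summable (LSeries.term 1 s) := LSeriesSummable_one_iff.2 hs1
  have h1 := hsum.sum_add_tsum_nat_add 2
  unfold LSeries
  rw [← h1]
  have h2 : ∑ i ∈ Finset.range 2, LSeries.term 1 s i = 1 := by
    simp [Finset.sum_range_succ, LSeries.term]
  rw [h2]
  have h3 : ∀ n : ℕ, ‖LSeries.term 1 s (n + 2)‖ ≤ ((n : ℝ) + 2) ^ (-s.re) := by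
    intro n
    rw [LSeries.norm_term_eq, if_neg (by omega)]
    have h5 : ((n : ℝ) + 2) ^ (-s.re) = 1 / (((n + 2 : ℕ) : ℝ) ^ s.re) := by
      rw [Real.rpow_neg (by positivity), one_div]
      push_cast
      rfl
    rw [h5]
    simp
  have h6 : ‖∑' n : ℕ, LSeries.term 1 s (n + 2)‖ ≤ ∑' n : ℕ, ((n : ℝ) + 2) ^ (-s.re) :=
    tsum_of_norm_bounded (tail_summable hs).hasSum h3
  have e : (1 : ℂ) + ∑' n : ℕ, LSeries.term 1 s (n + 2) - 1 = ∑' n : ℕ, LSeries.term 1 s (n + 2) := by ring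
  rw [e]
  exact h6.trans (tail_tsum hs)

theorem zeta'_near {s : ℂ} (hs : 4 ≤ s.re) : ‖deriv riemannZeta s‖ ≤ 8 * (2 : ℝ) ^ (-s.re) := by
  have h1 : ∀ z ∈ Metric.sphere s 1, ‖riemannZeta z - 1‖ ≤ 8 * (2 : ℝ) ^ (-s.re) := by
    intro z hz
    rw [mem_sphere_iff_norm] at hz
    have h2 : |(z - s).re| ≤ 1 := (Complex.abs_re_le_norm _).trans hz.le
    rw [Complex.sub_re] at h2
    have h3 := (abs_le.1 h2).1
    refine (zeta_near (by linarith)).trans ?_
    have h4 : (2 : ℝ) ^ (-z.re) ≤ (2 : ℝ) ^ (-s.re + 1) :=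
      Real.rpow_le_rpow_of_exponent_le (by norm_num) (by linarith)
    rw [Real.rpow_add (by norm_num), Real.rpow_one] at h4
    linarith
  have hd : DiffContOnCl ℂ (fun z => riemannZeta z - 1) (Metric.ball s 1) := by
    apply DifferentiableOn.diffContOnCl
    rw [closure_ball s one_ne_zero]
    intro z hz
    rw [mem_closedBall_iff_norm] at hz
    have h2 : |(z - s).re| ≤ 1 := (Complex.abs_re_le_norm _).trans hz
    rw [Complex.sub_re] at h2
    have h3 := (abs_le.1 h2).1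
    have hz1 : z ≠ 1 := by
      rintro rfl
      rw [Complex.one_re] at h3
      linarith
    exact ((differentiableAt_riemannZeta hz1).sub_const 1).differentiableWithinAt
  have h2 := Complex.norm_deriv_le_of_forall_mem_sphere_norm_le (by norm_num : (0:ℝ) < 1) hd h1
  rw [deriv_sub_const] at h2
  simpa using h2

theorem V_near {m : ℝ} (h0 : 0 ≤ m) (h1 : m ≤ 1) {s : ℂ} (hs : 4 ≤ s.re) :
    ‖riemannZeta s + (m : ℂ) * deriv riemannZeta s - 1‖ ≤ 12 * (2 : ℝ) ^ (-s.re) := by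
  have h2 := zeta_near (s := s) (by linarith)
  have h3 := zeta'_near hs
  have e : riemannZeta s + (m : ℂ) * deriv riemannZeta s - 1 = (riemannZeta s - 1) + (m : ℂ) * deriv riemannZeta s := by ring
  rw [e]
  refine (norm_add_le _ _).trans ?_
  rw [norm_mul, Complex.norm_real, Real.norm_eq_abs, abs_of_nonneg h0]
  have h4 : m * ‖deriv riemannZeta s‖ ≤ ‖deriv riemannZeta s‖ := mul_le_of_le_one_left (norm_nonneg _) h1
  linarith

/-- no zeros with real part at least 5 -/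
theorem V_ne {m : ℝ} (h0 : 0 ≤ m) (h1 : m ≤ 1) {s : ℂ} (hs : 5 ≤ s.re) :
    riemannZeta s + (m : ℂ) * deriv riemannZeta s ≠ 0 := by
  intro h
  have h2 := V_near h0 h1 (s := s) (by linarith)
  rw [h, zero_sub, norm_neg, norm_one] at h2
  have h3 : (2 : ℝ) ^ (-s.re) ≤ (2 : ℝ) ^ (-5 : ℝ) := Real.rpow_le_rpow_of_exponent_le (by norm_num) (by linarith)
  have h4 : (2 : ℝ) ^ (-5 : ℝ) = 1 / 32 := by
    rw [Real.rpow_neg (by norm_num)]
    norm_num
  rw [h4] at h3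
  linarith

theorem quot_le {w : ℂ} (hw : 0 ≤ w.re) : ‖(w - 1) / (w + 1)‖ ≤ 1 := by
  have h1 : 0 < ‖w + 1‖ := by
    have h2 : (w + 1).re ≤ ‖w + 1‖ := Complex.re_le_norm _
    rw [add_re, one_re] at h2
    linarith
  rw [norm_div, div_le_one h1]
  have h2 : ‖w - 1‖ ^ 2 ≤ ‖w + 1‖ ^ 2 := by
    rw [← Complex.normSq_eq_norm_sq, ← Complex.normSq_eq_norm_sq, Complex.normSq_apply, Complex.normSq_apply]
    simp only [sub_re, one_re, sub_im, one_im, sub_zero, add_re, add_im, add_zero]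
    nlinarith
  exact le_of_sq_le_sq h2 h1.le

theorem FZ_le (m : ℝ) (M : ℂ → ℂ) {s : ℂ} (hs : s ≠ 1) (h0 : 0 ≤ s.re) :
    ‖FZ m M s‖ ≤ ‖(riemannZeta s + (m : ℂ) * deriv riemannZeta s) * M s‖ := by
  rw [FZ_eq m M hs, norm_mul, norm_pow]
  refine mul_le_of_le_one_left (norm_nonneg _) ?_
  exact pow_le_one₀ (norm_nonneg _) (quot_le h0)


/-- zeta + m zeta' -/
noncomputable def VF (m : ℝ) (s : ℂ) : ℂ := riemannZeta s + (m : ℂ) * deriv riemannZeta s

theorem VV_eq (lam T : ℝ) : VV lam T = VF (lam / Real.log T) := rfl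

theorem VF_conj (m : ℝ) (s : ℂ) : VF m (conj s) = conj (VF m s) := by
  have h1 : (fun z => conj (riemannZeta (conj z))) = riemannZeta := by
    funext z
    rw [riemannZeta_conj, Complex.conj_conj]
  have h2 : deriv riemannZeta (conj s) = conj (deriv riemannZeta s) := by
    have h3 := congrFun (deriv_conj_conj (f := riemannZeta)) (conj s)
    simp only [Function.comp_apply, Complex.conj_conj] at h3
    rw [← h3]
    congr 1
    exact h1.symm
  unfold VF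
  rw [riemannZeta_conj, h2, map_add, map_mul, Complex.conj_ofReal]

theorem VF_an (m : ℝ) {s : ℂ} (hs : s ≠ 1) : AnalyticAt ℂ (VF m) s := by
  have h1 : AnalyticAt ℂ riemannZeta s := by
    have h : DifferentiableOn ℂ riemannZeta {1}ᶜ := fun z hz =>
      (differentiableAt_riemannZeta hz).differentiableWithinAt
    exact h.analyticAt (isOpen_compl_singleton.mem_nhds hs)
  unfold VF
  exact h1.add (analyticAt_const.mul h1.deriv)

theorem VF_order_conj (m : ℝ) {s : ℂ} (hs : s ≠ 1) :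
    analyticOrderAt (VF m) (conj s) = analyticOrderAt (VF m) s :=
  LW.order_conj (VF_an m hs) (Eventually.of_forall fun z => VF_conj m z)

theorem VF_nat_conj (m : ℝ) {s : ℂ} (hs : s ≠ 1) :
    analyticOrderNatAt (VF m) (conj s) = analyticOrderNatAt (VF m) s := by
  unfold analyticOrderNatAt
  rw [VF_order_conj m hs]

/-- the order of FZ is at least the order of V -/
theorem FZ_order (m : ℝ) {M : ℂ → ℂ} (hM : Differentiable ℂ M) {s : ℂ} (hs : s ≠ 1) (h0 : -1 < s.re) :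
    ((analyticOrderNatAt (VF m) s : ℕ) : ℕ∞) ≤ analyticOrderAt (FZ m M) s := by
  have h1 : FZ m M =ᶠ[𝓝 s] ((fun z => ((z - 1) / (z + 1)) ^ 2 * M z) * VF m) := by
    filter_upwards [isOpen_compl_singleton.mem_nhds hs] with z hz
    rw [FZ_eq m M hz, Pi.mul_apply]
    unfold VF
    ring
  have h2 : AnalyticAt ℂ (fun z => ((z - 1) / (z + 1)) ^ 2 * M z) s := by
    have h3 : AnalyticAt ℂ (fun z : ℂ => z - 1) s := by fun_prop
    have h4 : AnalyticAt ℂ (fun z : ℂ => z + 1) s := by fun_prop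
    have h5 : AnalyticAt ℂ (fun z : ℂ => (z - 1) / (z + 1)) s := h3.fun_div h4 (den_ne h0)
    have h6 : AnalyticAt ℂ (fun z : ℂ => ((z - 1) / (z + 1)) ^ 2) s := h5.fun_pow 2
    have h7 : AnalyticAt ℂ (fun z : ℂ => M z) s := hM.analyticAt s
    exact h6.fun_mul h7
  rw [analyticOrderAt_congr h1, analyticOrderAt_mul h2 (VF_an m hs)]
  calc ((analyticOrderNatAt (VF m) s : ℕ) : ℕ∞) ≤ analyticOrderAt (VF m) s := ENat.natCast_toNat_le_self _
    _ ≤ _ := le_add_self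

/-- affine change of variable -/
noncomputable def aff (a T : ℝ) (z : ℂ) : ℂ := (a : ℂ) + ((Real.pi * T : ℝ) : ℂ) * z

theorem aff_re (a T : ℝ) (z : ℂ) : (aff a T z).re = a + Real.pi * T * z.re := by
  unfold aff
  rw [Complex.add_re, Complex.re_ofReal_mul, Complex.ofReal_re]

theorem aff_im (a T : ℝ) (z : ℂ) : (aff a T z).im = Real.pi * T * z.im := by
  unfold aff
  rw [Complex.add_im, Complex.im_ofReal_mul, Complex.ofReal_im, zero_add]

/-- the function on the strip -/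
noncomputable def fz (a T m : ℝ) (M : ℂ → ℂ) (z : ℂ) : ℂ := FZ m M (aff a T z)

theorem fz_diff {a T : ℝ} (m : ℝ) {M : ℂ → ℂ} (hM : Differentiable ℂ M) (ha : 7/16 ≤ a) (hT : 5 ≤ T) :
    DifferentiableOn ℂ (fz a T m M) {z : ℂ | -(1 / (4 * Real.pi * T)) < z.re ∧ z.re < 1 + 1 / (4 * Real.pi * T)} := by
  intro z hz
  have hp := Real.pi_pos
  have hpT : 0 < Real.pi * T := by positivity
  have h1 : -1 < (aff a T z).re := by
    rw [aff_re]
    have h2 := mul_lt_mul_of_pos_left hz.1 hpT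
    have h3 : Real.pi * T * -(1 / (4 * Real.pi * T)) = -(1/4) := by
      field_simp
    rw [h3] at h2
    linarith
  have h2 : DifferentiableAt ℂ (aff a T) z := by
    unfold aff
    fun_prop
  exact ((FZ_diff m hM h1).comp z h2).differentiableWithinAt

theorem cube_exp {x : ℝ} (hx : 0 ≤ x) : (1 + x) ^ 3 ≤ 216 * Real.exp (x / 2) := by
  have h1 : 1 + x ≤ 6 * Real.exp (x / 6) := by
    have := Real.add_one_le_exp (x / 6)
    linarith
  calc (1 + x) ^ 3 ≤ (6 * Real.exp (x / 6)) ^ 3 := by gcongr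
    _ = 216 * Real.exp (x / 2) := by
      rw [mul_pow, ← Real.exp_nat_mul]
      have e : ((3 : ℕ) : ℝ) * (x / 6) = x / 2 := by
        push_cast
        ring
      rw [e]
      norm_num

theorem fz_growth {a T : ℝ} (m : ℝ) {M : ℂ → ℂ} (hMb : ∃ C : ℝ, 0 < C ∧ ∀ s : ℂ, 0 ≤ s.re → ‖M s‖ ≤ C)
    (ha : 7/16 ≤ a) (ha1 : a ≤ 1) (hT : 5 ≤ T) :
    ∃ K : ℝ, 0 < K ∧ ∀ z : ℂ, 0 ≤ z.re → z.re ≤ 1 → ‖fz a T m M z‖ ≤ K * Real.exp (|z.im| / 2) := by
  obtain ⟨C, hC, h⟩ := FZ_growth m hMb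
  have hp := Real.pi_pos
  have hpT : 0 < Real.pi * T := by positivity
  refine ⟨C * (2 + Real.pi * T) ^ 3 * 216, by positivity, fun z h0 h1 => ?_⟩
  have h2 : 3/8 ≤ (aff a T z).re := by
    rw [aff_re]
    have : 0 ≤ Real.pi * T * z.re := by positivity
    linarith
  have h3 : ‖z‖ ≤ 1 + |z.im| := by
    refine (Complex.norm_le_abs_re_add_abs_im z).trans ?_
    rw [abs_of_nonneg h0]
    linarith
  have h4 : ‖aff a T z‖ ≤ 1 + Real.pi * T * (1 + |z.im|) := by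
    unfold aff
    refine (norm_add_le _ _).trans ?_
    rw [norm_mul, Complex.norm_real, Complex.norm_real, Real.norm_eq_abs, Real.norm_eq_abs,
      abs_of_nonneg (by linarith : 0 ≤ a), abs_of_pos hpT]
    have := mul_le_mul_of_nonneg_left h3 hpT.le
    linarith
  have h5 : 1 + ‖aff a T z‖ ≤ (2 + Real.pi * T) * (1 + |z.im|) := by
    have := abs_nonneg z.im
    nlinarith
  calc ‖fz a T m M z‖ ≤ C * (1 + ‖aff a T z‖) ^ 3 := h _ h2
    _ ≤ C * ((2 + Real.pi * T) * (1 + |z.im|)) ^ 3 := by gcongr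
    _ = C * (2 + Real.pi * T) ^ 3 * (1 + |z.im|) ^ 3 := by ring
    _ ≤ C * (2 + Real.pi * T) ^ 3 * (216 * Real.exp (|z.im| / 2)) := by
        gcongr
        exact cube_exp (abs_nonneg _)
    _ = _ := by ring

/-- left side of the strip -/
theorem fz_left {a T m c : ℝ} {M : ℂ → ℂ} (hM : Differentiable ℂ M)
    (hMb : ∃ C : ℝ, 0 < C ∧ ∀ s : ℂ, 0 ≤ s.re → ‖M s‖ ≤ C) (ha : 7/16 ≤ a) (ha1 : a < 1) (hT : 5 ≤ T)
    (hmean : ∫ u : ℝ, ‖VF m (a + (Real.pi * T * u : ℝ) * I) * M (a + (Real.pi * T * u : ℝ) * I)‖ ^ 2 * sw u ≤ c) :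
    ∫ u : ℝ, ‖fz a T m M (u * I)‖ ^ 2 * sw u ≤ c := by
  have hp := Real.pi_pos
  have hpT : 0 < Real.pi * T := by positivity
  have hT0 : (T : ℝ) ≠ 0 := by linarith
  obtain ⟨K, hK, hg⟩ := fz_growth m hMb ha ha1.le hT
  have hη : 0 < 1 / (4 * Real.pi * T) := by positivity
  have hd := W07_diff hη (fz_diff m hM ha hT)
  have i0 := D2_int_left hd hg
  set G : ℝ → ℝ := fun t => ‖VF m (a + t * I) * M (a + t * I)‖ ^ 2 with hG
  have hs1 : ∀ t : ℝ, (a : ℂ) + t * I ≠ 1 := by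
    intro t h
    have h2 := congrArg Complex.re h
    simp at h2
    linarith
  have haff : ∀ u : ℝ, aff a T (u * I) = (a : ℂ) + ((Real.pi * T * u : ℝ) : ℂ) * I := by
    intro u
    unfold aff
    push_cast
    ring
  have hGc : Continuous G := by
    rw [hG]
    refine (Continuous.norm ?_).pow 2
    rw [continuous_iff_continuousAt]
    intro t
    have h1 : ContinuousAt (fun s : ℂ => VF m s * M s) ((a : ℂ) + t * I) :=
      (VF_an m (hs1 t)).continuousAt.mul (hM _).continuousAt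
    have h2 : ContinuousAt (fun t : ℝ => (a : ℂ) + t * I) t := by fun_prop
    exact ContinuousAt.comp (f := fun t : ℝ => (a : ℂ) + t * I) (g := fun s : ℂ => VF m s * M s) h1 h2
  have hle : ∀ u : ℝ, ‖fz a T m M (u * I)‖ ^ 2 ≤ G (Real.pi * T * u) := by
    intro u
    have h1 : ‖fz a T m M (u * I)‖ ≤ ‖VF m (a + ((Real.pi * T * u : ℝ) : ℂ) * I) * M (a + ((Real.pi * T * u : ℝ) : ℂ) * I)‖ := by
      unfold fz
      rw [haff]
      exact FZ_le m M (hs1 _) (by simp; linarith)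
    exact pow_le_pow_left₀ (norm_nonneg _) h1 2
  set D : ℝ := 1 + 2 / (1 - a) with hD
  have h1a : 0 < 1 - a := by linarith
  have hge : ∀ u : ℝ, G (Real.pi * T * u) ≤ D ^ 4 * ‖fz a T m M (u * I)‖ ^ 2 := by
    intro u
    set s : ℂ := (a : ℂ) + ((Real.pi * T * u : ℝ) : ℂ) * I with hs
    have e1 : ‖fz a T m M (u * I)‖ = ‖(s - 1) / (s + 1)‖ ^ 2 * ‖VF m s * M s‖ := by
      unfold fz
      rw [haff, ← hs, FZ_eq m M (hs1 _), norm_mul, norm_pow]
      rfl
    have hre : s.re = a := by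
      rw [hs]
      simp
    have h2 : 1 - a ≤ ‖s - 1‖ := by
      have h3 : |(s - 1).re| ≤ ‖s - 1‖ := Complex.abs_re_le_norm _
      rw [Complex.sub_re, hre, Complex.one_re, abs_of_neg (by linarith)] at h3
      linarith
    have hpos : 0 < ‖s - 1‖ := by linarith
    have h3 : ‖s + 1‖ ≤ D * ‖s - 1‖ := by
      have h4 : s + 1 = (s - 1) + 2 := by ring
      have h5 : ‖s + 1‖ ≤ ‖s - 1‖ + 2 := by
        rw [h4]
        refine (norm_add_le _ _).trans ?_
        simp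
      have h6 : 2 ≤ 2 / (1 - a) * ‖s - 1‖ := by
        calc (2 : ℝ) = 2 / (1 - a) * (1 - a) := by field_simp
          _ ≤ 2 / (1 - a) * ‖s - 1‖ := by gcongr
      rw [hD]
      linarith
    have hpos' : 0 < ‖s + 1‖ := norm_pos_iff.2 (den_ne (by rw [hre]; linarith))
    have hD0 : 0 < D := by positivity
    have h4 : 1 ≤ D * ‖(s - 1) / (s + 1)‖ := by
      rw [norm_div, mul_div_assoc', le_div_iff₀ hpos', one_mul]
      exact h3
    have h5 : 1 ≤ (D * ‖(s - 1) / (s + 1)‖) ^ 2 := one_le_pow₀ h4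
    have h6 : ‖VF m s * M s‖ ≤ D ^ 2 * ‖fz a T m M (u * I)‖ := by
      rw [e1]
      calc ‖VF m s * M s‖ ≤ (D * ‖(s - 1) / (s + 1)‖) ^ 2 * ‖VF m s * M s‖ :=
            le_mul_of_one_le_left (norm_nonneg _) h5
        _ = _ := by ring
    calc G (Real.pi * T * u) = ‖VF m s * M s‖ ^ 2 := rfl
      _ ≤ (D ^ 2 * ‖fz a T m M (u * I)‖) ^ 2 := by gcongr
      _ = _ := by ring
  have hGi : Integrable (fun u : ℝ => G (Real.pi * T * u) * sw u) := by
    refine (i0.const_mul (D ^ 4)).mono' ?_ (Eventually.of_forall fun u => ?_)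
    · exact ((hGc.comp (continuous_const.mul continuous_id)).mul sw_cont).aestronglyMeasurable
    · have h0 : 0 ≤ G (Real.pi * T * u) := by
        rw [hG]
        positivity
      rw [Real.norm_of_nonneg (mul_nonneg h0 (sw_pos u).le), ← mul_assoc]
      exact mul_le_mul_of_nonneg_right (hge u) (sw_pos u).le
  have h1 : ∫ u : ℝ, ‖fz a T m M (u * I)‖ ^ 2 * sw u ≤ ∫ u : ℝ, G (Real.pi * T * u) * sw u := by
    refine integral_mono_of_nonneg (Eventually.of_forall fun u => ?_) hGi (Eventually.of_forall fun u => ?_)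
    · exact mul_nonneg (by positivity) (sw_pos u).le
    · exact mul_le_mul_of_nonneg_right (hle u) (sw_pos u).le
  exact h1.trans hmean

/-- right side of the strip -/
theorem fz_right {a T m δ : ℝ} {M : ℂ → ℂ} (ha : 7/16 ≤ a) (ha1 : a < 1) (hT : 5 ≤ T)
    (hδ : ∀ s : ℂ, T ≤ s.re → ‖VF m s * M s - 1‖ ≤ δ) :
    ∫ u : ℝ, ‖fz a T m M (1 + u * I)‖ ^ 2 * sw u ≤ (1 + δ) ^ 2 := by
  have hp := Real.pi_gt_three
  have h1 : ∀ u : ℝ, ‖fz a T m M (1 + u * I)‖ ^ 2 ≤ (1 + δ) ^ 2 := by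
    intro u
    have hre : (aff a T (1 + u * I)).re = a + Real.pi * T := by
      rw [aff_re]
      simp
    have hT1 : T ≤ (aff a T (1 + u * I)).re := by
      rw [hre]
      nlinarith
    have hs1 : aff a T (1 + u * I) ≠ 1 := by
      intro h
      rw [h, Complex.one_re] at hT1
      linarith
    have h2 := hδ _ hT1
    have h3 := FZ_le m M hs1 (by linarith)
    have h4 : ‖VF m (aff a T (1 + u * I)) * M (aff a T (1 + u * I))‖ ≤ 1 + δ := by
      have e : VF m (aff a T (1 + u * I)) * M (aff a T (1 + u * I)) =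
        1 + (VF m (aff a T (1 + u * I)) * M (aff a T (1 + u * I)) - 1) := by ring
      rw [e]
      refine (norm_add_le _ _).trans ?_
      rw [norm_one]
      linarith
    exact pow_le_pow_left₀ (norm_nonneg _) (h3.trans h4) 2
  have hsw : Integrable sw := by
    have h1 := W07_int (φ := fun _ : ℝ => (1 : ℝ)) (C := 1) continuous_const (fun u => by
      rw [norm_one, one_mul]
      exact Real.one_le_exp (abs_nonneg u))
    simpa using h1
  calc ∫ u : ℝ, ‖fz a T m M (1 + u * I)‖ ^ 2 * sw u ≤ ∫ u : ℝ, (1 + δ) ^ 2 * sw u := by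
        refine integral_mono_of_nonneg (Eventually.of_forall fun u => ?_) (hsw.const_mul _)
          (Eventually.of_forall fun u => ?_)
        · exact mul_nonneg (by positivity) (sw_pos u).le
        · exact mul_le_mul_of_nonneg_right (h1 u) (sw_pos u).le
    _ = (1 + δ) ^ 2 := by rw [integral_const_mul, sw_mass, mul_one]

/-- the centre of the strip -/
theorem fz_mid {a T m δ : ℝ} {M : ℂ → ℂ} (ha : 7/16 ≤ a) (hT : 5 ≤ T)
    (hδ : ∀ s : ℂ, T ≤ s.re → ‖VF m s * M s - 1‖ ≤ δ) (hδ1 : δ ≤ 1) :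
    (1 - 2 / T) ^ 2 * (1 - δ) ≤ ‖fz a T m M (1/2)‖ := by
  have hp := Real.pi_gt_three
  have hre : (aff a T (1/2)).re = a + Real.pi * T / 2 := by
    rw [aff_re]
    norm_num
    ring
  set s := aff a T (1/2) with hs
  have hT1 : T ≤ s.re := by
    rw [hre]
    nlinarith
  have hs1 : s ≠ 1 := by
    intro h
    rw [h, Complex.one_re] at hT1
    linarith
  have h2 := hδ _ hT1
  have h3 : 1 - δ ≤ ‖VF m s * M s‖ := by
    have h4 := norm_sub_norm_le (1 : ℂ) (1 - VF m s * M s)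
    rw [norm_one, sub_sub_cancel, norm_sub_rev] at h4
    linarith
  have hT2 : T ≤ ‖s + 1‖ := by
    have h4 : (s + 1).re ≤ ‖s + 1‖ := Complex.re_le_norm _
    rw [add_re, one_re] at h4
    linarith
  have h5 : 1 - 2 / T ≤ ‖(s - 1) / (s + 1)‖ := by
    have hne : s + 1 ≠ 0 := den_ne (by linarith)
    have e : (s - 1) / (s + 1) = 1 - 2 / (s + 1) := by
      field_simp
      ring
    rw [e]
    have h4 := norm_sub_norm_le (1 : ℂ) (2 / (s + 1))
    rw [norm_one] at h4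
    have h6 : ‖2 / (s + 1)‖ ≤ 2 / T := by
      rw [norm_div]
      simp only [Complex.norm_ofNat]
      gcongr
    linarith
  have h6 : 0 ≤ 1 - 2 / T := by
    have : 2 / T ≤ 1 := by
      rw [div_le_one (by linarith)]
      linarith
    linarith
  unfold fz
  rw [← hs, FZ_eq m M hs1, norm_mul, norm_pow]
  exact mul_le_mul (pow_le_pow_left₀ h6 h5 2) h3 (by linarith) (by positivity)


/-- inverse of aff -/
noncomputable def phi (a T : ℝ) (z : ℂ) : ℂ := (z - a) / ((Real.pi * T : ℝ) : ℂ)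

theorem aff_phi {a T : ℝ} (hT : 0 < T) (z : ℂ) : aff a T (phi a T z) = z := by
  have hpT : ((Real.pi * T : ℝ) : ℂ) ≠ 0 := by
    have : (Real.pi * T : ℝ) ≠ 0 := by positivity
    exact_mod_cast this
  unfold aff phi
  rw [mul_div_cancel₀ _ hpT]
  ring

theorem phi_re (a T : ℝ) (z : ℂ) : (phi a T z).re = (z.re - a) / (Real.pi * T) := by
  unfold phi
  rw [Complex.div_ofReal_re, Complex.sub_re, Complex.ofReal_re]

theorem phi_im (a T : ℝ) (z : ℂ) : (phi a T z).im = z.im / (Real.pi * T) := by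
  unfold phi
  rw [Complex.div_ofReal_im, Complex.sub_im, Complex.ofReal_im, sub_zero]

theorem sz_phi {a T : ℝ} (hT : 0 < T) (z : ℂ) :
    D2_sz (phi a T z) = Real.sin ((z.re - a) / T) / Real.cosh (z.im / T) := by
  have hp := Real.pi_pos
  unfold D2_sz
  rw [phi_re, phi_im]
  have e1 : Real.pi * ((z.re - a) / (Real.pi * T)) = (z.re - a) / T := by field_simp
  have e2 : Real.pi * (z.im / (Real.pi * T)) = z.im / T := by field_simp
  rw [e1, e2]

/-- Jensen for fixed T -/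
theorem core {a T m c δ : ℝ} {M : ℂ → ℂ} (hM : Differentiable ℂ M)
    (hMb : ∃ C : ℝ, 0 < C ∧ ∀ s : ℂ, 0 ≤ s.re → ‖M s‖ ≤ C) (ha : 7/16 ≤ a) (ha1 : a < 1/2) (hT : 5 ≤ T)
    (hm0 : 0 ≤ m) (hm1 : m ≤ 1) (hc : 0 < c)
    (hmean : ∫ u : ℝ, ‖VF m (a + (Real.pi * T * u : ℝ) * I) * M (a + (Real.pi * T * u : ℝ) * I)‖ ^ 2 * sw u ≤ c)
    (hδ : ∀ s : ℂ, T ≤ s.re → ‖VF m s * M s - 1‖ ≤ δ) (hδ1 : δ < 1)
    (A : Finset ℂ) (hA : ∀ z ∈ A, VF m z = 0 ∧ 1/2 ≤ z.re ∧ 0 < z.im) :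
    4 * (Real.sin ((1/2 - a) / T) * ∑ z ∈ A, (analyticOrderNatAt (VF m) z : ℝ) * (Real.cosh (z.im / T))⁻¹) ≤
      Real.log c / 2 + 2 * Real.log (1 + δ) - 2 * Real.log ((1 - 2 / T) ^ 2 * (1 - δ)) := by
  classical
  have hp := Real.pi_gt_three
  have hT0 : 0 < T := by linarith
  have hpT : 0 < Real.pi * T := by positivity
  have hδ0 : 0 ≤ δ := (norm_nonneg _).trans (hδ (T : ℂ) (by simp))
  obtain ⟨K, hK, hg⟩ := fz_growth m hMb ha (by linarith) hT
  have hη : 0 < 1 / (4 * Real.pi * T) := by positivity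
  have hfd := fz_diff m hM ha hT
  -- real parts of the zeros
  have hre5 : ∀ z ∈ A, z.re < 5 := by
    intro z hz
    by_contra h
    exact V_ne hm0 hm1 (not_lt.1 h) (hA z hz).1
  -- the zeros in the strip
  set A1 : Finset ℂ := A.image (phi a T) with hA1
  set A2 : Finset ℂ := A.image (fun z => phi a T (conj z)) with hA2
  set μ : ℂ → ℕ := fun ρ => analyticOrderNatAt (VF m) (aff a T ρ) with hμ
  have hinj : Function.Injective (phi a T) := by
    intro z w h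
    have h2 := congrArg (aff a T) h
    rwa [aff_phi hT0, aff_phi hT0] at h2
  have hinj2 : Function.Injective (fun z => phi a T (conj z)) := by
    intro z w h
    have h2 := hinj h
    have h3 := congrArg conj h2
    rwa [Complex.conj_conj, Complex.conj_conj] at h3
  have hdisj : Disjoint A1 A2 := by
    rw [Finset.disjoint_left]
    intro ρ h1 h2
    obtain ⟨z, hz, rfl⟩ := Finset.mem_image.1 h1
    obtain ⟨w, hw, h3⟩ := Finset.mem_image.1 h2
    have h4 := hinj h3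
    have h5 := (hA z hz).2.2
    have h6 := (hA w hw).2.2
    have h7 := congrArg Complex.im h4
    rw [Complex.conj_im] at h7
    linarith
  have hne1 : ∀ z ∈ A, z ≠ 1 := by
    intro z hz h
    have h5 := (hA z hz).2.2
    rw [h, Complex.one_im] at h5
    exact lt_irrefl _ h5
  have hne2 : ∀ z ∈ A, conj z ≠ 1 := by
    intro z hz h
    have h5 := (hA z hz).2.2
    have h6 := congrArg Complex.im h
    rw [Complex.conj_im, Complex.one_im] at h6
    linarith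
  have hstrip : ∀ z ∈ A, 0 < (z.re - a) / (Real.pi * T) ∧ (z.re - a) / (Real.pi * T) < 1 := by
    intro z hz
    have h1 := (hA z hz).2.1
    have h2 := hre5 z hz
    constructor
    · apply div_pos _ hpT
      linarith
    · rw [div_lt_one hpT]
      nlinarith
  have hAs : ∀ ρ ∈ A1 ∪ A2, 0 < ρ.re ∧ ρ.re < 1 := by
    intro ρ hρ
    rcases Finset.mem_union.1 hρ with h | h
    · obtain ⟨z, hz, rfl⟩ := Finset.mem_image.1 h
      rw [phi_re]
      exact hstrip z hz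
    · obtain ⟨z, hz, rfl⟩ := Finset.mem_image.1 h
      rw [phi_re, Complex.conj_re]
      exact hstrip z hz
  have hord1 : ∀ w : ℂ, w ≠ 1 → -1 < w.re → (μ (phi a T w) : ℕ∞) ≤ analyticOrderAt (fz a T m M) (phi a T w) := by
    intro w hw hw0
    have h1 := FZ_order m hM hw hw0
    have e1 : (a : ℂ) + ((Real.pi * T : ℝ) : ℂ) * phi a T w = w := aff_phi hT0 w
    have h2 : AnalyticAt ℂ (FZ m M) w := by
      have ho : IsOpen {z : ℂ | -1 < z.re} := isOpen_lt continuous_const Complex.continuous_re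
      have h1 : DifferentiableOn ℂ (FZ m M) {z : ℂ | -1 < z.re} := fun z hz =>
        (FZ_diff m hM hz).differentiableWithinAt
      exact h1.analyticAt (ho.mem_nhds hw0)
    have h3 := order_affine (f := FZ m M) (a := Real.pi * T) hpT (a : ℂ) (phi a T w)
      (k := analyticOrderNatAt (VF m) w) (by rw [e1]; exact h2) (by rw [e1]; exact h1)
    have e2 : μ (phi a T w) = analyticOrderNatAt (VF m) w := by
      rw [hμ]
      simp only
      rw [aff_phi hT0]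
    rw [e2]
    exact h3
  have hord : ∀ ρ ∈ A1 ∪ A2, (μ ρ : ℕ∞) ≤ analyticOrderAt (fz a T m M) ρ := by
    intro ρ hρ
    rcases Finset.mem_union.1 hρ with h | h
    · obtain ⟨z, hz, rfl⟩ := Finset.mem_image.1 h
      exact hord1 z (hne1 z hz) (by linarith [(hA z hz).2.1])
    · obtain ⟨z, hz, rfl⟩ := Finset.mem_image.1 h
      exact hord1 (conj z) (hne2 z hz) (by rw [Complex.conj_re]; linarith [(hA z hz).2.1])
  have key := strip_kappa (Real.log c / 2) hη hfd hg (A1 ∪ A2) μ hAs hord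
  -- the right side
  have hI0 := fz_left (m := m) (M := M) hM hMb ha (by linarith) hT hmean
  have hI1 := fz_right (a := a) (m := m) (M := M) ha (by linarith) hT hδ
  have hmid := fz_mid (a := a) (m := m) (M := M) ha hT hδ hδ1.le
  set q : ℝ := (1 - 2 / T) ^ 2 * (1 - δ) with hq
  have hq0 : 0 < q := by
    have h1 : 2 / T < 1 := by
      rw [div_lt_one hT0]
      linarith
    have h2 : 0 < 1 - 2 / T := by linarith
    have h3 : 0 < 1 - δ := by linarith
    positivity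
  set S : ℝ := ∑ ρ ∈ A1 ∪ A2, (μ ρ : ℝ) * D2_sz ρ with hS
  have hR : 2⁻¹ * (Real.exp (-(Real.log c / 2)) * (∫ u : ℝ, ‖fz a T m M (u * I)‖ ^ 2 * sw u) +
      Real.exp (Real.log c / 2) * (∫ u : ℝ, ‖fz a T m M (1 + u * I)‖ ^ 2 * sw u)) ≤
      Real.exp (Real.log c / 2) * (1 + δ) ^ 2 := by
    have h1 : Real.exp (-(Real.log c / 2)) * (∫ u : ℝ, ‖fz a T m M (u * I)‖ ^ 2 * sw u) ≤
        Real.exp (Real.log c / 2) := by
      calc Real.exp (-(Real.log c / 2)) * (∫ u : ℝ, ‖fz a T m M (u * I)‖ ^ 2 * sw u)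
          ≤ Real.exp (-(Real.log c / 2)) * c := by gcongr
        _ = Real.exp (-(Real.log c / 2)) * Real.exp (Real.log c) := by rw [Real.exp_log hc]
        _ = Real.exp (Real.log c / 2) := by
            rw [← Real.exp_add]
            congr 1
            ring
    have h2 : Real.exp (Real.log c / 2) * (∫ u : ℝ, ‖fz a T m M (1 + u * I)‖ ^ 2 * sw u) ≤
        Real.exp (Real.log c / 2) * (1 + δ) ^ 2 := by gcongr
    have h3 : Real.exp (Real.log c / 2) ≤ Real.exp (Real.log c / 2) * (1 + δ) ^ 2 :=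
      le_mul_of_one_le_right (Real.exp_pos _).le (one_le_pow₀ (by linarith))
    linarith
  have h1 : q ^ 2 * Real.exp (2 * S) ≤ Real.exp (Real.log c / 2) * (1 + δ) ^ 2 := by
    refine le_trans ?_ (key.trans hR)
    exact mul_le_mul_of_nonneg_right (pow_le_pow_left₀ hq0.le hmid 2) (Real.exp_pos _).le
  have h2 : 2 * Real.log q + 2 * S ≤ Real.log c / 2 + 2 * Real.log (1 + δ) := by
    have h3 := Real.log_le_log (by positivity) h1
    rw [Real.log_mul (by positivity) (Real.exp_ne_zero _), Real.log_pow, Real.log_exp,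
      Real.log_mul (Real.exp_ne_zero _) (by positivity), Real.log_exp, Real.log_pow] at h3
    push_cast at h3
    exact h3
  -- the sum over the zeros
  have hsin : ∀ z ∈ A, Real.sin ((1/2 - a) / T) ≤ Real.sin ((z.re - a) / T) := by
    intro z hz
    have h1 := (hA z hz).2.1
    have h2 := hre5 z hz
    have h3 : (z.re - a) / T ≤ Real.pi / 2 := by
      rw [div_le_iff₀ hT0]
      nlinarith
    have h4 : (1/2 - a) / T ≤ (z.re - a) / T := by gcongr
    have h5 : 0 ≤ (1/2 - a) / T := div_nonneg (by linarith) hT0.le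
    exact Real.sin_le_sin_of_le_of_le_pi_div_two (by linarith) h3 h4
  have hS2 : 2 * (Real.sin ((1/2 - a) / T) * ∑ z ∈ A, (analyticOrderNatAt (VF m) z : ℝ) * (Real.cosh (z.im / T))⁻¹) ≤ S := by
    have e1 : ∑ ρ ∈ A1, (μ ρ : ℝ) * D2_sz ρ = ∑ z ∈ A, (analyticOrderNatAt (VF m) z : ℝ) *
        (Real.sin ((z.re - a) / T) / Real.cosh (z.im / T)) := by
      rw [hA1, Finset.sum_image (fun x _ y _ h => hinj h)]
      refine Finset.sum_congr rfl fun z _ => ?_
      rw [hμ, sz_phi hT0]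
      simp only
      rw [aff_phi hT0]
    have e2 : ∑ ρ ∈ A2, (μ ρ : ℝ) * D2_sz ρ = ∑ z ∈ A, (analyticOrderNatAt (VF m) z : ℝ) *
        (Real.sin ((z.re - a) / T) / Real.cosh (z.im / T)) := by
      rw [hA2, Finset.sum_image (fun x _ y _ h => hinj2 h)]
      refine Finset.sum_congr rfl fun z hz => ?_
      rw [hμ, sz_phi hT0]
      simp only
      rw [aff_phi hT0, VF_nat_conj m (hne1 z hz), Complex.conj_re, Complex.conj_im, neg_div, Real.cosh_neg]
    have e3 : S = 2 * ∑ z ∈ A, (analyticOrderNatAt (VF m) z : ℝ) *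
        (Real.sin ((z.re - a) / T) / Real.cosh (z.im / T)) := by
      rw [hS, Finset.sum_union hdisj, e1, e2]
      ring
    rw [e3]
    refine mul_le_mul_of_nonneg_left ?_ (by norm_num)
    rw [Finset.mul_sum]
    refine Finset.sum_le_sum fun z hz => ?_
    have h3 := hsin z hz
    have h4 : 0 < Real.cosh (z.im / T) := Real.cosh_pos _
    calc Real.sin ((1/2 - a) / T) * ((analyticOrderNatAt (VF m) z : ℝ) * (Real.cosh (z.im / T))⁻¹)
        = (analyticOrderNatAt (VF m) z : ℝ) * (Real.sin ((1/2 - a) / T) / Real.cosh (z.im / T)) := by ring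
      _ ≤ (analyticOrderNatAt (VF m) z : ℝ) * (Real.sin ((z.re - a) / T) / Real.cosh (z.im / T)) := by gcongr
  linarith


/-! the mollifier -/

theorem Mo_prime {z : ℕ} {S : Finset ℕ} (hS : S ∈ (LZ.PP z).powerset) : ∀ p ∈ S, p.Prime := by
  intro p hp
  have := Finset.mem_powerset.1 hS hp
  unfold LZ.PP at this
  exact (Finset.mem_filter.1 this).2

theorem Mo_inj {z : ℕ} {S S' : Finset ℕ} (hS : S ∈ (LZ.PP z).powerset)
    (hS' : S' ∈ (LZ.PP z).powerset) (h : LZ.nS S = LZ.nS S') : S = S' := by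
  have h1 := Nat.primeFactors_prod (Mo_prime hS)
  have h2 := Nat.primeFactors_prod (Mo_prime hS')
  unfold LZ.nS at h
  rw [← h1, ← h2, h]

theorem Mo_ge {z : ℕ} {S : Finset ℕ} (hS : S ∈ (LZ.PP z).powerset) (h0 : S ≠ ∅) : 2 ≤ LZ.nS S := by
  obtain ⟨p, hp⟩ := Finset.nonempty_iff_ne_empty.2 h0
  have h1 : p ∣ LZ.nS S := Finset.dvd_prod_of_mem _ hp
  have h2 : 0 < LZ.nS S := Finset.prod_pos fun r hr => (Mo_prime hS r hr).pos
  exact (Mo_prime hS p hp).two_le.trans (Nat.le_of_dvd h2 h1)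

theorem Mo_pos {z : ℕ} {S : Finset ℕ} (hS : S ∈ (LZ.PP z).powerset) : 1 ≤ LZ.nS S :=
  Finset.prod_pos fun r hr => (Mo_prime hS r hr).pos

theorem Mo_cf {l : ℝ} (hl : 0 < l) (S : Finset ℕ) : |cf l S| ≤ 1 := by
  unfold cf wn
  rw [abs_mul, abs_pow, abs_neg, abs_one, one_pow, one_mul, abs_pow, abs_of_nonneg (le_max_left _ _)]
  refine pow_le_one₀ (le_max_left _ _) (max_le zero_le_one ?_)
  have : 0 ≤ Real.log (LZ.nS S) / l := div_nonneg (Real.log_natCast_nonneg _) hl.le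
  linarith

theorem Mo_diff (l : ℝ) : Differentiable ℂ (Mo l) := by
  unfold Mo
  refine Differentiable.fun_sum fun S hS => ?_
  refine (differentiable_const _).mul fun s => ?_
  refine DifferentiableAt.const_cpow (by fun_prop) (Or.inl ?_)
  have := Mo_pos hS
  exact_mod_cast (by omega : LZ.nS S ≠ 0)

theorem Mo_bd (l : ℝ) : ∃ C : ℝ, 0 < C ∧ ∀ s : ℂ, 0 ≤ s.re → ‖Mo l s‖ ≤ C := by
  refine ⟨(∑ S ∈ (LZ.PP ⌊Real.exp l⌋₊).powerset, |cf l S|) + 1, ?_, fun s hs => ?_⟩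
  · have : 0 ≤ ∑ S ∈ (LZ.PP ⌊Real.exp l⌋₊).powerset, |cf l S| := Finset.sum_nonneg fun _ _ => abs_nonneg _
    linarith
  unfold Mo
  refine (norm_sum_le _ _).trans ?_
  have : ∑ S ∈ (LZ.PP ⌊Real.exp l⌋₊).powerset, ‖(cf l S : ℂ) * (LZ.nS S : ℂ) ^ (-s)‖ ≤
      ∑ S ∈ (LZ.PP ⌊Real.exp l⌋₊).powerset, |cf l S| := by
    refine Finset.sum_le_sum fun S hS => ?_
    have h1 := Mo_pos hS
    rw [norm_mul, Complex.norm_real, Real.norm_eq_abs, Complex.norm_natCast_cpow_of_pos (by omega), neg_re]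
    have h2 : (LZ.nS S : ℝ) ^ (-s.re) ≤ 1 :=
      Real.rpow_le_one_of_one_le_of_nonpos (by exact_mod_cast h1) (by linarith)
    exact mul_le_of_le_one_right (abs_nonneg _) h2
  linarith

theorem Mo_near {l : ℝ} (hl : 0 < l) {s : ℂ} (hs : 3 ≤ s.re) : ‖Mo l s - 1‖ ≤ 4 * (2 : ℝ) ^ (-s.re) := by
  classical
  unfold Mo
  set P := (LZ.PP ⌊Real.exp l⌋₊).powerset with hP
  have h0 : (∅ : Finset ℕ) ∈ P := Finset.empty_mem_powerset _
  rw [← Finset.add_sum_erase P _ h0]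
  have h1 : (cf l ∅ : ℂ) * ((LZ.nS ∅ : ℕ) : ℂ) ^ (-s) = 1 := by
    simp [cf, LZ.nS, wn]
  rw [h1, add_sub_cancel_left]
  refine (norm_sum_le _ _).trans ?_
  have h2 : ∀ S ∈ P.erase ∅, ‖(cf l S : ℂ) * ((LZ.nS S : ℕ) : ℂ) ^ (-s)‖ ≤
      (((LZ.nS S - 2 : ℕ) : ℝ) + 2) ^ (-s.re) := by
    intro S hS
    have hS1 := Finset.mem_erase.1 hS
    have h3 := Mo_ge hS1.2 hS1.1
    have h4 : ((LZ.nS S - 2 : ℕ) : ℝ) + 2 = (LZ.nS S : ℝ) := by
      rw [Nat.cast_sub h3]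
      push_cast
      ring
    rw [h4, norm_mul, Complex.norm_natCast_cpow_of_pos (by omega), neg_re]
    have h5 : ‖(cf l S : ℂ)‖ ≤ 1 := by
      rw [Complex.norm_real]
      exact Mo_cf hl S
    have h7 : 0 ≤ (LZ.nS S : ℝ) ^ (-s.re) := by positivity
    calc _ ≤ 1 * (LZ.nS S : ℝ) ^ (-s.re) := by gcongr
      _ = _ := by ring
  refine (Finset.sum_le_sum h2).trans ?_
  have h8 : ∑ S ∈ P.erase ∅, (((LZ.nS S - 2 : ℕ) : ℝ) + 2) ^ (-s.re) =
      ∑ n ∈ (P.erase ∅).image (fun S => LZ.nS S - 2), ((n : ℝ) + 2) ^ (-s.re) := by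
    rw [Finset.sum_image]
    intro S hS S' hS' h
    have hS1 := Finset.mem_erase.1 (Finset.mem_coe.1 hS)
    have hS2 := Finset.mem_erase.1 (Finset.mem_coe.1 hS')
    have h3 := Mo_ge hS1.2 hS1.1
    have h4 := Mo_ge hS2.2 hS2.1
    refine Mo_inj hS1.2 hS2.2 ?_
    simp only at h
    omega
  rw [h8]
  exact ((tail_summable hs).sum_le_tsum _ (fun n _ => by positivity)).trans (tail_tsum hs)

end LS.D3

namespace LS

open LW

/-- strip_sharp for f z = ((s-1)/(s+1))^2 V(s) Mo(s + 2/L), s = 1/2 - 2/L + pi T z, A and its conjugate; R = 2 -/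
theorem V_zeros (ε : ℝ) (hε : 0 < ε) : ∃ T0 : ℝ, 2 ≤ T0 ∧ ∀ T : ℝ, T0 ≤ T → ∀ A : Finset ℂ,
    (∀ ρ ∈ A, VV (11/10) T ρ = 0 ∧ 1/2 ≤ ρ.re ∧ 0 < ρ.im) →
    ∑ ρ ∈ A, (analyticOrderNatAt (VV (11/10) T) ρ : ℝ) * (Real.cosh (ρ.im / T))⁻¹ ≤
      T * Real.log T / 16 * (Real.log D0 + ε) := by
  have hp := Real.pi_gt_three
  have hD0 : 0 < D0 := by
    unfold D0
    have h4 : (1 : ℝ) + 4 ≤ Real.exp 4 := by
      have := Real.add_one_le_exp (4 : ℝ)
      linarith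
    have h5 : (16 : ℝ) < Real.exp 4 := by
      have h6 : Real.exp 4 = Real.exp 1 ^ 4 := by
        rw [← Real.exp_nat_mul]
        norm_num
      have h7 : (2.7 : ℝ) < Real.exp 1 := by
        have := Real.exp_one_gt_d9
        linarith
      have h8 : (2.7 : ℝ) ^ 4 < Real.exp 1 ^ 4 := pow_lt_pow_left₀ h7 (by norm_num) (by norm_num)
      rw [h6]
      refine lt_trans ?_ h8
      norm_num
    have h6 : 0 < (85 * Real.exp 4 - 1361) / 3200 + 1 := by
      have : (85 * 16 : ℝ) < 85 * Real.exp 4 := by linarith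
      linarith
    nlinarith
  -- c slightly larger than D0
  obtain ⟨ε1, hε1, hlog⟩ : ∃ ε1 : ℝ, 0 < ε1 ∧ Real.log (D0 + ε1) ≤ Real.log D0 + ε / 2 := by
    refine ⟨D0 * (Real.exp (ε / 2) - 1), ?_, ?_⟩
    · have h1 : 1 < Real.exp (ε / 2) := Real.one_lt_exp_iff.2 (by linarith)
      exact mul_pos hD0 (by linarith)
    · have h1 : D0 + D0 * (Real.exp (ε / 2) - 1) = D0 * Real.exp (ε / 2) := by ring
      rw [h1, Real.log_mul hD0.ne' (Real.exp_ne_zero _), Real.log_exp]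
  obtain ⟨T1, hT1, hmean⟩ := sech_mean ε1 hε1
  set c : ℝ := D0 + ε1 with hc
  have hc0 : 0 < c := by linarith
  have hε2 : 0 < ε / 2 := by linarith
  -- the error terms
  set D : ℝ := 64 with hD
  have hDp : 0 < D := by positivity
  have t1 : Tendsto (fun T : ℝ => D * (2 : ℝ) ^ (-T)) atTop (𝓝 0) := by
    have h1 : Tendsto (fun T : ℝ => (2 : ℝ) ^ (-T)) atTop (𝓝 0) := by
      have h2 : Tendsto (fun T : ℝ => Real.exp (-(Real.log 2 * T))) atTop (𝓝 0) := by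
        refine Real.tendsto_exp_neg_atTop_nhds_zero.comp ?_
        exact tendsto_id.const_mul_atTop (Real.log_pos one_lt_two)
      refine h2.congr fun T => ?_
      rw [Real.rpow_def_of_pos two_pos]
      congr 1
      ring
    simpa using h1.const_mul D
  have t2 : Tendsto (fun T : ℝ => 2 / T) atTop (𝓝 0) := tendsto_const_nhds.div_atTop tendsto_id
  have t3 : Tendsto (fun T : ℝ => 2 / Real.log T) atTop (𝓝 0) :=
    tendsto_const_nhds.div_atTop Real.tendsto_log_atTop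
  have t4 : Tendsto (fun T : ℝ => (11/10) / Real.log T) atTop (𝓝 0) :=
    tendsto_const_nhds.div_atTop Real.tendsto_log_atTop
  have t5 : Tendsto (fun T : ℝ => 4 * (Real.log (1 + D * (2 : ℝ) ^ (-T)) -
      Real.log ((1 - 2 / T) ^ 2 * (1 - D * (2 : ℝ) ^ (-T)))) +
      (2 / Real.log T / T) ^ 2 * (Real.log c + ε / 2)) atTop (𝓝 0) := by
    have h1 : Tendsto (fun T : ℝ => 1 + D * (2 : ℝ) ^ (-T)) atTop (𝓝 1) := by
      simpa using t1.const_add 1
    have h2 : Tendsto (fun T : ℝ => 1 - D * (2 : ℝ) ^ (-T)) atTop (𝓝 1) := by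
      simpa using t1.const_sub 1
    have h3 : Tendsto (fun T : ℝ => 1 - 2 / T) atTop (𝓝 1) := by
      simpa using t2.const_sub 1
    have h4 : Tendsto (fun T : ℝ => (1 - 2 / T) ^ 2 * (1 - D * (2 : ℝ) ^ (-T))) atTop (𝓝 1) := by
      simpa using (h3.pow 2).mul h2
    have h5 : Tendsto (fun T : ℝ => Real.log (1 + D * (2 : ℝ) ^ (-T))) atTop (𝓝 0) := by
      simpa using h1.log one_ne_zero
    have h6 : Tendsto (fun T : ℝ => Real.log ((1 - 2 / T) ^ 2 * (1 - D * (2 : ℝ) ^ (-T)))) atTop (𝓝 0) := by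
      simpa using h4.log one_ne_zero
    have h7 : Tendsto (fun T : ℝ => 2 / Real.log T / T) atTop (𝓝 0) := t3.div_atTop tendsto_id
    have h8 := ((h5.sub h6).const_mul 4).add ((h7.pow 2).mul_const (Real.log c + ε / 2))
    simpa using h8
  have ev : ∀ᶠ T : ℝ in atTop, 5 ≤ T ∧ D * (2 : ℝ) ^ (-T) < 1 ∧ 2 / Real.log T < 1/16 ∧
      (11/10) / Real.log T < 1 ∧ 1 < Real.log T ∧
      4 * (Real.log (1 + D * (2 : ℝ) ^ (-T)) -
      Real.log ((1 - 2 / T) ^ 2 * (1 - D * (2 : ℝ) ^ (-T)))) +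
      (2 / Real.log T / T) ^ 2 * (Real.log c + ε / 2) < ε / 2 := by
    filter_upwards [eventually_ge_atTop (5 : ℝ), t1.eventually (gt_mem_nhds one_pos),
      t3.eventually (gt_mem_nhds (by norm_num : (0:ℝ) < 1/16)), t4.eventually (gt_mem_nhds one_pos),
      Real.tendsto_log_atTop.eventually_gt_atTop 1, t5.eventually (gt_mem_nhds hε2)] with T a1 a2 a3 a4 a5 a6
    exact ⟨a1, a2, a3, a4, a5, a6⟩
  obtain ⟨T0, hT0⟩ := eventually_atTop.1 ev
  refine ⟨max 2 (max T0 T1), le_max_left _ _, fun T hT A hA => ?_⟩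
  have hTT0 : T0 ≤ T := ((le_max_left _ _).trans (le_max_right _ _)).trans hT
  have hTT1 : T1 ≤ T := ((le_max_right _ _).trans (le_max_right _ _)).trans hT
  obtain ⟨a1, a2, a3, a4, a5, a6⟩ := hT0 T hTT0
  have hTp : 0 < T := by linarith
  have hL : 0 < Real.log T := by linarith
  set L : ℝ := Real.log T with hLdef
  set m : ℝ := (11/10) / L with hm
  have hm0 : 0 ≤ m := by positivity
  set a : ℝ := 1/2 - 2 / L with ha
  set δ : ℝ := D * (2 : ℝ) ^ (-T) with hδ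
  have hRL : 0 < 2 / L := by positivity
  set l : ℝ := 6/25 * L with hl
  have hl0 : 0 < l := by positivity
  set M : ℂ → ℂ := fun s => Mo l (s + ((2 / L : ℝ) : ℂ)) with hMdef
  have hM : Differentiable ℂ M := (D3.Mo_diff l).comp (by fun_prop)
  have hsh : ∀ s : ℂ, (s + ((2 / L : ℝ) : ℂ)).re = s.re + 2 / L := fun s => by
    rw [Complex.add_re, Complex.ofReal_re]
  have hMb : ∃ C : ℝ, 0 < C ∧ ∀ s : ℂ, 0 ≤ s.re → ‖M s‖ ≤ C := by
    obtain ⟨C, hC, h⟩ := D3.Mo_bd l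
    exact ⟨C, hC, fun s hs => h _ (by rw [hsh]; linarith)⟩
  have hδs : ∀ s : ℂ, T ≤ s.re → ‖D3.VF m s * M s - 1‖ ≤ δ := by
    intro s hs
    have h2 := D3.V_near hm0 a4.le (s := s) (by linarith)
    have h3 : ‖M s - 1‖ ≤ 4 * (2 : ℝ) ^ (-s.re) := by
      refine (D3.Mo_near hl0 (s := s + ((2 / L : ℝ) : ℂ)) (by rw [hsh]; linarith)).trans ?_
      rw [hsh]
      have h4 : (2 : ℝ) ^ (-(s.re + 2 / L)) ≤ (2 : ℝ) ^ (-s.re) :=
        Real.rpow_le_rpow_of_exponent_le (by norm_num) (by linarith)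
      gcongr
    have hv : ‖D3.VF m s - 1‖ ≤ 12 * (2 : ℝ) ^ (-s.re) := h2
    set v := D3.VF m s
    set w := M s
    have hpp : (0 : ℝ) < (2 : ℝ) ^ (-s.re) := by positivity
    have hp1 : (2 : ℝ) ^ (-s.re) ≤ 1 := Real.rpow_le_one_of_one_le_of_nonpos (by norm_num) (by linarith)
    have hpT : (2 : ℝ) ^ (-s.re) ≤ (2 : ℝ) ^ (-T) :=
      Real.rpow_le_rpow_of_exponent_le (by norm_num) (by linarith)
    have e : v * w - 1 = (v - 1) * (w - 1) + (v - 1) + (w - 1) := by ring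
    rw [e]
    calc ‖(v - 1) * (w - 1) + (v - 1) + (w - 1)‖ ≤ ‖v - 1‖ * ‖w - 1‖ + ‖v - 1‖ + ‖w - 1‖ := by
          refine (norm_add₃_le).trans ?_
          rw [norm_mul]
      _ ≤ (12 * (2 : ℝ) ^ (-s.re)) * (4 * (2 : ℝ) ^ (-s.re)) + 12 * (2 : ℝ) ^ (-s.re) + 4 * (2 : ℝ) ^ (-s.re) := by
          gcongr
      _ = 16 * (2 : ℝ) ^ (-s.re) + 48 * (2 : ℝ) ^ (-s.re) * (2 : ℝ) ^ (-s.re) := by ring
      _ ≤ 16 * (2 : ℝ) ^ (-s.re) + 48 * (2 : ℝ) ^ (-s.re) * 1 := by gcongr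
      _ = D * (2 : ℝ) ^ (-s.re) := by
          rw [hD]
          ring
      _ ≤ D * (2 : ℝ) ^ (-T) := by gcongr
  have hmean2 : ∫ u : ℝ, ‖D3.VF m (a + (Real.pi * T * u : ℝ) * I) * M (a + (Real.pi * T * u : ℝ) * I)‖ ^ 2 * sw u ≤ c := by
    refine le_trans (le_of_eq ?_) (hmean T hTT1).2
    congr 1
    funext u
    have e1 : ((a : ℝ) : ℂ) + ((Real.pi * T * u : ℝ) : ℂ) * I =
        1/2 - 2 / (L : ℂ) + ((Real.pi * T * u : ℝ) : ℂ) * I := by
      rw [ha]
      push_cast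
      ring
    have e2 : M ((a : ℂ) + ((Real.pi * T * u : ℝ) : ℂ) * I) = Mo l (1/2 + ((Real.pi * T * u : ℝ) : ℂ) * I) := by
      rw [hMdef]
      simp only
      congr 1
      rw [ha]
      push_cast
      ring
    rw [e2, e1]
    rfl
  have hcore := D3.core (a := a) (T := T) (m := m) (c := c) (δ := δ) (M := M) hM hMb (by linarith) (by linarith) a1
    hm0 a4.le hc0 hmean2 hδs a2 A hA
  have hx : (1/2 - a) / T = 2 / L / T := by
    rw [ha]
    ring
  rw [hx] at hcore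
  set x : ℝ := 2 / L / T with hxdef
  have hx0 : 0 < x := by positivity
  have hx3 : x < 1/16 := by
    have h1 : x ≤ 2 / L := by
      rw [hxdef]
      exact div_le_self hRL.le (by linarith)
    linarith
  set S : ℝ := ∑ z ∈ A, (analyticOrderNatAt (D3.VF m) z : ℝ) * (Real.cosh (z.im / T))⁻¹ with hS
  have hS0 : 0 ≤ S := Finset.sum_nonneg fun z _ => mul_nonneg (Nat.cast_nonneg _) (inv_nonneg.2 (Real.cosh_pos _).le)
  have hsin : x * (1 - x ^ 2) ≤ Real.sin x := by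
    have h1 := Real.sin_gt_sub_cube hx0
    have h2 : 0 ≤ x ^ 3 := by positivity
    have h3 : x * (1 - x ^ 2) = x - x ^ 3 := by ring
    rw [h3]
    linarith
  have h1 : 4 * (x * (1 - x ^ 2) * S) ≤ Real.log c / 2 + 2 * Real.log (1 + δ) -
      2 * Real.log ((1 - 2 / T) ^ 2 * (1 - δ)) := by
    refine le_trans ?_ hcore
    have := mul_le_mul_of_nonneg_right hsin hS0
    linarith
  have h2 : 8 * (x * (1 - x ^ 2) * S) ≤ (Real.log c + ε / 2) * (1 - x ^ 2) := by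
    nlinarith
  have hx2 : 0 < 1 - x ^ 2 := by nlinarith
  have h3 : 8 * (x * S) ≤ Real.log c + ε / 2 := by
    have h4 : (8 * (x * S)) * (1 - x ^ 2) ≤ (Real.log c + ε / 2) * (1 - x ^ 2) := by
      calc (8 * (x * S)) * (1 - x ^ 2) = 8 * (x * (1 - x ^ 2) * S) := by ring
        _ ≤ _ := h2
    exact le_of_mul_le_mul_right h4 hx2
  have h4 : 8 * (x * S) ≤ Real.log D0 + ε := by linarith
  have h5 : S = T * L / 16 * (8 * (x * S)) := by
    rw [hxdef]
    field_simp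
    ring
  have h6 : S ≤ T * L / 16 * (Real.log D0 + ε) := by
    rw [h5]
    exact mul_le_mul_of_nonneg_left h4 (by positivity)
  exact h6

end LS
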