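import Pool.Agent.Lib.MP_0f5a55_nt.S.Arg
import Pool.Agent.Lib.MP_0f5a55_nt.S.D3
import Pool.Agent.Lib.MP_0f5a55_nt.S.B11

open Complex MeasureTheory Set Filter Topology
open scoped ComplexConjugate

namespace LS

/-- antiderivative of 1/cosh -/
private noncomputable def E1_gd (x : ℝ) : ℝ := Real.arctan (Real.sinh x)

private theorem hasDerivAt_gd (x : ℝ) : HasDerivAt E1_gd ((Real.cosh x)⁻¹) x := by
  have h := (Real.hasDerivAt_sinh x).arctan
  have e : 1 / (1 + Real.sinh x ^ 2) * Real.cosh x = (Real.cosh x)⁻¹ := by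
    have h1 : 1 + Real.sinh x ^ 2 = Real.cosh x ^ 2 := by
      have := Real.cosh_sq x
      linarith
    rw [h1]
    have h2 : Real.cosh x ≠ 0 := (Real.cosh_pos x).ne'
    field_simp
  rwa [e] at h

private theorem E1_gd_sub_le {a b : ℝ} (ha : 0 ≤ a) (hab : a < b) :
    E1_gd b - E1_gd a ≤ (b - a) * (Real.cosh a)⁻¹ := by
  obtain ⟨c, hc, h⟩ := exists_hasDerivAt_eq_slope E1_gd (fun x => (Real.cosh x)⁻¹) hab
    (fun x _ => (hasDerivAt_gd x).continuousAt.continuousWithinAt) (fun x _ => hasDerivAt_gd x)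
  have h0 : 0 < b - a := sub_pos.mpr hab
  have h1 : E1_gd b - E1_gd a = (b - a) * (Real.cosh c)⁻¹ := by
    rw [h]
    field_simp
  rw [h1]
  refine mul_le_mul_of_nonneg_left ?_ h0.le
  refine inv_anti₀ (Real.cosh_pos a) ?_
  rw [Real.cosh_le_cosh, abs_of_nonneg ha, abs_of_nonneg (ha.trans hc.1.le)]
  exact hc.1.le

/-- step h and number of blocks J -/
private theorem exists_mesh : ∃ h : ℝ, ∃ J : ℕ, 0 < h ∧ 1 ≤ ((J : ℝ) + 1) * h ∧
    Real.pi / 2 - 1/50 ≤ ∑ j ∈ Finset.range J, h * (Real.cosh (((j : ℝ) + 2) * h))⁻¹ := by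
  have c0 : ContinuousAt (fun h : ℝ => E1_gd (2 * h)) 0 := by
    have := (hasDerivAt_gd (2 * 0)).continuousAt
    exact ContinuousAt.comp (f := fun h : ℝ => 2 * h) this (by fun_prop)
  have g0 : E1_gd (2 * 0) = 0 := by simp [E1_gd]
  have e1 : ∀ᶠ h in 𝓝 (0:ℝ), E1_gd (2 * h) < 1/100 := by
    have : Tendsto (fun h : ℝ => E1_gd (2 * h)) (𝓝 0) (𝓝 0) := by
      have h2 := c0.tendsto
      simp only [g0] at h2
      exact h2
    exact this.eventually_lt_const (by norm_num)
  obtain ⟨h, hh, hpos⟩ : ∃ h : ℝ, E1_gd (2 * h) < 1/100 ∧ 0 < h := by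
    have e2 : ∀ᶠ h in 𝓝[>] (0:ℝ), E1_gd (2 * h) < 1/100 := e1.filter_mono nhdsWithin_le_nhds
    exact (e2.and self_mem_nhdsWithin).exists
  have t1 : Tendsto E1_gd atTop (𝓝 (Real.pi / 2)) :=
    (Real.tendsto_arctan_atTop.mono_right nhdsWithin_le_nhds).comp
      (tendsto_atTop_mono' atTop ((eventually_ge_atTop 0).mono fun x hx =>
        Real.self_le_sinh_iff.mpr hx) tendsto_id)
  have t2 : Tendsto (fun J : ℕ => ((J : ℝ) + 2) * h) atTop atTop :=
    Tendsto.atTop_mul_const hpos (tendsto_atTop_add_const_right _ _ tendsto_natCast_atTop_atTop)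
  have t3 : Tendsto (fun J : ℕ => ((J : ℝ) + 1) * h) atTop atTop :=
    Tendsto.atTop_mul_const hpos (tendsto_atTop_add_const_right _ _ tendsto_natCast_atTop_atTop)
  obtain ⟨J, hJ1, hJ2⟩ := (((t1.comp t2).eventually_const_lt
    (show Real.pi / 2 - 1/100 < Real.pi / 2 by linarith)).and (t3.eventually_ge_atTop 1)).exists
  refine ⟨h, J, hpos, hJ2, ?_⟩
  have key : ∀ n : ℕ, E1_gd (((n : ℝ) + 2) * h) - E1_gd (2 * h) ≤
      ∑ j ∈ Finset.range n, h * (Real.cosh (((j : ℝ) + 2) * h))⁻¹ := by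
    intro n
    induction n with
    | zero => simp
    | succ n ih =>
      rw [Finset.sum_range_succ]
      have h1 := E1_gd_sub_le (a := ((n : ℝ) + 2) * h) (b := (((n + 1 : ℕ) : ℝ) + 2) * h)
        (by positivity) (by push_cast; nlinarith)
      have h2 : (((n + 1 : ℕ) : ℝ) + 2) * h - ((n : ℝ) + 2) * h = h := by push_cast; ring
      rw [h2] at h1
      linarith
  have := key J
  simp only [Function.comp_apply] at hJ1
  linarith

/-- the count of one height, before rescaling -/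
private theorem count_aux (h : ℝ) (J : ℕ) (hh : 0 < h) (hJ : 1 ≤ ((J : ℝ) + 1) * h)
    (hS : Real.pi / 2 - 1/50 ≤ ∑ j ∈ Finset.range J, h * (Real.cosh (((j : ℝ) + 2) * h))⁻¹) :
    ∃ T3 : ℝ, 2 ≤ T3 ∧ ∀ T : ℝ, T3 ≤ T → ∃ Y : Finset ℝ,
    (∀ g ∈ Y, 0 < g ∧ g ≤ ((J : ℝ) + 1) * h * T ∧ riemannZeta (1/2 + g * I) = 0 ∧
      deriv riemannZeta (1/2 + g * I) ≠ 0) ∧
    1/1000 * (T * Real.log T) ≤ Y.card := by
  obtain ⟨C, T1, hC, hT1, HB⟩ := block_fin (11/10) (((J : ℝ) + 1) * h) (by norm_num) (by norm_num) hJ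
  obtain ⟨T2, hT2, HV⟩ := V_zeros (1/200) (by norm_num)
  set E : ℝ := |Real.log (h / (2 * Real.pi))| with hE
  have hE0 : 0 ≤ E := abs_nonneg _
  have hpi : 3 < Real.pi := Real.pi_gt_three
  refine ⟨max (max T1 T2) (max (1 / h ^ 2) (max (Real.exp (1000 * E)) (2000 * (J * C)))), ?_,
    fun T hT => ?_⟩
  · exact hT1.trans (le_max_left _ _ |>.trans (le_max_left _ _))
  have g1 : T1 ≤ T := (le_max_left _ _ |>.trans (le_max_left _ _)).trans hT
  have g2 : T2 ≤ T := (le_max_right _ _ |>.trans (le_max_left _ _)).trans hT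
  have g3 : 1 / h ^ 2 ≤ T := (le_max_left _ _ |>.trans (le_max_right _ _)).trans hT
  have g4 : Real.exp (1000 * E) ≤ T :=
    ((le_max_left _ _ |>.trans (le_max_right _ _)).trans (le_max_right _ _)).trans hT
  have g5 : 2000 * (J * C) ≤ T :=
    ((le_max_right _ _ |>.trans (le_max_right _ _)).trans (le_max_right _ _)).trans hT
  have hT0 : 0 < T := by linarith
  have hl1 : 1000 * E ≤ Real.log T := (Real.le_log_iff_exp_le hT0).mpr g4
  have hl0 : 0 < Real.log T := Real.log_pos (by linarith)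
  -- sqrt T is at most h T
  have hsq : Real.sqrt T ≤ h * T := by
    rw [Real.sqrt_le_left (by positivity)]
    have : 1 ≤ h ^ 2 * T := by
      rw [div_le_iff₀ (by positivity)] at g3
      linarith
    nlinarith
  have blk : ∀ j : ℕ, j < J → ∃ A : Finset ℂ, ∃ Y : Finset ℝ,
      (∀ z ∈ A, VV (11/10) T z = 0 ∧ 1/2 ≤ z.re ∧ ((j : ℝ) + 1) * h * T < z.im ∧
        z.im < ((j : ℝ) + 2) * h * T) ∧
      (∀ g ∈ Y, ((j : ℝ) + 1) * h * T < g ∧ g < ((j : ℝ) + 2) * h * T ∧
        riemannZeta (1/2 + g * I) = 0 ∧ deriv riemannZeta (1/2 + g * I) ≠ 0) ∧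
      (((j : ℝ) + 2) * h * T - ((j : ℝ) + 1) * h * T) / (2 * Real.pi) *
        Real.log (((j : ℝ) + 1) * h * T / (2 * Real.pi)) -
        2 * ∑ z ∈ A, (analyticOrderNatAt (VV (11/10) T) z : ℝ) - C * Real.log T ≤ Y.card := by
    intro j hj
    have hj1 : (j : ℝ) + 2 ≤ (J : ℝ) + 1 := by
      have : ((j + 1 : ℕ) : ℝ) ≤ (J : ℝ) := by exact_mod_cast hj
      push_cast at this
      linarith
    refine HB T g1 _ _ ?_ ?_ ?_
    · refine hsq.trans ?_
      have : (0 : ℝ) ≤ (j : ℝ) * (h * T) := by positivity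
      nlinarith
    · have : 0 < h * T := by positivity
      nlinarith
    · have : 0 ≤ h * T := by positivity
      nlinarith
  choose! A Y hA hY hle using blk
  -- disjointness
  have sep : ∀ i j : ℕ, i < j → ((i : ℝ) + 2) * h * T ≤ ((j : ℝ) + 1) * h * T := by
    intro i j hij
    have h1 : (i : ℝ) + 2 ≤ (j : ℝ) + 1 := by
      have : ((i + 1 : ℕ) : ℝ) ≤ (j : ℝ) := by exact_mod_cast hij
      push_cast at this
      linarith
    have : 0 ≤ h * T := by positivity
    nlinarith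
  have dY : ∀ i ∈ Finset.range J, ∀ j ∈ Finset.range J, i ≠ j → Disjoint (Y i) (Y j) := by
    intro i hi j hj hij
    rw [Finset.mem_range] at hi hj
    rw [Finset.disjoint_left]
    intro g gi gj
    have a1 := hY i hi g gi
    have a2 := hY j hj g gj
    rcases lt_or_gt_of_ne hij with h1 | h1
    · have := sep i j h1
      linarith [a1.2.1, a2.1]
    · have := sep j i h1
      linarith [a2.2.1, a1.1]
  have dA : ∀ i ∈ Finset.range J, ∀ j ∈ Finset.range J, i ≠ j → Disjoint (A i) (A j) := by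
    intro i hi j hj hij
    rw [Finset.mem_range] at hi hj
    rw [Finset.disjoint_left]
    intro g gi gj
    have a1 := hA i hi g gi
    have a2 := hA j hj g gj
    rcases lt_or_gt_of_ne hij with h1 | h1
    · have := sep i j h1
      linarith [a1.2.2.2, a2.2.2.1]
    · have := sep j i h1
      linarith [a2.2.2.2, a1.2.2.1]
  refine ⟨(Finset.range J).biUnion Y, ?_, ?_⟩
  · intro g hg
    rw [Finset.mem_biUnion] at hg
    obtain ⟨j, hj, hg⟩ := hg
    rw [Finset.mem_range] at hj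
    obtain ⟨b1, b2, b3, b4⟩ := hY j hj g hg
    refine ⟨?_, ?_, b3, b4⟩
    · have : (0 : ℝ) ≤ ((j : ℝ) + 1) * h * T := by positivity
      linarith
    · have h1 : (j : ℝ) + 2 ≤ (J : ℝ) + 1 := by
        have : ((j + 1 : ℕ) : ℝ) ≤ (J : ℝ) := by exact_mod_cast hj
        push_cast at this
        linarith
      have : 0 ≤ h * T := by positivity
      nlinarith
  rw [Finset.card_biUnion dY]
  push_cast
  set w : ℕ → ℝ := fun j => (Real.cosh (((j : ℝ) + 2) * h))⁻¹ with hw
  have w0 : ∀ j, 0 < w j := fun j => inv_pos.mpr (Real.cosh_pos _)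
  have w1 : ∀ j, w j ≤ 1 := fun j => inv_le_one_of_one_le₀ (Real.one_le_cosh _)
  -- the zeros of V
  have hV : ∑ j ∈ Finset.range J, w j * ∑ z ∈ A j, (analyticOrderNatAt (VV (11/10) T) z : ℝ) ≤
      T * Real.log T / 16 * (Real.log D0 + 1/200) := by
    refine le_trans ?_ (HV T g2 ((Finset.range J).biUnion A) ?_)
    · rw [Finset.sum_biUnion dA]
      refine Finset.sum_le_sum fun j hj => ?_
      rw [Finset.mem_range] at hj
      rw [Finset.mul_sum]
      refine Finset.sum_le_sum fun z hz => ?_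
      obtain ⟨-, -, b3, b4⟩ := hA j hj z hz
      rw [mul_comm]
      refine mul_le_mul_of_nonneg_left ?_ (Nat.cast_nonneg _)
      refine inv_anti₀ (Real.cosh_pos _) ?_
      rw [Real.cosh_le_cosh]
      have b5 : 0 ≤ z.im / T := by
        have : (0 : ℝ) ≤ ((j : ℝ) + 1) * h * T := by positivity
        exact div_nonneg (by linarith) hT0.le
      rw [abs_of_nonneg b5, abs_of_nonneg (by positivity), div_le_iff₀ hT0]
      exact b4.le
    · intro z hz
      rw [Finset.mem_biUnion] at hz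
      obtain ⟨j, hj, hz⟩ := hz
      rw [Finset.mem_range] at hj
      obtain ⟨b1, b2, b3, b4⟩ := hA j hj z hz
      have : (0 : ℝ) ≤ ((j : ℝ) + 1) * h * T := by positivity
      exact ⟨b1, b2, by linarith⟩
  have hV2 : T * Real.log T / 16 * (Real.log D0 + 1/200) ≤ T * Real.log T / 16 * (39/20 + 1/200) := by
    refine mul_le_mul_of_nonneg_left ?_ (by positivity)
    linarith [D0_num.2]
  -- one block
  have one : ∀ j ∈ Finset.range J, w j * (h * T / (2 * Real.pi) * (Real.log T - E)) -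
      2 * (w j * ∑ z ∈ A j, (analyticOrderNatAt (VV (11/10) T) z : ℝ)) - C * Real.log T ≤
      ((Y j).card : ℝ) := by
    intro j hj
    rw [Finset.mem_range] at hj
    have b1 := hle j hj
    have b2 : (((j : ℝ) + 2) * h * T - ((j : ℝ) + 1) * h * T) = h * T := by ring
    rw [b2] at b1
    have b3 : Real.log T - E ≤ Real.log (((j : ℝ) + 1) * h * T / (2 * Real.pi)) := by
      have c1 : Real.log (T * (h / (2 * Real.pi))) ≤ Real.log (((j : ℝ) + 1) * h * T / (2 * Real.pi)) := by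
        refine Real.log_le_log (by positivity) ?_
        have : T * (h / (2 * Real.pi)) ≤ ((j : ℝ) + 1) * (T * (h / (2 * Real.pi))) := by
          have c2 : (0 : ℝ) ≤ T * (h / (2 * Real.pi)) := by positivity
          have c3 : (0 : ℝ) ≤ (j : ℝ) := Nat.cast_nonneg _
          nlinarith
        refine this.trans (le_of_eq ?_)
        ring
      rw [Real.log_mul hT0.ne' (by positivity)] at c1
      have c4 : -E ≤ Real.log (h / (2 * Real.pi)) := neg_abs_le _
      linarith
    have b4 : h * T / (2 * Real.pi) * (Real.log T - E) ≤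
        h * T / (2 * Real.pi) * Real.log (((j : ℝ) + 1) * h * T / (2 * Real.pi)) :=
      mul_le_mul_of_nonneg_left b3 (by positivity)
    set S : ℝ := ∑ z ∈ A j, (analyticOrderNatAt (VV (11/10) T) z : ℝ) with hSdef
    have b5 : h * T / (2 * Real.pi) * (Real.log T - E) - 2 * S - C * Real.log T ≤ ((Y j).card : ℝ) := by
      linarith
    have b6 : (0 : ℝ) ≤ ((Y j).card : ℝ) := Nat.cast_nonneg _
    have b7 : w j * (h * T / (2 * Real.pi) * (Real.log T - E) - 2 * S - C * Real.log T) ≤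
        w j * ((Y j).card : ℝ) := mul_le_mul_of_nonneg_left b5 (w0 j).le
    have b8 : w j * ((Y j).card : ℝ) ≤ ((Y j).card : ℝ) := by
      have := w1 j
      nlinarith
    have b9 : w j * (C * Real.log T) ≤ C * Real.log T := by
      have c1 := w1 j
      have c2 : 0 ≤ C * Real.log T := by positivity
      nlinarith
    linarith [b7, b8, b9, mul_sub (w j) (h * T / (2 * Real.pi) * (Real.log T - E) - 2 * S) (C * Real.log T),
      mul_sub (w j) (h * T / (2 * Real.pi) * (Real.log T - E)) (2 * S), mul_left_comm (w j) 2 S]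
  have tot := Finset.sum_le_sum one
  rw [Finset.sum_sub_distrib, Finset.sum_sub_distrib, ← Finset.sum_mul, ← Finset.mul_sum,
    Finset.sum_const, Finset.card_range, nsmul_eq_mul] at tot
  have hS2 : Real.pi / 2 - 1/50 ≤ h * ∑ j ∈ Finset.range J, w j := by
    rw [Finset.mul_sum]
    exact hS
  have lE : 0 ≤ Real.log T - E := by linarith
  have m1 : (1/4 - 1/300) * (T * (Real.log T - E)) ≤
      (∑ j ∈ Finset.range J, w j) * (h * T / (2 * Real.pi) * (Real.log T - E)) := by
    have c1 : (1/4 - 1/300 : ℝ) ≤ (h * ∑ j ∈ Finset.range J, w j) / (2 * Real.pi) := by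
      rw [le_div_iff₀ (by positivity)]
      nlinarith
    have c2 : (∑ j ∈ Finset.range J, w j) * (h * T / (2 * Real.pi) * (Real.log T - E)) =
        (h * ∑ j ∈ Finset.range J, w j) / (2 * Real.pi) * (T * (Real.log T - E)) := by
      ring
    rw [c2]
    exact mul_le_mul_of_nonneg_right c1 (by positivity)
  have m2 : T * (1000 * E) ≤ T * Real.log T := mul_le_mul_of_nonneg_left hl1 hT0.le
  have m3 : (2000 * (J * C)) * Real.log T ≤ T * Real.log T := mul_le_mul_of_nonneg_right g5 hl0.le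
  have m4 : (1/4 - 1/300) * (T * (Real.log T - E)) = (1/4 - 1/300) * (T * Real.log T) -
      (1/4 - 1/300) * (T * E) := by ring
  have m5 : (J : ℝ) * (C * Real.log T) = (J * C) * Real.log T := by ring
  have m6 : T * Real.log T / 16 * (39/20 + 1/200) = (1955/1000/16) * (T * Real.log T) := by ring
  have m7 : 0 ≤ T * Real.log T := by positivity
  have m8 : 0 ≤ T * E := by positivity
  nlinarith [tot, hV, hV2, m1, m2, m3, m4, m5, m6, m7, m8]

/-- partition of (eta T, K T) into J blocks x_j T, weights w_j = 1/cosh(x_(j+1)) <= 1/cosh(im z/T); LS.block, LS.V_zeros,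
D0_num: 1/4 - (39/20)/8 > 0; then replace T by T/K -/
theorem simple_count : ∃ c T0 : ℝ, 0 < c ∧ 2 ≤ T0 ∧ ∀ T : ℝ, T0 ≤ T → ∃ Y : Finset ℝ,
    (∀ g ∈ Y, 0 < g ∧ g ≤ T ∧ riemannZeta (1/2 + g * I) = 0 ∧ deriv riemannZeta (1/2 + g * I) ≠ 0) ∧
    c * T * Real.log T ≤ Y.card := by
  obtain ⟨h, J, hh, hJ, hS⟩ := exists_mesh
  obtain ⟨T3, hT3, H⟩ := count_aux h J hh hJ hS
  set K : ℝ := ((J : ℝ) + 1) * h with hK
  have hK0 : 0 < K := by linarith
  refine ⟨1 / (2000 * K), max (K * T3) (K ^ 2), by positivity, ?_, fun T hT => ?_⟩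
  · refine le_trans ?_ (le_max_left _ _)
    nlinarith
  have hT1 : K * T3 ≤ T := (le_max_left _ _).trans hT
  have hT2 : K ^ 2 ≤ T := (le_max_right _ _).trans hT
  have hT0 : 0 < T := by nlinarith
  obtain ⟨Y, hY, hc⟩ := H (T / K) (by rw [le_div_iff₀ hK0]; linarith)
  refine ⟨Y, fun g hg => ?_, le_trans ?_ hc⟩
  · obtain ⟨a, b, c, d⟩ := hY g hg
    refine ⟨a, ?_, c, d⟩
    rwa [mul_div_cancel₀ _ hK0.ne'] at b
  · have e1 : Real.log T ≤ 2 * Real.log (T / K) := by
      rw [Real.log_div hT0.ne' hK0.ne']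
      have : Real.log (K ^ 2) ≤ Real.log T := Real.log_le_log (by positivity) hT2
      rw [Real.log_pow] at this
      push_cast at this
      linarith
    have e2 : 1 / (2000 * K) * T * Real.log T = 1 / 2000 * (T / K * Real.log T) := by
      field_simp
    rw [e2]
    have e3 : T / K * Real.log T ≤ T / K * (2 * Real.log (T / K)) :=
      mul_le_mul_of_nonneg_left e1 (by positivity)
    linarith

end LS
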