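import Pool.Agent.Lib.MP_0f5a55_nt.V.V25

section F_S_T01

open Complex MeasureTheory Set Filter Topology
open scoped ComplexConjugate

namespace LT2

open LP
open LZ (kk nS cf EE ER PP wt Sep)

/-- for `0 ≤ Re s ≤ 2` -/
theorem A05_rpow_le {N h k : ℕ} (hN : 1 ≤ N) (hh : 1 ≤ h) (hk : 1 ≤ k) (hkh : k ≤ h) {x : ℝ}
    (hs0 : 0 ≤ x) (hs2 : x ≤ 2) :
    (2 * Real.pi * ((h : ℝ) / (k * N))) ^ (-x) ≤ (N : ℝ) ^ 2 := by
  have h4 : (1 : ℝ) ≤ h := by exact_mod_cast hh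
  have h5 : (1 : ℝ) ≤ k := by exact_mod_cast hk
  have h6' : (1 : ℝ) ≤ N := by exact_mod_cast hN
  have hkh' : (k : ℝ) ≤ h := by exact_mod_cast hkh
  have hpi := Real.pi_gt_three
  have h40 : (0 : ℝ) < h := one_pos.trans_le h4
  have h50 : (0 : ℝ) < k := one_pos.trans_le h5
  have h60 : (0 : ℝ) < N := one_pos.trans_le h6'
  have hr : 0 < 2 * Real.pi * ((h : ℝ) / (k * N)) :=
    mul_pos Real.two_pi_pos (div_pos h40 (mul_pos h50 h60))
  rw [Real.rpow_neg hr.le, ← Real.inv_rpow hr.le]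
  have h6 : (2 * Real.pi * ((h : ℝ) / (k * N)))⁻¹ ≤ (N : ℝ) := by
    rw [inv_le_iff_one_le_mul₀ hr]
    have h7 : (N : ℝ) * (2 * Real.pi * ((h : ℝ) / (k * N))) =
        2 * Real.pi * ((h : ℝ) / k) := by
      field_simp
    rw [h7]
    exact one_le_mul_of_one_le_of_one_le (by linarith only [hpi]) ((one_le_div h50).2 hkh')
  calc ((2 * Real.pi * ((h : ℝ) / (k * N)))⁻¹) ^ x ≤ (N : ℝ) ^ x :=
        Real.rpow_le_rpow (inv_nonneg.mpr hr.le) h6 hs0
    _ ≤ (N : ℝ) ^ (2 : ℝ) := Real.rpow_le_rpow_of_exponent_le h6' hs2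
    _ = (N : ℝ) ^ 2 := by rw [Real.rpow_two]

variable {N : ℕ} [NeZero N]

/-- bounds of the two kernels. -/
theorem G_bound (f g : ZMod N → ℂ) (U : ℝ) (hU : 0 ≤ U) : ∃ C : ℝ, 0 < C ∧ ∀ ε : ℝ, 0 < ε → ε ≤ 1/2 → ∀ h k : ℕ,
    1 ≤ h → 1 ≤ k → k ≤ h → ∀ η : ℂ, |η.re| ≤ 1/8 → |η.im| ≤ 2 * U → ∀ s : ℂ, 7/16 ≤ s.re → s.re ≤ 2 → 2 * U + 2 ≤ s.im →
    ‖ZMod.LFunction f (s + η) * ZMod.LFunction g s * Gamma s * (WW N ε h k) ^ (-s)‖ ≤
      C * (1:ℝ) * (1 + s.im) ^ 5 * Real.exp (-(ε * s.im)) ∧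
    ‖ZMod.LFunction f (s + η) * ZMod.LFunction g s * Gamma s * (-(WW N ε h k)) ^ (-s)‖ ≤
      C * (1:ℝ) * Real.exp (-s.im) := by
  obtain ⟨C1, hC1, hz1⟩ := per_pol f
  obtain ⟨C2, hC2, hz2⟩ := per_pol g
  obtain ⟨C4, hC4, hG⟩ := LZ.Gamma_strip
  have hN1 : 1 ≤ N := NeZero.one_le
  have hN0 : (0 : ℝ) < N := by exact_mod_cast hN1
  have hCC : 0 < 2 * C1 * C2 * C4 * (N : ℝ) ^ 2 :=
    mul_pos (mul_pos (mul_pos (mul_pos two_pos hC1) hC2) hC4) (pow_pos hN0 2)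
  refine ⟨2 * C1 * C2 * C4 * (N : ℝ) ^ 2 * (5 / 2) ^ 5, mul_pos hCC (by norm_num), ?_⟩
  intro ε hε hε1 h k hh hk hkh η hηre hηim s hs1 hs2 hs3
  have hη1 := abs_le.mp hηre
  have hη2 := abs_le.mp hηim
  have hy0 : 0 ≤ s.im := by linarith only [hs3, hU]
  have hpi := Real.pi_gt_three
  have h4 : (0 : ℝ) < h := by exact_mod_cast hh
  have h5 : (0 : ℝ) < k := by exact_mod_cast hk
  have hr : 0 < 2 * Real.pi * ((h : ℝ) / (k * N)) :=
    mul_pos Real.two_pi_pos (div_pos h4 (mul_pos h5 hN0))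
  have h1y : 0 ≤ 1 + s.im := add_nonneg zero_le_one hy0
  have a1 : ‖ZMod.LFunction f (s + η)‖ ≤ C1 * (2 * (1 + s.im)) := by
    have hi0 : 0 ≤ s.im + η.im := by linarith only [hs3, hη2.1]
    refine (hz1 (s + η) (by rw [add_re]; linarith only [hs1, hη1.1]) ?_).trans ?_
    · have h1 := Complex.abs_im_le_norm (s + η - 1)
      rw [sub_im, add_im, one_im, sub_zero, abs_of_nonneg hi0] at h1
      linarith only [h1, hs3, hη2.1]
    · rw [add_im, abs_of_nonneg hi0]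
      apply mul_le_mul_of_nonneg_left _ hC1.le
      linarith only [hs3, hη2.2, hU]
  have a2 : ‖ZMod.LFunction g s‖ ≤ C2 * (1 + s.im) := by
    refine (hz2 s (by linarith only [hs1]) ?_).trans ?_
    · have h1 := Complex.abs_im_le_norm (s - 1)
      rw [sub_im, one_im, sub_zero, abs_of_nonneg hy0] at h1
      linarith only [h1, hs3, hU]
    · rw [abs_of_nonneg hy0]
  have a3 : ‖Gamma s‖ ≤ C4 * (1 + s.im) ^ 3 * Real.exp (-(Real.pi / 2 * s.im)) := by
    have h1 := hG s.re s.im (by linarith only [hs1]) (by linarith only [hs2])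
    rw [Complex.re_add_im, abs_of_nonneg hy0] at h1
    exact h1
  have a5 := A05_rpow_le hN1 hh hk hkh (x := s.re) (by linarith only [hs1]) hs2
  have a4 : ‖(WW N ε h k) ^ (-s)‖ ≤
      (N : ℝ) ^ 2 * (1:ℝ) * Real.exp ((Real.pi / 2 - ε) * s.im) := by
    rw [A05_norm_aux hr (by linarith only [hpi, hε1]) (by linarith only [hpi, hε])
      (A05_polar N ε h k) s]
    refine mul_le_mul_of_nonneg_right ?_ (Real.exp_nonneg _)
    rw [mul_one]; exact a5
  have a6 : ‖(-(WW N ε h k)) ^ (-s)‖ ≤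
      (N : ℝ) ^ 2 * (1:ℝ) * Real.exp (-(Real.pi / 2 + ε) * s.im) := by
    rw [A05_norm_aux hr (by linarith only [hpi, hε1]) (by linarith only [hpi, hε])
      (A05_polar_neg N ε h k) s]
    refine mul_le_mul_of_nonneg_right ?_ (Real.exp_nonneg _)
    rw [mul_one]; exact a5
  have hone : (1 : ℝ) ≤ (5 / 2) ^ 5 := by norm_num
  have p1 : 0 ≤ C1 * (2 * (1 + s.im)) := mul_nonneg hC1.le (mul_nonneg zero_le_two h1y)
  have p2 : 0 ≤ C2 * (1 + s.im) := mul_nonneg hC2.le h1y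
  have p3 : 0 ≤ C4 * (1 + s.im) ^ 3 * Real.exp (-(Real.pi / 2 * s.im)) :=
    mul_nonneg (mul_nonneg hC4.le (pow_nonneg h1y 3)) (Real.exp_nonneg _)
  have a123 := mul_le_mul (mul_le_mul a1 a2 (norm_nonneg _) p1) a3 (norm_nonneg _)
    (mul_nonneg p1 p2)
  have p123 := mul_nonneg (mul_nonneg p1 p2) p3
  have q1 : 0 ≤ 2 * C1 * C2 * C4 * (N : ℝ) ^ 2 * (1:ℝ) :=
    mul_nonneg hCC.le (zero_le_one)
  have q2 : 0 ≤ 2 * C1 * C2 * C4 * (N : ℝ) ^ 2 * (5 / 2) ^ 5 * (1:ℝ) :=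
    mul_nonneg (mul_nonneg hCC.le (by norm_num)) (zero_le_one)
  constructor
  · rw [norm_mul, norm_mul, norm_mul]
    calc ‖ZMod.LFunction f (s + η)‖ * ‖ZMod.LFunction g s‖ * ‖Gamma s‖ * ‖(WW N ε h k) ^ (-s)‖
        ≤ (C1 * (2 * (1 + s.im))) * (C2 * (1 + s.im)) *
          (C4 * (1 + s.im) ^ 3 * Real.exp (-(Real.pi / 2 * s.im))) *
          ((N : ℝ) ^ 2 * (1:ℝ) * Real.exp ((Real.pi / 2 - ε) * s.im)) :=
          mul_le_mul a123 a4 (norm_nonneg _) p123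
      _ = (2 * C1 * C2 * C4 * (N : ℝ) ^ 2 * (1:ℝ) * (1 + s.im) ^ 5 *
          (Real.exp (-(Real.pi / 2 * s.im)) * Real.exp ((Real.pi / 2 - ε) * s.im))) * 1 := by ring
      _ ≤ (2 * C1 * C2 * C4 * (N : ℝ) ^ 2 * (1:ℝ) * (1 + s.im) ^ 5 *
          (Real.exp (-(Real.pi / 2 * s.im)) * Real.exp ((Real.pi / 2 - ε) * s.im))) * (5 / 2) ^ 5 :=
          mul_le_mul_of_nonneg_left hone (mul_nonneg (mul_nonneg q1 (pow_nonneg h1y 5))
            (mul_nonneg (Real.exp_nonneg _) (Real.exp_nonneg _)))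
      _ = _ := by
          rw [← Real.exp_add, show -(Real.pi / 2 * s.im) + (Real.pi / 2 - ε) * s.im =
            -(ε * s.im) by ring]
          ring
  · rw [norm_mul, norm_mul, norm_mul]
    calc ‖ZMod.LFunction f (s + η)‖ * ‖ZMod.LFunction g s‖ * ‖Gamma s‖ * ‖(-(WW N ε h k)) ^ (-s)‖
        ≤ (C1 * (2 * (1 + s.im))) * (C2 * (1 + s.im)) *
          (C4 * (1 + s.im) ^ 3 * Real.exp (-(Real.pi / 2 * s.im))) *
          ((N : ℝ) ^ 2 * (1:ℝ) * Real.exp (-(Real.pi / 2 + ε) * s.im)) :=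
          mul_le_mul a123 a6 (norm_nonneg _) p123
      _ = 2 * C1 * C2 * C4 * (N : ℝ) ^ 2 * (1:ℝ) *
          (Real.exp (-(Real.pi / 2 * s.im)) * Real.exp (-(Real.pi / 2 + ε) * s.im)) *
            (1 + s.im) ^ 5 := by ring
      _ ≤ 2 * C1 * C2 * C4 * (N : ℝ) ^ 2 * (1:ℝ) *
          (Real.exp (-(Real.pi / 2 * s.im)) * Real.exp (-(Real.pi / 2 + ε) * s.im)) *
            ((5 / 2) ^ 5 * Real.exp (2 * s.im)) :=
          mul_le_mul_of_nonneg_left (A05_pow_le hy0)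
            (mul_nonneg q1 (mul_nonneg (Real.exp_nonneg _) (Real.exp_nonneg _)))
      _ = 2 * C1 * C2 * C4 * (N : ℝ) ^ 2 * (5 / 2) ^ 5 * (1:ℝ) *
          (Real.exp (-(Real.pi / 2 * s.im)) * Real.exp (-(Real.pi / 2 + ε) * s.im) *
            Real.exp (2 * s.im)) := by ring
      _ ≤ _ := by
          refine mul_le_mul_of_nonneg_left ?_ q2
          rw [← Real.exp_add, ← Real.exp_add]
          apply Real.exp_le_exp.mpr
          have h9 : 0 ≤ (Real.pi + ε - 3) * s.im :=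
            mul_nonneg (by linarith only [hpi, hε]) hy0
          linarith only [h9]

/-- contour shift. Adapt LZ.A07 (G_shift), LZ.A06 (half_shift) is reused. -/
theorem G_shift (f g : ZMod N → ℂ) (U : ℝ) (hU : 0 ≤ U) : ∃ C : ℝ, 0 < C ∧ ∀ ε : ℝ, 0 < ε → ε ≤ 1/2 → ∀ h k : ℕ,
    1 ≤ h → 1 ≤ k → k ≤ h → ∀ η : ℂ, |η.re| ≤ 1/8 → |η.im| ≤ 2 * U → ∀ σ : ℝ, 7/16 ≤ σ → σ ≤ 2 →
    ‖(∫ y in Ioi (2 * U + 2), ZMod.LFunction f (σ + y * I + η) * ZMod.LFunction g (σ + y * I) * Gamma (σ + y * I) *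
        (WW N ε h k) ^ (-(σ + y * I : ℂ))) -
      ∫ y in Ioi (2 * U + 2), ZMod.LFunction f (2 + y * I + η) * ZMod.LFunction g (2 + y * I) * Gamma (2 + y * I) *
        (WW N ε h k) ^ (-(2 + y * I : ℂ))‖ ≤ C * (1:ℝ) := by
  obtain ⟨C, hC, hG⟩ := G_bound f g U hU
  refine ⟨2 * (C * (2 * U + 3) ^ 5), by positivity, ?_⟩
  intro ε hε hε1 h k hh hk hkh η hηre hηim σ hσ1 hσ2
  have hη2 := abs_le.mp hηim
  have hW : WW N ε h k ≠ 0 := by
    have h4 : (0 : ℝ) < h := by exact_mod_cast hh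
    have h5 : (0 : ℝ) < k := by exact_mod_cast hk
    unfold WW
    have h6 : (h : ℂ) ≠ 0 := by exact_mod_cast h4.ne'
    have h7 : (k : ℂ) ≠ 0 := by exact_mod_cast h5.ne'
    have h8 : (Real.pi : ℂ) ≠ 0 := by exact_mod_cast Real.pi_ne_zero
    have h9 : (N : ℂ) ≠ 0 := Nat.cast_ne_zero.2 (NeZero.ne N)
    exact div_ne_zero (mul_ne_zero (mul_ne_zero (mul_ne_zero (mul_ne_zero two_ne_zero h8) I_ne_zero)
      (exp_ne_zero _)) h6) (mul_ne_zero h7 h9)
  have hmain := LZ.half_shift (a := σ) (b := 2) (Y := 2 * U + 2) hσ2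
    (F := fun s => ZMod.LFunction f (s + η) * ZMod.LFunction g s * Gamma s * (WW N ε h k) ^ (-s))
    (C := C * (1:ℝ)) (ε := ε) (D := C * (1:ℝ) * (2 * U + 3) ^ 5) ?_ hε ?_ ?_
  · simp only [Complex.ofReal_ofNat] at hmain
    refine hmain.trans ?_
    have h1 : 0 ≤ C * (1:ℝ) * (2 * U + 3) ^ 5 := by positivity
    calc (2 - σ) * (C * (1:ℝ) * (2 * U + 3) ^ 5)
        ≤ 2 * (C * (1:ℝ) * (2 * U + 3) ^ 5) :=
          mul_le_mul_of_nonneg_right (by linarith) h1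
      _ = _ := by ring
  · intro s hs1 hs2 hs3
    have h1 : s + η ≠ 1 := by
      intro h0
      have := congrArg Complex.im h0
      rw [add_im, one_im] at this
      linarith [hη2.1]
    have h2 : s ≠ 1 := by
      intro h0
      have := congrArg Complex.im h0
      rw [one_im] at this
      linarith
    have h3 : ∀ m : ℕ, s ≠ -m := by
      intro m h0
      have := congrArg Complex.im h0
      simp at this
      linarith
    have d1 : DifferentiableAt ℂ (fun s => ZMod.LFunction f (s + η)) s :=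
      DifferentiableAt.comp (f := fun s : ℂ => s + η) (g := ZMod.LFunction f) s
        (ZMod.differentiableAt_LFunction f _ (Or.inl h1)) (by fun_prop)
    have d4 : DifferentiableAt ℂ (fun s => (WW N ε h k) ^ (-s)) s :=
      DifferentiableAt.const_cpow (by fun_prop) (Or.inl hW)
    exact ((d1.mul (ZMod.differentiableAt_LFunction g _ (Or.inl h2))).mul (differentiableAt_Gamma s h3)).mul d4
  · intro s hs1 hs2 hs3
    have h0 : 0 ≤ s.im := by linarith
    rw [abs_of_nonneg h0]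
    exact (hG ε hε hε1 h k hh hk hkh η hηre hηim s (by linarith) hs2 hs3).1
  · intro x hx
    have hre : ((x : ℂ) + ((2 * U + 2 : ℝ) : ℂ) * I).re = x := by simp
    have him : ((x : ℂ) + ((2 * U + 2 : ℝ) : ℂ) * I).im = 2 * U + 2 := by simp
    have h1 := (hG ε hε hε1 h k hh hk hkh η hηre hηim (x + ((2 * U + 2 : ℝ) : ℂ) * I)
      (by rw [hre]; linarith [hx.1]) (by rw [hre]; exact hx.2) (by rw [him])).1
    rw [him] at h1
    refine h1.trans ?_
    have h2 : Real.exp (-(ε * (2 * U + 2))) ≤ 1 := by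
      rw [Real.exp_le_one_iff]
      have : 0 ≤ ε * (2 * U + 2) := by positivity
      linarith
    calc C * (1:ℝ) * (1 + (2 * U + 2)) ^ 5 * Real.exp (-(ε * (2 * U + 2)))
        ≤ C * (1:ℝ) * (1 + (2 * U + 2)) ^ 5 * 1 :=
          mul_le_mul_of_nonneg_left h2 (by positivity)
      _ = _ := by ring

/-- a periodic L-function is bounded for `Re s ≥ 3/2` -/
private theorem A08_bd (f : ZMod N → ℂ) :
    ∃ C : ℝ, 0 ≤ C ∧ ∀ s : ℂ, 3/2 ≤ s.re → ‖ZMod.LFunction f s‖ ≤ C := by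
  have hsum := LZX.rpow_summable (show (0:ℝ) < 1/2 by norm_num)
  set B : ℝ := ∑ x : ZMod N, ‖f x‖ with hB
  have hB0 : 0 ≤ B := Finset.sum_nonneg fun x _ => norm_nonneg _
  have hfB : ∀ x, ‖f x‖ ≤ B := fun x =>
    Finset.single_le_sum (f := fun x => ‖f x‖) (fun x _ => norm_nonneg _) (Finset.mem_univ x)
  refine ⟨∑' n : ℕ, B * ((n : ℝ) + 1) ^ (-(1/2 : ℝ) - 1), tsum_nonneg (fun n => by positivity), ?_⟩
  intro s hs
  rw [← ((per_basic (N := N)).1 f s (by linarith)).tsum_eq]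
  refine tsum_of_norm_bounded (hsum.mul_left B).hasSum ?_
  intro n
  have hc : ((n : ℂ) + 1) = (((n : ℝ) + 1 : ℝ) : ℂ) := by push_cast; ring
  rw [norm_mul, hc, Complex.norm_cpow_eq_rpow_re_of_pos (by positivity), neg_re]
  refine mul_le_mul (hfB _) ?_ (by positivity) hB0
  apply Real.rpow_le_rpow_of_exponent_le (by linarith [Nat.cast_nonneg (α := ℝ) n])
  linarith

/-- the part below height 2U+2. Adapt LZ.A08 (G_low). -/
theorem G_low (f g : ZMod N → ℂ) (U : ℝ) (hU : 0 ≤ U) : ∃ C : ℝ, 0 < C ∧ ∀ ε : ℝ, 0 < ε → ε ≤ 1/2 → ∀ h k : ℕ,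
    1 ≤ h → 1 ≤ k → k ≤ h → ∀ η : ℂ, |η.re| ≤ 1/8 →
    ‖∫ y in Iic (2 * U + 2), ZMod.LFunction f (2 + y * I + η) * ZMod.LFunction g (2 + y * I) * Gamma (2 + y * I) *
        (WW N ε h k) ^ (-(2 + y * I : ℂ))‖ ≤ C * (1:ℝ) := by
  obtain ⟨Cf, hCf, hzf⟩ := A08_bd f
  obtain ⟨Cg, hCg, hzg⟩ := A08_bd g
  obtain ⟨C4, hC4, hG⟩ := LZ.Gamma_strip
  set K : ℝ := 216 * Real.exp (1 / 2) + (3 + 2 * U) ^ 3 with hK
  have hK0 : 0 < K := by positivity
  have hN : 1 ≤ N := Nat.one_le_iff_ne_zero.2 (NeZero.ne N)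
  have hN0 : (0 : ℝ) < N := by exact_mod_cast hN
  refine ⟨(Cf * Cg + 1) * C4 * K * (N : ℝ) ^ 2 * Real.exp (2 * U + 2), by positivity, ?_⟩
  intro ε hε hε1 h k hh hk hkh η hηre
  have hη1 := abs_le.mp hηre
  have hpi := Real.pi_gt_three
  have hkN : 1 ≤ k * N := Nat.one_le_iff_ne_zero.2 (by positivity)
  have hb : ∀ y : ℝ, y ≤ 2 * U + 2 →
      ‖ZMod.LFunction f (2 + y * I + η) * ZMod.LFunction g (2 + y * I) * Gamma (2 + y * I) *
        (WW N ε h k) ^ (-(2 + y * I : ℂ))‖ ≤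
        (Cf * Cg + 1) * C4 * K * (N : ℝ) ^ 2 * (1:ℝ) * Real.exp y := by
    intro y hy
    have hre : ((2 : ℂ) + y * I).re = 2 := by simp
    have him : ((2 : ℂ) + y * I).im = y := by simp
    have a1 : ‖ZMod.LFunction f (2 + y * I + η)‖ ≤ Cf := hzf _ (by rw [add_re, hre]; linarith)
    have a2 : ‖ZMod.LFunction g (2 + y * I)‖ ≤ Cg := hzg _ (by rw [hre]; norm_num)
    have a3 : ‖Gamma (2 + y * I)‖ ≤ C4 * (1 + |y|) ^ 3 * Real.exp (-(Real.pi / 2 * |y|)) := by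
      have h1 := hG 2 y (by norm_num) (by norm_num)
      rw [Complex.ofReal_ofNat] at h1
      exact h1
    have a4 : ‖(WW N ε h k) ^ (-(2 + y * I : ℂ))‖ ≤
        (N : ℝ) ^ 2 * Real.exp ((Real.pi / 2 - ε) * y) := by
      have hr : 0 < 2 * Real.pi * ((h : ℝ) / (k * N)) :=
        mul_pos Real.two_pi_pos (div_pos (by exact_mod_cast hh) (mul_pos (by exact_mod_cast hk) hN0))
      rw [A05_norm_aux hr (by linarith only [hpi, hε1]) (by linarith only [hpi, hε])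
        (A05_polar N ε h k), hre, him]
      exact mul_le_mul_of_nonneg_right (A05_rpow_le hN hh hk hkh (by norm_num) le_rfl)
        (Real.exp_nonneg _)
    have hkey : (1 + |y|) ^ 3 * (Real.exp (-(Real.pi / 2 * |y|)) * Real.exp ((Real.pi / 2 - ε) * y)) ≤
        K * Real.exp y := by
      rw [← Real.exp_add]
      rcases le_or_gt 0 y with h0 | h0
      · rw [abs_of_nonneg h0]
        have e1 : -(Real.pi / 2 * y) + (Real.pi / 2 - ε) * y = -(ε * y) := by ring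
        rw [e1]
        have e2 : Real.exp (-(ε * y)) ≤ 1 := by
          rw [Real.exp_le_one_iff]
          have : 0 ≤ ε * y := by positivity
          linarith
        have e3 : 1 ≤ Real.exp y := Real.one_le_exp h0
        have e4 : (1 + y) ^ 3 ≤ (3 + 2 * U) ^ 3 := pow_le_pow_left₀ (by linarith) (by linarith) 3
        calc (1 + y) ^ 3 * Real.exp (-(ε * y)) ≤ (3 + 2 * U) ^ 3 * 1 := by gcongr
          _ ≤ K * Real.exp y := by
            have e5 : (3 + 2 * U) ^ 3 ≤ K := by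
              rw [hK]; linarith [Real.exp_pos (1 / 2)]
            exact mul_le_mul e5 e3 zero_le_one hK0.le
      · rw [abs_of_neg h0]
        have e1 : -(Real.pi / 2 * -y) + (Real.pi / 2 - ε) * y ≤ Real.pi / 2 * y := by
          have w1 : 0 ≤ (Real.pi / 2 - ε) * (-y) :=
            mul_nonneg (by linarith only [hpi, hε1]) (by linarith only [h0])
          linarith only [w1]
        have e2 := LZ.A08_pow (-y) (by linarith)
        calc (1 + -y) ^ 3 * Real.exp (-(Real.pi / 2 * -y) + (Real.pi / 2 - ε) * y)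
            ≤ (216 * Real.exp ((1 + -y) / 2)) * Real.exp (Real.pi / 2 * y) := by
              apply mul_le_mul e2 (Real.exp_le_exp.mpr e1) (Real.exp_nonneg _) (by positivity)
          _ = 216 * Real.exp ((1 + -y) / 2 + Real.pi / 2 * y) := by rw [mul_assoc, ← Real.exp_add]
          _ ≤ 216 * Real.exp (1 / 2 + y) := by
              apply mul_le_mul_of_nonneg_left _ (by norm_num)
              rw [Real.exp_le_exp]
              have w1 : 0 ≤ (Real.pi / 2 - 3 / 2) * (-y) :=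
                mul_nonneg (by linarith only [hpi]) (by linarith only [h0])
              linarith only [w1]
          _ = 216 * Real.exp (1 / 2) * Real.exp y := by rw [Real.exp_add, mul_assoc]
          _ ≤ K * Real.exp y := by
              apply mul_le_mul_of_nonneg_right _ (Real.exp_nonneg _)
              rw [hK]
              have : 0 ≤ (3 + 2 * U) ^ 3 := by positivity
              linarith
    rw [norm_mul, norm_mul, norm_mul]
    calc ‖ZMod.LFunction f (2 + y * I + η)‖ * ‖ZMod.LFunction g (2 + y * I)‖ *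
          ‖Gamma (2 + y * I)‖ * ‖(WW N ε h k) ^ (-(2 + y * I : ℂ))‖
        ≤ Cf * Cg * (C4 * (1 + |y|) ^ 3 * Real.exp (-(Real.pi / 2 * |y|))) *
          ((N : ℝ) ^ 2 * Real.exp ((Real.pi / 2 - ε) * y)) := by
          gcongr
      _ = Cf * Cg * C4 * (N : ℝ) ^ 2 * (1:ℝ) * ((1 + |y|) ^ 3 *
          (Real.exp (-(Real.pi / 2 * |y|)) * Real.exp ((Real.pi / 2 - ε) * y))) := by ring
      _ ≤ Cf * Cg * C4 * (N : ℝ) ^ 2 * (1:ℝ) * (K * Real.exp y) :=
          mul_le_mul_of_nonneg_left hkey (by positivity)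
      _ ≤ (Cf * Cg + 1) * C4 * (N : ℝ) ^ 2 * (1:ℝ) * (K * Real.exp y) := by
          gcongr
          linarith
      _ = _ := by ring
  have hexp : IntegrableOn (fun y : ℝ => (Cf * Cg + 1) * C4 * K * (N : ℝ) ^ 2 * (1:ℝ) *
      Real.exp y) (Iic (2 * U + 2)) := (integrableOn_exp_Iic (2 * U + 2)).const_mul _
  refine (norm_integral_le_of_norm_le hexp ?_).trans ?_
  · rw [ae_restrict_iff' measurableSet_Iic]
    exact Filter.Eventually.of_forall (fun y hy => hb y hy)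
  · rw [integral_const_mul, integral_exp_Iic]
    exact le_of_eq (by ring)


end LT2

end F_S_T01
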